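import Mathlib

/-!
# A flow on the Hasse diagram of `L(k,k)`

Elements of `L(k,k)` are represented by the `k`-subsets of `{0,…,2k-1}`; a covering step moves
an element `j` to `j+1`, and gets the weight `(j+1)(2k-j-1)`.
-/

namespace Pool.Agent.V11182.LFlow

open Finset

/-- `k`-subsets of `{0,…,2k-1}` -/
def Om (k : ℕ) : Finset (Finset ℕ) := (range (2 * k)).powersetCard k

/-- weight of the covering step `j ↦ j+1` -/
noncomputable def b (k j : ℕ) : ℝ := ((j : ℝ) + 1) * (2 * k - (j + 1))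

/-- move the element `j` to `j+1` -/
def sw (j : ℕ) (A : Finset ℕ) : Finset ℕ := insert (j + 1) (A.erase j)

/-- move the element `j+1` to `j` -/
def dn (j : ℕ) (A : Finset ℕ) : Finset ℕ := insert j (A.erase (j + 1))

lemma mem_Om {k : ℕ} {A : Finset ℕ} : A ∈ Om k ↔ A ⊆ range (2 * k) ∧ A.card = k := by
  simp [Om, mem_powersetCard]

lemma mem_sw {j : ℕ} {A : Finset ℕ} {i : ℕ} : i ∈ sw j A ↔ i = j + 1 ∨ (i ≠ j ∧ i ∈ A) := by
  simp [sw]

lemma mem_dn {j : ℕ} {A : Finset ℕ} {i : ℕ} : i ∈ dn j A ↔ i = j ∨ (i ≠ j + 1 ∧ i ∈ A) := by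
  simp [dn]

lemma sw_mem {k j : ℕ} {A : Finset ℕ} (hA : A ∈ Om k) (hj : j ∈ range (2 * k - 1))
    (h1 : j ∈ A) (h2 : j + 1 ∉ A) : sw j A ∈ Om k := by
  rw [mem_Om] at hA ⊢
  rw [mem_range] at hj
  constructor
  · intro i hi
    rw [mem_sw] at hi
    rcases hi with h | ⟨_, h⟩
    · rw [mem_range]; omega
    · exact hA.1 h
  · rw [sw, card_insert_of_notMem (by simp [h2]), card_erase_of_mem h1]
    have := card_pos.mpr ⟨j, h1⟩
    omega

lemma dn_mem {k j : ℕ} {A : Finset ℕ} (hA : A ∈ Om k) (hj : j ∈ range (2 * k - 1))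
    (h1 : j ∉ A) (h2 : j + 1 ∈ A) : dn j A ∈ Om k := by
  rw [mem_Om] at hA ⊢
  rw [mem_range] at hj
  constructor
  · intro i hi
    rw [mem_dn] at hi
    rcases hi with h | ⟨_, h⟩
    · rw [mem_range]; omega
    · exact hA.1 h
  · rw [dn, card_insert_of_notMem (by simp [h1]), card_erase_of_mem h2]
    have := card_pos.mpr ⟨j + 1, h2⟩
    omega

lemma dn_sw {j : ℕ} {A : Finset ℕ} (h1 : j ∈ A) (h2 : j + 1 ∉ A) : dn j (sw j A) = A := by
  ext i
  rw [mem_dn, mem_sw]
  constructor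
  · rintro (rfl | ⟨h, h' | h'⟩)
    · exact h1
    · exact absurd h' h
    · exact h'.2
  · intro hi
    by_cases h : i = j
    · exact Or.inl h
    · refine Or.inr ⟨?_, Or.inr ⟨h, hi⟩⟩
      rintro rfl
      exact h2 hi

lemma sw_dn {j : ℕ} {A : Finset ℕ} (h1 : j ∉ A) (h2 : j + 1 ∈ A) : sw j (dn j A) = A := by
  ext i
  rw [mem_sw, mem_dn]
  constructor
  · rintro (rfl | ⟨h, h' | h'⟩)
    · exact h2
    · exact absurd h' h
    · exact h'.2
  · intro hi
    by_cases h : i = j + 1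
    · exact Or.inl h
    · refine Or.inr ⟨?_, Or.inr ⟨h, hi⟩⟩
      rintro rfl
      exact h1 hi

lemma sum_swap (k j : ℕ) (hj : j ∈ range (2 * k - 1)) (f : Finset ℕ → ℝ) :
    ∑ A ∈ Om k, (if j ∈ A ∧ j + 1 ∉ A then b k j * f (sw j A) else 0) =
    ∑ B ∈ Om k, (if j ∉ B ∧ j + 1 ∈ B then b k j * f B else 0) := by
  rw [← sum_filter, ← sum_filter]
  refine sum_nbij' (sw j) (dn j) ?_ ?_ ?_ ?_ ?_
  · intro A hA
    rw [mem_filter] at hA ⊢
    refine ⟨sw_mem hA.1 hj hA.2.1 hA.2.2, ?_, ?_⟩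
    · rw [mem_sw]; rintro (h | ⟨h, _⟩)
      · omega
      · exact h rfl
    · rw [mem_sw]; exact Or.inl rfl
  · intro A hA
    rw [mem_filter] at hA ⊢
    refine ⟨dn_mem hA.1 hj hA.2.1 hA.2.2, ?_, ?_⟩
    · rw [mem_dn]; exact Or.inl rfl
    · rw [mem_dn]; rintro (h | ⟨h, _⟩)
      · omega
      · exact h rfl
  · intro A hA
    rw [mem_filter] at hA
    exact dn_sw hA.2.1 hA.2.2
  · intro A hA
    rw [mem_filter] at hA
    exact sw_dn hA.2.1 hA.2.2
  · intro A hA
    rfl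

/-- out-flow -/
noncomputable def outf (k : ℕ) (A : Finset ℕ) : ℝ :=
  ∑ j ∈ range (2 * k - 1), if j ∈ A ∧ j + 1 ∉ A then b k j else 0

/-- in-flow -/
noncomputable def inf (k : ℕ) (A : Finset ℕ) : ℝ :=
  ∑ j ∈ range (2 * k - 1), if j ∉ A ∧ j + 1 ∈ A then b k j else 0

/-- through-flow -/
noncomputable def T (k : ℕ) (A : Finset ℕ) : ℝ := max (inf k A) (outf k A)

/-- transition operator -/
noncomputable def P (k : ℕ) (f : Finset ℕ → ℝ) (A : Finset ℕ) : ℝ :=
  ∑ j ∈ range (2 * k - 1), if j ∈ A ∧ j + 1 ∉ A then b k j / T k A * f (sw j A) else 0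

lemma b_nonneg {k j : ℕ} (hj : j ∈ range (2 * k - 1)) : 0 ≤ b k j := by
  rw [mem_range] at hj
  have h : (j : ℝ) + 1 ≤ 2 * k := by
    have : j + 1 ≤ 2 * k := by omega
    exact_mod_cast this
  unfold b
  apply mul_nonneg <;> [positivity; linarith]

lemma b_pos {k j : ℕ} (hj : j ∈ range (2 * k - 1)) : 0 < b k j := by
  rw [mem_range] at hj
  have h : (j : ℝ) + 1 < 2 * k := by
    have : j + 1 < 2 * k := by omega
    exact_mod_cast this
  unfold b
  apply mul_pos <;> [positivity; linarith]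

lemma b_le (k j : ℕ) : b k j ≤ (k : ℝ) ^ 2 := by
  unfold b
  nlinarith [sq_nonneg ((j : ℝ) + 1 - k)]

lemma outf_nonneg (k : ℕ) (A : Finset ℕ) : 0 ≤ outf k A := by
  apply sum_nonneg
  intro j hj
  split_ifs
  · exact b_nonneg hj
  · exact le_rfl

lemma inf_nonneg (k : ℕ) (A : Finset ℕ) : 0 ≤ inf k A := by
  apply sum_nonneg
  intro j hj
  split_ifs
  · exact b_nonneg hj
  · exact le_rfl

lemma T_nonneg (k : ℕ) (A : Finset ℕ) : 0 ≤ T k A := le_max_of_le_left (inf_nonneg k A)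

lemma outf_le (k : ℕ) (A : Finset ℕ) : outf k A ≤ 2 * (k : ℝ) ^ 3 := by
  have h : outf k A ≤ ∑ j ∈ range (2 * k - 1), (k : ℝ) ^ 2 := by
    apply sum_le_sum
    intro j hj
    split_ifs
    · exact b_le k j
    · positivity
  rw [sum_const, card_range, nsmul_eq_mul] at h
  have h2 : ((2 * k - 1 : ℕ) : ℝ) ≤ 2 * k := by
    have : 2 * k - 1 ≤ 2 * k := by omega
    exact_mod_cast this
  calc outf k A ≤ ((2 * k - 1 : ℕ) : ℝ) * (k : ℝ) ^ 2 := h
    _ ≤ 2 * k * (k : ℝ) ^ 2 := by gcongr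
    _ = 2 * (k : ℝ) ^ 3 := by ring

lemma inf_le (k : ℕ) (A : Finset ℕ) : inf k A ≤ 2 * (k : ℝ) ^ 3 := by
  have h : inf k A ≤ ∑ j ∈ range (2 * k - 1), (k : ℝ) ^ 2 := by
    apply sum_le_sum
    intro j hj
    split_ifs
    · exact b_le k j
    · positivity
  rw [sum_const, card_range, nsmul_eq_mul] at h
  have h2 : ((2 * k - 1 : ℕ) : ℝ) ≤ 2 * k := by
    have : 2 * k - 1 ≤ 2 * k := by omega
    exact_mod_cast this
  calc inf k A ≤ ((2 * k - 1 : ℕ) : ℝ) * (k : ℝ) ^ 2 := h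
    _ ≤ 2 * k * (k : ℝ) ^ 2 := by gcongr
    _ = 2 * (k : ℝ) ^ 3 := by ring

lemma T_le (k : ℕ) (A : Finset ℕ) : T k A ≤ 2 * (k : ℝ) ^ 3 :=
  max_le (inf_le k A) (outf_le k A)

lemma T_pos_of_up {k j : ℕ} {A : Finset ℕ} (hj : j ∈ range (2 * k - 1)) (h : j ∈ A ∧ j + 1 ∉ A) :
    0 < T k A := by
  have h1 : b k j ≤ outf k A := by
    unfold outf
    have := single_le_sum (f := fun j => if j ∈ A ∧ j + 1 ∉ A then b k j else 0)
      (s := range (2 * k - 1)) (fun i hi => by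
        split_ifs
        · exact b_nonneg hi
        · exact le_rfl) hj
    simpa [h] using this
  exact lt_of_lt_of_le (b_pos hj) (h1.trans (le_max_right _ _))

/-- the flow identity for an arbitrary test function -/
lemma edge_sum (k : ℕ) (f : Finset ℕ → ℝ) :
    ∑ A ∈ Om k, ∑ j ∈ range (2 * k - 1), (if j ∈ A ∧ j + 1 ∉ A then b k j * f (sw j A) else 0) =
    ∑ B ∈ Om k, inf k B * f B := by
  rw [sum_comm]
  rw [sum_congr rfl (fun j hj => sum_swap k j hj f)]
  rw [sum_comm]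
  apply sum_congr rfl
  intro B _
  rw [inf, sum_mul]
  apply sum_congr rfl
  intro j _
  split_ifs <;> simp

lemma T_mul_P (k : ℕ) (f : Finset ℕ → ℝ) (A : Finset ℕ) :
    T k A * P k f A =
      ∑ j ∈ range (2 * k - 1), (if j ∈ A ∧ j + 1 ∉ A then b k j * f (sw j A) else 0) := by
  rw [P, mul_sum]
  apply sum_congr rfl
  intro j hj
  split_ifs with h
  · have := (T_pos_of_up hj h).ne'
    field_simp
  · simp

lemma sum_T_P (k : ℕ) (f : Finset ℕ → ℝ) :
    ∑ A ∈ Om k, T k A * P k f A = ∑ B ∈ Om k, inf k B * f B := by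
  rw [← edge_sum]
  exact sum_congr rfl (fun A _ => T_mul_P k f A)

/-! ### properties of `P` -/

lemma P_mono {k : ℕ} {f g : Finset ℕ → ℝ} {A : Finset ℕ}
    (h : ∀ j ∈ range (2 * k - 1), j ∈ A → j + 1 ∉ A → f (sw j A) ≤ g (sw j A)) :
    P k f A ≤ P k g A := by
  apply sum_le_sum
  intro j hj
  split_ifs with h1
  · exact mul_le_mul_of_nonneg_left (h j hj h1.1 h1.2) (div_nonneg (b_nonneg hj) (T_nonneg k A))
  · exact le_rfl

lemma P_add (k : ℕ) (f g : Finset ℕ → ℝ) (A : Finset ℕ) :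
    P k (fun B => f B + g B) A = P k f A + P k g A := by
  unfold P
  rw [← sum_add_distrib]
  apply sum_congr rfl
  intro j _
  split_ifs
  · ring
  · simp

lemma P_const_le (k : ℕ) (c : ℝ) (hc : 0 ≤ c) (A : Finset ℕ) :
    P k (fun _ => c) A ≤ c := by
  have h1 : P k (fun _ => c) A = outf k A / T k A * c := by
    unfold P outf
    rw [sum_div, sum_mul]
    apply sum_congr rfl
    intro j _
    split_ifs <;> simp
  rw [h1]
  have h2 : outf k A / T k A ≤ 1 := div_le_one_of_le₀ (le_max_right _ _) (T_nonneg k A)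
  nlinarith

lemma P_nonneg {k : ℕ} {f : Finset ℕ → ℝ} {A : Finset ℕ}
    (h : ∀ j ∈ range (2 * k - 1), j ∈ A → j + 1 ∉ A → 0 ≤ f (sw j A)) : 0 ≤ P k f A := by
  apply sum_nonneg
  intro j hj
  split_ifs with h1
  · exact mul_nonneg (div_nonneg (b_nonneg hj) (T_nonneg k A)) (h j hj h1.1 h1.2)
  · exact le_rfl

lemma P_congr {k : ℕ} {f g : Finset ℕ → ℝ} {A : Finset ℕ}
    (h : ∀ j ∈ range (2 * k - 1), j ∈ A → j + 1 ∉ A → f (sw j A) = g (sw j A)) :
    P k f A = P k g A := by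
  apply sum_congr rfl
  intro j hj
  split_ifs with h1
  · rw [h j hj h1.1 h1.2]
  · rfl

lemma P_zero (k : ℕ) (A : Finset ℕ) : P k (fun _ => 0) A = 0 := by
  simp [P]

lemma P_sum {ι : Type*} (k : ℕ) (s : Finset ι) (f : ι → Finset ℕ → ℝ) (A : Finset ℕ) :
    P k (fun B => ∑ i ∈ s, f i B) A = ∑ i ∈ s, P k (f i) A := by
  classical
  induction s using Finset.induction_on with
  | empty => simp [P_zero]
  | insert a s ha ih =>
    rw [sum_insert ha, ← ih, ← P_add]
    apply P_congr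
    intro j _ _ _
    rw [sum_insert ha]

/-! ### iterates, rank, Green operator -/

/-- rank, up to a constant -/
def rk (A : Finset ℕ) : ℕ := ∑ i ∈ A, i

lemma rk_sw {j : ℕ} {A : Finset ℕ} (h1 : j ∈ A) (h2 : j + 1 ∉ A) :
    rk (sw j A) = rk A + 1 := by
  unfold rk sw
  rw [sum_insert (by simp [h2])]
  have := add_sum_erase A (fun i => i) h1
  omega

lemma rk_le {k : ℕ} {A : Finset ℕ} (hA : A ∈ Om k) : rk A ≤ 2 * k * k := by
  rw [mem_Om] at hA
  have : rk A ≤ ∑ i ∈ A, 2 * k := by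
    apply sum_le_sum
    intro i hi
    have := mem_range.mp (hA.1 hi)
    omega
  rw [sum_const, hA.2, smul_eq_mul] at this
  nlinarith

/-- length of the longest possible path, plus one -/
def K (k : ℕ) : ℕ := 2 * k * k + 1

lemma iter_nil {k : ℕ} (f : Finset ℕ → ℝ) (n : ℕ) : ∀ A ∈ Om k, 2 * k * k < rk A + n →
    (P k)^[n] f A = 0 := by
  induction n with
  | zero =>
    intro A hA h
    have := rk_le hA
    omega
  | succ n ih =>
    intro A hA h
    rw [Function.iterate_succ_apply']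
    have : P k ((P k)^[n] f) A = P k (fun _ => 0) A := by
      apply P_congr
      intro j hj h1 h2
      apply ih _ (sw_mem hA hj h1 h2)
      rw [rk_sw h1 h2]
      omega
    rw [this, P_zero]

/-- Green operator -/
noncomputable def Gr (k : ℕ) (f : Finset ℕ → ℝ) (A : Finset ℕ) : ℝ :=
  ∑ n ∈ range (K k), (P k)^[n] f A

lemma Gr_eq {k : ℕ} (f : Finset ℕ → ℝ) {A : Finset ℕ} (hA : A ∈ Om k) :
    Gr k f A = f A + P k (Gr k f) A := by
  have h1 : P k (Gr k f) A = ∑ n ∈ range (K k), (P k)^[n + 1] f A := by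
    have : Gr k f = fun B => ∑ n ∈ range (K k), (P k)^[n] f B := rfl
    rw [this, P_sum]
    apply sum_congr rfl
    intro n _
    rw [Function.iterate_succ_apply']
  have h2 : (P k)^[K k] f A = 0 := by
    apply iter_nil f _ A hA
    unfold K
    omega
  have h3 := sum_range_succ (fun n => (P k)^[n] f A) (K k)
  have h4 := sum_range_succ' (fun n => (P k)^[n] f A) (K k)
  rw [h1, Gr]
  have h5 : (P k)^[0] f A = f A := rfl
  rw [h5] at h4
  rw [h2] at h3
  linarith

/-- source term -/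
noncomputable def src (k : ℕ) (A : Finset ℕ) : ℝ := T k A - inf k A

lemma src_nonneg (k : ℕ) (A : Finset ℕ) : 0 ≤ src k A := by
  unfold src T
  linarith [le_max_left (inf k A) (outf k A)]

lemma sum_src_Gr (k : ℕ) (f : Finset ℕ → ℝ) :
    ∑ A ∈ Om k, src k A * Gr k f A = ∑ A ∈ Om k, T k A * f A := by
  have h1 : ∀ A ∈ Om k, src k A * Gr k f A =
      T k A * f A + T k A * P k (Gr k f) A - inf k A * Gr k f A := by
    intro A hA
    have := Gr_eq f hA
    unfold src
    rw [sub_mul]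
    congr 1
    rw [this]
    ring
  rw [sum_congr rfl h1, sum_sub_distrib, sum_add_distrib, sum_T_P]
  ring

/-! ### total source -/

/-- `inf - outf` -/
noncomputable def h (k : ℕ) (A : Finset ℕ) : ℝ := inf k A - outf k A

lemma tele (k : ℕ) (A : Finset ℕ) (n : ℕ) :
    ∑ j ∈ range n, ((if j ∉ A ∧ j + 1 ∈ A then b k j else 0) -
      (if j ∈ A ∧ j + 1 ∉ A then b k j else 0)) =
    (∑ i ∈ range n, if i ∈ A then (2 * (i : ℝ) + 1 - 2 * k) else 0) +
      (if n ∈ A then (n : ℝ) * (2 * k - n) else 0) := by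
  induction n with
  | zero => simp
  | succ n ih =>
    rw [sum_range_succ, ih, sum_range_succ]
    by_cases h1 : n ∈ A <;> by_cases h2 : n + 1 ∈ A <;> simp [h1, h2, b] <;> ring

lemma h_eq {k : ℕ} {A : Finset ℕ} (hA : A ∈ Om k) :
    h k A = ∑ i ∈ A, (2 * (i : ℝ) + 1 - 2 * k) := by
  rcases Nat.eq_zero_or_pos k with rfl | hk
  · rw [mem_Om] at hA
    have : A = ∅ := card_eq_zero.mp hA.2
    subst this
    simp [h, inf, outf]
  unfold h inf outf
  rw [← sum_sub_distrib, tele]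
  have hA' := (mem_Om.mp hA).1
  obtain ⟨m, hm⟩ : ∃ m, 2 * k = m + 1 := ⟨2 * k - 1, by omega⟩
  have h1 : ∑ i ∈ A, (2 * (i : ℝ) + 1 - 2 * k) =
      ∑ i ∈ range (2 * k), if i ∈ A then (2 * (i : ℝ) + 1 - 2 * k) else 0 := by
    rw [← sum_filter]
    apply sum_congr _ (fun _ _ => rfl)
    ext i
    rw [mem_filter]
    exact ⟨fun hi => ⟨hA' hi, hi⟩, fun hi => hi.2⟩
  rw [h1]
  have h2 : 2 * k - 1 = m := by omega
  have h3 : (2 * (k : ℝ)) = m + 1 := by exact_mod_cast hm
  rw [h2, hm, sum_range_succ]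
  congr 1
  split_ifs
  · rw [h3]; ring
  · rfl

lemma h_sw {k j : ℕ} {A : Finset ℕ} (hA : A ∈ Om k) (hj : j ∈ range (2 * k - 1))
    (h1 : j ∈ A) (h2 : j + 1 ∉ A) : h k (sw j A) = h k A + 2 := by
  rw [h_eq hA, h_eq (sw_mem hA hj h1 h2)]
  unfold sw
  rw [sum_insert (by simp [h2])]
  have := add_sum_erase A (fun i => (2 * (i : ℝ) + 1 - 2 * k)) h1
  push_cast
  linarith

lemma sum_h_sq (k : ℕ) : ∑ A ∈ Om k, h k A ^ 2 ≤ 4 * (k : ℝ) ^ 3 * (Om k).card := by
  have h1 : ∑ B ∈ Om k, inf k B * h k B = ∑ A ∈ Om k, (outf k A * h k A + 2 * outf k A) := by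
    rw [← edge_sum]
    apply sum_congr rfl
    intro A hA
    rw [outf, sum_mul, mul_sum, ← sum_add_distrib]
    apply sum_congr rfl
    intro j hj
    split_ifs with h'
    · rw [h_sw hA hj h'.1 h'.2]; ring
    · simp
  have h2 : ∑ A ∈ Om k, h k A ^ 2 = ∑ A ∈ Om k, 2 * outf k A := by
    have : ∀ A ∈ Om k, h k A ^ 2 = inf k A * h k A - outf k A * h k A := by
      intro A _
      have : h k A = inf k A - outf k A := rfl
      rw [← sub_mul, ← this]; ring
    rw [sum_congr rfl this, sum_sub_distrib, h1, sum_add_distrib]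
    ring
  rw [h2]
  calc ∑ A ∈ Om k, 2 * outf k A ≤ ∑ A ∈ Om k, 4 * (k : ℝ) ^ 3 := by
        apply sum_le_sum
        intro A _
        linarith [outf_le k A]
    _ = 4 * (k : ℝ) ^ 3 * (Om k).card := by
        rw [sum_const, nsmul_eq_mul]; ring

lemma sum_abs_h (k : ℕ) : ∑ A ∈ Om k, |h k A| ≤ 2 * Real.sqrt ((k : ℝ) ^ 3) * (Om k).card := by
  have h1 : (∑ A ∈ Om k, |h k A|) ^ 2 ≤ (Om k).card * ∑ A ∈ Om k, |h k A| ^ 2 :=
    sq_sum_le_card_mul_sum_sq
  have h2 : ∑ A ∈ Om k, |h k A| ^ 2 ≤ 4 * (k : ℝ) ^ 3 * (Om k).card := by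
    simp only [sq_abs]
    exact sum_h_sq k
  have hk : (0 : ℝ) ≤ (k : ℝ) ^ 3 := by positivity
  have h3 : (∑ A ∈ Om k, |h k A|) ^ 2 ≤ (2 * Real.sqrt ((k : ℝ) ^ 3) * (Om k).card) ^ 2 := by
    calc (∑ A ∈ Om k, |h k A|) ^ 2 ≤ (Om k).card * (4 * (k : ℝ) ^ 3 * (Om k).card) :=
          h1.trans (by gcongr)
      _ = (2 * Real.sqrt ((k : ℝ) ^ 3) * (Om k).card) ^ 2 := by
          rw [mul_pow, mul_pow, Real.sq_sqrt hk]; ring
  exact le_of_sq_le_sq h3 (by positivity)

lemma src_le (k : ℕ) (A : Finset ℕ) : src k A ≤ |h k A| := by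
  unfold src T h
  rcases le_total (inf k A) (outf k A) with h' | h'
  · rw [max_eq_right h', abs_sub_comm]
    exact le_abs_self _
  · rw [max_eq_left h', sub_self]
    exact abs_nonneg _

lemma sum_src (k : ℕ) : ∑ A ∈ Om k, src k A ≤ 2 * Real.sqrt ((k : ℝ) ^ 3) * (Om k).card :=
  (sum_le_sum (fun A _ => src_le k A)).trans (sum_abs_h k)

/-! ### pairs -/

/-- indicator function -/
noncomputable def ind (U : Finset (Finset ℕ)) (A : Finset ℕ) : ℝ := by
  classical exact if A ∈ U then 1 else 0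

lemma ind_of_mem {U : Finset (Finset ℕ)} {A : Finset ℕ} (h : A ∈ U) : ind U A = 1 := by
  simp [ind, h]

lemma ind_of_notMem {U : Finset (Finset ℕ)} {A : Finset ℕ} (h : A ∉ U) : ind U A = 0 := by
  simp [ind, h]

lemma ind_nonneg (U : Finset (Finset ℕ)) (A : Finset ℕ) : 0 ≤ ind U A := by
  by_cases h : A ∈ U
  · rw [ind_of_mem h]; norm_num
  · rw [ind_of_notMem h]

lemma ind_le (U : Finset (Finset ℕ)) (A : Finset ℕ) : ind U A ≤ 1 := by
  by_cases h : A ∈ U
  · rw [ind_of_mem h]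
  · rw [ind_of_notMem h]; norm_num

lemma iter_nonneg {k : ℕ} {f : Finset ℕ → ℝ} (hf : ∀ A ∈ Om k, 0 ≤ f A) (n : ℕ) :
    ∀ A ∈ Om k, 0 ≤ (P k)^[n] f A := by
  induction n with
  | zero => exact hf
  | succ n ih =>
    intro A hA
    rw [Function.iterate_succ_apply']
    apply P_nonneg
    intro j hj h1 h2
    exact ih _ (sw_mem hA hj h1 h2)

lemma Gr_nonneg {k : ℕ} {f : Finset ℕ → ℝ} (hf : ∀ A ∈ Om k, 0 ≤ f A) {A : Finset ℕ}
    (hA : A ∈ Om k) : 0 ≤ Gr k f A :=
  sum_nonneg (fun n _ => iter_nonneg hf n A hA)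

/-- expected number of pairs of visits at distance at least two, versus number of visits -/
lemma pairs_ge {k : ℕ} (U : Finset (Finset ℕ)) :
    ∀ n : ℕ, ∀ A ∈ Om k, 2 * k * k - rk A = n →
      Gr k (ind U) A - 2 ≤
        Gr k (fun B => ind U B * P k (P k (Gr k (ind U))) B) A := by
  intro n
  induction n using Nat.strong_induction_on with
  | _ n ih =>
    intro A hA hn
    set V := Gr k (ind U) with hV
    set W := Gr k (fun B => ind U B * P k (P k V) B) with hW
    have hVn : ∀ B ∈ Om k, 0 ≤ V B := fun B hB => Gr_nonneg (fun C _ => ind_nonneg U C) hB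
    have hPV : ∀ B ∈ Om k, 0 ≤ P k V B := fun B hB =>
      P_nonneg (fun j hj h1 h2 => hVn _ (sw_mem hB hj h1 h2))
    have hPPV : ∀ B ∈ Om k, 0 ≤ P k (P k V) B := fun B hB =>
      P_nonneg (fun j hj h1 h2 => hPV _ (sw_mem hB hj h1 h2))
    have hWn : ∀ B ∈ Om k, 0 ≤ W B := fun B hB =>
      Gr_nonneg (fun C hC => mul_nonneg (ind_nonneg U C) (hPPV C hC)) hB
    have eW : W A = ind U A * P k (P k V) A + P k W A := Gr_eq _ hA
    have eV : V A = ind U A + P k V A := Gr_eq _ hA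
    by_cases hU : A ∈ U
    · rw [ind_of_mem hU] at eW eV
      have h1 : P k V A ≤ 1 + P k (P k V) A := by
        calc P k V A ≤ P k (fun B => 1 + P k V B) A := by
              apply P_mono
              intro j hj h1 h2
              have := Gr_eq (ind U) (sw_mem hA hj h1 h2)
              rw [← hV] at this
              rw [this]
              linarith [ind_le U (sw j A)]
          _ = P k (fun _ => 1) A + P k (P k V) A := P_add k _ _ A
          _ ≤ 1 + P k (P k V) A := by linarith [P_const_le k 1 zero_le_one A]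
      have h2 : 0 ≤ P k W A := P_nonneg (fun j hj h1 h2 => hWn _ (sw_mem hA hj h1 h2))
      linarith
    · rw [ind_of_notMem hU] at eW eV
      have h1 : P k V A ≤ P k (fun B => W B + 2) A := by
        apply P_mono
        intro j hj h1 h2
        have hm := sw_mem hA hj h1 h2
        have hr := rk_le hm
        rw [rk_sw h1 h2] at hr
        have := ih (2 * k * k - rk (sw j A)) (by rw [rk_sw h1 h2]; omega) _ hm rfl
        linarith
      have h2 : P k (fun B => W B + 2) A ≤ P k W A + 2 := by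
        have := P_add k W (fun _ => (2 : ℝ)) A
        rw [this]
        linarith [P_const_le k 2 zero_le_two A]
      linarith

lemma sum_ind {k : ℕ} {U : Finset (Finset ℕ)} (hU : U ⊆ Om k) (f : Finset ℕ → ℝ) :
    ∑ A ∈ Om k, f A * ind U A = ∑ A ∈ U, f A := by
  classical
  have : ∀ A ∈ Om k, f A * ind U A = if A ∈ U then f A else 0 := by
    intro A _
    by_cases h : A ∈ U
    · simp [h, ind_of_mem h]
    · simp [h, ind_of_notMem h]
  rw [sum_congr rfl this, ← sum_filter]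
  apply sum_congr _ (fun _ _ => rfl)
  ext A
  rw [mem_filter]
  exact ⟨fun h => h.2, fun h => ⟨hU h, h⟩⟩

lemma sum_pairs_ge {k : ℕ} {U : Finset (Finset ℕ)} (hU : U ⊆ Om k) :
    ∑ A ∈ U, T k A - 2 * ∑ A ∈ Om k, src k A ≤
      ∑ A ∈ U, T k A * P k (P k (Gr k (ind U))) A := by
  have h1 : ∑ A ∈ Om k, src k A * Gr k (ind U) A = ∑ A ∈ U, T k A := by
    rw [sum_src_Gr, sum_ind hU]
  have h2 : ∑ A ∈ Om k, src k A * Gr k (fun B => ind U B * P k (P k (Gr k (ind U))) B) A =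
      ∑ A ∈ U, T k A * P k (P k (Gr k (ind U))) A := by
    rw [sum_src_Gr, ← sum_ind hU]
    apply sum_congr rfl
    intro A _
    ring
  rw [← h1, ← h2, mul_sum, ← sum_sub_distrib]
  apply sum_le_sum
  intro A hA
  have := pairs_ge U (2 * k * k - rk A) A hA rfl
  have h3 := src_nonneg k A
  nlinarith

/-! ### hitting probabilities -/

/-- counting function -/
def N (A : Finset ℕ) (t : ℕ) : ℕ := (A.filter (· < t)).card

/-- the order of `L(k,k)` in terms of `k`-subsets -/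
def le (A B : Finset ℕ) : Prop := ∀ t, N B t ≤ N A t

lemma N_sw {j : ℕ} {A : Finset ℕ} (h1 : j ∈ A) (h2 : j + 1 ∉ A) (t : ℕ) :
    N (sw j A) t + (if t = j + 1 then 1 else 0) = N A t := by
  have e1 : N (sw j A) t = (if j + 1 < t then 1 else 0) + N (A.erase j) t := by
    unfold N sw
    rw [filter_insert]
    split_ifs
    · rw [card_insert_of_notMem (by simp [h2])]; omega
    · omega
  have e2 : N A t = (if j < t then 1 else 0) + N (A.erase j) t := by
    have : A = insert j (A.erase j) := (insert_erase h1).symm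
    conv_lhs => rw [this]
    unfold N
    rw [filter_insert]
    split_ifs
    · rw [card_insert_of_notMem (by simp)]; omega
    · omega
  rw [e1, e2]
  split_ifs <;> omega

lemma le_refl' (A : Finset ℕ) : le A A := fun _ => Nat.le_refl _

lemma le_sw {j : ℕ} {A B : Finset ℕ} (h1 : j ∈ A) (h2 : j + 1 ∉ A) (h : le (sw j A) B) :
    le A B := by
  intro t
  have := N_sw h1 h2 t
  have := h t
  omega

lemma iter_supp {k : ℕ} {z : Finset ℕ} (n : ℕ) : ∀ A ∈ Om k, (P k)^[n] (ind {z}) A ≠ 0 →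
    le A z ∧ rk z = rk A + n := by
  induction n with
  | zero =>
    intro A _ h
    have : A = z := by
      by_contra hne
      apply h
      change ind {z} A = 0
      exact ind_of_notMem (by simpa using hne)
    subst this
    exact ⟨le_refl' A, rfl⟩
  | succ n ih =>
    intro A hA h
    rw [Function.iterate_succ_apply'] at h
    by_contra hcon
    apply h
    have : P k ((P k)^[n] (ind {z})) A = P k (fun _ => 0) A := by
      apply P_congr
      intro j hj h1 h2
      by_contra h3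
      have := ih _ (sw_mem hA hj h1 h2) h3
      apply hcon
      refine ⟨le_sw h1 h2 this.1, ?_⟩
      rw [this.2, rk_sw h1 h2]
      omega
    rw [this, P_zero]

lemma iter_le {k : ℕ} {f : Finset ℕ → ℝ} {c : ℝ} (hc : 0 ≤ c) (hf : ∀ A ∈ Om k, f A ≤ c)
    (n : ℕ) : ∀ A ∈ Om k, (P k)^[n] f A ≤ c := by
  induction n with
  | zero => exact hf
  | succ n ih =>
    intro A hA
    rw [Function.iterate_succ_apply']
    refine le_trans (P_mono (g := fun _ => c) ?_) (P_const_le k c hc A)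
    intro j hj h1 h2
    exact ih _ (sw_mem hA hj h1 h2)

lemma sw_inj {i j : ℕ} {A : Finset ℕ} (h1 : i ∈ A) (h2 : i + 1 ∉ A) (h3 : j ∈ A)
    (h4 : j + 1 ∉ A) (h : sw i A = sw j A) : i = j := by
  have e1 := N_sw h1 h2 (i + 1)
  have e2 := N_sw h3 h4 (i + 1)
  rw [h] at e1
  simp only [if_true] at e1
  by_contra hne
  rw [if_neg (by omega)] at e2
  omega

/-- one-step bound -/
lemma P_ind_le {k : ℕ} {z : Finset ℕ} {ρ : ℝ} (hρ : 0 ≤ ρ) {A : Finset ℕ}
    (hT : ∀ j ∈ range (2 * k - 1), j ∈ A → j + 1 ∉ A → sw j A = z → b k j / T k A ≤ ρ) :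
    P k (ind {z}) A ≤ ρ := by
  by_cases hex : ∃ j ∈ range (2 * k - 1), j ∈ A ∧ j + 1 ∉ A ∧ sw j A = z
  · obtain ⟨j0, hj0, h1, h2, h3⟩ := hex
    unfold P
    rw [sum_eq_single j0]
    · rw [if_pos ⟨h1, h2⟩, h3, ind_of_mem (by simp)]
      rw [mul_one]
      exact hT j0 hj0 h1 h2 h3
    · intro j hj hne
      split_ifs with h4
      · have : ind {z} (sw j A) = 0 := by
          apply ind_of_notMem
          rw [mem_singleton]
          intro h5
          exact hne (sw_inj h4.1 h4.2 h1 h2 (h5.trans h3.symm))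
        rw [this, mul_zero]
      · rfl
    · intro h; exact absurd hj0 h
  · have : P k (ind {z}) A = P k (fun _ => 0) A := by
      apply P_congr
      intro j hj h1 h2
      apply ind_of_notMem
      rw [mem_singleton]
      intro h3
      exact hex ⟨j, hj, h1, h2, h3⟩
    rw [this, P_zero]
    exact hρ

/-- two-step bound -/
lemma PP_ind_le {k : ℕ} {z : Finset ℕ} {ρ : ℝ} (hρ : 0 ≤ ρ) {A : Finset ℕ} (hA : A ∈ Om k)
    (hT1 : ∀ B ∈ Om k, ∀ j ∈ range (2 * k - 1), j ∈ B → j + 1 ∉ B → sw j B = z →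
      b k j / T k B ≤ ρ)
    (hT2 : ∀ B ∈ Om k, ∀ i ∈ range (2 * k - 1), ∀ j ∈ range (2 * k - 1), i ∈ B → i + 1 ∉ B →
      j ∈ sw i B → j + 1 ∉ sw i B → sw j (sw i B) = z → b k i / T k B ≤ ρ) :
    P k (P k (ind {z})) A ≤ 2 * ρ ^ 2 := by
  by_cases hex : ∃ i ∈ range (2 * k - 1), ∃ j ∈ range (2 * k - 1), i ∈ A ∧ i + 1 ∉ A ∧
      j ∈ sw i A ∧ j + 1 ∉ sw i A ∧ sw j (sw i A) = z
  · obtain ⟨i0, hi0, j0, hj0, g1, g2, g3, g4, g5⟩ := hex
    -- only `i0` and `j0` can contribute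
    have key : ∀ i ∈ range (2 * k - 1), i ∈ A → i + 1 ∉ A → P k (ind {z}) (sw i A) ≠ 0 →
        (i = i0 ∨ i = j0) ∧ b k i / T k A ≤ ρ := by
      intro i hi h1 h2 h3
      have hex2 : ∃ j ∈ range (2 * k - 1), j ∈ sw i A ∧ j + 1 ∉ sw i A ∧ sw j (sw i A) = z := by
        by_contra hcon
        apply h3
        have : P k (ind {z}) (sw i A) = P k (fun _ => 0) (sw i A) := by
          apply P_congr
          intro j hj h5 h6
          apply ind_of_notMem
          rw [mem_singleton]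
          intro h7
          exact hcon ⟨j, hj, h5, h6, h7⟩
        rw [this, P_zero]
      obtain ⟨j, hj, h5, h6, h7⟩ := hex2
      refine ⟨?_, hT2 A hA i hi j hj h1 h2 h5 h6 h7⟩
      by_contra hne
      push Not at hne
      have e1 := N_sw h1 h2 (i + 1)
      have e2 := N_sw h5 h6 (i + 1)
      have e3 := N_sw g1 g2 (i + 1)
      have e4 := N_sw g3 g4 (i + 1)
      rw [h7] at e2
      rw [g5] at e4
      rw [if_pos rfl] at e1
      rw [if_neg (by omega)] at e3
      rw [if_neg (by omega)] at e4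
      omega
    unfold P
    have hle : ∀ i ∈ range (2 * k - 1),
        (if i ∈ A ∧ i + 1 ∉ A then b k i / T k A * P k (ind {z}) (sw i A) else 0) ≤
        (if i = i0 then ρ ^ 2 else 0) + (if i = j0 then ρ ^ 2 else 0) := by
      intro i hi
      have hz : (0:ℝ) ≤ ρ ^ 2 := by positivity
      have hn1 : (0:ℝ) ≤ (if i = i0 then ρ ^ 2 else 0) := by split_ifs <;> [exact hz; exact le_rfl]
      have hn2 : (0:ℝ) ≤ (if i = j0 then ρ ^ 2 else 0) := by split_ifs <;> [exact hz; exact le_rfl]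
      by_cases h1 : i ∈ A ∧ i + 1 ∉ A
      · rw [if_pos h1]
        by_cases h2 : P k (ind {z}) (sw i A) = 0
        · rw [h2, mul_zero]; exact add_nonneg hn1 hn2
        · obtain ⟨h3, h4⟩ := key i hi h1.1 h1.2 h2
          have hm := sw_mem hA hi h1.1 h1.2
          have h5 : P k (ind {z}) (sw i A) ≤ ρ :=
            P_ind_le hρ (fun j hj u1 u2 u3 => hT1 _ hm j hj u1 u2 u3)
          have h6 : b k i / T k A * P k (ind {z}) (sw i A) ≤ ρ ^ 2 := by
            have h7 : 0 ≤ P k (ind {z}) (sw i A) := P_nonneg (fun _ _ _ _ => ind_nonneg _ _)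
            calc b k i / T k A * P k (ind {z}) (sw i A) ≤ ρ * ρ := mul_le_mul h4 h5 h7 hρ
              _ = ρ ^ 2 := by ring
          rcases h3 with h3 | h3
          · rw [if_pos h3]; linarith
          · rw [if_pos h3]; linarith
      · rw [if_neg h1]; exact add_nonneg hn1 hn2
    refine (sum_le_sum hle).trans ?_
    rw [sum_add_distrib, sum_ite_eq' (range (2 * k - 1)) i0, sum_ite_eq' (range (2 * k - 1)) j0,
      if_pos hi0, if_pos hj0]
    linarith
  · have : P k (P k (ind {z})) A = P k (fun _ => 0) A := by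
      apply P_congr
      intro i hi h1 h2
      have : P k (ind {z}) (sw i A) = P k (fun _ => 0) (sw i A) := by
        apply P_congr
        intro j hj h5 h6
        apply ind_of_notMem
        rw [mem_singleton]
        intro h7
        exact hex ⟨i, hi, j, hj, h1, h2, h5, h6, h7⟩
      rw [this, P_zero]
    rw [this, P_zero]
    positivity

/-- strict order -/
def lt (A B : Finset ℕ) : Prop := le A B ∧ A ≠ B

noncomputable instance (A B : Finset ℕ) : Decidable (lt A B) := Classical.propDecidable _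

lemma iter_sum_le {k : ℕ} {z : Finset ℕ} {c : ℝ} (hc : 0 ≤ c) {m : ℕ} (hm : 1 ≤ m)
    (hf : ∀ A ∈ Om k, (P k)^[m] (ind {z}) A ≤ c) {A : Finset ℕ} (hA : A ∈ Om k) :
    ∑ n ∈ range (K k), (P k)^[n + m] (ind {z}) A ≤ if lt A z then c else 0 := by
  have hnn : (0 : ℝ) ≤ if lt A z then c else 0 := by split_ifs <;> [exact hc; exact le_rfl]
  by_cases hex : ∃ n ∈ range (K k), (P k)^[n + m] (ind {z}) A ≠ 0
  · obtain ⟨n0, hn0, h0⟩ := hex
    obtain ⟨h1, h2⟩ := iter_supp _ A hA h0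
    rw [sum_eq_single n0]
    · have hlt : lt A z := by
        refine ⟨h1, ?_⟩
        rintro rfl
        omega
      rw [if_pos hlt, Function.iterate_add_apply]
      exact iter_le hc hf n0 A hA
    · intro n _ hne
      by_contra h3
      have := (iter_supp _ A hA h3).2
      omega
    · intro h; exact absurd hn0 h
  · push Not at hex
    rw [sum_eq_zero hex]
    exact hnn

lemma iter_add_fn (k : ℕ) (n : ℕ) : ∀ (f g : Finset ℕ → ℝ),
    (P k)^[n] (fun B => f B + g B) = fun B => (P k)^[n] f B + (P k)^[n] g B := by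
  induction n with
  | zero => intro f g; rfl
  | succ n ih =>
    intro f g
    rw [Function.iterate_succ_apply', ih, Function.iterate_succ_apply',
      Function.iterate_succ_apply']
    funext A
    exact P_add k _ _ A

lemma iter_zero_fn (k : ℕ) (n : ℕ) : (P k)^[n] (fun _ => (0 : ℝ)) = fun _ => 0 := by
  induction n with
  | zero => rfl
  | succ n ih =>
    rw [Function.iterate_succ_apply', ih]
    funext A
    exact P_zero k A

lemma iter_ind (k : ℕ) (n : ℕ) (U : Finset (Finset ℕ)) (A : Finset ℕ) :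
    (P k)^[n] (ind U) A = ∑ z ∈ U, (P k)^[n] (ind {z}) A := by
  classical
  induction U using Finset.induction_on generalizing A with
  | empty =>
    have : ind ∅ = fun _ => (0 : ℝ) := by
      funext B
      exact ind_of_notMem (by simp)
    rw [this, iter_zero_fn, sum_empty]
  | insert a s ha ih =>
    have : ind (insert a s) = fun B => ind {a} B + ind s B := by
      funext B
      by_cases h1 : B = a
      · subst h1
        rw [ind_of_mem (by simp), ind_of_mem (by simp), ind_of_notMem ha, add_zero]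
      · by_cases h2 : B ∈ s
        · rw [ind_of_mem (by simp [h2]), ind_of_notMem (by simp [h1]), ind_of_mem h2, zero_add]
        · rw [ind_of_notMem (by simp [h1, h2]), ind_of_notMem (by simp [h1]),
            ind_of_notMem h2, zero_add]
    rw [this, iter_add_fn, sum_insert ha, ← ih]

lemma P_Gr (k : ℕ) (f : Finset ℕ → ℝ) (A : Finset ℕ) :
    P k (Gr k f) A = ∑ n ∈ range (K k), (P k)^[n + 1] f A := by
  have : Gr k f = fun B => ∑ n ∈ range (K k), (P k)^[n] f B := rfl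
  rw [this, P_sum]
  apply sum_congr rfl
  intro n _
  rw [Function.iterate_succ_apply']

lemma PP_Gr (k : ℕ) (f : Finset ℕ → ℝ) (A : Finset ℕ) :
    P k (P k (Gr k f)) A = ∑ n ∈ range (K k), (P k)^[n + 2] f A := by
  have : P k (Gr k f) = fun B => ∑ n ∈ range (K k), (P k)^[n + 1] f B := by
    funext B; exact P_Gr k f B
  rw [this, P_sum]
  apply sum_congr rfl
  intro n _
  rw [Function.iterate_succ_apply' (P k) (n + 1)]

/-- up-degree of `A` in `U` -/
noncomputable def deg (U : Finset (Finset ℕ)) (A : Finset ℕ) : ℕ := (U.filter (fun z => lt A z)).card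

lemma sum_iter_le {k : ℕ} {U : Finset (Finset ℕ)} {c : ℝ} (hc : 0 ≤ c) {m : ℕ} (hm : 1 ≤ m)
    (hf : ∀ z ∈ U, ∀ A ∈ Om k, (P k)^[m] (ind {z}) A ≤ c) {A : Finset ℕ} (hA : A ∈ Om k) :
    ∑ n ∈ range (K k), (P k)^[n + m] (ind U) A ≤ c * deg U A := by
  have h1 : ∑ n ∈ range (K k), (P k)^[n + m] (ind U) A =
      ∑ z ∈ U, ∑ n ∈ range (K k), (P k)^[n + m] (ind {z}) A := by
    rw [sum_comm]
    apply sum_congr rfl
    intro n _
    exact iter_ind k (n + m) U A
  rw [h1]
  calc ∑ z ∈ U, ∑ n ∈ range (K k), (P k)^[n + m] (ind {z}) A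
      ≤ ∑ z ∈ U, if lt A z then c else 0 :=
        sum_le_sum (fun z hz => iter_sum_le hc hm (hf z hz) hA)
    _ = c * deg U A := by
        rw [← sum_filter, sum_const, nsmul_eq_mul, deg]; ring

/-! ### corners -/

/-- number of positions where the indicator sequence changes -/
def Ch (k : ℕ) (A : Finset ℕ) : Finset ℕ :=
  (range (2 * k - 1)).filter (fun i => ¬ (i ∈ A ↔ i + 1 ∈ A))

lemma Ch_sw {k j : ℕ} {A : Finset ℕ} (h1 : j ∈ A) (h2 : j + 1 ∉ A) :
    (Ch k (sw j A)).card ≤ (Ch k A).card + 2 := by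
  have hsub : Ch k (sw j A) ⊆ Ch k A ∪ {j - 1, j + 1} := by
    intro i hi
    unfold Ch at hi ⊢
    rw [mem_filter] at hi
    rw [mem_union, mem_filter, mem_insert, mem_singleton]
    by_cases c1 : i = j + 1
    · exact Or.inr (Or.inr c1)
    by_cases c2 : i + 1 = j
    · exact Or.inr (Or.inl (by omega))
    left
    refine ⟨hi.1, ?_⟩
    by_cases c3 : i = j
    · subst c3
      intro hcon
      exact h2 (hcon.mp h1)
    · intro hcon
      apply hi.2
      rw [mem_sw, mem_sw]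
      constructor
      · rintro (h | ⟨_, h⟩)
        · exact absurd h c1
        · exact Or.inr ⟨c2, hcon.mp h⟩
      · rintro (h | ⟨_, h⟩)
        · exact absurd (by omega) c3
        · exact Or.inr ⟨c3, hcon.mpr h⟩
  calc (Ch k (sw j A)).card ≤ (Ch k A ∪ {j - 1, j + 1}).card := card_le_card hsub
    _ ≤ (Ch k A).card + ({j - 1, j + 1} : Finset ℕ).card := card_union_le _ _
    _ ≤ (Ch k A).card + 2 := by
        have := card_le_two (a := j - 1) (b := j + 1)
        omega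

lemma in_add_out (k : ℕ) (A : Finset ℕ) : inf k A + outf k A = ∑ i ∈ Ch k A, b k i := by
  unfold inf outf Ch
  rw [← sum_add_distrib, sum_filter]
  apply sum_congr rfl
  intro i _
  by_cases h1 : i ∈ A <;> by_cases h2 : i + 1 ∈ A <;> simp [h1, h2]

lemma T_ge {k q : ℕ} {A : Finset ℕ} (hq : q ≤ k) (h : 4 * q ≤ (Ch k A).card) :
    (q : ℝ) ^ 2 * k ≤ T k A := by
  set M := (Ch k A).filter (fun i => q ≤ i + 1 ∧ i + 1 + q ≤ 2 * k) with hM
  have h1 : 2 * q ≤ M.card := by
    have hsub : Ch k A ⊆ M ∪ (range q ∪ Ico (2 * k - q) (2 * k)) := by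
      intro i hi
      have hi' := mem_range.mp (mem_filter.mp hi).1
      rw [mem_union, mem_union, hM, mem_filter, mem_range, mem_Ico]
      by_cases c : q ≤ i + 1 ∧ i + 1 + q ≤ 2 * k
      · exact Or.inl ⟨hi, c⟩
      · right; omega
    have h2 := card_le_card hsub
    have h3 := card_union_le M (range q ∪ Ico (2 * k - q) (2 * k))
    have h4 := card_union_le (range q) (Ico (2 * k - q) (2 * k))
    rw [card_range, Nat.card_Ico] at h4
    omega
  have h2 : ∀ i ∈ M, (q : ℝ) * k ≤ b k i := by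
    intro i hi
    rw [hM, mem_filter] at hi
    have c1 : (q : ℝ) ≤ i + 1 := by exact_mod_cast hi.2.1
    have c2 : (i : ℝ) + 1 + q ≤ 2 * k := by exact_mod_cast hi.2.2
    have c3 : (q : ℝ) ≤ k := by exact_mod_cast hq
    have c4 : (0:ℝ) ≤ q := by positivity
    unfold b
    -- (i+1)(2k-(i+1)) ≥ q (2k - q) ≥ q k
    nlinarith [mul_nonneg (sub_nonneg.mpr c1) (sub_nonneg.mpr c2), mul_nonneg c4 (sub_nonneg.mpr c3)]
  have h3 : (2 * q : ℝ) * (q * k) ≤ ∑ i ∈ Ch k A, b k i := by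
    calc (2 * q : ℝ) * (q * k) ≤ M.card * ((q : ℝ) * k) := by
          gcongr
          exact_mod_cast h1
      _ = ∑ i ∈ M, (q : ℝ) * k := by rw [sum_const, nsmul_eq_mul]
      _ ≤ ∑ i ∈ M, b k i := sum_le_sum h2
      _ ≤ ∑ i ∈ Ch k A, b k i := by
          apply sum_le_sum_of_subset_of_nonneg (filter_subset _ _)
          intro i hi _
          exact b_nonneg (mem_filter.mp hi).1
  rw [← in_add_out] at h3
  have h4 : inf k A ≤ T k A := le_max_left _ _
  have h5 : outf k A ≤ T k A := le_max_right _ _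
  nlinarith

lemma bT_le {k q : ℕ} {A : Finset ℕ} (hq1 : 1 ≤ q) (hq : q ≤ k) (h : 4 * q ≤ (Ch k A).card)
    (j : ℕ) : b k j / T k A ≤ (k : ℝ) / (q : ℝ) ^ 2 := by
  have h1 := T_ge hq h
  have hq0 : (0 : ℝ) < q := by exact_mod_cast hq1
  have hk0 : (0 : ℝ) < k := by exact_mod_cast (by omega : 0 < k)
  have h2 : 0 < T k A := lt_of_lt_of_le (by positivity) h1
  rw [div_le_div_iff₀ h2 (by positivity)]
  have h3 := b_le k j
  calc b k j * (q : ℝ) ^ 2 ≤ (k : ℝ) ^ 2 * (q : ℝ) ^ 2 := by gcongr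
    _ = k * ((q : ℝ) ^ 2 * k) := by ring
    _ ≤ k * T k A := by gcongr

/-- the one-step and two-step hitting bounds at a point with many corners -/
lemma hit_one {k q : ℕ} {z : Finset ℕ} (hq1 : 1 ≤ q) (hq : q ≤ k)
    (h : 4 * q + 4 ≤ (Ch k z).card) (A : Finset ℕ) :
    P k (ind {z}) A ≤ (k : ℝ) / (q : ℝ) ^ 2 := by
  apply P_ind_le (by positivity)
  intro j _ h1 h2 h3
  apply bT_le hq1 hq
  have := Ch_sw (k := k) h1 h2
  rw [h3] at this
  omega

lemma hit_two {k q : ℕ} {z : Finset ℕ} (hq1 : 1 ≤ q) (hq : q ≤ k)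
    (h : 4 * q + 4 ≤ (Ch k z).card) {A : Finset ℕ} (hA : A ∈ Om k) :
    P k (P k (ind {z})) A ≤ 2 * ((k : ℝ) / (q : ℝ) ^ 2) ^ 2 := by
  apply PP_ind_le (by positivity) hA
  · intro B _ j _ h1 h2 h3
    apply bT_le hq1 hq
    have := Ch_sw (k := k) h1 h2
    rw [h3] at this
    omega
  · intro B _ i _ j _ h1 h2 h3 h4 h5
    apply bT_le hq1 hq
    have e1 := Ch_sw (k := k) h1 h2
    have e2 := Ch_sw (k := k) h3 h4
    rw [h5] at e2
    omega

/-- supersaturation inequality for sets of points with many corners -/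
theorem pairs_main {k q : ℕ} {F : Finset (Finset ℕ)} (hF : F ⊆ Om k) (hq1 : 1 ≤ q) (hq : q ≤ k)
    (h : ∀ z ∈ F, 4 * q + 4 ≤ (Ch k z).card) :
    (q : ℝ) ^ 2 * k * F.card ≤ 4 * Real.sqrt ((k : ℝ) ^ 3) * (Om k).card +
      4 * (k : ℝ) ^ 5 / (q : ℝ) ^ 4 * ∑ A ∈ F, (deg F A : ℝ) := by
  have h1 := sum_pairs_ge hF
  have h2 : (q : ℝ) ^ 2 * k * F.card ≤ ∑ A ∈ F, T k A := by
    calc (q : ℝ) ^ 2 * k * F.card = ∑ A ∈ F, (q : ℝ) ^ 2 * k := by
          rw [sum_const, nsmul_eq_mul]; ring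
      _ ≤ ∑ A ∈ F, T k A := sum_le_sum (fun A hA => T_ge hq (by have := h A hA; omega))
  have h3 := sum_src k
  have h4 : ∑ A ∈ F, T k A * P k (P k (Gr k (ind F))) A ≤
      4 * (k : ℝ) ^ 5 / (q : ℝ) ^ 4 * ∑ A ∈ F, (deg F A : ℝ) := by
    rw [mul_sum]
    apply sum_le_sum
    intro A hA
    have e1 : P k (P k (Gr k (ind F))) A ≤ 2 * ((k : ℝ) / (q : ℝ) ^ 2) ^ 2 * deg F A := by
      rw [PP_Gr]
      exact sum_iter_le (by positivity) (by norm_num) (fun z hz B hB => hit_two hq1 hq (h z hz) hB)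
        (hF hA)
    have e2 : (0:ℝ) ≤ 2 * ((k : ℝ) / (q : ℝ) ^ 2) ^ 2 * deg F A := by positivity
    calc T k A * P k (P k (Gr k (ind F))) A
        ≤ T k A * (2 * ((k : ℝ) / (q : ℝ) ^ 2) ^ 2 * deg F A) :=
          mul_le_mul_of_nonneg_left e1 (T_nonneg k A)
      _ ≤ 2 * (k : ℝ) ^ 3 * (2 * ((k : ℝ) / (q : ℝ) ^ 2) ^ 2 * deg F A) :=
          mul_le_mul_of_nonneg_right (T_le k A) e2
      _ = 4 * (k : ℝ) ^ 5 / (q : ℝ) ^ 4 * deg F A := by
          rw [div_pow]; ring
  linarith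

/-- large degree for large sets of points with many corners -/
theorem deg_main {k q : ℕ} {F : Finset (Finset ℕ)} (hF : F ⊆ Om k) (hq1 : 1 ≤ q) (hq : q ≤ k)
    (h : ∀ z ∈ F, 4 * q + 4 ≤ (Ch k z).card) (hne : F.Nonempty) :
    ∃ x ∈ F, (q : ℝ) ^ 2 * k * F.card ≤ 2 * Real.sqrt ((k : ℝ) ^ 3) * (Om k).card *
      (1 + (k : ℝ) / (q : ℝ) ^ 2 * deg F x) := by
  obtain ⟨x, hx, hmax⟩ := exists_max_image F (Gr k (ind F)) hne
  refine ⟨x, hx, ?_⟩
  have hxnn : 0 ≤ Gr k (ind F) x := Gr_nonneg (fun C _ => ind_nonneg F C) (hF hx)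
  have hall : ∀ n : ℕ, ∀ A ∈ Om k, 2 * k * k - rk A = n → Gr k (ind F) A ≤ Gr k (ind F) x := by
    intro n
    induction n using Nat.strong_induction_on with
    | _ n ih =>
      intro A hA hn
      by_cases hAF : A ∈ F
      · exact hmax A hAF
      · rw [Gr_eq _ hA, ind_of_notMem hAF, zero_add]
        refine le_trans (P_mono (g := fun _ => Gr k (ind F) x) ?_) (P_const_le k _ hxnn A)
        intro j hj h1 h2
        have hm := sw_mem hA hj h1 h2
        have hr := rk_le hm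
        rw [rk_sw h1 h2] at hr
        exact ih (2 * k * k - rk (sw j A)) (by rw [rk_sw h1 h2]; omega) _ hm rfl
  have h1 : ∑ A ∈ Om k, src k A * Gr k (ind F) A = ∑ A ∈ F, T k A := by
    rw [sum_src_Gr, sum_ind hF]
  have h2 : (q : ℝ) ^ 2 * k * F.card ≤ ∑ A ∈ F, T k A := by
    calc (q : ℝ) ^ 2 * k * F.card = ∑ A ∈ F, (q : ℝ) ^ 2 * k := by
          rw [sum_const, nsmul_eq_mul]; ring
      _ ≤ ∑ A ∈ F, T k A := sum_le_sum (fun A hA => T_ge hq (by have := h A hA; omega))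
  have h3 : ∑ A ∈ Om k, src k A * Gr k (ind F) A ≤
      (∑ A ∈ Om k, src k A) * Gr k (ind F) x := by
    rw [sum_mul]
    apply sum_le_sum
    intro A hA
    exact mul_le_mul_of_nonneg_left (hall _ A hA rfl) (src_nonneg k A)
  have h4 : Gr k (ind F) x ≤ 1 + (k : ℝ) / (q : ℝ) ^ 2 * deg F x := by
    rw [Gr_eq _ (hF hx), ind_of_mem hx, P_Gr]
    have := sum_iter_le (k := k) (U := F) (c := (k : ℝ) / (q : ℝ) ^ 2) (by positivity)
      (le_refl 1) (fun z hz B _ => hit_one hq1 hq (h z hz) B) (hF hx)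
    linarith
  have h5 := sum_src k
  calc (q : ℝ) ^ 2 * k * F.card ≤ (∑ A ∈ Om k, src k A) * Gr k (ind F) x := by linarith
    _ ≤ (2 * Real.sqrt ((k : ℝ) ^ 3) * (Om k).card) * Gr k (ind F) x :=
        mul_le_mul_of_nonneg_right h5 hxnn
    _ ≤ 2 * Real.sqrt ((k : ℝ) ^ 3) * (Om k).card * (1 + (k : ℝ) / (q : ℝ) ^ 2 * deg F x) :=
        mul_le_mul_of_nonneg_left h4 (by positivity)

/-! ### few sets have few corners -/

/-- auxiliary version of `Ch` -/
def chn (n : ℕ) (A : Finset ℕ) : Finset ℕ := (range n).filter (fun i => ¬ (i ∈ A ↔ i + 1 ∈ A))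

lemma sum_chn (n : ℕ) : ∑ A ∈ (range (n + 1)).powerset, ((1 : ℝ) / 4) ^ (chn n A).card =
    2 * (5 / 4) ^ n := by
  induction n with
  | zero =>
    have : (range 1).powerset = {∅, {0}} := by decide
    rw [this, sum_pair (by decide)]
    simp [chn]
    norm_num
  | succ n ih =>
    rw [range_add_one (n := n + 1), sum_powerset_insert (by simp), ← sum_add_distrib]
    rw [pow_succ, ← mul_assoc, ← ih, sum_mul]
    apply sum_congr rfl
    intro A hA
    rw [mem_powerset] at hA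
    have hn : n + 1 ∉ A := fun h => by simpa using hA h
    have e1 : (chn (n + 1) A).card = (chn n A).card + (if n ∈ A then 1 else 0) := by
      unfold chn
      rw [range_add_one, filter_insert]
      by_cases h : n ∈ A
      · rw [if_pos (by simp [h, hn]), if_pos h, card_insert_of_notMem (by simp)]
      · rw [if_neg (by simp [h, hn]), if_neg h]
        omega
    have e2 : (chn (n + 1) (insert (n + 1) A)).card =
        (chn n A).card + (if n ∈ A then 0 else 1) := by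
      have e3 : (range n).filter (fun i => ¬ (i ∈ insert (n + 1) A ↔ i + 1 ∈ insert (n + 1) A)) =
          (range n).filter (fun i => ¬ (i ∈ A ↔ i + 1 ∈ A)) := by
        apply filter_congr
        intro i hi
        rw [mem_range] at hi
        have h1 : i ≠ n + 1 := by omega
        have h2 : i ≠ n := by omega
        simp [h1, h2]
      unfold chn
      rw [range_add_one, filter_insert, e3]
      by_cases h : n ∈ A
      · rw [if_neg (by simp [h]), if_pos h]
        omega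
      · rw [if_pos (by simp [h]), if_neg h, card_insert_of_notMem (by simp)]
    rw [e1, e2]
    by_cases h : n ∈ A
    · simp only [h, if_true, pow_add, pow_one, pow_zero]; ring
    · simp only [h, if_false, pow_add, pow_one, pow_zero]; ring

/-- the sets with fewer than `m` corners -/
noncomputable def few (k m : ℕ) : Finset (Finset ℕ) := (Om k).filter (fun A => (Ch k A).card < m)

lemma card_few {k m : ℕ} (hk : 1 ≤ k) :
    ((few k m).card : ℝ) ≤ 4 ^ m * (2 * (5 / 4) ^ (2 * k - 1)) := by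
  have h1 : ∀ A ∈ few k m, (1 : ℝ) ≤ 4 ^ m * (1 / 4) ^ (chn (2 * k - 1) A).card := by
    intro A hA
    have h2 : (chn (2 * k - 1) A).card < m := (mem_filter.mp hA).2
    calc (1 : ℝ) = 4 ^ m * (1 / 4) ^ m := by rw [← mul_pow]; norm_num
      _ ≤ 4 ^ m * (1 / 4) ^ (chn (2 * k - 1) A).card := by
          apply mul_le_mul_of_nonneg_left _ (by positivity)
          exact pow_le_pow_of_le_one (by norm_num) (by norm_num) h2.le
  have h3 : few k m ⊆ (range (2 * k - 1 + 1)).powerset := by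
    intro A hA
    have := (mem_Om.mp (mem_filter.mp hA).1).1
    rw [mem_powerset]
    have h4 : 2 * k - 1 + 1 = 2 * k := by omega
    rw [h4]
    exact this
  calc ((few k m).card : ℝ) = ∑ A ∈ few k m, (1 : ℝ) := by simp
    _ ≤ ∑ A ∈ few k m, (4 : ℝ) ^ m * (1 / 4) ^ (chn (2 * k - 1) A).card := sum_le_sum h1
    _ ≤ ∑ A ∈ (range (2 * k - 1 + 1)).powerset, (4 : ℝ) ^ m * (1 / 4) ^ (chn (2 * k - 1) A).card :=
        sum_le_sum_of_subset_of_nonneg h3 (fun _ _ _ => by positivity)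
    _ = 4 ^ m * (2 * (5 / 4) ^ (2 * k - 1)) := by rw [← mul_sum, sum_chn]

lemma card_Om (k : ℕ) : (Om k).card = (2 * k).choose k := by
  rw [Om, card_powersetCard, card_range]

lemma card_few_le {k m : ℕ} (hk : 1 ≤ k) (hm : 2 * m ≤ k) :
    ((few k m).card : ℝ) ≤ 4 * k * (25 / 32) ^ k * (Om k).card := by
  have h1 := card_few (m := m) hk
  have h2 : (4 : ℝ) ^ m ≤ 2 ^ k := by
    calc (4 : ℝ) ^ m = 2 ^ (2 * m) := by rw [pow_mul]; norm_num
      _ ≤ 2 ^ k := pow_le_pow_right₀ (by norm_num) hm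
  have h3 : (5 / 4 : ℝ) ^ (2 * k - 1) ≤ (5 / 4) ^ (2 * k) :=
    pow_le_pow_right₀ (by norm_num) (by omega)
  have h4 : (4 : ℝ) ^ k ≤ 2 * k * (Om k).card := by
    have := Nat.four_pow_le_two_mul_self_mul_centralBinom k (by omega)
    rw [Nat.centralBinom_eq_two_mul_choose, ← card_Om] at this
    exact_mod_cast this
  calc ((few k m).card : ℝ) ≤ 4 ^ m * (2 * (5 / 4) ^ (2 * k - 1)) := h1
    _ ≤ 2 ^ k * (2 * (5 / 4) ^ (2 * k)) := by gcongr
    _ = 2 * (25 / 32) ^ k * 4 ^ k := by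
        rw [pow_mul]
        have : (2 : ℝ) ^ k * (2 * ((5 / 4) ^ 2) ^ k) = 2 * ((2 : ℝ) * (5 / 4) ^ 2) ^ k := by
          rw [mul_pow]; ring
        rw [this, mul_assoc, ← mul_pow]
        norm_num
    _ ≤ 2 * (25 / 32) ^ k * (2 * k * (Om k).card) := by gcongr
    _ = 4 * k * (25 / 32) ^ k * (Om k).card := by ring

/-- an eventual numerical inequality -/
lemma eventually_small : ∀ᶠ k : ℕ in Filter.atTop, 8 * (k : ℝ) ^ 3 * (25 / 32) ^ k ≤ 1 := by
  have h := tendsto_pow_const_mul_const_pow_of_abs_lt_one 3 (r := (25 / 32 : ℝ))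
    (by rw [abs_of_pos] <;> norm_num)
  have h2 := h.const_mul 8
  rw [mul_zero] at h2
  have h3 := h2.eventually (gt_mem_nhds (show (0 : ℝ) < 1 by norm_num))
  filter_upwards [h3] with k hk
  rw [mul_assoc]
  exact hk.le

/-- Supersaturation in `Om k` -/
theorem supersat : ∃ k₀ : ℕ, ∀ k ≥ k₀, ∀ U ⊆ Om k,
    (2 : ℝ) ^ 15 * (Om k).card ≤ Real.sqrt ((k : ℝ) ^ 3) * U.card →
    (k : ℝ) ^ 2 * U.card ≤ 2 ^ 34 * ∑ A ∈ U, (deg U A : ℝ) := by
  obtain ⟨k₁, hk₁⟩ := Filter.eventually_atTop.mp eventually_small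
  refine ⟨max k₁ 64, ?_⟩
  intro k hk U hU hsize
  have hk1 : k₁ ≤ k := le_trans (le_max_left _ _) hk
  have hk2 : 64 ≤ k := le_trans (le_max_right _ _) hk
  have hsmall := hk₁ k hk1
  set q := k / 16 with hq
  have hq1 : 1 ≤ q := by omega
  have hqk : q ≤ k := by omega
  have hq2 : k ≤ 32 * q := by omega
  have hm : 2 * (4 * q + 4) ≤ k := by omega
  have hk0 : (0 : ℝ) < k := by exact_mod_cast (by omega : 0 < k)
  set κ := Real.sqrt ((k : ℝ) ^ 3) with hκ
  have hκ2 : κ ^ 2 = (k : ℝ) ^ 3 := Real.sq_sqrt (by positivity)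
  have hκ0 : 0 < κ := Real.sqrt_pos.mpr (by positivity)
  have hκk : κ ≤ (k : ℝ) ^ 2 := by
    rw [hκ]
    apply Real.sqrt_le_iff.mpr
    refine ⟨by positivity, ?_⟩
    have h1 : (1 : ℝ) ≤ k := by exact_mod_cast (by omega : 1 ≤ k)
    nlinarith [pow_pos hk0 3]
  set F := U.filter (fun A => 4 * q + 4 ≤ (Ch k A).card) with hF
  have hFU : F ⊆ U := filter_subset _ _
  -- the exceptional part
  have hex : ((U \ F).card : ℝ) ≤ U.card / 2 := by
    have h1 : U \ F ⊆ few k (4 * q + 4) := by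
      intro A hA
      rw [mem_sdiff, hF, mem_filter] at hA
      rw [few, mem_filter]
      refine ⟨hU hA.1, ?_⟩
      by_contra hcon
      exact hA.2 ⟨hA.1, by omega⟩
    have h2 : ((U \ F).card : ℝ) ≤ 4 * k * (25 / 32) ^ k * (Om k).card :=
      le_trans (by exact_mod_cast card_le_card h1) (card_few_le (by omega) hm)
    have h3 : 4 * k * (25 / 32 : ℝ) ^ k * (Om k).card * κ ≤ U.card / 2 * κ := by
      have h4 : 4 * (k : ℝ) * (25 / 32) ^ k * κ ≤ 1 / 2 := by
        calc 4 * (k : ℝ) * (25 / 32) ^ k * κ ≤ 4 * (k : ℝ) * (25 / 32) ^ k * (k : ℝ) ^ 2 := by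
              gcongr
          _ = (8 * (k : ℝ) ^ 3 * (25 / 32) ^ k) / 2 := by ring
          _ ≤ 1 / 2 := by linarith
      have h5 : (0 : ℝ) ≤ (Om k).card := by positivity
      calc 4 * k * (25 / 32 : ℝ) ^ k * (Om k).card * κ
          = (4 * (k : ℝ) * (25 / 32) ^ k * κ) * (Om k).card := by ring
        _ ≤ 1 / 2 * (Om k).card := by gcongr
        _ ≤ U.card / 2 * κ := by nlinarith
    exact h2.trans (le_of_mul_le_mul_right h3 hκ0)
  have hcard : (F.card : ℝ) + ((U \ F).card : ℝ) = U.card := by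
    have := card_sdiff_add_card_eq_card hFU
    have : (U \ F).card + F.card = U.card := this
    rw [add_comm]
    exact_mod_cast this
  have hFc : (U.card : ℝ) / 2 ≤ F.card := by linarith
  -- main inequality
  have hmain := pairs_main (hFU.trans hU) hq1 hqk (fun z hz => (mem_filter.mp hz).2)
  have hdeg : ∑ A ∈ F, (deg F A : ℝ) ≤ ∑ A ∈ U, (deg U A : ℝ) := by
    calc ∑ A ∈ F, (deg F A : ℝ) ≤ ∑ A ∈ F, (deg U A : ℝ) := by
          apply sum_le_sum
          intro A _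
          have : deg F A ≤ deg U A := card_le_card (filter_subset_filter _ hFU)
          exact_mod_cast this
      _ ≤ ∑ A ∈ U, (deg U A : ℝ) :=
          sum_le_sum_of_subset_of_nonneg hFU (fun _ _ _ => by positivity)
  set E := ∑ A ∈ U, (deg U A : ℝ) with hE
  have hE0 : 0 ≤ E := by positivity
  have hqr : (k : ℝ) / 32 ≤ q := by
    have : (k : ℝ) ≤ 32 * q := by exact_mod_cast hq2
    linarith
  have hq0 : (0 : ℝ) < q := by exact_mod_cast hq1
  have h1 : (k : ℝ) ^ 3 / 1024 * (U.card / 2) ≤ (q : ℝ) ^ 2 * k * F.card := by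
    have : (k : ℝ) ^ 3 / 1024 = (k / 32) ^ 2 * k := by ring
    rw [this]
    gcongr
  have h2 : 4 * (k : ℝ) ^ 5 / (q : ℝ) ^ 4 ≤ 2 ^ 22 * k := by
    rw [div_le_iff₀ (by positivity)]
    have h3 : ((k : ℝ) / 32) ^ 4 ≤ (q : ℝ) ^ 4 := by gcongr
    calc 4 * (k : ℝ) ^ 5 = 2 ^ 22 * k * (((k : ℝ) / 32) ^ 4) := by ring
      _ ≤ 2 ^ 22 * k * (q : ℝ) ^ 4 := by gcongr
  have h3 : 4 * (k : ℝ) ^ 5 / (q : ℝ) ^ 4 * ∑ A ∈ F, (deg F A : ℝ) ≤ 2 ^ 22 * k * E := by
    apply mul_le_mul h2 hdeg _ (by positivity)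
    positivity
  have h4 : 4 * κ * (Om k).card ≤ 4 * (k : ℝ) ^ 3 * U.card / 2 ^ 15 := by
    have : κ * (2 ^ 15 * (Om k).card) ≤ κ * (κ * U.card) := by gcongr
    have h5 : κ * (κ * U.card) = (k : ℝ) ^ 3 * U.card := by rw [← hκ2]; ring
    rw [h5] at this
    linarith
  have h5 : (k : ℝ) ^ 3 / 1024 * (U.card / 2) ≤
      4 * (k : ℝ) ^ 3 * U.card / 2 ^ 15 + 2 ^ 22 * k * E := by linarith
  have h6 : (k : ℝ) * ((k : ℝ) ^ 2 * U.card) ≤ k * (2 ^ 34 * E) := by
    have h7 : (0 : ℝ) ≤ (k : ℝ) ^ 3 * U.card := by positivity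
    nlinarith
  exact le_of_mul_le_mul_left h6 hk0

end Pool.Agent.V11182.LFlow
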