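import Mathlib
import Pool.Agent.V11182.LFlow

/-! Transfer between monotone maps `Fin k → Fin (k+1)` and `k`-subsets of `{0,…,2k-1}`. -/

namespace Pool.Agent.V11182.LTransfer

open Finset Pool.Agent.V11182.LFlow

/-- the set `{i + x_i}` -/
def phi (k : ℕ) (x : Fin k → Fin (k + 1)) : Finset ℕ :=
  univ.image (fun i : Fin k => (i : ℕ) + (x i : ℕ))

lemma strict {k : ℕ} {x : Fin k → Fin (k + 1)} (hx : Monotone x) {i j : Fin k} (h : i < j) :
    (i : ℕ) + (x i : ℕ) < (j : ℕ) + (x j : ℕ) := by
  have h1 : (x i : ℕ) ≤ x j := hx h.le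
  have h2 : (i : ℕ) < j := h
  omega

lemma inj {k : ℕ} {x : Fin k → Fin (k + 1)} (hx : Monotone x) :
    Function.Injective (fun i : Fin k => (i : ℕ) + (x i : ℕ)) := by
  intro i j hij
  simp only at hij
  rcases lt_trichotomy i j with h | h | h
  · have := strict hx h; omega
  · exact h
  · have := strict hx h; omega

lemma phi_mem {k : ℕ} {x : Fin k → Fin (k + 1)} (hx : Monotone x) : phi k x ∈ Om k := by
  rw [mem_Om]
  constructor
  · intro a ha
    rw [phi, mem_image] at ha
    obtain ⟨i, _, rfl⟩ := ha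
    rw [mem_range]
    have h1 := i.2
    have h2 := (x i).2
    omega
  · rw [phi, card_image_of_injective _ (inj hx), card_univ, Fintype.card_fin]

lemma N_phi {k : ℕ} {x : Fin k → Fin (k + 1)} (hx : Monotone x) (t : ℕ) :
    N (phi k x) t = (univ.filter (fun i : Fin k => (i : ℕ) + (x i : ℕ) < t)).card := by
  rw [N, phi, filter_image, card_image_of_injective _ (inj hx)]

lemma le_of_le_phi {k : ℕ} {x y : Fin k → Fin (k + 1)} (hx : Monotone x) (hy : Monotone y)
    (h : le (phi k x) (phi k y)) : x ≤ y := by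
  intro i
  by_contra hcon
  push Not at hcon
  have hlt : (y i : ℕ) < x i := hcon
  have h1 := h ((i : ℕ) + y i + 1)
  rw [N_phi hx, N_phi hy] at h1
  have h2 : (univ.filter (fun j : Fin k => (j : ℕ) + (x j : ℕ) < (i : ℕ) + y i + 1)).card ≤
      (Finset.Iio i).card := by
    apply card_le_card
    intro j hj
    rw [mem_filter] at hj
    rw [mem_Iio]
    by_contra hij
    push Not at hij
    rcases hij.lt_or_eq with h3 | h3
    · have := strict hx h3; omega
    · subst h3; omega
  have h3 : (Finset.Iic i).card ≤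
      (univ.filter (fun j : Fin k => (j : ℕ) + (y j : ℕ) < (i : ℕ) + y i + 1)).card := by
    apply card_le_card
    intro j hj
    rw [mem_Iic] at hj
    rw [mem_filter]
    refine ⟨mem_univ _, ?_⟩
    rcases hj.lt_or_eq with h3 | h3
    · have := strict hy h3; omega
    · subst h3; omega
  rw [Fin.card_Iio] at h2
  rw [Fin.card_Iic] at h3
  omega

lemma phi_inj {k : ℕ} {x y : Fin k → Fin (k + 1)} (hx : Monotone x) (hy : Monotone y)
    (h : phi k x = phi k y) : x = y := by
  apply le_antisymm
  · apply le_of_le_phi hx hy; rw [h]; exact le_refl' _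
  · apply le_of_le_phi hy hx; rw [h]; exact le_refl' _

end Pool.Agent.V11182.LTransfer
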