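import Mathlib
import Pool.Agent.V11182.LTransfer

/-! Counting antichains in `L(k,k)`. -/

namespace Pool.Agent.V11182.LCount

open Finset Pool.Agent.V11182.LFlow Pool.Agent.V11182.LTransfer

/-! ### Independent sets, Kleitman–Winston -/

section KW

variable {α : Type*} [DecidableEq α]

open Classical in
/-- subsets of `A` with no related pair -/
noncomputable def indep (r : α → α → Prop) (A : Finset α) : Finset (Finset α) :=
  A.powerset.filter (fun S => ∀ x ∈ S, ∀ y ∈ S, ¬ r x y)

omit [DecidableEq α] in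
lemma mem_indep {r : α → α → Prop} {A S : Finset α} :
    S ∈ indep r A ↔ S ⊆ A ∧ ∀ x ∈ S, ∀ y ∈ S, ¬ r x y := by
  classical
  rw [indep, mem_filter, mem_powerset]

omit [DecidableEq α] in
lemma indep_le_pow (r : α → α → Prop) (A : Finset α) : (indep r A).card ≤ 2 ^ A.card := by
  classical
  rw [← card_powerset]
  exact card_le_card (filter_subset _ _)

open Classical in
lemma indep_split (r : α → α → Prop) (A : Finset α) (x : α) :
    (indep r A).card ≤ (indep r (A.erase x)).card +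
      (indep r (A.filter (fun z => ¬ r x z))).card := by
  have h1 : indep r A = (indep r A).filter (fun S => x ∉ S) ∪
      (indep r A).filter (fun S => ¬ x ∉ S) := (filter_union_filter_not_eq _ _).symm
  rw [h1]
  refine (card_union_le _ _).trans (add_le_add ?_ ?_)
  · apply card_le_card
    intro S hS
    rw [mem_filter, mem_indep] at hS
    rw [mem_indep]
    refine ⟨?_, hS.1.2⟩
    intro y hy
    rw [mem_erase]
    refine ⟨?_, hS.1.1 hy⟩
    rintro rfl
    exact hS.2 hy
  · apply card_le_card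
    intro S hS
    rw [mem_filter, mem_indep, not_not] at hS
    rw [mem_indep]
    refine ⟨?_, hS.1.2⟩
    intro y hy
    rw [mem_filter]
    exact ⟨hS.1.1 hy, hS.1.2 x hS.2 y hy⟩

open Classical in
theorem kw (r : α → α → Prop) (A0 : Finset α) (R D : ℕ) (β N : ℝ) (hR : 1 ≤ R)
    (hβ0 : 0 ≤ β) (hβ1 : β ≤ 1 / 2) (hN : (A0.card : ℝ) ≤ N)
    (hcond : (1 - 1 / N) ^ D + (1 - β) ^ D ≤ 1)
    (hdeg : ∀ A ⊆ A0, R < A.card → ∃ x ∈ A, β * A.card ≤ ((A.filter (fun z => r x z)).card : ℝ)) :
    ∀ n : ℕ, ∀ A ⊆ A0, A.card = n →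
      ((indep r A).card : ℝ) ≤ 2 ^ R * (max 1 (2 * (A.card : ℝ) / (R : ℝ))) ^ D := by
  intro n
  induction n using Nat.strong_induction_on with
  | _ n ih =>
    intro A hA hn
    have hR0 : (0 : ℝ) < R := by exact_mod_cast hR
    by_cases hle : A.card ≤ R
    · calc ((indep r A).card : ℝ) ≤ 2 ^ A.card := by exact_mod_cast indep_le_pow r A
        _ ≤ 2 ^ R := pow_le_pow_right₀ (by norm_num) hle
        _ = 2 ^ R * 1 := (mul_one _).symm
        _ ≤ 2 ^ R * (max 1 (2 * (A.card : ℝ) / (R : ℝ))) ^ D := by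
            apply mul_le_mul_of_nonneg_left _ (by positivity)
            exact one_le_pow₀ (le_max_left _ _)
    · push Not at hle
      obtain ⟨x, hx, hdx⟩ := hdeg A hA hle
      set a : ℝ := (A.card : ℝ) with ha
      have haR : (R : ℝ) + 1 ≤ a := by rw [ha]; exact_mod_cast hle
      have ha0 : 0 < a := by linarith
      have haN : a ≤ N := by
        have : (A.card : ℝ) ≤ A0.card := by exact_mod_cast card_le_card hA
        linarith
      have hN0 : 0 < N := by linarith
      -- first part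
      have hc1 : ((A.erase x).card : ℝ) = a - 1 := by
        rw [card_erase_of_mem hx, Nat.cast_sub (by omega)]
        simp [ha]
      have h1 : ((indep r (A.erase x)).card : ℝ) ≤ 2 ^ R * ((2 * a / R) * (1 - 1 / N)) ^ D := by
        have := ih (A.erase x).card (by rw [card_erase_of_mem hx]; omega) (A.erase x)
          ((erase_subset _ _).trans hA) rfl
        refine this.trans ?_
        rw [hc1]
        have e1 : max 1 (2 * (a - 1) / R) ≤ (2 * a / R) * (1 - 1 / N) := by
          apply max_le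
          · have e2 : (2 * (a - 1) / R) ≤ (2 * a / R) * (1 - 1 / N) := by
              rw [div_mul_eq_mul_div]
              apply div_le_div_of_nonneg_right _ hR0.le
              have : a * (1 / N) ≤ 1 := by
                rw [mul_one_div, div_le_one hN0]; exact haN
              nlinarith
            refine le_trans ?_ e2
            rw [le_div_iff₀ hR0]
            linarith
          · rw [div_mul_eq_mul_div]
            apply div_le_div_of_nonneg_right _ hR0.le
            have : a * (1 / N) ≤ 1 := by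
              rw [mul_one_div, div_le_one hN0]; exact haN
            nlinarith
        have e0 : (0 : ℝ) ≤ max 1 (2 * (a - 1) / R) := le_trans zero_le_one (le_max_left _ _)
        gcongr
      -- second part
      set B := A.filter (fun z => ¬ r x z) with hB
      have hc2 : (B.card : ℝ) ≤ (1 - β) * a := by
        have : (A.filter (fun z => r x z)).card + B.card = A.card :=
          card_filter_add_card_filter_not _
        have h' : ((A.filter (fun z => r x z)).card : ℝ) + B.card = a := by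
          rw [ha]; exact_mod_cast this
        linarith
      have h2 : ((indep r B).card : ℝ) ≤ 2 ^ R * ((2 * a / R) * (1 - β)) ^ D := by
        by_cases hD : D = 0
        · -- impossible
          subst hD
          simp at hcond
          linarith
        by_cases hBA : B.card < n
        · have := ih B.card hBA B ((filter_subset _ _).trans hA) rfl
          refine this.trans ?_
          have e1 : max 1 (2 * (B.card : ℝ) / R) ≤ (2 * a / R) * (1 - β) := by
            apply max_le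
            · rw [div_mul_eq_mul_div, le_div_iff₀ hR0]
              nlinarith
            · rw [div_mul_eq_mul_div]
              apply div_le_div_of_nonneg_right _ hR0.le
              nlinarith
          have e0 : (0 : ℝ) ≤ max 1 (2 * (B.card : ℝ) / R) := le_trans zero_le_one (le_max_left _ _)
          gcongr
        · -- then `β * a = 0`, so `β = 0`, contradicting the condition
          exfalso
          have h3 : B.card ≤ A.card := card_le_card (filter_subset _ _)
          have h4 : (B.card : ℝ) = a := by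
            rw [ha]; exact_mod_cast (by omega : B.card = A.card)
          have h5 : β * a ≤ 0 := by linarith
          have h6 : β = 0 := by
            by_contra hne
            have : 0 < β := lt_of_le_of_ne hβ0 (Ne.symm hne)
            nlinarith [mul_pos this ha0]
          rw [h6] at hcond
          simp only [sub_zero, one_pow] at hcond
          have h7 : (0 : ℝ) < (1 - 1 / N) ^ D := by
            apply pow_pos
            have : 1 / N < 1 := by
              rw [div_lt_one hN0]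
              have : (1 : ℝ) ≤ R := by exact_mod_cast hR
              linarith
            linarith
          linarith
      have hpos : (0 : ℝ) ≤ 2 ^ R * (2 * a / R) ^ D := by positivity
      calc ((indep r A).card : ℝ) ≤ (indep r (A.erase x)).card + (indep r B).card := by
            exact_mod_cast indep_split r A x
        _ ≤ 2 ^ R * ((2 * a / R) * (1 - 1 / N)) ^ D + 2 ^ R * ((2 * a / R) * (1 - β)) ^ D :=
            add_le_add h1 h2
        _ = 2 ^ R * (2 * a / R) ^ D * ((1 - 1 / N) ^ D + (1 - β) ^ D) := by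
            rw [mul_pow, mul_pow]; ring
        _ ≤ 2 ^ R * (2 * a / R) ^ D * 1 := mul_le_mul_of_nonneg_left hcond hpos
        _ = 2 ^ R * (2 * a / R) ^ D := mul_one _
        _ ≤ 2 ^ R * (max 1 (2 * a / R)) ^ D := by
            have : 2 * a / R ≤ max 1 (2 * a / R) := le_max_right _ _
            have h0 : (0 : ℝ) ≤ 2 * a / R := by positivity
            gcongr

lemma indep_union (r : α → α → Prop) (A B : Finset α) :
    (indep r (A ∪ B)).card ≤ 2 ^ A.card * (indep r B).card := by
  classical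
  rw [← card_powerset, ← card_product]
  apply card_le_card_of_injOn (fun S => (S ∩ A, S \ A))
  · intro S hS
    rw [mem_coe, mem_indep] at hS
    rw [mem_coe, mem_product, mem_powerset, mem_indep]
    refine ⟨inter_subset_right, ?_, ?_⟩
    · intro y hy
      rw [mem_sdiff] at hy
      rcases mem_union.mp (hS.1 hy.1) with h | h
      · exact absurd h hy.2
      · exact h
    · intro x hx y hy
      exact hS.2 x (mem_sdiff.mp hx).1 y (mem_sdiff.mp hy).1
  · intro S _ S' _ h
    simp only [Prod.mk.injEq] at h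
    rw [← sdiff_union_inter S A, ← sdiff_union_inter S' A, h.1, h.2]

end KW

/-! ### upper bound -/

lemma N_big (k : ℕ) (hk : 1 ≤ k) : (4 : ℝ) ^ k ≤ 2 * k * (Om k).card := by
  have := Nat.four_pow_le_two_mul_self_mul_centralBinom k (by omega)
  rw [Nat.centralBinom_eq_two_mul_choose, ← card_Om] at this
  exact_mod_cast this

/-- `N ≥ k^6` eventually -/
lemma N_ge (C : ℝ) (m : ℕ) :
    ∀ᶠ k : ℕ in Filter.atTop, C * (k : ℝ) ^ m ≤ ((Om k).card : ℝ) := by
  have h := tendsto_pow_const_mul_const_pow_of_abs_lt_one (m + 1) (r := (1 / 4 : ℝ))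
    (by rw [abs_of_pos] <;> norm_num)
  have h2 := h.const_mul (2 * C)
  rw [mul_zero] at h2
  have h3 := h2.eventually (gt_mem_nhds (show (0 : ℝ) < 1 by norm_num))
  filter_upwards [h3, Filter.eventually_ge_atTop 1] with k hk hk1
  have h4 := N_big k hk1
  have hk0 : (0 : ℝ) < k := by exact_mod_cast hk1
  have h5 : 2 * C * (k : ℝ) ^ (m + 1) ≤ 4 ^ k := by
    have : 2 * C * ((k : ℝ) ^ (m + 1) * (1 / 4) ^ k) * 4 ^ k ≤ 1 * 4 ^ k := by
      gcongr
    have e : 2 * C * ((k : ℝ) ^ (m + 1) * (1 / 4) ^ k) * 4 ^ k =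
        2 * C * (k : ℝ) ^ (m + 1) * ((1 / 4 : ℝ) ^ k * 4 ^ k) := by ring
    rw [e, ← mul_pow] at this
    norm_num at this
    exact this
  have h6 : (2 * (k : ℝ)) * (C * (k : ℝ) ^ m) ≤ (2 * (k : ℝ)) * ((Om k).card : ℝ) := by
    calc (2 * (k : ℝ)) * (C * (k : ℝ) ^ m) = 2 * C * (k : ℝ) ^ (m + 1) := by ring
      _ ≤ 4 ^ k := h5
      _ ≤ (2 * (k : ℝ)) * ((Om k).card : ℝ) := h4
  exact le_of_mul_le_mul_left h6 (by positivity)

lemma exp_small {x : ℝ} (h0 : 0 ≤ x) (h1 : x ≤ 1) : Real.exp (-x) ≤ 1 - x / 2 := by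
  have h2 := Real.add_one_le_exp x
  rw [Real.exp_neg, inv_le_comm₀ (Real.exp_pos x) (by linarith)]
  calc (1 - x / 2)⁻¹ ≤ x + 1 := by
        rw [inv_le_iff_one_le_mul₀ (by linarith)]
        nlinarith
    _ ≤ Real.exp x := h2

lemma deg_arith {k q κ N c d : ℝ} (hk0 : 0 < k) (hq0 : 0 < q) (hqr : k / 32 ≤ q) (hκ0 : 0 < κ)
    (hκ2 : κ ^ 2 = k ^ 3) (hN0 : 0 < N) (hAR : 4096 * (N / κ) ≤ c)
    (hx2 : q ^ 2 * k * c ≤ 2 * κ * N * (1 + k / q ^ 2 * d)) :
    k ^ 4 / (2 ^ 22 * κ * N) * c ≤ d := by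
  have hc0 : 0 ≤ c := le_trans (by positivity) hAR
  have h1 : 4 * κ * N ≤ q ^ 2 * k * c := by
    calc 4 * κ * N = ((k / 32) ^ 2 * k) * (4096 * (N / κ)) := by
          have : (k / 32) ^ 2 * k = κ ^ 2 / 1024 := by rw [hκ2]; ring
          rw [this]; field_simp; ring
      _ ≤ q ^ 2 * k * c := by gcongr
  have h2 : q ^ 2 * k * c / 2 ≤ 2 * κ * N * (k / q ^ 2 * d) := by
    nlinarith
  have h3 : q ^ 4 * c ≤ 4 * κ * N * d := by
    have h4 : q ^ 2 * k * c / 2 * (2 * q ^ 2 / k) ≤
        2 * κ * N * (k / q ^ 2 * d) * (2 * q ^ 2 / k) := by gcongr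
    have e1 : q ^ 2 * k * c / 2 * (2 * q ^ 2 / k) = q ^ 4 * c := by
      field_simp
    have e2 : 2 * κ * N * (k / q ^ 2 * d) * (2 * q ^ 2 / k) = 4 * κ * N * d := by
      field_simp; ring
    rwa [e1, e2] at h4
  have h5 : (k / 32) ^ 4 * c ≤ 4 * κ * N * d := by
    refine le_trans ?_ h3
    gcongr
  rw [div_mul_eq_mul_div, div_le_iff₀ (by positivity)]
  calc k ^ 4 * c = 2 ^ 20 * ((k / 32) ^ 4 * c) := by ring
    _ ≤ 2 ^ 20 * (4 * κ * N * d) := by gcongr
    _ = d * (2 ^ 22 * κ * N) := by ring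

theorem count_upper : ∃ k₀ : ℕ, ∀ k ≥ k₀,
    Real.logb 2 ((indep lt (Om k)).card : ℝ) ≤ 5000 * ((Om k).card / Real.sqrt ((k : ℝ) ^ 3)) := by
  obtain ⟨k₁, hk₁⟩ := Filter.eventually_atTop.mp eventually_small
  obtain ⟨k₂, hk₂⟩ := Filter.eventually_atTop.mp (N_ge 1000 5)
  obtain ⟨Kc, hKc⟩ : ∃ Kc : ℝ, Kc = 2 * (2 ^ 132 * 720) := ⟨_, rfl⟩
  obtain ⟨k₃, hk₃⟩ := Filter.eventually_atTop.mp
    (tendsto_natCast_atTop_atTop.eventually_ge_atTop Kc)
  refine ⟨max (max k₁ k₂) (max k₃ 64), ?_⟩
  intro k hk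
  have hk1 : k₁ ≤ k := le_trans (le_trans (le_max_left _ _) (le_max_left _ _)) hk
  have hk2 : k₂ ≤ k := le_trans (le_trans (le_max_right _ _) (le_max_left _ _)) hk
  have hk3 : k₃ ≤ k := le_trans (le_trans (le_max_left _ _) (le_max_right _ _)) hk
  have h64 : 64 ≤ k := le_trans (le_trans (le_max_right _ _) (le_max_right _ _)) hk
  have hkr : Kc ≤ k := hk₃ k hk3
  have hsmall := hk₁ k hk1
  have hNbig := hk₂ k hk2
  obtain ⟨N, hN⟩ : ∃ N : ℝ, N = ((Om k).card : ℝ) := ⟨_, rfl⟩
  rw [← hN] at hNbig ⊢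
  set q := k / 16 with hq
  have hq1 : 1 ≤ q := by omega
  have hqk : q ≤ k := by omega
  have hq2 : k ≤ 32 * q := by omega
  have hm : 2 * (4 * q + 4) ≤ k := by omega
  have hk1' : (1 : ℝ) ≤ k := by exact_mod_cast (by omega : 1 ≤ k)
  have hk0 : (0 : ℝ) < k := by linarith
  set κ := Real.sqrt ((k : ℝ) ^ 3) with hκ
  have hκ2 : κ ^ 2 = (k : ℝ) ^ 3 := Real.sq_sqrt (by positivity)
  have hκ0 : 0 < κ := Real.sqrt_pos.mpr (by positivity)
  have hκk : κ ≤ (k : ℝ) ^ 2 := by
    rw [hκ]
    apply Real.sqrt_le_iff.mpr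
    refine ⟨by positivity, ?_⟩
    nlinarith [pow_pos hk0 3]
  have hkκ : (k : ℝ) ≤ κ := by
    rw [hκ]
    apply Real.le_sqrt_of_sq_le
    nlinarith [pow_pos hk0 2]
  have hN0 : 0 < N := lt_of_lt_of_le (by positivity) hNbig
  have hNκ : (1000 : ℝ) * k ^ 3 ≤ N / κ := by
    rw [le_div_iff₀ hκ0]
    calc 1000 * (k : ℝ) ^ 3 * κ ≤ 1000 * (k : ℝ) ^ 3 * k ^ 2 := by gcongr
      _ = 1000 * (k : ℝ) ^ 5 := by ring
      _ ≤ N := hNbig
  -- typical elements
  set Ty := (Om k).filter (fun A => 4 * q + 4 ≤ (Ch k A).card) with hTy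
  have hsplit : Om k = few k (4 * q + 4) ∪ Ty := by
    ext A
    rw [mem_union, few, hTy, mem_filter, mem_filter]
    constructor
    · intro h
      by_cases h' : 4 * q + 4 ≤ (Ch k A).card
      · exact Or.inr ⟨h, h'⟩
      · exact Or.inl ⟨h, by omega⟩
    · rintro (h | h)
      · exact h.1
      · exact h.1
  -- few
  have hfew : ((few k (4 * q + 4)).card : ℝ) ≤ N / κ := by
    have h1 := card_few_le (m := 4 * q + 4) (k := k) (by omega) hm
    rw [← hN] at h1
    rw [le_div_iff₀ hκ0]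
    have h4 : 4 * (k : ℝ) * (25 / 32) ^ k * κ ≤ 1 := by
      calc 4 * (k : ℝ) * (25 / 32) ^ k * κ ≤ 4 * (k : ℝ) * (25 / 32) ^ k * (k : ℝ) ^ 2 := by
            gcongr
        _ = (8 * (k : ℝ) ^ 3 * (25 / 32) ^ k) / 2 := by ring
        _ ≤ 1 := by linarith
    calc ((few k (4 * q + 4)).card : ℝ) * κ ≤ (4 * k * (25 / 32) ^ k * N) * κ := by gcongr
      _ = (4 * (k : ℝ) * (25 / 32) ^ k * κ) * N := by ring
      _ ≤ 1 * N := by gcongr
      _ = N := one_mul N
  -- parameters
  set R : ℕ := ⌈4096 * (N / κ)⌉₊ with hR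
  set D : ℕ := ⌈N / (k : ℝ) ^ 2⌉₊ with hD
  set β : ℝ := (k : ℝ) ^ 4 / (2 ^ 22 * κ * N) with hβ
  have hRlow : 4096 * (N / κ) ≤ R := Nat.le_ceil _
  have hRup : (R : ℝ) ≤ 4096 * (N / κ) + 1 := (Nat.ceil_lt_add_one (by positivity)).le
  have hDlow : N / (k : ℝ) ^ 2 ≤ D := Nat.le_ceil _
  have hDup : (D : ℝ) ≤ N / (k : ℝ) ^ 2 + 1 := (Nat.ceil_lt_add_one (by positivity)).le
  have hR1 : 1 ≤ R := by
    have : (1 : ℝ) ≤ R := by
      have : (1 : ℝ) ≤ 1000 * k ^ 3 := by nlinarith [pow_le_pow_right₀ hk1' (show 1 ≤ 3 by norm_num)]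
      linarith
    exact_mod_cast this
  have hβ0 : 0 ≤ β := by positivity
  have hβ1 : β ≤ 1 / 2 := by
    rw [hβ, div_le_iff₀ (by positivity)]
    have h1 : (k : ℝ) ^ 4 ≤ N := by
      refine le_trans ?_ hNbig
      have : (k : ℝ) ^ 4 ≤ k ^ 5 := pow_le_pow_right₀ hk1' (by norm_num)
      have h5 : (0 : ℝ) ≤ k ^ 5 := by positivity
      linarith
    have h2 : 1 * N ≤ κ * N := by
      apply mul_le_mul_of_nonneg_right _ hN0.le
      linarith
    linarith
  have hcond : (1 - 1 / N) ^ D + (1 - β) ^ D ≤ 1 := by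
    have hN1 : 1 ≤ N := by
      refine le_trans ?_ hNbig
      have : (1 : ℝ) ≤ k ^ 5 := one_le_pow₀ hk1'
      linarith
    have e1 : (1 - 1 / N) ^ D ≤ 1 - (1 / (k : ℝ) ^ 2) / 2 := by
      have h1 : (1 - 1 / N) ^ D ≤ (Real.exp (-(1 / N))) ^ D := by
        apply pow_le_pow_left₀
        · have : 1 / N ≤ 1 := by rw [div_le_one hN0]; exact hN1
          linarith
        · exact Real.one_sub_le_exp_neg _
      rw [← Real.exp_nat_mul] at h1
      have h2 : (D : ℝ) * (-(1 / N)) ≤ -(1 / (k : ℝ) ^ 2) := by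
        have : (1 / (k : ℝ) ^ 2) ≤ D * (1 / N) := by
          calc (1 / (k : ℝ) ^ 2) = (N / (k : ℝ) ^ 2) * (1 / N) := by field_simp
            _ ≤ D * (1 / N) := by gcongr
        linarith
      have h3 : Real.exp ((D : ℝ) * (-(1 / N))) ≤ Real.exp (-(1 / (k : ℝ) ^ 2)) :=
        Real.exp_le_exp.mpr h2
      have h4 : Real.exp (-(1 / (k : ℝ) ^ 2)) ≤ 1 - (1 / (k : ℝ) ^ 2) / 2 := by
        apply exp_small (by positivity)
        rw [div_le_one (by positivity)]
        exact one_le_pow₀ hk1'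
      linarith
    have e2 : (1 - β) ^ D ≤ (1 / (k : ℝ) ^ 2) / 2 := by
      have h1 : (1 - β) ^ D ≤ (Real.exp (-β)) ^ D := by
        apply pow_le_pow_left₀
        · linarith
        · exact Real.one_sub_le_exp_neg _
      rw [← Real.exp_nat_mul] at h1
      -- y = k²/(2^22 κ)
      set y : ℝ := (k : ℝ) ^ 2 / (2 ^ 22 * κ) with hy
      have hy0 : 0 ≤ y := by positivity
      have h2 : (D : ℝ) * (-β) ≤ -y := by
        have : y ≤ D * β := by
          calc y = (N / (k : ℝ) ^ 2) * β := by rw [hy, hβ]; field_simp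
            _ ≤ D * β := by gcongr
        linarith
      have h3 : Real.exp ((D : ℝ) * (-β)) ≤ Real.exp (-y) := Real.exp_le_exp.mpr h2
      have h4 : Real.exp (-y) ≤ (1 / (k : ℝ) ^ 2) / 2 := by
        have hy6 : y ^ 6 / 720 ≤ Real.exp y := by
          have := Real.pow_div_factorial_le_exp y hy0 6
          have e : ((Nat.factorial 6 : ℕ) : ℝ) = 720 := by norm_num [Nat.factorial]
          rwa [e] at this
        have hy2 : y ^ 2 = k / 2 ^ 44 := by
          rw [hy, div_pow, mul_pow, hκ2]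
          field_simp
        have hy6' : y ^ 6 = (k : ℝ) ^ 3 / 2 ^ 132 := by
          have : y ^ 6 = (y ^ 2) ^ 3 := by ring
          rw [this, hy2, div_pow]
          norm_num
        have h5 : 2 * (k : ℝ) ^ 2 ≤ Real.exp y := by
          refine le_trans ?_ hy6
          rw [hy6', div_div, le_div_iff₀ (by positivity)]
          have h6 : (2 : ℝ) * (2 ^ 132 * 720) ≤ k := by rw [← hKc]; exact hkr
          calc 2 * (k : ℝ) ^ 2 * (2 ^ 132 * 720) = (2 * (2 ^ 132 * 720)) * (k : ℝ) ^ 2 := by ring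
            _ ≤ k * (k : ℝ) ^ 2 := by gcongr
            _ = (k : ℝ) ^ 3 := by ring
        rw [Real.exp_neg, div_div, one_div]
        apply inv_anti₀ (by positivity)
        linarith
      linarith
    linarith
  -- degree condition
  have hdeg : ∀ A ⊆ Ty, R < A.card → ∃ x ∈ A,
      β * A.card ≤ ((A.filter (fun z => lt x z)).card : ℝ) := by
    intro A hA hcard
    have hne : A.Nonempty := card_pos.mp (by omega)
    obtain ⟨x, hx, hx2⟩ := deg_main (hA.trans (filter_subset _ _)) hq1 hqk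
      (fun z hz => (mem_filter.mp (hA hz)).2) hne
    refine ⟨x, hx, ?_⟩
    have hd : (deg A x : ℝ) = ((A.filter (fun z => lt x z)).card : ℝ) := rfl
    rw [← hd]
    have hqr : (k : ℝ) / 32 ≤ q := by
      have : (k : ℝ) ≤ 32 * q := by exact_mod_cast hq2
      linarith
    have hq0 : (0 : ℝ) < q := by exact_mod_cast hq1
    have hAR : 4096 * (N / κ) ≤ A.card := by
      have : (R : ℝ) ≤ A.card := by exact_mod_cast hcard.le
      linarith
    rw [← hκ, ← hN] at hx2
    exact deg_arith hk0 hq0 hqr hκ0 hκ2 hN0 hAR hx2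
  have hTyN : (Ty.card : ℝ) ≤ N := by
    rw [hN]; exact_mod_cast card_le_card (filter_subset _ _)
  have hkw := kw lt Ty R D β N hR1 hβ0 hβ1 hTyN hcond hdeg Ty.card Ty (Subset.refl _) rfl
  -- final estimate
  have hmax : max 1 (2 * (Ty.card : ℝ) / (R : ℝ)) ≤ (k : ℝ) ^ 2 := by
    have hR0 : (0 : ℝ) < R := by exact_mod_cast hR1
    apply max_le (one_le_pow₀ hk1')
    rw [div_le_iff₀ hR0]
    calc 2 * (Ty.card : ℝ) ≤ 2 * N := by linarith
      _ ≤ κ * (4096 * (N / κ)) := by
          have : κ * (4096 * (N / κ)) = 4096 * N := by field_simp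
          rw [this]; linarith
      _ ≤ (k : ℝ) ^ 2 * R := by gcongr
  have hcount : ((indep lt (Om k)).card : ℝ) ≤
      2 ^ (few k (4 * q + 4)).card * (2 ^ R * ((k : ℝ) ^ 2) ^ D) := by
    have h1 := indep_union lt (few k (4 * q + 4)) Ty
    rw [← hsplit] at h1
    calc ((indep lt (Om k)).card : ℝ) ≤ 2 ^ (few k (4 * q + 4)).card * (indep lt Ty).card := by
          exact_mod_cast h1
      _ ≤ 2 ^ (few k (4 * q + 4)).card *
            (2 ^ R * (max 1 (2 * (Ty.card : ℝ) / (R : ℝ))) ^ D) := by gcongr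
      _ ≤ 2 ^ (few k (4 * q + 4)).card * (2 ^ R * ((k : ℝ) ^ 2) ^ D) := by
          have e0 : (0 : ℝ) ≤ max 1 (2 * (Ty.card : ℝ) / (R : ℝ)) :=
            le_trans zero_le_one (le_max_left _ _)
          gcongr
  have hpos : (0 : ℝ) < (indep lt (Om k)).card := by
    have : (∅ : Finset (Finset ℕ)) ∈ indep lt (Om k) := by
      rw [mem_indep]; simp
    exact_mod_cast card_pos.mpr ⟨_, this⟩
  have hlog : Real.logb 2 ((indep lt (Om k)).card : ℝ) ≤
      (few k (4 * q + 4)).card + (R + D * (2 * Real.logb 2 k)) := by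
    have h1 := Real.logb_le_logb_of_le (by norm_num : (1 : ℝ) < 2) hpos hcount
    refine h1.trans (le_of_eq ?_)
    rw [Real.logb_mul (by positivity) (by positivity), Real.logb_mul (by positivity) (by positivity),
      Real.logb_pow, Real.logb_pow, Real.logb_pow, Real.logb_pow,
      Real.logb_self_eq_one (by norm_num)]
    push_cast
    ring
  -- log k ≤ 2 √k
  have hlogk : Real.logb 2 k ≤ 3 * Real.sqrt k := by
    have hs0 : 0 < Real.sqrt k := Real.sqrt_pos.mpr hk0
    have h1 : Real.log (Real.sqrt k) ≤ Real.sqrt k - 1 := Real.log_le_sub_one_of_pos hs0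
    have h2 : Real.log (k : ℝ) = 2 * Real.log (Real.sqrt k) := by
      rw [Real.log_sqrt hk0.le]; ring
    have h3 : (0.6931471803 : ℝ) < Real.log 2 := Real.log_two_gt_d9
    rw [Real.logb, div_le_iff₀ (by linarith)]
    have h4 : 3 * Real.sqrt k * 0.6931471803 ≤ 3 * Real.sqrt k * Real.log 2 := by gcongr
    nlinarith
  have hsk : Real.sqrt k * κ = (k : ℝ) ^ 2 := by
    rw [hκ, ← Real.sqrt_mul hk0.le]
    have : (k : ℝ) * k ^ 3 = (k ^ 2) ^ 2 := by ring
    rw [this, Real.sqrt_sq (by positivity)]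
  have hDlog : D * (2 * Real.logb 2 k) ≤ 7 * (N / κ) := by
    have hs0 : 0 < Real.sqrt k := Real.sqrt_pos.mpr hk0
    have hsk1 : Real.sqrt k ≤ k := by
      rw [Real.sqrt_le_iff]
      exact ⟨hk0.le, by nlinarith⟩
    have e1 : N / (k : ℝ) ^ 2 * Real.sqrt k = N / κ := by
      rw [← hsk]; field_simp
    have hlog0 : 0 ≤ Real.logb 2 k := Real.logb_nonneg (by norm_num) hk1'
    calc D * (2 * Real.logb 2 k) ≤ (N / (k : ℝ) ^ 2 + 1) * (2 * (3 * Real.sqrt k)) := by
          gcongr
      _ = 6 * (N / (k : ℝ) ^ 2 * Real.sqrt k) + 6 * Real.sqrt k := by ring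
      _ = 6 * (N / κ) + 6 * Real.sqrt k := by rw [e1]
      _ ≤ 7 * (N / κ) := by
          have h3 : (k : ℝ) ≤ k ^ 3 := by
            calc (k : ℝ) = k ^ 1 := (pow_one _).symm
              _ ≤ k ^ 3 := pow_le_pow_right₀ hk1' (by norm_num)
          linarith
  have hone : (1 : ℝ) ≤ N / κ := by
    have h3 : (1 : ℝ) ≤ k ^ 3 := one_le_pow₀ hk1'
    linarith
  calc Real.logb 2 ((indep lt (Om k)).card : ℝ)
      ≤ (few k (4 * q + 4)).card + (R + D * (2 * Real.logb 2 k)) := hlog
    _ ≤ N / κ + ((4096 * (N / κ) + 1) + 7 * (N / κ)) := by gcongr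
    _ ≤ 5000 * (N / κ) := by linarith

end Pool.Agent.V11182.LCount
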