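import Mathlib
import Pool.Agent.V11182.LTransfer

/-! A large rank level in `L(k,k)`, and surjectivity of the transfer map. -/

namespace Pool.Agent.V11182.LLower

open Finset Pool.Agent.V11182.LFlow Pool.Agent.V11182.LTransfer

lemma h_rk {k : ℕ} {A : Finset ℕ} (hA : A ∈ Om k) :
    h k A = 2 * (rk A : ℝ) + k - 2 * (k : ℝ) ^ 2 := by
  rw [h_eq hA]
  have h1 : ∑ i ∈ A, (2 * (i : ℝ) + 1 - 2 * k) = 2 * ∑ i ∈ A, (i : ℝ) + A.card * (1 - 2 * k) := by
    rw [mul_sum, ← nsmul_eq_mul, ← sum_const, ← sum_add_distrib]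
    apply sum_congr rfl
    intro i _
    ring
  rw [h1, (mem_Om.mp hA).2, rk]
  push_cast
  ring

lemma level_big (k : ℕ) (hk : 1 ≤ k) : ∃ r : ℕ,
    3 / 20 * ((Om k).card / Real.sqrt ((k : ℝ) ^ 3)) ≤
      (((Om k).filter (fun A => rk A = r)).card : ℝ) := by
  have hk1 : (1 : ℝ) ≤ k := by exact_mod_cast hk
  obtain ⟨κ, hκ⟩ : ∃ κ : ℝ, κ = Real.sqrt ((k : ℝ) ^ 3) := ⟨_, rfl⟩
  obtain ⟨N, hN⟩ : ∃ N : ℝ, N = ((Om k).card : ℝ) := ⟨_, rfl⟩
  have hκ2 : κ ^ 2 = (k : ℝ) ^ 3 := by rw [hκ]; exact Real.sq_sqrt (by positivity)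
  have hκ1 : 1 ≤ κ := by
    rw [hκ]
    exact Real.one_le_sqrt.mpr (one_le_pow₀ hk1)
  have hN0 : 0 ≤ N := by rw [hN]; positivity
  rw [← hκ, ← hN]
  by_contra hcon
  push Not at hcon
  set S1 := (Om k).filter (fun A => |h k A| < 4 * κ) with hS1
  set S2 := (Om k).filter (fun A => ¬ |h k A| < 4 * κ) with hS2
  have hcard : (S1.card : ℝ) + S2.card = N := by
    rw [hN]
    exact_mod_cast card_filter_add_card_filter_not (s := Om k) (fun A => |h k A| < 4 * κ)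
  have hS2c : (S2.card : ℝ) ≤ N / 4 := by
    have h1 : (S2.card : ℝ) * (16 * κ ^ 2) ≤ 4 * κ ^ 2 * N := by
      calc (S2.card : ℝ) * (16 * κ ^ 2) = ∑ A ∈ S2, 16 * κ ^ 2 := by
            rw [sum_const, nsmul_eq_mul]
        _ ≤ ∑ A ∈ S2, h k A ^ 2 := by
            apply sum_le_sum
            intro A hA
            have h2 : 4 * κ ≤ |h k A| := not_lt.mp (mem_filter.mp hA).2
            rw [← sq_abs (h k A)]
            nlinarith
        _ ≤ ∑ A ∈ Om k, h k A ^ 2 :=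
            sum_le_sum_of_subset_of_nonneg (filter_subset _ _) (fun _ _ _ => sq_nonneg _)
        _ ≤ 4 * (k : ℝ) ^ 3 * (Om k).card := sum_h_sq k
        _ = 4 * κ ^ 2 * N := by rw [hκ2, hN]
    have h3 : 0 < κ ^ 2 := by positivity
    nlinarith
  have hS1c : 3 / 4 * N ≤ S1.card := by linarith
  obtain ⟨m, hm⟩ : ∃ m : ℝ, m = (k : ℝ) ^ 2 - k / 2 := ⟨_, rfl⟩
  have hmaps : ∀ A ∈ S1, rk A ∈ Icc ⌈m - 2 * κ⌉₊ ⌊m + 2 * κ⌋₊ := by
    intro A hA
    rw [hS1, mem_filter] at hA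
    have h1 := h_rk hA.1
    have h2 := abs_lt.mp hA.2
    rw [mem_Icc]
    constructor
    · apply Nat.ceil_le.mpr
      rw [hm]
      linarith
    · apply Nat.le_floor
      rw [hm]
      linarith
  have hsum := card_eq_sum_card_fiberwise (f := rk) (s := S1)
    (t := Icc ⌈m - 2 * κ⌉₊ ⌊m + 2 * κ⌋₊) hmaps
  have hm0 : 0 ≤ m + 2 * κ := by
    rw [hm]; nlinarith
  have hIcc : ((Icc ⌈m - 2 * κ⌉₊ ⌊m + 2 * κ⌋₊).card : ℝ) ≤ 4 * κ + 1 := by
    rw [Nat.card_Icc]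
    have h1 : m - 2 * κ ≤ ⌈m - 2 * κ⌉₊ := Nat.le_ceil _
    have h2 : (⌊m + 2 * κ⌋₊ : ℝ) ≤ m + 2 * κ := Nat.floor_le hm0
    rcases le_total ⌈m - 2 * κ⌉₊ (⌊m + 2 * κ⌋₊ + 1) with h3 | h3
    · rw [Nat.cast_sub h3]
      push_cast
      linarith
    · rw [Nat.sub_eq_zero_of_le h3]
      push_cast
      linarith
  obtain ⟨c, hc⟩ : ∃ c : ℝ, c = 3 / 20 * (N / κ) := ⟨_, rfl⟩
  rw [← hc] at hcon
  have hne : (Icc ⌈m - 2 * κ⌉₊ ⌊m + 2 * κ⌋₊).Nonempty ∨ S1 = ∅ := by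
    by_cases h1 : S1 = ∅
    · exact Or.inr h1
    · obtain ⟨A, hA⟩ := nonempty_iff_ne_empty.mpr h1
      exact Or.inl ⟨_, hmaps A hA⟩
  have hkey : (S1.card : ℝ) ≤ (4 * κ + 1) * c ∧ ((S1.card : ℝ) < (4 * κ + 1) * c ∨ S1 = ∅) := by
    have h1 : ∀ r : ℕ, ((S1.filter (fun A => rk A = r)).card : ℝ) < c := by
      intro r
      refine lt_of_le_of_lt ?_ (hcon r)
      exact_mod_cast card_le_card (filter_subset_filter _ (filter_subset _ _))
    have hc0 : 0 < c := lt_of_le_of_lt (Nat.cast_nonneg _) (h1 0)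
    have h2 : (S1.card : ℝ) = ∑ r ∈ Icc ⌈m - 2 * κ⌉₊ ⌊m + 2 * κ⌋₊,
        ((S1.filter (fun A => rk A = r)).card : ℝ) := by
      rw [hsum]; push_cast; rfl
    have h3 : (S1.card : ℝ) ≤ (4 * κ + 1) * c := by
      rw [h2]
      calc ∑ r ∈ Icc ⌈m - 2 * κ⌉₊ ⌊m + 2 * κ⌋₊, ((S1.filter (fun A => rk A = r)).card : ℝ)
          ≤ ∑ r ∈ Icc ⌈m - 2 * κ⌉₊ ⌊m + 2 * κ⌋₊, c := sum_le_sum (fun r _ => (h1 r).le)
        _ = ((Icc ⌈m - 2 * κ⌉₊ ⌊m + 2 * κ⌋₊).card : ℝ) * c := by rw [sum_const, nsmul_eq_mul]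
        _ ≤ (4 * κ + 1) * c := by gcongr
    refine ⟨h3, ?_⟩
    rcases hne with h4 | h4
    · left
      rw [h2]
      calc ∑ r ∈ Icc ⌈m - 2 * κ⌉₊ ⌊m + 2 * κ⌋₊, ((S1.filter (fun A => rk A = r)).card : ℝ)
          < ∑ r ∈ Icc ⌈m - 2 * κ⌉₊ ⌊m + 2 * κ⌋₊, c := sum_lt_sum_of_nonempty h4 (fun r _ => h1 r)
        _ = ((Icc ⌈m - 2 * κ⌉₊ ⌊m + 2 * κ⌋₊).card : ℝ) * c := by rw [sum_const, nsmul_eq_mul]
        _ ≤ (4 * κ + 1) * c := by gcongr
    · exact Or.inr h4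
  have hlast : (4 * κ + 1) * c ≤ 3 / 4 * N := by
    rw [hc]
    have h1 : (4 * κ + 1) * (3 / 20 * (N / κ)) ≤ (5 * κ) * (3 / 20 * (N / κ)) := by
      apply mul_le_mul_of_nonneg_right _ (by positivity)
      linarith
    have h2 : (5 * κ) * (3 / 20 * (N / κ)) = 3 / 4 * N := by
      have : κ ≠ 0 := by positivity
      field_simp
      ring
    linarith
  rcases hkey.2 with h1 | h1
  · linarith
  · -- N = 0 then c = 0, but some fibre has card < c
    have h2 : ((S1.card : ℕ) : ℝ) = 0 := by rw [h1]; simp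
    have h3 : N ≤ 0 := by linarith
    have h4 : N = 0 := le_antisymm h3 hN0
    have h5 := hcon 0
    rw [hc, h4] at h5
    simp at h5
    exact absurd h5 (not_lt.mpr (Nat.cast_nonneg _))

/-! ### surjectivity -/

lemma strictMono_add {k : ℕ} (f : Fin k → ℕ) (hf : StrictMono f) :
    ∀ n : ℕ, ∀ i j : Fin k, (i : ℕ) + n = j → f i + n ≤ f j := by
  intro n
  induction n with
  | zero =>
    intro i j hij
    have : i = j := Fin.ext (by omega)
    subst this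
    omega
  | succ n ih =>
    intro i j hij
    have hj := j.2
    have h1 := ih i ⟨(i : ℕ) + n, by omega⟩ rfl
    have h2 : f ⟨(i : ℕ) + n, by omega⟩ < f j := by
      apply hf
      change (i : ℕ) + n < j
      omega
    omega

lemma phi_surj {k : ℕ} {A : Finset ℕ} (hA : A ∈ Om k) :
    ∃ x : Fin k → Fin (k + 1), Monotone x ∧ phi k x = A := by
  rw [mem_Om] at hA
  set a := A.orderEmbOfFin hA.2 with ha
  have hmono : StrictMono a := a.strictMono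
  have hlt : ∀ i, a i < 2 * k := fun i => mem_range.mp (hA.1 (A.orderEmbOfFin_mem hA.2 i))
  have h1 : ∀ i : Fin k, (i : ℕ) ≤ a i := by
    intro i
    have hi := i.2
    have := strictMono_add a hmono (i : ℕ) ⟨0, by omega⟩ i (by simp)
    omega
  have h2 : ∀ i : Fin k, a i ≤ k + i := by
    intro i
    have hi := i.2
    have := strictMono_add a hmono (k - 1 - i) i ⟨k - 1, by omega⟩ (by simp; omega)
    have h3 := hlt ⟨k - 1, by omega⟩
    omega
  refine ⟨fun i => ⟨a i - i, by have := h2 i; omega⟩, ?_, ?_⟩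
  · intro i j hij
    have hij' : (i : ℕ) ≤ j := hij
    have := strictMono_add a hmono ((j : ℕ) - i) i j (by omega)
    change a i - (i : ℕ) ≤ a j - (j : ℕ)
    have := h1 i
    omega
  · have h3 : ∀ i : Fin k, (i : ℕ) + (a i - i) = a i := by
      intro i; have := h1 i; omega
    unfold phi
    simp only [h3]
    ext y
    rw [mem_image]
    constructor
    · rintro ⟨i, _, rfl⟩
      exact A.orderEmbOfFin_mem hA.2 i
    · intro hy
      have : y ∈ Set.range a := by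
        rw [ha, range_orderEmbOfFin]
        exact hy
      obtain ⟨i, hi⟩ := this
      exact ⟨i, mem_univ _, hi⟩

lemma rk_phi {k : ℕ} {x : Fin k → Fin (k + 1)} (hx : Monotone x) :
    rk (phi k x) = ∑ i : Fin k, ((i : ℕ) + (x i : ℕ)) := by
  rw [rk, phi, sum_image (fun i _ j _ h => inj hx h)]

lemma rk_lt {k : ℕ} {x y : Fin k → Fin (k + 1)} (hx : Monotone x) (hy : Monotone y)
    (h : x < y) : rk (phi k x) < rk (phi k y) := by
  rw [rk_phi hx, rk_phi hy]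
  obtain ⟨hle, i, hi⟩ := Pi.lt_def.mp h
  apply sum_lt_sum
  · intro j _
    have : (x j : ℕ) ≤ y j := hle j
    omega
  · refine ⟨i, mem_univ _, ?_⟩
    have : (x i : ℕ) < y i := hi
    omega

end Pool.Agent.V11182.LLower
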