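import Mathlib

/-!
# Completary multifuncoids

The poset of completary multifuncoids of the form `(𝒫 ℕ)^ℕ` has a non-least element with no
atom below it.
-/

namespace Pool.Agent.V11182.Multifuncoid

/-- Completary multifuncoids of the form `(𝒫 U)^n`. -/
structure IsCompletary {U n : Type} (f : Set (n → Set U)) : Prop where
  /-- `L₀ ∪ L₁ ∈ f` iff some mixture of `L₀` and `L₁` belongs to `f`. -/
  union_mem_iff : ∀ L : Fin 2 → n → Set U,
    (fun i => L 0 i ∪ L 1 i) ∈ f ↔ ∃ c : n → Fin 2, (fun i => L (c i) i) ∈ f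
  /-- no member of `f` has an empty component -/
  not_mem_of_empty : ∀ L : n → Set U, (∃ i, L i = ∅) → L ∉ f

/-- The poset of completary multifuncoids of the form `(𝒫 U)^n`, ordered by inclusion. -/
abbrev CM (U n : Type) : Type := {f : Set (n → Set U) // IsCompletary f}

/-- The empty set is a completary multifuncoid, and it is the least one. -/
instance (U n : Type) : OrderBot (CM U n) where
  bot := ⟨∅, ⟨fun L => by simp, fun L _ h => h⟩⟩
  bot_le := fun f => Set.empty_subset f.1

lemma up {U n : Type} {f : Set (n → Set U)} (hf : IsCompletary f) {A B : n → Set U}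
    (hA : A ∈ f) (hAB : ∀ i, A i ⊆ B i) : B ∈ f := by
  have h := (hf.union_mem_iff ![A, B]).mpr ⟨fun _ => 0, by simpa using hA⟩
  have e : (fun i => (![A, B] : Fin 2 → n → Set U) 0 i ∪ (![A, B] : Fin 2 → n → Set U) 1 i) = B := by
    funext i
    simp [Set.union_eq_self_of_subset_left (hAB i)]
  rwa [e] at h

lemma mix {U n : Type} {f : Set (n → Set U)} (hf : IsCompletary f) {A B C : n → Set U}
    (hC : C ∈ f) (h : ∀ i, C i = A i ∪ B i) : ∃ D ∈ f, ∀ i, D i = A i ∨ D i = B i := by
  have e : (fun i => (![A, B] : Fin 2 → n → Set U) 0 i ∪ (![A, B] : Fin 2 → n → Set U) 1 i) = C := by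
    funext i
    simp [h i]
  have h1 := (hf.union_mem_iff ![A, B]).mp (by rw [e]; exact hC)
  obtain ⟨c, hc⟩ := h1
  refine ⟨_, hc, fun i => ?_⟩
  have : ∀ j : Fin 2, (![A, B] : Fin 2 → n → Set U) j i = A i ∨
      (![A, B] : Fin 2 → n → Set U) j i = B i := by
    intro j
    fin_cases j <;> simp
  exact this (c i)

/-- restriction of a completary multifuncoid -/
lemma restrict {U n : Type} {g : Set (n → Set U)} (hg : IsCompletary g) (L : n → Set U) :
    IsCompletary {A : n → Set U | (fun i => A i ∩ L i) ∈ g} := by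
  constructor
  · intro M
    have := hg.union_mem_iff (fun j i => M j i ∩ L i)
    simp only [Set.mem_ofPred_eq]
    rw [← this]
    simp only [Set.union_inter_distrib_right]
  · rintro M ⟨i, hi⟩ h
    exact hg.not_mem_of_empty _ ⟨i, by simp [hi]⟩ h

/-- atoms are closed under componentwise intersection -/
lemma atom_inter {U n : Type} {g : CM U n} (hg : IsAtom g) {A L : n → Set U}
    (hA : A ∈ g.1) (hL : L ∈ g.1) : (fun i => A i ∩ L i) ∈ g.1 := by
  let gL : CM U n := ⟨{A : n → Set U | (fun i => A i ∩ L i) ∈ g.1}, restrict g.2 L⟩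
  have hle : gL ≤ g := by
    intro B hB
    exact up g.2 hB (fun i => Set.inter_subset_left)
  have hne : gL ≠ ⊥ := by
    intro h
    have h1 : L ∈ gL.1 := by
      change (fun i => L i ∩ L i) ∈ g.1
      simpa using hL
    rw [h] at h1
    exact h1
  have heq : gL = g := by
    by_contra h
    exact hne (hg.2 gL (lt_of_le_of_ne hle h))
  have : A ∈ gL.1 := by rw [heq]; exact hA
  exact this

/-- the completary multifuncoid without atoms below it -/
def F : Set (ℕ → Set ℕ) :=
  {A | (∀ i, (A i ∩ Set.Iic i).Nonempty) ∧ ∀ m : ℕ, ∃ i, m ≤ (A i ∩ Set.Iic i).ncard}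

lemma fin_inter (S : Set ℕ) (i : ℕ) : (S ∩ Set.Iic i).Finite :=
  (Set.finite_Iic i).subset Set.inter_subset_right

lemma F_compl : IsCompletary F := by
  classical
  constructor
  · intro L
    constructor
    · rintro ⟨h1, h2⟩
      let c : ℕ → Fin 2 := fun i =>
        if (L 1 i ∩ Set.Iic i).ncard ≤ (L 0 i ∩ Set.Iic i).ncard then 0 else 1
      have hc : ∀ i, ((L 0 i ∪ L 1 i) ∩ Set.Iic i).ncard ≤ 2 * (L (c i) i ∩ Set.Iic i).ncard := by
        intro i
        have h3 : ((L 0 i ∪ L 1 i) ∩ Set.Iic i).ncard ≤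
            (L 0 i ∩ Set.Iic i).ncard + (L 1 i ∩ Set.Iic i).ncard := by
          rw [Set.union_inter_distrib_right]
          exact Set.ncard_union_le _ _
        by_cases h4 : (L 1 i ∩ Set.Iic i).ncard ≤ (L 0 i ∩ Set.Iic i).ncard
        · have : c i = 0 := if_pos h4
          rw [this]; omega
        · have : c i = 1 := if_neg h4
          rw [this]; omega
      refine ⟨c, ?_, ?_⟩
      · intro i
        have h3 : 0 < ((L 0 i ∪ L 1 i) ∩ Set.Iic i).ncard :=
          (Set.ncard_pos (fin_inter _ i)).mpr (h1 i)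
        have h4 := hc i
        have h5 : 0 < (L (c i) i ∩ Set.Iic i).ncard := by omega
        exact (Set.ncard_pos (fin_inter _ i)).mp h5
      · intro m
        obtain ⟨i, hi⟩ := h2 (2 * m)
        refine ⟨i, ?_⟩
        have h4 := hc i
        change 2 * m ≤ ((L 0 i ∪ L 1 i) ∩ Set.Iic i).ncard at hi
        change m ≤ (L (c i) i ∩ Set.Iic i).ncard
        omega
    · rintro ⟨c, h1, h2⟩
      have hsub : ∀ i, L (c i) i ∩ Set.Iic i ⊆ (L 0 i ∪ L 1 i) ∩ Set.Iic i := by
        intro i
        apply Set.inter_subset_inter_left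
        have : ∀ j : Fin 2, L j i ⊆ L 0 i ∪ L 1 i := by
          intro j
          fin_cases j
          · exact Set.subset_union_left
          · exact Set.subset_union_right
        exact this (c i)
      refine ⟨fun i => (h1 i).mono (hsub i), fun m => ?_⟩
      obtain ⟨i, hi⟩ := h2 m
      exact ⟨i, hi.trans (Set.ncard_le_ncard (hsub i) (fin_inter _ i))⟩
  · rintro L ⟨i, hi⟩ ⟨h1, _⟩
    have := h1 i
    rw [hi] at this
    simp at this

/-- `F` as an element of the poset -/
def FF : CM ℕ ℕ := ⟨F, F_compl⟩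

lemma FF_ne_bot : FF ≠ ⊥ := by
  intro h
  have h1 : (fun _ => Set.univ : ℕ → Set ℕ) ∈ FF.1 := by
    constructor
    · intro i
      exact ⟨i, by simp⟩
    · intro m
      refine ⟨m, ?_⟩
      rw [Set.univ_inter, Set.ncard_eq_toFinset_card']
      simp
  rw [h] at h1
  exact h1

theorem no_atom (g : CM ℕ ℕ) (hg : IsAtom g) : ¬ g ≤ FF := by
  classical
  intro hle
  have hne : ∃ A, A ∈ g.1 := by
    by_contra h
    push Not at h
    exact hg.1 (Subtype.ext (Set.eq_empty_of_forall_notMem h))
  obtain ⟨A0, hA0⟩ := hne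
  have htop : (fun _ => Set.univ : ℕ → Set ℕ) ∈ g.1 := up g.2 hA0 (fun i => Set.subset_univ _)
  -- the family of initial segments
  have hK : (fun i => Set.Iic i : ℕ → Set ℕ) ∈ g.1 := by
    obtain ⟨D, hD, hDi⟩ := mix g.2 (A := fun i => Set.Iic i) (B := fun i => (Set.Iic i)ᶜ) htop
      (fun i => (Set.union_compl_self _).symm)
    have : D = fun i => Set.Iic i := by
      funext i
      rcases hDi i with h | h
      · exact h
      · exfalso
        have h1 := (hle hD).1 i
        rw [h] at h1
        obtain ⟨y, hy1, hy2⟩ := h1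
        exact hy1 hy2
    rwa [this] at hD
  -- the projections
  let u : ℕ → Set ℕ → Prop := fun i X => Function.update (fun _ => Set.univ) i X ∈ g.1
  have hu_of : ∀ A ∈ g.1, ∀ i, u i (A i) := by
    intro A hA i
    refine up g.2 hA (fun j => ?_)
    by_cases hj : j = i
    · subst hj; simp
    · simp [Function.update_of_ne hj]
  have hu_empty : ∀ i, ¬ u i ∅ := by
    intro i h
    exact g.2.not_mem_of_empty _ ⟨i, by simp⟩ h
  have hu_inter : ∀ i X Y, u i X → u i Y → u i (X ∩ Y) := by
    intro i X Y hX hY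
    have := atom_inter hg hX hY
    refine up g.2 this (fun j => ?_)
    by_cases hj : j = i
    · subst hj; simp
    · simp [Function.update_of_ne hj]
  have hu_or : ∀ i X, u i X ∨ u i Xᶜ := by
    intro i X
    obtain ⟨D, hD, hDi⟩ := mix g.2 (A := Function.update (fun _ => Set.univ) i X)
      (B := Function.update (fun _ => Set.univ) i Xᶜ) htop (fun j => by
        by_cases hj : j = i
        · subst hj; simp
        · simp [Function.update_of_ne hj])
    have h1 := hu_of D hD i
    rcases hDi i with h | h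
    · left; rw [h] at h1; simpa using h1
    · right; rw [h] at h1; simpa using h1
  have hu_fin : ∀ i, ∀ S : Set ℕ, S.Finite → (∀ x ∈ S, ¬ u i {x}) → u i Sᶜ := by
    intro i S hS
    induction S, hS using Set.Finite.induction_on with
    | empty => intro _; simpa [u] using htop
    | @insert a S _ _ ih =>
      intro h
      have h1 := ih (fun x hx => h x (Set.mem_insert_of_mem _ hx))
      have h2 : u i {a}ᶜ := (hu_or i {a}).resolve_left (h a (Set.mem_insert _ _))
      have h3 := hu_inter i _ _ h2 h1
      rwa [← Set.compl_union, Set.singleton_union] at h3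
  have hpt : ∀ i, ∃ x, u i {x} := by
    intro i
    by_contra h
    push Not at h
    have h1 := hu_fin i (Set.Iic i) (Set.finite_Iic i) (fun x _ => h x)
    have h2 := hu_inter i _ _ (hu_of _ hK i) h1
    rw [Set.inter_compl_self] at h2
    exact hu_empty i h2
  choose x hx using hpt
  -- the product of the points belongs to `g`
  obtain ⟨D, hD, hDi⟩ := mix g.2 (A := fun i => {x i}) (B := fun i => {x i}ᶜ) htop
    (fun i => (Set.union_compl_self _).symm)
  have hDx : D = fun i => {x i} := by
    funext i
    rcases hDi i with h | h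
    · exact h
    · exfalso
      have h1 := hu_of D hD i
      rw [h] at h1
      have h2 := hu_inter i _ _ (hx i) h1
      rw [Set.inter_compl_self] at h2
      exact hu_empty i h2
  have hFD := (hle hD).2 2
  obtain ⟨i, hi⟩ := hFD
  rw [hDx] at hi
  have h1 : ({x i} ∩ Set.Iic i : Set ℕ).ncard ≤ ({x i} : Set ℕ).ncard :=
    Set.ncard_le_ncard Set.inter_subset_left (Set.finite_singleton _)
  rw [Set.ncard_singleton] at h1
  have : 2 ≤ ({x i} ∩ Set.Iic i : Set ℕ).ncard := hi
  omega

end Pool.Agent.V11182.Multifuncoid
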