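import Mathlib

/-!
# Order relations on `Fin n`, refinement chains and the fixed point property
-/

namespace Pool.Agent.V11182.FPPChain

open Finset

variable {n : ℕ}

/-- order relations on `[n]`, as sets of pairs -/
structure IsOrderRel (R : Finset (Fin n × Fin n)) : Prop where
  refl : ∀ x, (x, x) ∈ R
  antisymm : ∀ x y, (x, y) ∈ R → (y, x) ∈ R → x = y
  trans : ∀ x y z, (x, y) ∈ R → (y, z) ∈ R → (x, z) ∈ R

/-- the fixed point property of `([n], R)`: every order-preserving self-map has a fixed point -/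
def FPP (R : Finset (Fin n × Fin n)) : Prop :=
  ∀ f : Fin n → Fin n, (∀ x y, (x, y) ∈ R → (f x, f y) ∈ R) → ∃ x, f x = x

/-- the discrete order -/
def discr (n : ℕ) : Finset (Fin n × Fin n) := univ.image (fun x => (x, x))

lemma mem_discr {p : Fin n × Fin n} : p ∈ discr n ↔ p.1 = p.2 := by
  rw [discr, mem_image]
  constructor
  · rintro ⟨x, _, rfl⟩; rfl
  · intro h; exact ⟨p.1, mem_univ _, Prod.ext rfl h⟩

lemma card_discr : (discr n).card = n := by
  rw [discr, card_image_of_injective _ (fun x y h => (Prod.mk.injEq _ _ _ _ ▸ h).1), card_univ,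
    Fintype.card_fin]

lemma discr_order : IsOrderRel (discr n) := by
  refine ⟨fun x => mem_discr.mpr rfl, fun x y h _ => mem_discr.mp h, fun x y z h1 h2 => ?_⟩
  rw [mem_discr] at *
  simp only at *
  rw [h1, h2]

/-- between two order relations one can add a single pair -/
lemma insert_pair {R S : Finset (Fin n × Fin n)} (hR : IsOrderRel R) (hS : IsOrderRel S)
    (hRS : R ⊆ S) (hne : R ≠ S) :
    ∃ R', IsOrderRel R' ∧ R ⊆ R' ∧ R' ⊆ S ∧ R'.card = R.card + 1 := by
  classical
  have hex : (S \ R).Nonempty := by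
    rw [sdiff_nonempty]
    intro h
    exact hne (Subset.antisymm hRS h)
  let φ : Fin n × Fin n → ℕ := fun p =>
    (univ.filter (fun z => (z, p.1) ∈ R)).card + (univ.filter (fun z => (p.2, z) ∈ R)).card
  obtain ⟨⟨x, y⟩, hxy, hmin⟩ := exists_min_image (S \ R) φ hex
  rw [mem_sdiff] at hxy
  have hxney : x ≠ y := by
    rintro rfl
    exact hxy.2 (hR.refl x)
  have hleft : ∀ z, (z, x) ∈ R → z ≠ x → (z, y) ∈ R := by
    intro z hz hzx
    by_contra hcon
    have h1 : (z, y) ∈ S \ R := mem_sdiff.mpr ⟨hS.trans z x y (hRS hz) hxy.1, hcon⟩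
    have h2 := hmin (z, y) h1
    have h3 : (univ.filter (fun w => (w, z) ∈ R)).card < (univ.filter (fun w => (w, x) ∈ R)).card := by
      apply card_lt_card
      rw [ssubset_iff_of_subset]
      · refine ⟨x, by simpa using hR.refl x, ?_⟩
        rw [mem_filter]
        rintro ⟨_, h⟩
        exact hzx (hR.antisymm z x hz h)
      · intro w hw
        rw [mem_filter] at hw ⊢
        exact ⟨mem_univ _, hR.trans w z x hw.2 hz⟩
    simp only [φ] at h2
    omega
  have hright : ∀ z, (y, z) ∈ R → z ≠ y → (x, z) ∈ R := by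
    intro z hz hzy
    by_contra hcon
    have h1 : (x, z) ∈ S \ R := mem_sdiff.mpr ⟨hS.trans x y z hxy.1 (hRS hz), hcon⟩
    have h2 := hmin (x, z) h1
    have h3 : (univ.filter (fun w => (z, w) ∈ R)).card < (univ.filter (fun w => (y, w) ∈ R)).card := by
      apply card_lt_card
      rw [ssubset_iff_of_subset]
      · refine ⟨y, by simpa using hR.refl y, ?_⟩
        rw [mem_filter]
        rintro ⟨_, h⟩
        exact hzy (hR.antisymm z y h hz)
      · intro w hw
        rw [mem_filter] at hw ⊢
        exact ⟨mem_univ _, hR.trans y z w hz hw.2⟩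
    simp only [φ] at h2
    omega
  refine ⟨insert (x, y) R, ?_, subset_insert _ _, ?_, card_insert_of_notMem hxy.2⟩
  · refine ⟨fun z => mem_insert_of_mem (hR.refl z), ?_, ?_⟩
    · intro a b hab hba
      have hab' : (a, b) ∈ S := by
        rcases mem_insert.mp hab with h | h
        · rw [h]; exact hxy.1
        · exact hRS h
      have hba' : (b, a) ∈ S := by
        rcases mem_insert.mp hba with h | h
        · rw [h]; exact hxy.1
        · exact hRS h
      exact hS.antisymm a b hab' hba'
    · intro a b c hab hbc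
      rcases mem_insert.mp hab with h | h
      · rw [Prod.mk.injEq] at h
        obtain ⟨rfl, rfl⟩ := h
        rcases mem_insert.mp hbc with h' | h'
        · rw [Prod.mk.injEq] at h'
          exact absurd h'.1.symm hxney
        · by_cases hc : c = b
          · subst hc; exact mem_insert_self _ _
          · exact mem_insert_of_mem (hright c h' hc)
      · rcases mem_insert.mp hbc with h' | h'
        · rw [Prod.mk.injEq] at h'
          obtain ⟨rfl, rfl⟩ := h'
          by_cases ha : a = b
          · subst ha; exact mem_insert_self _ _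
          · exact mem_insert_of_mem (hleft a h ha)
        · exact mem_insert_of_mem (hR.trans a b c h h')
  · intro p hp
    rcases mem_insert.mp hp with rfl | h
    · exact hxy.1
    · exact hRS h

/-- a chain of length `d` from `R` to `S` all of whose members satisfy `P` -/
def Ch (P : Finset (Fin n × Fin n) → Prop) (d : ℕ) (R S : Finset (Fin n × Fin n)) : Prop :=
  ∃ c : ℕ → Finset (Fin n × Fin n), c 0 = R ∧ c d = S ∧ (∀ i ≤ d, IsOrderRel (c i) ∧ P (c i)) ∧
    ∀ i < d, c i ⊆ c (i + 1) ∧ (c (i + 1)).card = (c i).card + 1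

lemma Ch.concat {P : Finset (Fin n × Fin n) → Prop} {d1 d2 : ℕ}
    {R S U : Finset (Fin n × Fin n)} (h1 : Ch P d1 R S) (h2 : Ch P d2 S U) :
    Ch P (d1 + d2) R U := by
  obtain ⟨c1, a1, b1, p1, s1⟩ := h1
  obtain ⟨c2, a2, b2, p2, s2⟩ := h2
  refine ⟨fun i => if i ≤ d1 then c1 i else c2 (i - d1), ?_, ?_, ?_, ?_⟩
  · simp [a1]
  · by_cases h : d2 = 0
    · subst h
      simp only [add_zero, le_refl, if_true]
      rw [b1, ← b2, a2]
    · have h' : ¬ d1 + d2 ≤ d1 := by omega
      simp only [if_neg h']
      rw [Nat.add_sub_cancel_left]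
      exact b2
  · intro i hi
    by_cases h : i ≤ d1
    · simp only [if_pos h]; exact p1 i h
    · simp only [if_neg h]; exact p2 _ (by omega)
  · intro i hi
    by_cases h : i + 1 ≤ d1
    · simp only [if_pos h, if_pos (by omega : i ≤ d1)]
      exact s1 i (by omega)
    · by_cases h' : i ≤ d1
      · have : i = d1 := by omega
        subst this
        simp only [if_pos h', if_neg h]
        have h3 := s2 0 (by omega)
        rw [a2, ← b1] at h3
        have h4 : i + 1 - i = 0 + 1 := by omega
        rw [h4]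
        exact h3
      · simp only [if_neg h, if_neg h']
        have h3 := s2 (i - d1) (by omega)
        have h4 : i + 1 - d1 = i - d1 + 1 := by omega
        rw [h4]
        exact h3

lemma Ch.mono {P Q : Finset (Fin n × Fin n) → Prop} {d : ℕ}
    {R S : Finset (Fin n × Fin n)} (h : Ch P d R S) (hPQ : ∀ U, IsOrderRel U → P U → Q U) :
    Ch Q d R S := by
  obtain ⟨c, a, b, p, s⟩ := h
  exact ⟨c, a, b, fun i hi => ⟨(p i hi).1, hPQ _ (p i hi).1 (p i hi).2⟩, s⟩

lemma exists_chain {S : Finset (Fin n × Fin n)} (hS : IsOrderRel S) :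
    ∀ (d : ℕ) (R : Finset (Fin n × Fin n)), IsOrderRel R → R ⊆ S → S.card = R.card + d →
      Ch (fun U => R ⊆ U ∧ U ⊆ S) d R S := by
  intro d
  induction d with
  | zero =>
    intro R hR hRS hcard
    have : R = S := eq_of_subset_of_card_le hRS (by omega)
    subst this
    exact ⟨fun _ => R, rfl, rfl, fun i _ => ⟨hR, Subset.refl _, Subset.refl _⟩,
      fun i hi => absurd hi (Nat.not_lt_zero i)⟩
  | succ d ih =>
    intro R hR hRS hcard
    have hne : R ≠ S := by
      rintro rfl
      omega
    obtain ⟨R', hR', h1, h2, h3⟩ := insert_pair hR hS hRS hne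
    have hch := ih R' hR' h2 (by omega)
    have hfirst : Ch (fun U => R ⊆ U ∧ U ⊆ S) 1 R R' := by
      refine ⟨fun i => if i = 0 then R else R', by simp, by simp, ?_, ?_⟩
      · intro i _
        by_cases h : i = 0
        · simp only [if_pos h]; exact ⟨hR, Subset.refl _, hRS⟩
        · simp only [if_neg h]; exact ⟨hR', h1, h2⟩
      · intro i hi
        have : i = 0 := by omega
        subst this
        simp only [if_true, zero_add, one_ne_zero, if_false]
        exact ⟨h1, h3⟩
    have := hfirst.concat (hch.mono (fun U _ hU => ⟨h1.trans hU.1, hU.2⟩))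
    rwa [add_comm 1 d] at this

/-! ### lower bound -/

/-- pairs comparable in `R` -/
def sym (R : Finset (Fin n × Fin n)) : Finset (Fin n × Fin n) := R ∪ R.image Prod.swap

lemma mem_sym {R : Finset (Fin n × Fin n)} {x y : Fin n} :
    (x, y) ∈ sym R ↔ (x, y) ∈ R ∨ (y, x) ∈ R := by
  rw [sym, mem_union, mem_image]
  constructor
  · rintro (h | ⟨⟨a, b⟩, h, h'⟩)
    · exact Or.inl h
    · rw [Prod.swap_prod_mk, Prod.mk.injEq] at h'
      obtain ⟨rfl, rfl⟩ := h'
      exact Or.inr h
  · rintro (h | h)
    · exact Or.inl h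
    · exact Or.inr ⟨(y, x), h, rfl⟩

lemma card_sym {R : Finset (Fin n × Fin n)} (hR : IsOrderRel R) : (sym R).card + n = 2 * R.card := by
  have h1 : R ∩ R.image Prod.swap = discr n := by
    ext ⟨x, y⟩
    rw [mem_inter, mem_image, mem_discr]
    constructor
    · rintro ⟨h, ⟨a, b⟩, h', h''⟩
      rw [Prod.swap_prod_mk, Prod.mk.injEq] at h''
      obtain ⟨rfl, rfl⟩ := h''
      exact hR.antisymm b a h h'
    · intro h
      simp only at h
      subst h
      exact ⟨hR.refl x, (x, x), hR.refl x, rfl⟩
  have h2 := card_union_add_card_inter R (R.image Prod.swap)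
  rw [h1, card_discr, card_image_of_injective _ Prod.swap_injective] at h2
  unfold sym
  omega

/-- a fixed point free order-preserving map moves every point to an incomparable one -/
lemma move_incomp {R : Finset (Fin n × Fin n)} (hR : IsOrderRel R) {f : Fin n → Fin n}
    (hf : ∀ x y, (x, y) ∈ R → (f x, f y) ∈ R) (hfix : ∀ x, f x ≠ x) (x : Fin n) :
    (x, f x) ∉ sym R := by
  intro h
  rw [mem_sym] at h
  -- iterate
  have key : ∀ (g : Fin n → Fin n) (S : Finset (Fin n × Fin n)), IsOrderRel S →
      (∀ x y, (x, y) ∈ S → (g x, g y) ∈ S) → (∀ x, g x ≠ x) → ∀ x, (x, g x) ∉ S := by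
    intro g S hS hg hgf x hx
    have hstep : ∀ i : ℕ, (g^[i] x, g^[i + 1] x) ∈ S := by
      intro i
      induction i with
      | zero => exact hx
      | succ i ih =>
        rw [Function.iterate_succ_apply', Function.iterate_succ_apply' g (i + 1)]
        exact hg _ _ ih
    have hmono : ∀ i j : ℕ, (g^[i] x, g^[i + j] x) ∈ S := by
      intro i j
      induction j with
      | zero => exact hS.refl _
      | succ j ih => exact hS.trans _ _ _ ih (hstep (i + j))
    obtain ⟨i, j, hij, heq⟩ := Finite.exists_ne_map_eq_of_infinite (fun i : ℕ => g^[i] x)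
    wlog hlt : i < j generalizing i j
    · exact this j i hij.symm heq.symm (by omega)
    obtain ⟨d, rfl⟩ := Nat.exists_eq_add_of_lt hlt
    have h1 : (g^[i + 1] x, g^[i] x) ∈ S := by
      rw [heq]
      have := hmono (i + 1) d
      have e : i + 1 + d = i + d + 1 := by omega
      rwa [e] at this
    have h2 := hS.antisymm _ _ (hstep i) h1
    rw [Function.iterate_succ_apply'] at h2
    exact hgf _ h2.symm
  rcases h with h | h
  · exact key f R hR hf hfix x h
  · -- use the dual order
    have hd : IsOrderRel (R.image Prod.swap) := by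
      have hm : ∀ a b : Fin n, (a, b) ∈ R.image Prod.swap ↔ (b, a) ∈ R := by
        intro a b
        rw [mem_image]
        constructor
        · rintro ⟨⟨c, d⟩, h, h'⟩
          rw [Prod.swap_prod_mk, Prod.mk.injEq] at h'
          obtain ⟨rfl, rfl⟩ := h'
          exact h
        · intro h; exact ⟨(b, a), h, rfl⟩
      refine ⟨fun a => (hm a a).mpr (hR.refl a), fun a b h1 h2 => ?_, fun a b c h1 h2 => ?_⟩
      · exact hR.antisymm a b ((hm b a).mp h2) ((hm a b).mp h1)
      · exact (hm a c).mpr (hR.trans c b a ((hm b c).mp h2) ((hm a b).mp h1))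
    refine key f (R.image Prod.swap) hd ?_ hfix x (mem_image.mpr ⟨(f x, x), h, rfl⟩)
    intro a b hab
    rw [mem_image] at hab ⊢
    obtain ⟨⟨c, d⟩, h1, h2⟩ := hab
    rw [Prod.swap_prod_mk, Prod.mk.injEq] at h2
    obtain ⟨rfl, rfl⟩ := h2
    exact ⟨(f c, f d), hf c d h1, rfl⟩

/-- the set of pairs `(x, f x)` -/
def gr (f : Fin n → Fin n) : Finset (Fin n × Fin n) := univ.image (fun x => (x, f x))

lemma card_gr (f : Fin n → Fin n) : (gr f).card = n := by
  rw [gr, card_image_of_injective _ (fun x y h => (Prod.mk.injEq _ _ _ _ ▸ h).1), card_univ,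
    Fintype.card_fin]

lemma not_FPP {R : Finset (Fin n × Fin n)} (h : ¬ FPP R) :
    ∃ f : Fin n → Fin n, (∀ x y, (x, y) ∈ R → (f x, f y) ∈ R) ∧ ∀ x, f x ≠ x := by
  unfold FPP at h
  push Not at h
  exact h

lemma count_bound {R : Finset (Fin n × Fin n)} (hR : IsOrderRel R) {f : Fin n → Fin n}
    (hf : ∀ x y, (x, y) ∈ R → (f x, f y) ∈ R) (hfix : ∀ x, f x ≠ x) :
    (sym R).card + n ≤ n * n ∧ ((sym R).card + n = n * n → ∀ x y, (x, y) ∉ sym R → y = f x) := by
  classical
  have hdisj : Disjoint (sym R) (gr f) := by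
    rw [Finset.disjoint_left]
    rintro ⟨x, y⟩ h1 h2
    rw [gr, mem_image] at h2
    obtain ⟨z, _, hz⟩ := h2
    rw [Prod.mk.injEq] at hz
    obtain ⟨rfl, rfl⟩ := hz
    exact move_incomp hR hf hfix z h1
  have hcard := card_union_of_disjoint hdisj
  rw [card_gr] at hcard
  have htot : (univ : Finset (Fin n × Fin n)).card = n * n := by
    rw [card_univ, Fintype.card_prod, Fintype.card_fin]
  refine ⟨?_, ?_⟩
  · rw [← hcard, ← htot]
    exact card_le_card (subset_univ _)
  · intro heq x y hxy
    have : sym R ∪ gr f = univ := by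
      apply eq_of_subset_of_card_le (subset_univ _)
      rw [hcard, heq, htot]
    have h1 : (x, y) ∈ sym R ∪ gr f := by rw [this]; exact mem_univ _
    rcases mem_union.mp h1 with h | h
    · exact absurd h hxy
    · rw [gr, mem_image] at h
      obtain ⟨z, _, hz⟩ := h
      rw [Prod.mk.injEq] at hz
      obtain ⟨rfl, rfl⟩ := hz
      rfl

/-- one of two consecutive members has the FPP -/
lemma two_consecutive {R R' : Finset (Fin n × Fin n)} (hR : IsOrderRel R) (hR' : IsOrderRel R')
    (hsub : R' ⊆ R) (hcard : R.card = R'.card + 1) (hlev : (sym R).card + n = n * n) :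
    FPP R ∨ FPP R' := by
  classical
  by_contra hcon
  push Not at hcon
  obtain ⟨h1, h2⟩ := hcon
  obtain ⟨f, hf, hff⟩ := not_FPP h1
  obtain ⟨g, hg, hgf⟩ := not_FPP h2
  have hpart := (count_bound hR hf hff).2 hlev
  have hinc := move_incomp hR hf hff
  have hinv : ∀ x, f (f x) = x := by
    intro x
    symm
    apply hpart
    intro h
    apply hinc x
    rw [mem_sym] at h ⊢
    exact h.symm
  obtain ⟨⟨x, y⟩, hxy⟩ : ∃ p, p ∈ R \ R' := by
    have : (R \ R').card = 1 := by rw [card_sdiff_of_subset hsub]; omega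
    exact card_pos.mp (by omega)
  have hRins : R = insert (x, y) R' := by
    symm
    apply eq_of_subset_of_card_le
    · intro p hp
      rcases mem_insert.mp hp with rfl | h
      · exact (mem_sdiff.mp hxy).1
      · exact hsub h
    · rw [card_insert_of_notMem (mem_sdiff.mp hxy).2]; omega
  rw [mem_sdiff] at hxy
  have hne : x ≠ y := by
    rintro rfl
    exact hxy.2 (hR'.refl x)
  -- `g z = f z` unless `{z, g z} = {x, y}`
  have hgz : ∀ z, z ≠ x → z ≠ y → g z = f z := by
    intro z hzx hzy
    apply hpart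
    intro h
    apply move_incomp hR' hg hgf z
    rw [mem_sym] at h ⊢
    rcases h with h | h
    · rw [hRins, mem_insert, Prod.mk.injEq] at h
      rcases h with h | h
      · exact absurd h.1 hzx
      · exact Or.inl h
    · rw [hRins, mem_insert, Prod.mk.injEq] at h
      rcases h with h | h
      · exact absurd h.2 hzy
      · exact Or.inr h
  have hinc1 : ∀ z, (z, f z) ∉ R := fun z h => hinc z (mem_sym.mpr (Or.inl h))
  have hinc2 : ∀ z, (f z, z) ∉ R := fun z h => hinc z (mem_sym.mpr (Or.inr h))
  have hfxy : f x ≠ y := by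
    intro h
    exact hinc1 x (h ▸ hxy.1)
  have hfyx : f y ≠ x := by
    intro h
    apply hfxy
    rw [← h, hinv]
  have hgx : g (f x) = x := by
    rw [hgz (f x) (hff x) hfxy, hinv]
  have hgy : g (f y) = y := by
    rw [hgz (f y) hfyx (hff y), hinv]
  -- comparabilities
  have hcomp : ∀ a b, b ≠ f a → (a, b) ∈ R ∨ (b, a) ∈ R := by
    intro a b hb
    by_contra h
    exact hb (hpart a b (fun h' => h (mem_sym.mp h')))
  have h3 : (f x, y) ∈ R := by
    rcases hcomp (f x) y (by rw [hinv]; exact hne.symm) with h | h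
    · exact h
    · exact absurd (hR.trans _ _ _ hxy.1 h) (hinc1 x)
  have h4 : (f x, f y) ∈ R := by
    rcases hcomp (f x) (f y) (by rw [hinv]; exact hfyx) with h | h
    · exact h
    · exact absurd (hR.trans _ _ _ h h3) (hinc2 y)
  have h5 : (f x, f y) ∈ R' := by
    rw [hRins, mem_insert, Prod.mk.injEq] at h4
    rcases h4 with h | h
    · exact absurd h.1 (hff x)
    · exact h
  have h6 := hg _ _ h5
  rw [hgx, hgy] at h6
  exact hxy.2 h6

end Pool.Agent.V11182.FPPChain
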