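import Mathlib

/-!
# Extremal points of monotone Boolean functions

A monotone Boolean function on a finite set of variables is a monotone predicate on finsets.
-/

namespace Pool.Agent.V11182.ExtPts

open Finset
open scoped Classical

set_option linter.unusedSectionVars false

variable {α : Type} [Fintype α]

/-- monotone predicates -/
def Mon (u : Finset α → Prop) : Prop := ∀ S S', S ⊆ S' → u S → u S'

/-- minimal ones -/
noncomputable def minT (u : Finset α → Prop) : Finset (Finset α) :=
  univ.filter (fun S => u S ∧ ∀ i ∈ S, ¬ u (S.erase i))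

/-- the dual function -/
def dual (u : Finset α → Prop) (T : Finset α) : Prop := ¬ u Tᶜ

/-- minimal transversals (complements of maximal zeros) -/
noncomputable def blk (u : Finset α → Prop) : Finset (Finset α) := minT (dual u)

/-- relevant variables -/
def rel (u : Finset α → Prop) (i : α) : Prop := ∃ S, ¬ u (S.erase i) ∧ u (insert i S)

/-- the set of relevant variables -/
noncomputable def R (u : Finset α → Prop) : Finset α := univ.filter (fun i => rel u i)

lemma mem_minT {u : Finset α → Prop} {S : Finset α} :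
    S ∈ minT u ↔ u S ∧ ∀ i ∈ S, ¬ u (S.erase i) := by simp [minT]

lemma mem_R {u : Finset α → Prop} {i : α} : i ∈ R u ↔ rel u i := by simp [R]

lemma dual_dual (u : Finset α → Prop) : dual (dual u) = u := by
  funext S
  simp [dual]

lemma dual_mon {u : Finset α → Prop} (hu : Mon u) : Mon (dual u) := by
  intro S S' h h1 h2
  exact h1 (hu _ _ (compl_subset_compl.mpr h) h2)

lemma exists_min {u : Finset α → Prop} {S : Finset α} (h : u S) : ∃ E ∈ minT u, E ⊆ S := by
  induction hn : S.card using Nat.strong_induction_on generalizing S with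
  | _ n ih =>
    by_cases hm : ∀ i ∈ S, ¬ u (S.erase i)
    · exact ⟨S, mem_minT.mpr ⟨h, hm⟩, Subset.refl _⟩
    · push Not at hm
      obtain ⟨i, hi, hui⟩ := hm
      obtain ⟨E, hE, hES⟩ := ih (S.erase i).card (by
        rw [card_erase_of_mem hi]
        have := card_pos.mpr ⟨i, hi⟩
        omega) hui rfl
      exact ⟨E, hE, hES.trans (erase_subset _ _)⟩

lemma u_iff {u : Finset α → Prop} (hu : Mon u) {S : Finset α} :
    u S ↔ ∃ E ∈ minT u, E ⊆ S :=
  ⟨exists_min, fun ⟨E, hE, h⟩ => hu E S h (mem_minT.mp hE).1⟩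

lemma not_u_iff {u : Finset α → Prop} (hu : Mon u) {S : Finset α} :
    ¬ u S ↔ ∃ T ∈ blk u, Disjoint T S := by
  have h1 : ¬ u S ↔ dual u Sᶜ := by simp [dual]
  rw [h1, u_iff (dual_mon hu)]
  constructor
  · rintro ⟨T, hT, h⟩
    exact ⟨T, hT, le_compl_iff_disjoint_right.mp h⟩
  · rintro ⟨T, hT, h⟩
    exact ⟨T, hT, le_compl_iff_disjoint_right.mpr h⟩

lemma meet {u : Finset α → Prop} (hu : Mon u) {E T : Finset α} (hE : E ∈ minT u)
    (hT : T ∈ blk u) : (E ∩ T).Nonempty := by
  rw [nonempty_iff_ne_empty]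
  intro h
  have : ¬ u E := (not_u_iff hu).mpr ⟨T, hT, by
    rw [disjoint_iff_inter_eq_empty, inter_comm]; exact h⟩
  exact this (mem_minT.mp hE).1

lemma trans_of {u : Finset α → Prop} {W : Finset α}
    (h : ∀ E ∈ minT u, (E ∩ W).Nonempty) : ∃ T ∈ blk u, T ⊆ W := by
  apply exists_min
  intro hW
  obtain ⟨E, hE, hEW⟩ := exists_min hW
  obtain ⟨x, hx⟩ := h E hE
  rw [mem_inter] at hx
  have := hEW hx.1
  rw [mem_compl] at this
  exact this hx.2

lemma anti {u : Finset α → Prop} (hu : Mon u) {E E' : Finset α} (hE : E ∈ minT u)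
    (hE' : E' ∈ minT u) (h : E ⊆ E') : E = E' := by
  apply Subset.antisymm h
  intro x hx
  by_contra hxE
  apply (mem_minT.mp hE').2 x hx
  exact hu E _ (fun y hy => mem_erase.mpr ⟨fun h' => hxE (h' ▸ hy), h hy⟩) (mem_minT.mp hE).1

lemma rel_iff {u : Finset α → Prop} (hu : Mon u) {i : α} : rel u i ↔ ∃ E ∈ minT u, i ∈ E := by
  constructor
  · rintro ⟨S, h1, h2⟩
    obtain ⟨E, hE, hES⟩ := exists_min h2
    refine ⟨E, hE, ?_⟩
    by_contra hi
    apply h1
    apply hu E _ _ (mem_minT.mp hE).1
    intro x hx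
    have hxi : x ≠ i := fun h => hi (h ▸ hx)
    exact mem_erase.mpr ⟨hxi, (mem_insert.mp (hES hx)).resolve_left hxi⟩
  · rintro ⟨E, hE, hi⟩
    exact ⟨E, (mem_minT.mp hE).2 i hi, by rw [insert_eq_of_mem hi]; exact (mem_minT.mp hE).1⟩

lemma rel_dual {u : Finset α → Prop} {i : α} : rel (dual u) i ↔ rel u i := by
  have key : ∀ v : Finset α → Prop, rel v i → rel (dual v) i := by
    rintro v ⟨S, h1, h2⟩
    refine ⟨Sᶜ, ?_, ?_⟩
    · simp only [dual, not_not]
      rw [compl_erase, compl_compl]
      exact h2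
    · simp only [dual]
      rw [compl_insert, compl_compl]
      exact h1
  constructor
  · intro h
    have := key _ h
    rwa [dual_dual] at this
  · exact key u

lemma R_dual (u : Finset α → Prop) : R (dual u) = R u := by
  ext i; rw [mem_R, mem_R, rel_dual]

lemma rel_iff' {u : Finset α → Prop} (hu : Mon u) {i : α} : rel u i ↔ ∃ T ∈ blk u, i ∈ T := by
  rw [← rel_dual, rel_iff (dual_mon hu)]; rfl

lemma priv {u : Finset α → Prop} (hu : Mon u) {T : Finset α} (hT : T ∈ blk u) {t : α}
    (ht : t ∈ T) : ∃ E ∈ minT u, E ∩ T = {t} := by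
  have h1 : ¬ dual u (T.erase t) := (mem_minT.mp hT).2 t ht
  simp only [dual, not_not] at h1
  obtain ⟨E, hE, hEs⟩ := exists_min h1
  refine ⟨E, hE, ?_⟩
  have hsub : E ∩ T ⊆ {t} := by
    intro x hx
    rw [mem_inter] at hx
    have := hEs hx.1
    rw [mem_compl, mem_erase] at this
    rw [mem_singleton]
    by_contra hne
    exact this ⟨hne, hx.2⟩
  exact (subset_singleton_iff.mp hsub).resolve_left (nonempty_iff_ne_empty.mp (meet hu hE hT))

lemma mem_blk {u : Finset α → Prop} (hu : Mon u) {W : Finset α} :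
    W ∈ blk u ↔ (∀ E ∈ minT u, (E ∩ W).Nonempty) ∧ ∀ t ∈ W, ∃ E ∈ minT u, E ∩ W = {t} := by
  constructor
  · intro h
    exact ⟨fun E hE => meet hu hE h, fun t ht => priv hu h ht⟩
  · rintro ⟨h1, h2⟩
    obtain ⟨T, hT, hTW⟩ := trans_of h1
    have : T = W := by
      apply Subset.antisymm hTW
      intro t ht
      obtain ⟨E, hE, hEW⟩ := h2 t ht
      obtain ⟨x, hx⟩ := meet hu hE hT
      rw [mem_inter] at hx
      have hxW : x ∈ E ∩ W := mem_inter.mpr ⟨hx.1, hTW hx.2⟩
      rw [hEW, mem_singleton] at hxW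
      rw [← hxW]
      exact hx.2
    rwa [← this]

/-! ### independence lemmas -/

lemma indep_aux {u : Finset α → Prop} {Q : Finset α}
    (hu : Mon u) (h : ∀ S, Disjoint S Q → u (S ∪ Q) → u S) : ∀ i ∈ Q, ¬ rel u i := by
  rintro i hi ⟨S, h1, h2⟩
  apply h1
  have hd : Disjoint (S \ Q) Q := sdiff_disjoint
  have h3 : u (S \ Q) := by
    apply h _ hd
    apply hu _ _ _ h2
    intro x hx
    rw [mem_union, mem_sdiff]
    rcases mem_insert.mp hx with rfl | hx
    · exact Or.inr hi
    · by_cases hxQ : x ∈ Q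
      · exact Or.inr hxQ
      · exact Or.inl ⟨hx, hxQ⟩
  apply hu _ _ _ h3
  intro x hx
  rw [mem_sdiff] at hx
  exact mem_erase.mpr ⟨fun h' => hx.2 (h' ▸ hi), hx.1⟩

/-- meeting both or neither -/
def bothOr (P N E : Finset α) : Prop := (E ∩ P).Nonempty ↔ (E ∩ N).Nonempty

lemma step_min {P N S : Finset α}
    (hPN : Disjoint P N) (hSN : Disjoint S N) {E : Finset α} (hE : bothOr P N E)
    (hES : E ⊆ S ∪ P) : E ⊆ S := by
  have h1 : ¬ (E ∩ N).Nonempty := by
    rintro ⟨x, hx⟩
    rw [mem_inter] at hx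
    rcases mem_union.mp (hES hx.1) with h | h
    · exact disjoint_left.mp hSN h hx.2
    · exact disjoint_left.mp hPN h hx.2
  have h2 : ¬ (E ∩ P).Nonempty := fun h => h1 (hE.mp h)
  intro x hx
  rcases mem_union.mp (hES hx) with h | h
  · exact h
  · exact absurd ⟨x, mem_inter.mpr ⟨hx, h⟩⟩ h2

lemma step_blk {P N S : Finset α} {T : Finset α} (hT : bothOr P N T)
    (hTS : Disjoint T (S ∪ P)) : Disjoint T (S ∪ (P ∪ N)) := by
  rw [disjoint_union_right] at hTS
  have h1 : ¬ (T ∩ P).Nonempty := by
    rw [not_nonempty_iff_eq_empty, ← disjoint_iff_inter_eq_empty]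
    exact hTS.2
  have h2 : ¬ (T ∩ N).Nonempty := fun h => h1 (hT.mpr h)
  rw [not_nonempty_iff_eq_empty, ← disjoint_iff_inter_eq_empty] at h2
  rw [disjoint_union_right, disjoint_union_right]
  exact ⟨hTS.1, hTS.2, h2⟩

lemma bothOr_symm {P N E : Finset α} (h : bothOr P N E) : bothOr N P E := Iff.symm h

lemma indep {u : Finset α → Prop} (hu : Mon u) {P N : Finset α} (hPN : Disjoint P N)
    (hE : ∀ E ∈ minT u, bothOr P N E) (hT : ∀ T ∈ blk u, bothOr P N T) :
    ∀ i ∈ P ∪ N, ¬ rel u i := by
  apply indep_aux hu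
  intro S hS hSQ
  by_contra hcon
  have h1 : ¬ u (S ∪ P) := by
    intro h
    obtain ⟨E, hEm, hEs⟩ := exists_min h
    exact hcon (hu E S (step_min hPN (disjoint_union_right.mp hS).2 (hE E hEm) hEs)
      (mem_minT.mp hEm).1)
  obtain ⟨T, hTm, hTd⟩ := (not_u_iff hu).mp h1
  exact (not_u_iff hu).mpr ⟨T, hTm, step_blk (hT T hTm) hTd⟩ hSQ

/-- version of `indep` with one exceptional minimal one and one exceptional transversal -/
lemma indep2 {u : Finset α → Prop} (hu : Mon u) {P N : Finset α} (hPN : Disjoint P N)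
    {E0 T0 : Finset α} {i : α} (hiP : i ∉ P ∪ N)
    (hiE : i ∈ E0) (hiT : i ∈ T0)
    (hE : ∀ E ∈ minT u, E ≠ E0 → bothOr P N E) (hT : ∀ T ∈ blk u, T ≠ T0 → bothOr P N T) :
    ∀ i ∈ P ∪ N, ¬ rel u i := by
  rw [mem_union, not_or] at hiP
  apply indep_aux hu
  intro S hS hSQ
  rw [disjoint_union_right] at hS
  by_contra hcon
  have hSQ' : u (S ∪ (N ∪ P)) := by rwa [union_comm N P]
  -- consequences of `¬ u (S ∪ P)`, `¬ u (S ∪ N)`
  have cP : ¬ u (S ∪ P) → Disjoint T0 (S ∪ P) := by
    intro h
    obtain ⟨T, hTm, hTd⟩ := (not_u_iff hu).mp h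
    by_cases hTT : T = T0
    · rwa [hTT] at hTd
    · exact absurd hSQ ((not_u_iff hu).mpr ⟨T, hTm, step_blk (hT T hTm hTT) hTd⟩)
  have cN : ¬ u (S ∪ N) → Disjoint T0 (S ∪ N) := by
    intro h
    obtain ⟨T, hTm, hTd⟩ := (not_u_iff hu).mp h
    by_cases hTT : T = T0
    · rwa [hTT] at hTd
    · exact absurd hSQ' ((not_u_iff hu).mpr
        ⟨T, hTm, step_blk (bothOr_symm (hT T hTm hTT)) hTd⟩)
  have dP : u (S ∪ P) → E0 ⊆ S ∪ P := by
    intro h
    obtain ⟨E, hEm, hEs⟩ := exists_min h
    by_cases hEE : E = E0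
    · rwa [hEE] at hEs
    · exact absurd (hu E S (step_min hPN hS.2 (hE E hEm hEE) hEs) (mem_minT.mp hEm).1) hcon
  have dN : u (S ∪ N) → E0 ⊆ S ∪ N := by
    intro h
    obtain ⟨E, hEm, hEs⟩ := exists_min h
    by_cases hEE : E = E0
    · rwa [hEE] at hEs
    · exact absurd (hu E S (step_min hPN.symm hS.1 (bothOr_symm (hE E hEm hEE)) hEs)
        (mem_minT.mp hEm).1) hcon
  -- if `u (S ∪ P)` then `i, j ∈ S`; if `¬ u (S ∪ P)` then `i, j ∉ S`
  have aP : u (S ∪ P) → i ∈ S := fun h => (mem_union.mp (dP h hiE)).resolve_right hiP.1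
  have aN : u (S ∪ N) → i ∈ S := fun h => (mem_union.mp (dN h hiE)).resolve_right hiP.2
  have bP : ¬ u (S ∪ P) → i ∉ S := fun h hi =>
    disjoint_left.mp (cP h) hiT (mem_union_left _ hi)
  have bN : ¬ u (S ∪ N) → i ∉ S := fun h hi =>
    disjoint_left.mp (cN h) hiT (mem_union_left _ hi)
  by_cases h1 : u (S ∪ P)
  · have h2 : u (S ∪ N) := by
      by_contra h2
      exact bN h2 (aP h1)
    -- E0 ⊆ S
    have h3 : E0 ⊆ S := by
      intro x hx
      rcases mem_union.mp (dP h1 hx) with h | h
      · exact h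
      · rcases mem_union.mp (dN h2 hx) with h' | h'
        · exact h'
        · exact absurd h' (disjoint_left.mp hPN h)
    have h4 : E0 ∈ minT u := by
      obtain ⟨E, hEm, hEs⟩ := exists_min h1
      by_cases hEE : E = E0
      · rwa [hEE] at hEm
      · exact absurd (hu E S (step_min hPN hS.2 (hE E hEm hEE) hEs)
          (mem_minT.mp hEm).1) hcon
    exact hcon (hu E0 S h3 (mem_minT.mp h4).1)
  · have h2 : ¬ u (S ∪ N) := by
      intro h2
      exact bP h1 (aN h2)
    have h3 := cP h1
    have h4 := cN h2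
    have h5 : Disjoint T0 (S ∪ (P ∪ N)) := by
      rw [disjoint_union_right] at h3 h4
      rw [disjoint_union_right, disjoint_union_right]
      exact ⟨h3.1, h3.2, h4.2⟩
    have h6 : T0 ∈ blk u := by
      obtain ⟨T, hTm, hTd⟩ := (not_u_iff hu).mp h1
      by_cases hTT : T = T0
      · rwa [hTT] at hTm
      · exact absurd hSQ ((not_u_iff hu).mpr ⟨T, hTm, step_blk (hT T hTm hTT) hTd⟩)
    exact (not_u_iff hu).mpr ⟨T0, h6, h5⟩ hSQ

/-! ### linear algebra -/

/-- fewer equations than unknowns -/
lemma exists_sol (J : Finset (Finset α × ℝ)) (h : J.card ≤ Fintype.card α) :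
    ∃ (y : α → ℝ) (y0 : ℝ), ((∃ i, y i ≠ 0) ∨ y0 ≠ 0) ∧ ∀ p ∈ J, ∑ i ∈ p.1, y i + p.2 * y0 = 0 := by
  let φ : ((α → ℝ) × ℝ) →ₗ[ℝ] (J → ℝ) := LinearMap.pi (fun p =>
    (∑ i ∈ p.1.1, LinearMap.proj i) ∘ₗ LinearMap.fst ℝ (α → ℝ) ℝ +
      p.1.2 • LinearMap.snd ℝ (α → ℝ) ℝ)
  have hlt : Module.finrank ℝ (J → ℝ) < Module.finrank ℝ ((α → ℝ) × ℝ) := by
    rw [Module.finrank_prod]
    simp
    omega
  have hker := LinearMap.ker_ne_bot_of_finrank_lt hlt (f := φ)
  obtain ⟨⟨y, y0⟩, hy, hne⟩ := Submodule.exists_mem_ne_zero_of_ne_bot hker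
  refine ⟨y, y0, ?_, ?_⟩
  · by_contra hcon
    push Not at hcon
    apply hne
    ext i
    · exact hcon.1 i
    · exact hcon.2
  · intro p hp
    rw [LinearMap.mem_ker] at hy
    have := congrFun hy ⟨p, hp⟩
    simpa [φ] using this

lemma neg_of_sum_neg {E : Finset α} {y : α → ℝ} (h : ∑ i ∈ E, y i < 0) :
    (E ∩ univ.filter (fun i => y i < 0)).Nonempty := by
  by_contra hcon
  rw [not_nonempty_iff_eq_empty] at hcon
  have : 0 ≤ ∑ i ∈ E, y i := by
    apply sum_nonneg
    intro i hi
    by_contra hneg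
    push Not at hneg
    have : i ∈ E ∩ univ.filter (fun i => y i < 0) :=
      mem_inter.mpr ⟨hi, mem_filter.mpr ⟨mem_univ _, hneg⟩⟩
    rw [hcon] at this
    simp at this
  linarith

lemma bothOr_of_sum_zero {E : Finset α} {y : α → ℝ} (h : ∑ i ∈ E, y i = 0) :
    bothOr (univ.filter (fun i => 0 < y i)) (univ.filter (fun i => y i < 0)) E := by
  have key : ∀ z : α → ℝ, ∑ i ∈ E, z i = 0 → (E ∩ univ.filter (fun i => 0 < z i)).Nonempty →
      (E ∩ univ.filter (fun i => z i < 0)).Nonempty := by
    rintro z hz ⟨x, hx⟩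
    by_contra hcon
    rw [not_nonempty_iff_eq_empty] at hcon
    have h1 : ∀ i ∈ E, 0 ≤ z i := by
      intro i hi
      by_contra hneg
      push Not at hneg
      have : i ∈ E ∩ univ.filter (fun i => z i < 0) :=
        mem_inter.mpr ⟨hi, mem_filter.mpr ⟨mem_univ _, hneg⟩⟩
      rw [hcon] at this
      simp at this
    rw [mem_inter, mem_filter] at hx
    have h2 := single_le_sum h1 hx.1
    linarith [hx.2.2]
  constructor
  · exact key y h
  · intro h2
    have := key (fun i => - y i) (by rw [sum_neg_distrib, h, neg_zero]) (by simpa using h2)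
    simpa using this

/-- lower bound on the number of extremal points -/
theorem lower {u : Finset α → Prop} (hu : Mon u) :
    (R u).card + 1 ≤ (minT u).card + (blk u).card := by
  by_contra hcon
  push Not at hcon
  let J : Finset (Finset α × ℝ) := (minT u).image (fun E => (E, 1)) ∪
    ((blk u).image (fun T => (T, -1)) ∪ (R u)ᶜ.image (fun i => ({i}, 0)))
  have hJ : J.card ≤ Fintype.card α := by
    have h1 : J.card ≤ (minT u).card + ((blk u).card + (R u)ᶜ.card) := by
      refine (card_union_le _ _).trans (add_le_add card_image_le ?_)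
      exact (card_union_le _ _).trans (add_le_add card_image_le card_image_le)
    rw [card_compl] at h1
    have h2 : (R u).card ≤ Fintype.card α := card_le_univ _
    omega
  obtain ⟨y, y0, hne, hy⟩ := exists_sol J hJ
  -- normalise the sign of `y0`
  have main : ∀ (y : α → ℝ) (y0 : ℝ), 0 ≤ y0 → ((∃ i, y i ≠ 0) ∨ y0 ≠ 0) →
      (∀ p ∈ J, ∑ i ∈ p.1, y i + p.2 * y0 = 0) → False := by
    intro y y0 hy0 hne hy
    have hE : ∀ E ∈ minT u, ∑ i ∈ E, y i = - y0 := by
      intro E hE
      have := hy (E, 1) (mem_union_left _ (mem_image_of_mem _ hE))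
      simp only at this
      linarith
    have hT : ∀ T ∈ blk u, ∑ i ∈ T, y i = y0 := by
      intro T hT
      have := hy (T, -1) (mem_union_right _ (mem_union_left _ (mem_image_of_mem _ hT)))
      simp only at this
      linarith
    have hirr : ∀ i, i ∉ R u → y i = 0 := by
      intro i hi
      have := hy ({i}, 0) (mem_union_right _ (mem_union_right _
        (mem_image_of_mem _ (mem_compl.mpr hi))))
      simpa using this
    rcases hy0.lt_or_eq with hpos | hzero
    · obtain ⟨T, hTb, hTN⟩ := trans_of (u := u) (W := univ.filter (fun i => y i < 0))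
        (fun E hEm => neg_of_sum_neg (by rw [hE E hEm]; linarith))
      have h1 := hT T hTb
      have h2 : ∑ i ∈ T, y i ≤ 0 := sum_nonpos (fun i hi => (mem_filter.mp (hTN hi)).2.le)
      linarith
    · subst hzero
      have hd : Disjoint (univ.filter (fun i => 0 < y i)) (univ.filter (fun i => y i < 0)) := by
        rw [disjoint_left]
        intro i hi hi'
        rw [mem_filter] at hi hi'
        linarith [hi.2, hi'.2]
      have hind := indep hu hd
        (fun E hEm => bothOr_of_sum_zero (by rw [hE E hEm, neg_zero]))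
        (fun T hTm => bothOr_of_sum_zero (hT T hTm))
      rcases hne with ⟨i, hi⟩ | h0
      · by_cases hiR : i ∈ R u
        · apply hind i _ (mem_R.mp hiR)
          rw [mem_union, mem_filter, mem_filter]
          rcases lt_or_gt_of_ne hi with h | h
          · exact Or.inr ⟨mem_univ _, h⟩
          · exact Or.inl ⟨mem_univ _, h⟩
        · exact hi (hirr i hiR)
      · exact h0 rfl
  rcases le_total 0 y0 with h | h
  · exact main y y0 h hne hy
  · refine main (fun i => - y i) (-y0) (by linarith) ?_ ?_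
    · rcases hne with ⟨i, hi⟩ | h0
      · exact Or.inl ⟨i, neg_ne_zero.mpr hi⟩
      · exact Or.inr (neg_ne_zero.mpr h0)
    · intro p hp
      have := hy p hp
      rw [sum_neg_distrib]
      linarith

/-- the number of extremal points is as small as possible -/
def tight (u : Finset α → Prop) : Prop := (minT u).card + (blk u).card = (R u).card + 1

/-- in the tight case minimal ones and minimal transversals meet in exactly one point -/
theorem tight_H {u : Finset α → Prop} (hu : Mon u) (ht : tight u) {E0 T0 : Finset α}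
    (hE0 : E0 ∈ minT u) (hT0 : T0 ∈ blk u) {i j : α} (hi : i ∈ E0 ∩ T0) (hj : j ∈ E0 ∩ T0) :
    i = j := by
  by_contra hij
  rw [mem_inter] at hi hj
  let J : Finset (Finset α × ℝ) := insert ({i, j}, 0) (((minT u).erase E0).image (fun E => (E, 1)) ∪
    (((blk u).erase T0).image (fun T => (T, -1)) ∪ (R u)ᶜ.image (fun i => ({i}, 0))))
  have hJ : J.card ≤ Fintype.card α := by
    have h1 : J.card ≤ ((minT u).erase E0).card + (((blk u).erase T0).card + (R u)ᶜ.card) + 1 := by
      refine (card_insert_le _ _).trans (add_le_add ?_ le_rfl)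
      refine (card_union_le _ _).trans (add_le_add card_image_le ?_)
      exact (card_union_le _ _).trans (add_le_add card_image_le card_image_le)
    rw [card_compl, card_erase_of_mem hE0, card_erase_of_mem hT0] at h1
    have h2 : (R u).card ≤ Fintype.card α := card_le_univ _
    have h3 := card_pos.mpr ⟨E0, hE0⟩
    have h4 := card_pos.mpr ⟨T0, hT0⟩
    unfold tight at ht
    omega
  obtain ⟨y, y0, hne, hy⟩ := exists_sol J hJ
  have main : ∀ (y : α → ℝ) (y0 : ℝ), 0 ≤ y0 → ((∃ i, y i ≠ 0) ∨ y0 ≠ 0) →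
      (∀ p ∈ J, ∑ i ∈ p.1, y i + p.2 * y0 = 0) → False := by
    intro y y0 hy0 hne hy
    have hyij : y i + y j = 0 := by
      have := hy ({i, j}, 0) (mem_insert_self _ _)
      simp only [sum_pair hij] at this
      linarith
    have hE : ∀ E ∈ minT u, E ≠ E0 → ∑ i ∈ E, y i = - y0 := by
      intro E hE hEE
      have := hy (E, 1) (mem_insert_of_mem (mem_union_left _
        (mem_image_of_mem _ (mem_erase.mpr ⟨hEE, hE⟩))))
      simp only at this
      linarith
    have hT : ∀ T ∈ blk u, T ≠ T0 → ∑ i ∈ T, y i = y0 := by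
      intro T hT hTT
      have := hy (T, -1) (mem_insert_of_mem (mem_union_right _ (mem_union_left _
        (mem_image_of_mem _ (mem_erase.mpr ⟨hTT, hT⟩)))))
      simp only at this
      linarith
    have hirr : ∀ i, i ∉ R u → y i = 0 := by
      intro i hi
      have := hy ({i}, 0) (mem_insert_of_mem (mem_union_right _ (mem_union_right _
        (mem_image_of_mem _ (mem_compl.mpr hi)))))
      simpa using this
    set N := univ.filter (fun i => y i < 0) with hN
    set P := univ.filter (fun i => 0 < y i) with hP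
    rcases hy0.lt_or_eq with hpos | hzero
    · -- every minimal one other than `E0` meets `N`
      have hEN : ∀ E ∈ minT u, E ≠ E0 → (E ∩ N).Nonempty := fun E hEm hEE =>
        neg_of_sum_neg (by rw [hE E hEm hEE]; linarith)
      have hbad : ∀ W : Finset α, (∀ E ∈ minT u, (E ∩ W).Nonempty) → (∀ x ∈ W, y x ≤ 0) →
          ¬ T0 ⊆ W → False := by
        intro W hW hW2 hTW
        obtain ⟨T, hTb, hTs⟩ := trans_of hW
        have hTT : T ≠ T0 := by
          rintro rfl
          exact hTW hTs
        have h1 := hT T hTb hTT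
        have h2 : ∑ i ∈ T, y i ≤ 0 := sum_nonpos (fun x hx => hW2 x (hTs hx))
        linarith
      have hT0N : ¬ T0 ⊆ N := by
        intro h
        have h1 := (mem_filter.mp (h hi.2)).2
        have h2 := (mem_filter.mp (h hj.2)).2
        linarith
      by_cases hE0N : (E0 ∩ N).Nonempty
      · apply hbad N _ (fun x hx => (mem_filter.mp hx).2.le) hT0N
        intro E hEm
        by_cases hEE : E = E0
        · rw [hEE]; exact hE0N
        · exact hEN E hEm hEE
      · -- then `y i = y j = 0`
        have hiN : i ∉ N := fun h => hE0N ⟨i, mem_inter.mpr ⟨hi.1, h⟩⟩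
        have hjN : j ∉ N := fun h => hE0N ⟨j, mem_inter.mpr ⟨hj.1, h⟩⟩
        rw [hN, mem_filter, not_and] at hiN hjN
        have hiN' := hiN (mem_univ _)
        have hjN' := hjN (mem_univ _)
        push Not at hiN' hjN'
        have hyi : y i = 0 := by linarith
        have hyj : y j = 0 := by linarith
        apply hbad (insert i N)
        · intro E hEm
          by_cases hEE : E = E0
          · rw [hEE]; exact ⟨i, mem_inter.mpr ⟨hi.1, mem_insert_self _ _⟩⟩
          · obtain ⟨x, hx⟩ := hEN E hEm hEE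
            rw [mem_inter] at hx
            exact ⟨x, mem_inter.mpr ⟨hx.1, mem_insert_of_mem hx.2⟩⟩
        · intro x hx
          rcases mem_insert.mp hx with rfl | hx
          · exact hyi.le
          · exact (mem_filter.mp hx).2.le
        · intro h
          rcases mem_insert.mp (h hj.2) with h1 | h1
          · exact hij h1.symm
          · have := (mem_filter.mp h1).2
            linarith
    · subst hzero
      have hd : Disjoint P N := by
        rw [disjoint_left]
        intro i hi hi'
        rw [hP, mem_filter] at hi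
        rw [hN, mem_filter] at hi'
        linarith [hi.2, hi'.2]
      have hEb : ∀ E ∈ minT u, E ≠ E0 → bothOr P N E := fun E hEm hEE =>
        bothOr_of_sum_zero (by rw [hE E hEm hEE, neg_zero])
      have hTb : ∀ T ∈ blk u, T ≠ T0 → bothOr P N T := fun T hTm hTT =>
        bothOr_of_sum_zero (hT T hTm hTT)
      have hind : ∀ i ∈ P ∪ N, ¬ rel u i := by
        by_cases hyi : y i = 0
        · have hiPN : i ∉ P ∪ N := by
            rw [mem_union, hP, hN, mem_filter, mem_filter]
            rintro (h | h)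
            · linarith [h.2]
            · linarith [h.2]
          exact indep2 hu hd hiPN hi.1 hi.2 hEb hTb
        · -- both `E0` and `T0` meet both `P` and `N`
          have hboth : ∀ X : Finset α, i ∈ X → j ∈ X → bothOr P N X := by
            intro X hiX hjX
            rcases lt_or_gt_of_ne hyi with h | h
            · have h1 : i ∈ N := mem_filter.mpr ⟨mem_univ _, h⟩
              have h2 : j ∈ P := mem_filter.mpr ⟨mem_univ _, by linarith⟩
              exact ⟨fun _ => ⟨i, mem_inter.mpr ⟨hiX, h1⟩⟩,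
                fun _ => ⟨j, mem_inter.mpr ⟨hjX, h2⟩⟩⟩
            · have h1 : i ∈ P := mem_filter.mpr ⟨mem_univ _, h⟩
              have h2 : j ∈ N := mem_filter.mpr ⟨mem_univ _, by linarith⟩
              exact ⟨fun _ => ⟨j, mem_inter.mpr ⟨hjX, h2⟩⟩,
                fun _ => ⟨i, mem_inter.mpr ⟨hiX, h1⟩⟩⟩
          apply indep hu hd
          · intro E hEm
            by_cases hEE : E = E0
            · rw [hEE]; exact hboth E0 hi.1 hj.1
            · exact hEb E hEm hEE
          · intro T hTm
            by_cases hTT : T = T0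
            · rw [hTT]; exact hboth T0 hi.2 hj.2
            · exact hTb T hTm hTT
      rcases hne with ⟨x, hx⟩ | h0
      · by_cases hxR : x ∈ R u
        · apply hind x _ (mem_R.mp hxR)
          rw [mem_union, hP, hN, mem_filter, mem_filter]
          rcases lt_or_gt_of_ne hx with h | h
          · exact Or.inr ⟨mem_univ _, h⟩
          · exact Or.inl ⟨mem_univ _, h⟩
        · exact hx (hirr x hxR)
      · exact h0 rfl
  rcases le_total 0 y0 with h | h
  · exact main y y0 h hne hy
  · refine main (fun i => - y i) (-y0) (by linarith) ?_ ?_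
    · rcases hne with ⟨i, hi⟩ | h0
      · exact Or.inl ⟨i, neg_ne_zero.mpr hi⟩
      · exact Or.inr (neg_ne_zero.mpr h0)
    · intro p hp
      have := hy p hp
      rw [sum_neg_distrib]
      linarith

lemma minT_dual_eq (u : Finset α → Prop) : minT u = blk (dual u) := by
  rw [blk, dual_dual]

lemma tight_dual {u : Finset α → Prop} : tight (dual u) ↔ tight u := by
  unfold tight
  rw [R_dual, ← minT_dual_eq]
  change (blk u).card + (minT u).card = _ ↔ _
  rw [add_comm]

/-! ### restriction of one variable to zero -/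

/-- restriction `x_i = 0` -/
def r0 (u : Finset α → Prop) (i : α) (S : Finset α) : Prop := u (S.erase i)

lemma r0_mon {u : Finset α → Prop} (hu : Mon u) (i : α) : Mon (r0 u i) :=
  fun _ _ h => hu _ _ (erase_subset_erase i h)

lemma mem_minT_r0 {u : Finset α → Prop} {i : α} {S : Finset α} :
    S ∈ minT (r0 u i) ↔ S ∈ minT u ∧ i ∉ S := by
  rw [mem_minT, mem_minT]
  unfold r0
  constructor
  · rintro ⟨h1, h2⟩
    have hi : i ∉ S := by
      intro hi
      have := h2 i hi
      rw [erase_idem] at this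
      exact this h1
    rw [erase_eq_of_notMem hi] at h1
    refine ⟨⟨h1, fun j hj => ?_⟩, hi⟩
    have := h2 j hj
    rwa [erase_eq_of_notMem (fun h => hi (mem_of_mem_erase h))] at this
  · rintro ⟨⟨h1, h2⟩, hi⟩
    rw [erase_eq_of_notMem hi]
    refine ⟨h1, fun j hj => ?_⟩
    rw [erase_eq_of_notMem (fun h => hi (mem_of_mem_erase h))]
    exact h2 j hj

/-- the two conditions under which restricting `i` to zero keeps all transversals and all other
variables -/
def good (u : Finset α → Prop) (i : α) : Prop :=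
  (∀ T ∈ blk u, ∀ t ∈ T, t ≠ i → ∃ E ∈ minT u, E ∩ T = {t} ∧ i ∉ E) ∧
  (∀ t ∈ R u, t ≠ i → ∃ E ∈ minT u, t ∈ E ∧ i ∉ E)

lemma blk_r0 {u : Finset α → Prop} (hu : Mon u) {i : α} (hg : good u i) :
    blk (r0 u i) = (blk u).image (fun T => T.erase i) := by
  have h1 : ∀ T ∈ blk u, T.erase i ∈ blk (r0 u i) := by
    intro T hT
    rw [mem_blk (r0_mon hu i)]
    constructor
    · intro E hE
      rw [mem_minT_r0] at hE
      obtain ⟨x, hx⟩ := meet hu hE.1 hT
      rw [mem_inter] at hx
      exact ⟨x, mem_inter.mpr ⟨hx.1, mem_erase.mpr ⟨fun h => hE.2 (h ▸ hx.1), hx.2⟩⟩⟩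
    · intro t ht
      rw [mem_erase] at ht
      obtain ⟨E, hE, hET, hiE⟩ := hg.1 T hT t ht.2 ht.1
      refine ⟨E, mem_minT_r0.mpr ⟨hE, hiE⟩, ?_⟩
      rw [inter_erase, hET, erase_eq_of_notMem]
      rw [mem_singleton]
      exact fun h => ht.1 h.symm
  ext W
  rw [mem_image]
  constructor
  · intro hW
    have h2 : ∀ E ∈ minT u, (E ∩ insert i W).Nonempty := by
      intro E hE
      by_cases hi : i ∈ E
      · exact ⟨i, mem_inter.mpr ⟨hi, mem_insert_self _ _⟩⟩
      · obtain ⟨x, hx⟩ := meet (r0_mon hu i) (mem_minT_r0.mpr ⟨hE, hi⟩) hW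
        rw [mem_inter] at hx
        exact ⟨x, mem_inter.mpr ⟨hx.1, mem_insert_of_mem hx.2⟩⟩
    obtain ⟨T, hT, hTW⟩ := trans_of h2
    refine ⟨T, hT, ?_⟩
    apply anti (dual_mon (r0_mon hu i)) (h1 T hT) hW
    intro x hx
    rw [mem_erase] at hx
    exact (mem_insert.mp (hTW hx.2)).resolve_left hx.1
  · rintro ⟨T, hT, rfl⟩
    exact h1 T hT

lemma card_blk_r0 {u : Finset α → Prop} (hu : Mon u) {i : α} (hg : good u i) :
    (blk (r0 u i)).card = (blk u).card := by
  rw [blk_r0 hu hg, card_image_of_injOn]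
  intro T hT T' hT' h
  simp only at h
  rcases Classical.em (i ∈ T) with h1 | h1 <;> rcases Classical.em (i ∈ T') with h2 | h2
  · rw [← insert_erase h1, ← insert_erase h2, h]
  · rw [erase_eq_of_notMem h2] at h
    exact (anti (dual_mon hu) hT' hT (h ▸ erase_subset _ _)).symm
  · rw [erase_eq_of_notMem h1] at h
    exact anti (dual_mon hu) hT hT' (h ▸ erase_subset _ _)
  · rwa [erase_eq_of_notMem h1, erase_eq_of_notMem h2] at h

lemma R_r0 {u : Finset α → Prop} (hu : Mon u) {i : α} (hg : good u i) :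
    R (r0 u i) = (R u).erase i := by
  ext t
  rw [mem_erase, mem_R, mem_R, rel_iff (r0_mon hu i)]
  constructor
  · rintro ⟨E, hE, ht⟩
    rw [mem_minT_r0] at hE
    exact ⟨fun h => hE.2 (h ▸ ht), (rel_iff hu).mpr ⟨E, hE.1, ht⟩⟩
  · rintro ⟨hti, ht⟩
    obtain ⟨E, hE, htE, hiE⟩ := hg.2 t (mem_R.mpr ht) hti
    exact ⟨E, mem_minT_r0.mpr ⟨hE, hiE⟩, htE⟩

lemma card_minT_r0 (u : Finset α → Prop) (i : α) :
    (minT (r0 u i)).card + ((minT u).filter (fun E => i ∈ E)).card = (minT u).card := by
  have h1 : minT (r0 u i) = (minT u).filter (fun E => ¬ i ∈ E) := by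
    ext E
    rw [mem_minT_r0, mem_filter]
  rw [h1, add_comm]
  exact card_filter_add_card_filter_not _

/-! ### singleton lemma -/

/-- a singleton minimal one or a singleton minimal transversal -/
def single (u : Finset α → Prop) : Prop := ∃ a, {a} ∈ minT u ∨ {a} ∈ blk u

lemma H' {u : Finset α → Prop} (hu : Mon u) (ht : tight u) {E T : Finset α}
    (hE : E ∈ minT u) (hT : T ∈ blk u) {i : α} (hiE : i ∈ E) (hiT : i ∈ T) : E ∩ T = {i} := by
  ext x
  rw [mem_singleton]
  constructor
  · intro hx
    exact tight_H hu ht hE hT hx (mem_inter.mpr ⟨hiE, hiT⟩)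
  · rintro rfl
    exact mem_inter.mpr ⟨hiE, hiT⟩

lemma singleton_blk {u : Finset α → Prop} (hu : Mon u) {a : α} (hne : (minT u).Nonempty)
    (h : ∀ E ∈ minT u, a ∈ E) : {a} ∈ blk u := by
  rw [mem_blk hu]
  constructor
  · intro E hE
    exact ⟨a, mem_inter.mpr ⟨h E hE, mem_singleton_self _⟩⟩
  · intro t ht
    rw [mem_singleton] at ht
    subst ht
    obtain ⟨E, hE⟩ := hne
    exact ⟨E, hE, inter_singleton_of_mem (h E hE)⟩

lemma mem_of_singleton_blk {u : Finset α → Prop} (hu : Mon u) {a : α} (h : {a} ∈ blk u)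
    {E : Finset α} (hE : E ∈ minT u) : a ∈ E := by
  obtain ⟨x, hx⟩ := meet hu hE h
  rw [mem_inter, mem_singleton] at hx
  rw [← hx.2]
  exact hx.1

/-- Case A: some variable dominates no other variable -/
lemma caseA {u : Finset α → Prop} (hu : Mon u) (ht : tight u) {i : α} (hi : i ∈ R u)
    (hdom : ∀ t ∈ R u, t ≠ i → ∃ E ∈ minT u, t ∈ E ∧ i ∉ E)
    (ih : ∀ v : Finset α → Prop, Mon v → tight v → (R v).Nonempty → (R v).card < (R u).card →
      single v) : single u := by
  have hg : good u i := by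
    refine ⟨fun T hT t htT hti => ?_, hdom⟩
    have htR : t ∈ R u := mem_R.mpr ((rel_iff' hu).mpr ⟨T, hT, htT⟩)
    obtain ⟨E, hE, htE, hiE⟩ := hdom t htR hti
    exact ⟨E, hE, H' hu ht hE hT htE htT, hiE⟩
  have hb := card_blk_r0 hu hg
  have hR : (R (r0 u i)).card + 1 = (R u).card := by
    rw [R_r0 hu hg, card_erase_of_mem hi]
    have := card_pos.mpr ⟨i, hi⟩
    omega
  have hm := card_minT_r0 u i
  have hlow := lower (r0_mon hu i)
  obtain ⟨Ei, hEi, hiEi⟩ := (rel_iff hu).mp (mem_R.mp hi)
  have hdeg : 0 < ((minT u).filter (fun E => i ∈ E)).card :=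
    card_pos.mpr ⟨Ei, mem_filter.mpr ⟨hEi, hiEi⟩⟩
  have ht' := ht
  unfold tight at ht'
  have hdeg1 : ((minT u).filter (fun E => i ∈ E)).card = 1 := by omega
  have huniq : ∀ E ∈ minT u, i ∈ E → E = Ei := by
    intro E hE hiE
    obtain ⟨X, hX⟩ := card_eq_one.mp hdeg1
    have h1 : E ∈ ({X} : Finset (Finset α)) := by rw [← hX]; exact mem_filter.mpr ⟨hE, hiE⟩
    have h2 : Ei ∈ ({X} : Finset (Finset α)) := by rw [← hX]; exact mem_filter.mpr ⟨hEi, hiEi⟩
    rw [mem_singleton] at h1 h2
    rw [h1, h2]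
  have ht0 : tight (r0 u i) := by
    unfold tight
    omega
  by_cases hsing : Ei = {i}
  · exact ⟨i, Or.inl (hsing ▸ hEi)⟩
  -- another element of `Ei`
  obtain ⟨m, hmE, hmi⟩ : ∃ m ∈ Ei, m ≠ i := by
    by_contra hcon
    push Not at hcon
    apply hsing
    ext x
    rw [mem_singleton]
    exact ⟨hcon x, fun h => h ▸ hiEi⟩
  have hmR : m ∈ R u := mem_R.mpr ((rel_iff hu).mpr ⟨Ei, hEi, hmE⟩)
  have hne0 : (R (r0 u i)).Nonempty := by
    rw [R_r0 hu hg]
    exact ⟨m, mem_erase.mpr ⟨hmi, hmR⟩⟩
  obtain ⟨a, ha⟩ := ih (r0 u i) (r0_mon hu i) ht0 hne0 (by omega)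
  rcases ha with ha | ha
  · exact ⟨a, Or.inl (mem_minT_r0.mp ha).1⟩
  · have ha' := ha
    rw [blk_r0 hu hg, mem_image] at ha'
    obtain ⟨T, hT, hTa⟩ := ha'
    by_cases hiT : i ∈ T
    · -- `T = {a, i}`
      have hTeq : T = {i, a} := by rw [← insert_erase hiT, hTa]
      have hai : a ≠ i := by
        intro h
        have : a ∈ T.erase i := by rw [hTa]; exact mem_singleton_self _
        rw [h] at this
        exact (notMem_erase i T) this
      have hEiT := H' hu ht hEi hT hiEi hiT
      have haEi : a ∉ Ei := by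
        intro h
        have : a ∈ Ei ∩ T := mem_inter.mpr ⟨h, by rw [hTeq]; simp⟩
        rw [hEiT, mem_singleton] at this
        exact hai this
      have haE : ∀ E ∈ minT u, i ∉ E → a ∈ E := fun E hE hiE =>
        mem_of_singleton_blk (r0_mon hu i) ha (mem_minT_r0.mpr ⟨hE, hiE⟩)
      have hma : m ≠ a := fun h => haEi (h ▸ hmE)
      -- `{a, m}` is a transversal
      obtain ⟨T', hT', hTs⟩ := trans_of (u := u) (W := {a, m}) (fun E hE => by
        by_cases hiE : i ∈ E
        · rw [huniq E hE hiE]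
          exact ⟨m, mem_inter.mpr ⟨hmE, by simp⟩⟩
        · exact ⟨a, mem_inter.mpr ⟨haE E hE hiE, by simp⟩⟩)
      have hmT' : m ∈ T' := by
        obtain ⟨x, hx⟩ := meet hu hEi hT'
        rw [mem_inter] at hx
        have := hTs hx.2
        rw [mem_insert, mem_singleton] at this
        rcases this with h | h
        · exact absurd (h ▸ hx.1) haEi
        · exact h ▸ hx.2
      by_cases haT' : a ∈ T'
      · exfalso
        obtain ⟨E, hE, hmE', hiE⟩ := hdom m hmR hmi
        have h1 := tight_H hu ht hE hT' (mem_inter.mpr ⟨hmE', hmT'⟩)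
          (mem_inter.mpr ⟨haE E hE hiE, haT'⟩)
        exact hma h1
      · refine ⟨m, Or.inr ?_⟩
        have : T' = {m} := by
          ext x
          rw [mem_singleton]
          constructor
          · intro hx
            have := hTs hx
            rw [mem_insert, mem_singleton] at this
            rcases this with h | h
            · exact absurd (h ▸ hx) haT'
            · exact h
          · rintro rfl; exact hmT'
        rwa [← this]
    · rw [erase_eq_of_notMem hiT] at hTa
      exact ⟨a, Or.inr (hTa ▸ hT)⟩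

/-! ### twins -/

/-- substitute `x_t := x_i` -/
def mg (u : Finset α → Prop) (i t : α) (S : Finset α) : Prop :=
  u (if i ∈ S then insert t S else S.erase t)

lemma mg_mon {u : Finset α → Prop} (hu : Mon u) (i t : α) : Mon (mg u i t) := by
  intro S S' h h1
  unfold mg at *
  apply hu _ _ _ h1
  by_cases hi : i ∈ S
  · rw [if_pos hi, if_pos (h hi)]
    exact insert_subset_insert t h
  · rw [if_neg hi]
    split_ifs
    · exact (erase_subset _ _).trans (h.trans (subset_insert _ _))
    · exact erase_subset_erase t h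

section twins

variable {u : Finset α → Prop} {i t : α}

lemma mg_iff (hu : Mon u) (hit : i ≠ t) (htw : ∀ E ∈ minT u, i ∈ E ↔ t ∈ E) {S : Finset α} :
    mg u i t S ↔ ∃ E ∈ minT u, E.erase t ⊆ S := by
  unfold mg
  rw [u_iff hu]
  constructor
  · rintro ⟨E, hE, hES⟩
    refine ⟨E, hE, ?_⟩
    intro x hx
    rw [mem_erase] at hx
    have := hES hx.2
    split_ifs at this
    · exact (mem_insert.mp this).resolve_left hx.1
    · exact mem_of_mem_erase this
  · rintro ⟨E, hE, hES⟩
    refine ⟨E, hE, ?_⟩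
    intro x hx
    by_cases htE : t ∈ E
    · have hi : i ∈ S := hES (mem_erase.mpr ⟨hit, (htw E hE).mpr htE⟩)
      rw [if_pos hi]
      by_cases hxt : x = t
      · rw [hxt]; exact mem_insert_self _ _
      · exact mem_insert_of_mem (hES (mem_erase.mpr ⟨hxt, hx⟩))
    · have hxt : x ≠ t := fun h => htE (h ▸ hx)
      have hxS : x ∈ S := hES (mem_erase.mpr ⟨hxt, hx⟩)
      split_ifs
      · exact mem_insert_of_mem hxS
      · exact mem_erase.mpr ⟨hxt, hxS⟩

lemma er_anti (hu : Mon u) (hit : i ≠ t) (htw : ∀ E ∈ minT u, i ∈ E ↔ t ∈ E)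
    {E E' : Finset α} (hE : E ∈ minT u) (hE' : E' ∈ minT u) (h : E.erase t ⊆ E'.erase t) :
    E = E' := by
  apply anti hu hE hE'
  intro x hx
  by_cases hxt : x = t
  · subst hxt
    have h1 : i ∈ E := (htw E hE).mpr hx
    have h2 := h (mem_erase.mpr ⟨hit, h1⟩)
    exact (htw E' hE').mp (mem_of_mem_erase h2)
  · exact mem_of_mem_erase (h (mem_erase.mpr ⟨hxt, hx⟩))

lemma minT_mg (hu : Mon u) (hit : i ≠ t) (htw : ∀ E ∈ minT u, i ∈ E ↔ t ∈ E) :
    minT (mg u i t) = (minT u).image (fun E => E.erase t) := by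
  ext W
  rw [mem_image]
  constructor
  · intro hW
    obtain ⟨E, hE, hEW⟩ := (mg_iff hu hit htw).mp (mem_minT.mp hW).1
    refine ⟨E, hE, ?_⟩
    apply Subset.antisymm hEW
    intro x hx
    by_contra hxE
    apply (mem_minT.mp hW).2 x hx
    rw [mg_iff hu hit htw]
    exact ⟨E, hE, fun y hy => mem_erase.mpr ⟨fun h => hxE (h ▸ hy), hEW hy⟩⟩
  · rintro ⟨E, hE, rfl⟩
    rw [mem_minT]
    refine ⟨(mg_iff hu hit htw).mpr ⟨E, hE, Subset.refl _⟩, ?_⟩
    intro x hx h
    obtain ⟨E', hE', hEs⟩ := (mg_iff hu hit htw).mp h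
    have h1 := er_anti hu hit htw hE' hE (hEs.trans (erase_subset _ _))
    subst h1
    exact notMem_erase x _ (hEs hx)

lemma card_minT_mg (hu : Mon u) (hit : i ≠ t) (htw : ∀ E ∈ minT u, i ∈ E ↔ t ∈ E) :
    (minT (mg u i t)).card = (minT u).card := by
  rw [minT_mg hu hit htw, card_image_of_injOn]
  intro E hE E' hE' h
  exact er_anti hu hit htw hE hE' (by simp only at h; rw [h])

lemma blk_mg (hu : Mon u) (hit : i ≠ t) (htw : ∀ E ∈ minT u, i ∈ E ↔ t ∈ E) :
    blk (mg u i t) = (blk u).filter (fun T => ¬ t ∈ T) := by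
  have h1 : ∀ T ∈ blk u, t ∉ T → T ∈ blk (mg u i t) := by
    intro T hT htT
    rw [mem_blk (mg_mon hu i t)]
    constructor
    · intro E hE
      rw [minT_mg hu hit htw, mem_image] at hE
      obtain ⟨E', hE', rfl⟩ := hE
      obtain ⟨x, hx⟩ := meet hu hE' hT
      rw [mem_inter] at hx
      exact ⟨x, mem_inter.mpr ⟨mem_erase.mpr ⟨fun h => htT (h ▸ hx.2), hx.1⟩, hx.2⟩⟩
    · intro s hs
      obtain ⟨E, hE, hEs⟩ := priv hu hT hs
      refine ⟨E.erase t, ?_, ?_⟩
      · rw [minT_mg hu hit htw]; exact mem_image_of_mem _ hE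
      · rw [erase_inter, hEs, erase_eq_of_notMem]
        rw [mem_singleton]
        exact fun h => htT (h ▸ hs)
  ext W
  rw [mem_filter]
  constructor
  · intro hW
    have htW : t ∉ W := by
      intro h
      obtain ⟨E, hE, hEW⟩ := priv (mg_mon hu i t) hW h
      rw [minT_mg hu hit htw, mem_image] at hE
      obtain ⟨E', _, rfl⟩ := hE
      have : t ∈ E'.erase t ∩ W := by rw [hEW]; exact mem_singleton_self _
      exact notMem_erase t _ (mem_inter.mp this).1
    obtain ⟨T, hT, hTW⟩ := trans_of (u := u) (W := W) (fun E hE => by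
      obtain ⟨x, hx⟩ := meet (mg_mon hu i t) (E := E.erase t) (by
        rw [minT_mg hu hit htw]; exact mem_image_of_mem _ hE) hW
      rw [mem_inter] at hx
      exact ⟨x, mem_inter.mpr ⟨mem_of_mem_erase hx.1, hx.2⟩⟩)
    have htT : t ∉ T := fun h => htW (hTW h)
    have : T = W := anti (dual_mon (mg_mon hu i t)) (h1 T hT htT) hW hTW
    rw [← this]
    exact ⟨hT, htT⟩
  · rintro ⟨hT, htT⟩
    exact h1 W hT htT

lemma R_mg (hu : Mon u) (hit : i ≠ t) (htw : ∀ E ∈ minT u, i ∈ E ↔ t ∈ E) :
    R (mg u i t) = (R u).erase t := by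
  ext x
  rw [mem_erase, mem_R, mem_R, rel_iff (mg_mon hu i t), rel_iff hu, minT_mg hu hit htw]
  constructor
  · rintro ⟨E, hE, hx⟩
    rw [mem_image] at hE
    obtain ⟨E', hE', rfl⟩ := hE
    rw [mem_erase] at hx
    exact ⟨hx.1, E', hE', hx.2⟩
  · rintro ⟨hxt, E, hE, hx⟩
    exact ⟨E.erase t, mem_image_of_mem _ hE, mem_erase.mpr ⟨hxt, hx⟩⟩

/-- Case B: two variables lie in the same minimal ones -/
lemma caseB (hu : Mon u) (htight : tight u) (hit : i ≠ t) (hi : i ∈ R u) (ht : t ∈ R u)
    (htw : ∀ E ∈ minT u, i ∈ E ↔ t ∈ E)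
    (ih : ∀ v : Finset α → Prop, Mon v → tight v → (R v).Nonempty → (R v).card < (R u).card →
      single v) : single u := by
  have hm := card_minT_mg hu hit htw
  have hR : (R (mg u i t)).card + 1 = (R u).card := by
    rw [R_mg hu hit htw, card_erase_of_mem ht]
    have := card_pos.mpr ⟨t, ht⟩
    omega
  have hb : (blk (mg u i t)).card + ((blk u).filter (fun T => t ∈ T)).card = (blk u).card := by
    rw [blk_mg hu hit htw, add_comm]
    exact card_filter_add_card_filter_not _
  have hlow := lower (mg_mon hu i t)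
  obtain ⟨Tt, hTt, htTt⟩ := (rel_iff' hu).mp (mem_R.mp ht)
  have hdeg : 0 < ((blk u).filter (fun T => t ∈ T)).card :=
    card_pos.mpr ⟨Tt, mem_filter.mpr ⟨hTt, htTt⟩⟩
  have ht' := htight
  unfold tight at ht'
  have hdeg1 : ((blk u).filter (fun T => t ∈ T)).card = 1 := by omega
  have huniq : ∀ T ∈ blk u, t ∈ T → T = Tt := by
    intro T hT htT
    obtain ⟨X, hX⟩ := card_eq_one.mp hdeg1
    have h1 : T ∈ ({X} : Finset (Finset α)) := by rw [← hX]; exact mem_filter.mpr ⟨hT, htT⟩
    have h2 : Tt ∈ ({X} : Finset (Finset α)) := by rw [← hX]; exact mem_filter.mpr ⟨hTt, htTt⟩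
    rw [mem_singleton] at h1 h2
    rw [h1, h2]
  have ht0 : tight (mg u i t) := by
    unfold tight
    omega
  have hne : (R (mg u i t)).Nonempty := by
    rw [R_mg hu hit htw]
    exact ⟨i, mem_erase.mpr ⟨hit, hi⟩⟩
  obtain ⟨a, ha⟩ := ih (mg u i t) (mg_mon hu i t) ht0 hne (by omega)
  rcases ha with ha | ha
  · rw [minT_mg hu hit htw, mem_image] at ha
    obtain ⟨E, hE, hEa⟩ := ha
    by_cases htE : t ∈ E
    · have hiE : i ∈ E := (htw E hE).mpr htE
      have hai : a = i := by
        have : i ∈ E.erase t := mem_erase.mpr ⟨hit, hiE⟩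
        rw [hEa, mem_singleton] at this
        exact this.symm
      subst hai
      have hEeq : E = {t, a} := by rw [← insert_erase htE, hEa]
      -- is there another minimal one?
      by_cases hex : ∃ E' ∈ minT u, E' ≠ E
      · obtain ⟨E', hE', hne'⟩ := hex
        have haE' : a ∉ E' := by
          intro h
          apply hne'
          symm
          apply anti hu hE hE'
          rw [hEeq]
          intro x hx
          rw [mem_insert, mem_singleton] at hx
          rcases hx with rfl | rfl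
          · exact (htw E' hE').mp h
          · exact h
        have htE' : t ∉ E' := fun h => haE' ((htw E' hE').mpr h)
        -- every element of `E'` lies in `Tt`
        have hsub : E' ⊆ Tt := by
          intro m hm'
          obtain ⟨T, hT, hmT⟩ := (rel_iff' hu).mp ((rel_iff hu).mpr ⟨E', hE', hm'⟩)
          by_cases htT : t ∈ T
          · rw [← huniq T hT htT]; exact hmT
          · -- then `a ∈ T`, replace `a` by `t`
            have haT : a ∈ T := by
              obtain ⟨x, hx⟩ := meet hu hE hT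
              rw [mem_inter, hEeq, mem_insert, mem_singleton] at hx
              rcases hx.1 with h | h
              · exact absurd (h ▸ hx.2) htT
              · exact h ▸ hx.2
            obtain ⟨T2, hT2, hT2s⟩ := trans_of (u := u) (W := insert t (T.erase a))
              (fun X hX => by
                by_cases haX : a ∈ X
                · exact ⟨t, mem_inter.mpr ⟨(htw X hX).mp haX, mem_insert_self _ _⟩⟩
                · obtain ⟨x, hx⟩ := meet hu hX hT
                  rw [mem_inter] at hx
                  exact ⟨x, mem_inter.mpr ⟨hx.1, mem_insert_of_mem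
                    (mem_erase.mpr ⟨fun h => haX (h ▸ hx.1), hx.2⟩)⟩⟩)
            have htT2 : t ∈ T2 := by
              by_contra h
              have h1 : T2 ⊆ T.erase a := by
                intro x hx
                exact (mem_insert.mp (hT2s hx)).resolve_left (fun h' => h (h' ▸ hx))
              have h2 : T2 = T := anti (dual_mon hu) hT2 hT (h1.trans (erase_subset _ _))
              rw [h2] at h1
              exact notMem_erase a _ (h1 haT)
            rw [← huniq T2 hT2 htT2]
            obtain ⟨x, hx⟩ := meet hu hE' hT2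
            rw [mem_inter] at hx
            have h3 := hT2s hx.2
            rw [mem_insert, mem_erase] at h3
            rcases h3 with h3 | h3
            · exact absurd (h3 ▸ hx.1) htE'
            · have h4 := tight_H hu htight hE' hT (mem_inter.mpr ⟨hx.1, h3.2⟩)
                (mem_inter.mpr ⟨hm', hmT⟩)
              rw [← h4]
              exact hx.2
        obtain ⟨m, hm'⟩ := meet hu hE' hTt
        rw [mem_inter] at hm'
        refine ⟨m, Or.inl ?_⟩
        have : E' = {m} := by
          ext x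
          rw [mem_singleton]
          constructor
          · intro hx
            exact tight_H hu htight hE' hTt (mem_inter.mpr ⟨hx, hsub hx⟩)
              (mem_inter.mpr ⟨hm'.1, hm'.2⟩)
          · rintro rfl; exact hm'.1
        rwa [← this]
      · push Not at hex
        exact ⟨a, Or.inr (singleton_blk hu ⟨E, hE⟩ (fun E' hE' => by rw [hex E' hE']; exact hiE))⟩
    · rw [erase_eq_of_notMem htE] at hEa
      exact ⟨a, Or.inl (hEa ▸ hE)⟩
  · rw [blk_mg hu hit htw, mem_filter] at ha
    exact ⟨a, Or.inr ha.1⟩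

end twins

/-- the singleton lemma -/
theorem singleton {u : Finset α → Prop} (hu : Mon u) (ht : tight u) (hne : (R u).Nonempty) :
    single u := by
  induction hn : (R u).card using Nat.strong_induction_on generalizing u with
  | _ n ih =>
    have ih' : ∀ v : Finset α → Prop, Mon v → tight v → (R v).Nonempty →
        (R v).card < (R u).card → single v := by
      intro v hv htv hnev hlt
      exact ih (R v).card (by omega) hv htv hnev rfl
    -- variable contained in the fewest minimal ones
    obtain ⟨i, hi, hmin⟩ := exists_min_image (R u)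
      (fun i => ((minT u).filter (fun E => i ∈ E)).card) hne
    by_cases hdom : ∀ t ∈ R u, t ≠ i → ∃ E ∈ minT u, t ∈ E ∧ i ∉ E
    · exact caseA hu ht hi hdom ih'
    · push Not at hdom
      obtain ⟨t, htR, hti, htd⟩ := hdom
      have hsub : (minT u).filter (fun E => t ∈ E) ⊆ (minT u).filter (fun E => i ∈ E) := by
        intro E hE
        rw [mem_filter] at hE ⊢
        exact ⟨hE.1, htd E hE.1 hE.2⟩
      have heq := eq_of_subset_of_card_le hsub (hmin t htR)
      apply caseB hu ht (Ne.symm hti) hi htR _ ih'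
      intro E hE
      constructor
      · intro h
        have : E ∈ (minT u).filter (fun E => t ∈ E) := by
          rw [heq]; exact mem_filter.mpr ⟨hE, h⟩
        exact (mem_filter.mp this).2
      · exact htd E hE

end Pool.Agent.V11182.ExtPts
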