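import Pool.Agent.V11182.ExtPts

/-!
# Nested functions and tight monotone functions
-/

namespace Pool.Agent.V11182.ExtPts

open Finset
open scoped Classical

set_option linter.unusedSectionVars false

variable {α : Type} [Fintype α]

lemma good_of_single {u : Finset α → Prop} (hu : Mon u) {a : α} (ha : {a} ∈ minT u) :
    good u a := by
  have haT : ∀ T ∈ blk u, a ∈ T := by
    intro T hT
    obtain ⟨x, hx⟩ := meet hu ha hT
    rw [mem_inter, mem_singleton] at hx
    rw [← hx.1]
    exact hx.2
  refine ⟨?_, ?_⟩
  · intro T hT t ht hta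
    obtain ⟨E, hE, hEt⟩ := priv hu hT ht
    refine ⟨E, hE, hEt, ?_⟩
    intro haE
    have : a ∈ E ∩ T := mem_inter.mpr ⟨haE, haT T hT⟩
    rw [hEt, mem_singleton] at this
    exact hta this.symm
  · intro t ht hta
    obtain ⟨T, hT, htT⟩ := (rel_iff' hu).mp (mem_R.mp ht)
    obtain ⟨E, hE, hEt⟩ := priv hu hT htT
    refine ⟨E, hE, ?_, ?_⟩
    · have : t ∈ E ∩ T := by rw [hEt]; exact mem_singleton_self _
      exact (mem_inter.mp this).1
    · intro haE
      have : a ∈ E ∩ T := mem_inter.mpr ⟨haE, haT T hT⟩
      rw [hEt, mem_singleton] at this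
      exact hta this.symm

lemma filter_single {u : Finset α → Prop} (hu : Mon u) {a : α} (ha : {a} ∈ minT u) :
    ((minT u).filter (fun E => a ∈ E)).card = 1 := by
  rw [card_eq_one]
  refine ⟨{a}, ?_⟩
  ext E
  rw [mem_filter, mem_singleton]
  constructor
  · rintro ⟨hE, haE⟩
    exact (anti hu ha hE (singleton_subset_iff.mpr haE)).symm
  · rintro rfl
    exact ⟨ha, mem_singleton_self _⟩

lemma mem_R_of_single {u : Finset α → Prop} (hu : Mon u) {a : α} (ha : {a} ∈ minT u) :
    a ∈ R u := mem_R.mpr ((rel_iff hu).mpr ⟨{a}, ha, mem_singleton_self _⟩)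

lemma card_R_r0_single {u : Finset α → Prop} (hu : Mon u) {a : α} (ha : {a} ∈ minT u) :
    (R (r0 u a)).card + 1 = (R u).card := by
  rw [R_r0 hu (good_of_single hu ha), card_erase_of_mem (mem_R_of_single hu ha)]
  have := card_pos.mpr ⟨a, mem_R_of_single hu ha⟩
  omega

lemma tight_r0_iff {u : Finset α → Prop} (hu : Mon u) {a : α} (ha : {a} ∈ minT u) :
    tight (r0 u a) ↔ tight u := by
  have h1 := card_blk_r0 hu (good_of_single hu ha)
  have h2 := card_minT_r0 u a
  have h3 := filter_single hu ha
  have h4 := card_R_r0_single hu ha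
  unfold tight
  omega

lemma u_eq_of_single {u : Finset α → Prop} (hu : Mon u) {a : α} (ha : {a} ∈ minT u)
    (S : Finset α) : u S ↔ a ∈ S ∨ r0 u a S := by
  unfold r0
  by_cases h : a ∈ S
  · simp only [h, true_or, iff_true]
    exact hu {a} S (singleton_subset_iff.mpr h) (mem_minT.mp ha).1
  · simp [h]

lemma const_of_R_empty {u : Finset α → Prop} (hu : Mon u) (hR : R u = ∅) (S : Finset α) :
    u S ↔ u ∅ := by
  constructor
  · intro h
    obtain ⟨E, hE, _⟩ := exists_min h
    have : E = ∅ := by
      rw [← not_nonempty_iff_eq_empty]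
      rintro ⟨x, hx⟩
      have : x ∈ R u := mem_R.mpr ((rel_iff hu).mpr ⟨E, hE, hx⟩)
      rw [hR] at this
      simp at this
    rw [← this]
    exact (mem_minT.mp hE).1
  · exact hu _ _ (empty_subset _)

lemma tight_of_R_empty {u : Finset α → Prop} (hu : Mon u) (hR : R u = ∅) : tight u := by
  have key : ∀ v : Finset α → Prop, Mon v → R v = ∅ → v ∅ →
      minT v = {∅} ∧ blk v = ∅ := by
    intro v hv hRv h0
    constructor
    · ext E
      rw [mem_singleton]
      constructor
      · intro hE
        rw [← not_nonempty_iff_eq_empty]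
        rintro ⟨x, hx⟩
        have : x ∈ R v := mem_R.mpr ((rel_iff hv).mpr ⟨E, hE, hx⟩)
        rw [hRv] at this
        simp at this
      · rintro rfl
        rw [mem_minT]
        exact ⟨h0, by simp⟩
    · rw [eq_empty_iff_forall_notMem]
      intro T hT
      have := (mem_minT.mp hT).1
      exact this (hv _ _ (empty_subset _) h0)
  unfold tight
  by_cases h0 : u ∅
  · obtain ⟨h1, h2⟩ := key u hu hR h0
    rw [h1, h2, hR]
    simp
  · have h0' : dual u ∅ := by
      unfold dual
      rw [const_of_R_empty hu hR]
      exact h0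
    obtain ⟨h1, h2⟩ := key (dual u) (dual_mon hu) (by rw [R_dual]; exact hR) h0'
    rw [← minT_dual_eq] at h2
    change minT (dual u) = _ at h1
    have h1' : blk u = {∅} := h1
    rw [h1', h2, hR]
    simp

/-! ### descriptions that do not mention `erase`, `insert` or complements -/

lemma mem_minT' {u : Finset α → Prop} (hu : Mon u) {S : Finset α} :
    S ∈ minT u ↔ u S ∧ ∀ S', S' ⊂ S → ¬ u S' := by
  rw [mem_minT]
  constructor
  · rintro ⟨h1, h2⟩
    refine ⟨h1, fun S' hS' h => ?_⟩
    obtain ⟨i, hi, hi'⟩ := exists_of_ssubset hS'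
    apply h2 i hi
    apply hu _ _ _ h
    intro j hj
    exact mem_erase.mpr ⟨fun h' => hi' (h' ▸ hj), hS'.subset hj⟩
  · rintro ⟨h1, h2⟩
    exact ⟨h1, fun i hi => h2 _ (erase_ssubset hi)⟩

lemma mem_blk' {u : Finset α → Prop} (hu : Mon u) {S T : Finset α} (h : ∀ i, i ∈ S ↔ i ∉ T) :
    T ∈ blk u ↔ ¬ u S ∧ ∀ S', S ⊂ S' → u S' := by
  have hS : S = Tᶜ := by
    ext i
    rw [mem_compl]
    exact h i
  subst hS
  unfold blk
  rw [mem_minT' (dual_mon hu)]
  constructor
  · rintro ⟨h1, h2⟩
    refine ⟨h1, fun S' hS' => ?_⟩
    have h3 := h2 S'ᶜ (by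
      rw [← compl_compl T]
      exact compl_lt_compl_iff_lt.mpr hS')
    unfold dual at h3
    rwa [compl_compl, not_not] at h3
  · rintro ⟨h1, h2⟩
    refine ⟨h1, fun S' hS' => ?_⟩
    unfold dual
    rw [not_not]
    exact h2 _ (compl_lt_compl_iff_lt.mpr hS')

lemma rel_iff2 {u : Finset α → Prop} (hu : Mon u) {i : α} :
    rel u i ↔ ∃ S S' : Finset α, (∀ j, j ≠ i → (j ∈ S ↔ j ∈ S')) ∧ ¬ u S ∧ u S' := by
  constructor
  · rintro ⟨S, h1, h2⟩
    refine ⟨S.erase i, insert i S, ?_, h1, h2⟩
    intro j hj
    simp [hj]
  · rintro ⟨S, S', h, h1, h2⟩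
    refine ⟨S, fun h3 => h1 (hu _ _ (erase_subset _ _) h3), hu _ _ ?_ h2⟩
    intro j hj
    by_cases hji : j = i
    · rw [hji]
      exact mem_insert_self _ _
    · exact mem_insert_of_mem ((h j hji).mpr hj)

/-! ### nested evaluation -/

/-- nested evaluation; `true` is `∨`, `false` is `∧` -/
def ev : List (α × Bool) → α → Finset α → Prop
  | [], a, S => a ∈ S
  | (i, true) :: l, a, S => i ∈ S ∨ ev l a S
  | (i, false) :: l, a, S => i ∈ S ∧ ev l a S

/-- exchange the two operations -/
def flip (l : List (α × Bool)) : List (α × Bool) := l.map (fun p => (p.1, !p.2))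

lemma flip_flip (l : List (α × Bool)) : flip (flip l) = l := by
  unfold flip
  rw [List.map_map]
  conv_rhs => rw [← List.map_id l]
  congr 1
  funext p
  simp

lemma flip_fst (l : List (α × Bool)) : (flip l).map Prod.fst = l.map Prod.fst := by
  unfold flip
  rw [List.map_map]
  rfl

lemma ev_flip (l : List (α × Bool)) (a : α) (S : Finset α) :
    ev (flip l) a S ↔ ¬ ev l a Sᶜ := by
  induction l with
  | nil => simp [flip, ev]
  | cons p l ih =>
    obtain ⟨i, b⟩ := p
    have h1 : flip ((i, b) :: l) = (i, !b) :: flip l := rfl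
    rw [h1]
    cases b
    · simp only [Bool.not_false, ev, ih, mem_compl]
      tauto
    · simp only [Bool.not_true, ev, ih, mem_compl]
      tauto

lemma ev_flip' (l : List (α × Bool)) (a : α) : ev (flip l) a = dual (ev l a) := by
  funext S
  exact propext (ev_flip l a S)

lemma ev_mon (l : List (α × Bool)) (a : α) : Mon (ev l a) := by
  induction l with
  | nil => intro S S' h h1; exact h h1
  | cons p l ih =>
    obtain ⟨i, b⟩ := p
    intro S S' h h1
    cases b
    · exact ⟨h h1.1, ih S S' h h1.2⟩
    · rcases h1 with h1 | h1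
      · exact Or.inl (h h1)
      · exact Or.inr (ih S S' h h1)

lemma ev_empty (l : List (α × Bool)) (a : α) : ¬ ev l a ∅ := by
  induction l with
  | nil => simp [ev]
  | cons p l ih =>
    obtain ⟨i, b⟩ := p
    cases b
    · rintro ⟨h, _⟩
      simp at h
    · rintro (h | h)
      · simp at h
      · exact ih h

/-- the indices occurring -/
def idx (l : List (α × Bool)) (a : α) : List α := l.map Prod.fst ++ [a]

lemma idx_cons (i : α) (b : Bool) (l : List (α × Bool)) (a : α) :
    idx ((i, b) :: l) a = i :: idx l a := rfl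

lemma idx_flip (l : List (α × Bool)) (a : α) : idx (flip l) a = idx l a := by
  unfold idx
  rw [flip_fst]

/-- tight functions are nested -/
theorem nested_of_tight {u : Finset α → Prop} (hu : Mon u) (ht : tight u)
    (hne : (R u).Nonempty) :
    ∃ (l : List (α × Bool)) (a : α), (idx l a).Nodup ∧ (∀ i, i ∈ idx l a ↔ i ∈ R u) ∧
      ∀ S, u S ↔ ev l a S := by
  induction hn : (R u).card using Nat.strong_induction_on generalizing u with
  | _ n ih =>
    -- the case of a singleton minimal one
    have main : ∀ v : Finset α → Prop, Mon v → tight v → R v = R u → (∃ a, {a} ∈ minT v) →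
        ∃ (l : List (α × Bool)) (a : α), (idx l a).Nodup ∧ (∀ i, i ∈ idx l a ↔ i ∈ R v) ∧
          ∀ S, v S ↔ ev l a S := by
      rintro v hv htv hRv ⟨a, ha⟩
      have hcard := card_R_r0_single hv ha
      have hRr := R_r0 hv (good_of_single hv ha)
      rw [hRv] at hcard
      by_cases hemp : (R (r0 v a)).Nonempty
      · obtain ⟨l, b, hnd, hmem, hev⟩ := ih (R (r0 v a)).card (by omega) (r0_mon hv a)
          ((tight_r0_iff hv ha).mpr htv) hemp rfl
        refine ⟨(a, true) :: l, b, ?_, ?_, ?_⟩
        · rw [idx_cons, List.nodup_cons]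
          refine ⟨?_, hnd⟩
          rw [hmem, hRr]
          exact notMem_erase _ _
        · intro i
          rw [idx_cons, List.mem_cons, hmem, hRr, mem_erase]
          constructor
          · rintro (rfl | h)
            · exact mem_R_of_single hv ha
            · exact h.2
          · intro h
            by_cases hia : i = a
            · exact Or.inl hia
            · exact Or.inr ⟨hia, h⟩
        · intro S
          rw [u_eq_of_single hv ha, hev]
          rfl
      · rw [not_nonempty_iff_eq_empty] at hemp
        refine ⟨[], a, ?_, ?_, ?_⟩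
        · simp [idx]
        · intro i
          have h1 : idx ([] : List (α × Bool)) a = [a] := rfl
          rw [h1, List.mem_singleton]
          constructor
          · rintro rfl
            exact mem_R_of_single hv ha
          · intro hi
            by_contra hia
            have : i ∈ R (r0 v a) := by rw [hRr]; exact mem_erase.mpr ⟨hia, hi⟩
            rw [hemp] at this
            simp at this
        · intro S
          rw [u_eq_of_single hv ha, const_of_R_empty (r0_mon hv a) hemp]
          have h0 : ¬ r0 v a ∅ := by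
            have := (mem_minT.mp ha).2 a (mem_singleton_self _)
            unfold r0
            simpa using this
          simp [h0, ev]
    obtain ⟨a, ha | ha⟩ := singleton hu ht hne
    · exact main u hu ht rfl ⟨a, ha⟩
    · obtain ⟨l, b, hnd, hmem, hev⟩ := main (dual u) (dual_mon hu) (tight_dual.mpr ht)
        (R_dual u) ⟨a, ha⟩
      refine ⟨flip l, b, ?_, ?_, ?_⟩
      · rwa [idx_flip]
      · intro i
        rw [idx_flip, hmem, R_dual]
      · intro S
        rw [ev_flip, ← hev]
        simp [dual]

/-- the effect of `∨` with a new variable -/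
lemma tight_or {l : List (α × Bool)} {a i : α} (ht : tight (ev l a))
    (hR : R (ev l a) = (idx l a).toFinset) (hi : i ∉ idx l a) :
    tight (ev ((i, true) :: l) a) ∧
      R (ev ((i, true) :: l) a) = (idx ((i, true) :: l) a).toFinset := by
  have hu := ev_mon ((i, true) :: l) a
  have hsing : {i} ∈ minT (ev ((i, true) :: l) a) := by
    rw [mem_minT]
    refine ⟨Or.inl (mem_singleton_self _), ?_⟩
    intro j hj
    rw [mem_singleton] at hj
    subst hj
    rw [erase_singleton]
    exact ev_empty _ _
  have hr0 : r0 (ev ((i, true) :: l) a) i = ev l a := by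
    funext S
    apply propext
    have h1 : r0 (ev ((i, true) :: l) a) i S ↔ ev l a (S.erase i) := by
      unfold r0
      simp [ev]
    rw [h1]
    constructor
    · exact ev_mon l a _ _ (erase_subset _ _)
    · intro h
      by_contra hcon
      have hrel : rel (ev l a) i := ⟨S, hcon, ev_mon l a _ _ (subset_insert _ _) h⟩
      have := mem_R.mpr hrel
      rw [hR, List.mem_toFinset] at this
      exact hi this
  constructor
  · rw [← tight_r0_iff hu hsing, hr0]
    exact ht
  · have h1 := R_r0 hu (good_of_single hu hsing)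
    rw [hr0, hR] at h1
    rw [idx_cons, List.toFinset_cons, h1, insert_erase (mem_R_of_single hu hsing)]

/-- nested functions are tight -/
theorem tight_ev (l : List (α × Bool)) (a : α) (hnd : (idx l a).Nodup) :
    tight (ev l a) ∧ R (ev l a) = (idx l a).toFinset := by
  induction l with
  | nil =>
    have h1 : ∀ E, E ∈ minT (ev [] a) ↔ E = {a} := by
      intro E
      rw [mem_minT]
      constructor
      · rintro ⟨h1, h2⟩
        have h1' : a ∈ E := h1
        ext x
        rw [mem_singleton]
        constructor
        · intro hx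
          by_contra hxa
          exact h2 x hx (mem_erase.mpr ⟨fun h => hxa h.symm, h1'⟩)
        · rintro rfl
          exact h1'
      · rintro rfl
        refine ⟨mem_singleton_self _, ?_⟩
        intro j hj
        rw [mem_singleton] at hj
        subst hj
        rw [erase_singleton]
        exact ev_empty _ _
    have h2 : minT (ev [] a) = {{a}} := by
      ext E
      rw [h1, mem_singleton]
    have h3 : dual (ev [] a) = ev [] a := by
      rw [← ev_flip']
      rfl
    have h4 : blk (ev [] a) = {{a}} := by
      unfold blk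
      rw [h3, h2]
    have h5 : R (ev [] a) = {a} := by
      ext x
      rw [mem_R, rel_iff (ev_mon [] a), mem_singleton]
      constructor
      · rintro ⟨E, hE, hx⟩
        rw [h1] at hE
        rw [hE, mem_singleton] at hx
        exact hx
      · rintro rfl
        exact ⟨{x}, (h1 _).mpr rfl, mem_singleton_self _⟩
    constructor
    · unfold tight
      rw [h2, h4, h5]
      simp
    · rw [h5]
      rfl
  | cons p l ih =>
    obtain ⟨i, b⟩ := p
    rw [idx_cons, List.nodup_cons] at hnd
    obtain ⟨ih1, ih2⟩ := ih hnd.2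
    cases b
    · have h1 : tight (ev (flip l) a) := by
        rw [ev_flip', tight_dual]
        exact ih1
      have h2 : R (ev (flip l) a) = (idx (flip l) a).toFinset := by
        rw [ev_flip', R_dual, ih2, idx_flip]
      obtain ⟨h3, h4⟩ := tight_or h1 h2 (by rw [idx_flip]; exact hnd.1)
      have h5 : ev ((i, false) :: l) a = dual (ev ((i, true) :: flip l) a) := by
        rw [← ev_flip']
        congr 1
        change _ = (i, !true) :: flip (flip l)
        rw [flip_flip]
        rfl
      constructor
      · rw [h5, tight_dual]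
        exact h3
      · rw [h5, R_dual, h4, idx_cons, idx_cons, idx_flip]
    · exact tight_or ih1 ih2 hnd.1

end Pool.Agent.V11182.ExtPts
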