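import Pool.Agent.V11182.FanWedge

set_option autoImplicit false
set_option linter.unusedVariables false
set_option linter.unusedSectionVars false
set_option linter.dupNamespace false
set_option linter.unusedSimpArgs false

/-! Smooth fans with exactly six orbits. -/

namespace Pool.Agent.V11182.FanSix

open Set Topology Filter Pool.Agent.H545R3.Fan Pool.Agent.V11182.FanWedge

/-! ### The levels -/

/-- the marks `1/4, 1/8, ...` and `1/2, 3/4, 7/8, ...` -/
noncomputable def xx : ℤ → ℝ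
  | Int.ofNat k => 1 - (1 / 2) ^ (k + 1)
  | Int.negSucc k => (1 / 2) ^ (k + 2)

lemma xx_ofNat (k : ℕ) : xx (k : ℤ) = 1 - (1 / 2) ^ (k + 1) := rfl

lemma xx_negSucc (k : ℕ) : xx (Int.negSucc k) = (1 / 2) ^ (k + 2) := rfl

lemma hp_pos (k : ℕ) : 0 < ((1:ℝ) / 2) ^ k := by positivity

lemma hp_le (k : ℕ) : ((1:ℝ) / 2) ^ k ≤ 1 := pow_le_one₀ (by norm_num) (by norm_num)

lemma xx_pos (n : ℤ) : 0 < xx n := by
  rcases n with k | k
  · show 0 < xx (k : ℤ)
    rw [xx_ofNat, pow_succ]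
    have := hp_le k
    linarith
  · rw [xx_negSucc]; exact hp_pos _

lemma xx_lt (n : ℤ) : xx n < 1 := by
  rcases n with k | k
  · show xx (k : ℤ) < 1
    rw [xx_ofNat]
    have := hp_pos (k + 1)
    linarith
  · rw [xx_negSucc, pow_succ]
    have := hp_le (k + 1)
    linarith

/-- the shift -/
noncomputable def g0 : ℝ ≃o ℝ where
  toFun s := min (2 * s) (min (s + 1 / 4) ((1 + s) / 2))
  invFun t := max (t / 2) (max (t - 1 / 4) (2 * t - 1))
  left_inv := by
    intro s
    simp only [min_def, max_def]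
    split_ifs <;> linarith
  right_inv := by
    intro s
    simp only [min_def, max_def]
    split_ifs <;> linarith
  map_rel_iff' := by
    intro a b
    simp only [Equiv.coe_fn_mk, min_def]
    split_ifs <;> constructor <;> intro h <;> linarith

lemma g0_apply (s : ℝ) : g0 s = min (2 * s) (min (s + 1 / 4) ((1 + s) / 2)) := rfl

lemma g0_zero : g0 0 = 0 := by
  rw [g0_apply]; norm_num

lemma g0_one : g0 1 = 1 := by
  rw [g0_apply]; norm_num

lemma g0_xx (n : ℤ) : g0 (xx n) = xx (n + 1) := by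
  rcases n with k | k
  · show g0 (xx (k : ℤ)) = xx (k + 1 : ℤ)
    have h1 : ((k : ℤ) + 1) = ((k + 1 : ℕ) : ℤ) := by push_cast; ring
    rw [h1, xx_ofNat, xx_ofNat, g0_apply, pow_succ _ (k + 1), pow_succ _ k]
    have := hp_le k
    have := hp_pos k
    rw [min_eq_right, min_eq_right] <;> try linarith
    rw [min_eq_right] <;> linarith
  · rcases k with _ | k
    · have h1 : (Int.negSucc 0 + 1) = ((0 : ℕ) : ℤ) := rfl
      rw [h1, xx_negSucc, xx_ofNat, g0_apply]
      norm_num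
    · have h1 : (Int.negSucc (k + 1) + 1) = Int.negSucc k := rfl
      rw [h1, xx_negSucc, xx_negSucc, g0_apply, pow_succ _ (k + 2), pow_succ _ (k + 1), pow_succ _ k]
      have := hp_le k
      have := hp_pos k
      rw [min_eq_left]
      · ring
      · rw [le_min_iff]
        constructor <;> linarith

lemma xx_succ (n : ℤ) : xx n < xx (n + 1) := by
  rw [← g0_xx, g0_apply]
  have h1 := xx_pos n
  have h2 := xx_lt n
  rw [lt_min_iff, lt_min_iff]
  refine ⟨by linarith, by linarith, by linarith⟩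

lemma xx_mono : StrictMono xx := strictMono_int_of_lt_succ xx_succ

lemma gap {s : ℝ} (h0 : 0 < s) (h1 : s < 1) :
    (∃ n, s = xx n) ∨ ∃ n, xx n < s ∧ s < xx (n + 1) := by
  rcases le_or_gt (1 / 2) s with h | h
  · obtain ⟨k, hk1, hk2⟩ := exists_nat_pow_near_of_lt_one (x := 1 - s) (y := (1:ℝ) / 2) (by linarith)
      (by linarith) (by norm_num) (by norm_num)
    rcases k with _ | k
    · simp at hk1
      exfalso; linarith
    · have e1 : ((k : ℤ) + 1) = ((k + 1 : ℕ) : ℤ) := by push_cast; ring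
      have h2 : xx (k : ℤ) ≤ s := by rw [xx_ofNat]; linarith
      have h3 : s < xx ((k : ℤ) + 1) := by rw [e1, xx_ofNat]; linarith
      rcases h2.eq_or_lt with h4 | h4
      · exact Or.inl ⟨_, h4.symm⟩
      · exact Or.inr ⟨_, h4, h3⟩
  · obtain ⟨k, hk1, hk2⟩ := exists_nat_pow_near_of_lt_one (x := s) (y := (1:ℝ) / 2) (by linarith)
      (by linarith) (by norm_num) (by norm_num)
    rcases k with _ | k
    · simp at hk1
      exfalso; linarith
    · have h2 : xx (Int.negSucc k) < s := by rw [xx_negSucc]; exact hk1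
      have h3 : s ≤ xx (Int.negSucc k + 1) := by
        rcases k with _ | k
        · have e1 : (Int.negSucc 0 + 1) = ((0 : ℕ) : ℤ) := rfl
          rw [e1, xx_ofNat]
          norm_num at hk2 ⊢
          linarith
        · have e1 : (Int.negSucc (k + 1) + 1) = Int.negSucc k := rfl
          rw [e1, xx_negSucc]
          exact hk2
      rcases h3.eq_or_lt with h4 | h4
      · exact Or.inl ⟨_, h4⟩
      · exact Or.inr ⟨_, h2, h4⟩

/-- gluing with the identity -/
noncomputable def glue (F : ℝ ≃o ℝ) (b : ℝ) (hb : F b = b) : ℝ ≃o ℝ where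
  toFun s := if s ≤ b then F s else s
  invFun s := if s ≤ b then F.symm s else s
  left_inv := by
    intro s
    by_cases h : s ≤ b
    · have : F s ≤ b := by rw [← hb]; exact F.monotone h
      simp [h, this]
    · simp [h]
  right_inv := by
    intro s
    by_cases h : s ≤ b
    · have : F.symm s ≤ b := by
        rw [F.symm_apply_le, hb]; exact h
      simp [h, this]
    · simp [h]
  map_rel_iff' := by
    intro s t
    simp only [Equiv.coe_fn_mk]
    by_cases h : s ≤ b <;> by_cases h' : t ≤ b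
    · simp [h, h']
    · have h1 : F s ≤ b := by rw [← hb]; exact F.monotone h
      simp only [h, h', if_true, if_false]
      push Not at h'
      exact ⟨fun _ => h.trans h'.le, fun _ => h1.trans h'.le⟩
    · have h1 : F t ≤ b := by rw [← hb]; exact F.monotone h'
      simp only [h, h', if_true, if_false]
      push Not at h
      constructor
      · intro h2; linarith
      · intro h2; linarith
    · simp [h, h']

lemma tent {a x y b : ℝ} (hx : a < x) (hxb : x < b) (hy : a < y) (hyb : y < b) :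
    ∃ G : ℝ ≃o ℝ, (∀ s, s ≤ a → G s = s) ∧ (∀ s, b ≤ s → G s = s) ∧ G x = y := by
  obtain ⟨G₁, a1, a2⟩ := bump hx hy
  have h1 : y < G₁ b := by rw [← a2]; exact G₁.strictMono hxb
  obtain ⟨G₂, b1, b2⟩ := bump h1 hyb
  have hb : (G₁.trans G₂) b = b := b2
  refine ⟨glue (G₁.trans G₂) b hb, ?_, ?_, ?_⟩
  · intro s hs
    show (if s ≤ b then (G₁.trans G₂) s else s) = s
    rw [if_pos (by linarith)]
    show G₂ (G₁ s) = s
    rw [a1 s hs, b1 s (by linarith)]
  · intro s hs
    show (if s ≤ b then (G₁.trans G₂) s else s) = s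
    split_ifs with h
    · have : s = b := le_antisymm h hs
      rw [this, hb]
    · rfl
  · show (if x ≤ b then (G₁.trans G₂) x else x) = y
    rw [if_pos hxb.le]
    show G₂ (G₁ x) = y
    rw [a2, b1 _ le_rfl]

/-! ### The fans -/

/-- positions -/
abbrev Ix := (ℤ × ℕ) ⊕ ℕ

/-- enumeration of the positions -/
def ix : ℕ ≃ Ix := (Denumerable.eqv Ix).symm

/-- the bit at a position -/
def v (c : Cs) (a : Ix) : Bool := c (ix.symm a)

lemma v_cont (a : Ix) : Continuous (fun c : Cs => v c a) := continuous_apply _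

lemma v_ext {c d : Cs} (h : ∀ a, v c a = v d a) : c = d := by
  funext n
  have := h (ix n)
  simpa [v] using this

/-- the region -/
def KM (m : ℕ) : Set (Cs × ℝ) := {q | 0 ≤ q.2 ∧ q.2 ≤ 1 ∧
  (∀ a : ℤ × ℕ, v q.1 (Sum.inl a) = true → q.2 ≤ xx a.1) ∧
  (∀ a b : ℤ × ℕ, a ≠ b → v q.1 (Sum.inl a) = true → v q.1 (Sum.inl b) = true → q.2 ≤ 0) ∧
  (∀ l : ℕ, m ≤ l → v q.1 (Sum.inr l) = true → q.2 ≤ 0)}

lemma closed_imp (a : Ix) (r : ℝ) : IsClosed {q : Cs × ℝ | v q.1 a = true → q.2 ≤ r} := by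
  have h : {q : Cs × ℝ | v q.1 a = true → q.2 ≤ r} =
      {q : Cs × ℝ | v q.1 a = false} ∪ {q | q.2 ≤ r} := by
    ext q
    simp only [mem_ofPred_eq, mem_union]
    cases v q.1 a <;> simp
  rw [h]
  apply IsClosed.union
  · exact isClosed_eq ((v_cont a).comp continuous_fst) continuous_const
  · exact isClosed_le continuous_snd continuous_const

lemma closed_imp2 (a b : Ix) (r : ℝ) :
    IsClosed {q : Cs × ℝ | v q.1 a = true → v q.1 b = true → q.2 ≤ r} := by
  have h : {q : Cs × ℝ | v q.1 a = true → v q.1 b = true → q.2 ≤ r} =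
      {q : Cs × ℝ | v q.1 a = false} ∪ {q : Cs × ℝ | v q.1 b = true → q.2 ≤ r} := by
    ext q
    simp only [mem_ofPred_eq, mem_union]
    cases v q.1 a <;> simp
  rw [h]
  apply IsClosed.union
  · exact isClosed_eq ((v_cont a).comp continuous_fst) continuous_const
  · exact closed_imp b r

variable {m : ℕ}

/-- the base sequences -/
def Bs (m : ℕ) (c : Cs) : Prop :=
  (∀ a, v c (Sum.inl a) = false) ∧ ∀ l, m ≤ l → v c (Sum.inr l) = false

/-- the sequences with exactly one bit at the positions of the first kind -/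
def As (m : ℕ) (c : Cs) (a : ℤ × ℕ) : Prop :=
  v c (Sum.inl a) = true ∧ (∀ b, b ≠ a → v c (Sum.inl b) = false) ∧
    ∀ l, m ≤ l → v c (Sum.inr l) = false

lemma mem_B {c : Cs} (h : Bs m c) {s : ℝ} : (c, s) ∈ KM m ↔ 0 ≤ s ∧ s ≤ 1 := by
  constructor
  · rintro ⟨h1, h2, _⟩
    exact ⟨h1, h2⟩
  · rintro ⟨h1, h2⟩
    refine ⟨h1, h2, ?_, ?_, ?_⟩
    · intro a ha
      rw [h.1 a] at ha; exact absurd ha (by simp)
    · intro a b _ ha
      rw [h.1 a] at ha; exact absurd ha (by simp)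
    · intro l hl ha
      rw [h.2 l hl] at ha; exact absurd ha (by simp)

lemma mem_A {c : Cs} {a : ℤ × ℕ} (h : As m c a) {s : ℝ} :
    (c, s) ∈ KM m ↔ 0 ≤ s ∧ s ≤ xx a.1 := by
  constructor
  · rintro ⟨h1, h2, h3, _⟩
    exact ⟨h1, h3 a h.1⟩
  · rintro ⟨h1, h2⟩
    refine ⟨h1, h2.trans (xx_lt _).le, ?_, ?_, ?_⟩
    · intro b hb
      by_cases hba : b = a
      · rw [hba]; exact h2
      · rw [h.2.1 b hba] at hb; exact absurd hb (by simp)
    · intro b d hbd hb hd
      by_cases hba : b = a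
      · have hda : d ≠ a := fun hd' => hbd (hba.trans hd'.symm)
        rw [h.2.1 d hda] at hd; exact absurd hd (by simp)
      · rw [h.2.1 b hba] at hb; exact absurd hb (by simp)
    · intro l hl hb
      rw [h.2.2 l hl] at hb; exact absurd hb (by simp)

lemma dich {c : Cs} {s : ℝ} (h : (c, s) ∈ KM m) (hs : 0 < s) : Bs m c ∨ ∃ a, As m c a := by
  obtain ⟨h1, h2, h3, h4, h5⟩ := h
  have h6 : ∀ l, m ≤ l → v c (Sum.inr l) = false := by
    intro l hl
    by_contra hc
    have := h5 l hl (by simpa using hc)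
    simp only at this
    linarith
  by_cases h7 : ∃ a, v c (Sum.inl a) = true
  · obtain ⟨a, ha⟩ := h7
    refine Or.inr ⟨a, ha, ?_, h6⟩
    intro b hb
    by_contra hc
    have := h4 b a hb (by simpa using hc) ha
    simp only at this
    linarith
  · left
    push Not at h7
    exact ⟨fun a => by simpa using h7 a, h6⟩

/-- switch on one bit -/
def up (c : Cs) (a : Ix) : Cs := Function.update c (ix.symm a) true

lemma v_up (c : Cs) (a b : Ix) : v (up c a) b = if b = a then true else v c b := by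
  unfold v up
  by_cases h : b = a
  · subst h; simp
  · rw [Function.update_of_ne (fun h' => h (ix.symm.injective h')), if_neg h]

lemma v_z0 (a : Ix) : v z0 a = false := rfl

lemma Bs_z0 : Bs m z0 := ⟨fun _ => rfl, fun _ _ => rfl⟩

lemma As_up {c : Cs} (h : Bs m c) (a : ℤ × ℕ) : As m (up c (Sum.inl a)) a := by
  refine ⟨by rw [v_up, if_pos rfl], ?_, ?_⟩
  · intro b hb
    rw [v_up, if_neg (fun h' => hb (Sum.inl_injective h'))]
    exact h.1 b
  · intro l hl
    rw [v_up, if_neg (by simp)]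
    exact h.2 l hl

lemma not_BA {c : Cs} {a : ℤ × ℕ} (h : Bs m c) (h' : As m c a) : False := by
  have := h.1 a
  rw [h'.1] at this
  exact absurd this (by simp)

lemma good (m : ℕ) : Good (KM m) where
  comp := by
    have h1 : KM m ⊆ (univ : Set Cs) ×ˢ Icc (0:ℝ) 1 := by
      rintro ⟨c, s⟩ ⟨h1, h2, _⟩
      exact ⟨trivial, h1, h2⟩
    refine (isCompact_univ.prod isCompact_Icc).of_isClosed_subset ?_ h1
    have h2 : KM m = {q : Cs × ℝ | 0 ≤ q.2} ∩ ({q : Cs × ℝ | q.2 ≤ 1} ∩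
        ((⋂ a : ℤ × ℕ, {q : Cs × ℝ | v q.1 (Sum.inl a) = true → q.2 ≤ xx a.1}) ∩
        ((⋂ a : ℤ × ℕ, ⋂ b : ℤ × ℕ, ⋂ _ : a ≠ b,
          {q : Cs × ℝ | v q.1 (Sum.inl a) = true → v q.1 (Sum.inl b) = true → q.2 ≤ 0}) ∩
        (⋂ l : ℕ, ⋂ _ : m ≤ l, {q : Cs × ℝ | v q.1 (Sum.inr l) = true → q.2 ≤ 0})))) := by
      ext q
      simp only [KM, mem_ofPred_eq, mem_inter_iff, mem_iInter]
    rw [h2]
    refine (isClosed_le continuous_const continuous_snd).inter
      ((isClosed_le continuous_snd continuous_const).inter (IsClosed.inter ?_ (IsClosed.inter ?_ ?_)))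
    · exact isClosed_iInter fun a => closed_imp _ _
    · exact isClosed_iInter fun a => isClosed_iInter fun b => isClosed_iInter fun _ => closed_imp2 _ _ _
    · exact isClosed_iInter fun l => isClosed_iInter fun _ => closed_imp _ _
  nonneg := fun q hq => hq.1
  down := fun c s s' h h0 hs => ⟨h0, hs.trans h.2.1, fun a ha => hs.trans (h.2.2.1 a ha),
    fun a b hab ha hb => hs.trans (h.2.2.2.1 a b hab ha hb),
    fun l hl ha => hs.trans (h.2.2.2.2 l hl ha)⟩
  zero := fun c => ⟨le_rfl, zero_le_one, fun a _ => (xx_pos _).le, fun _ _ _ _ _ => le_rfl,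
    fun _ _ _ => le_rfl⟩
  three := by
    refine ⟨z0, up z0 (Sum.inl (0, 0)), up z0 (Sum.inl (0, 1)), 1, xx 0, xx 0, ?_, ?_, ?_,
      one_pos, xx_pos _, xx_pos _, (mem_B Bs_z0).2 ⟨zero_le_one, le_rfl⟩,
      (mem_A (As_up Bs_z0 _)).2 ⟨(xx_pos _).le, le_rfl⟩,
      (mem_A (As_up Bs_z0 _)).2 ⟨(xx_pos _).le, le_rfl⟩⟩
    · intro h
      have h1 := As_up (m := 0) Bs_z0 (0, 0)
      rw [← h] at h1
      exact not_BA (m := 0) Bs_z0 h1
    · intro h
      have h1 := As_up (m := 0) Bs_z0 (0, 1)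
      rw [← h] at h1
      exact not_BA (m := 0) Bs_z0 h1
    · intro h
      have h1 := (As_up (m := 0) Bs_z0 (0, 0)).2.1 (0, 1) (by simp)
      rw [h, (As_up (m := 0) Bs_z0 (0, 1)).1] at h1
      exact absurd h1 (by simp)

/-- the tip of the blade -/
lemma end_B {c : Cs} (h : Bs m c) {s : ℝ} (hs : 0 < s) (hm : (c, s) ∈ KM m) :
    IsEndpoint (pt c s hm) ↔ s = 1 := by
  rw [endpoint_iff (good m)]
  constructor
  · rintro ⟨c', s', h', hs', htip, he⟩
    obtain ⟨rfl, rfl⟩ := pt_inj hs.ne' he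
    exact le_antisymm ((mem_B h).1 hm).2 (htip 1 ((mem_B h).2 ⟨zero_le_one, le_rfl⟩))
  · rintro rfl
    exact ⟨c, 1, hm, hs, fun u hu => ((mem_B h).1 hu).2, rfl⟩

lemma end_A {c : Cs} {a : ℤ × ℕ} (h : As m c a) {s : ℝ} (hs : 0 < s) (hm : (c, s) ∈ KM m) :
    IsEndpoint (pt c s hm) ↔ s = xx a.1 := by
  rw [endpoint_iff (good m)]
  constructor
  · rintro ⟨c', s', h', hs', htip, he⟩
    obtain ⟨rfl, rfl⟩ := pt_inj hs.ne' he
    exact le_antisymm ((mem_A h).1 hm).2 (htip _ ((mem_A h).2 ⟨(xx_pos _).le, le_rfl⟩))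
  · rintro rfl
    exact ⟨c, _, hm, hs, fun u hu => ((mem_A h).1 hu).2, rfl⟩

/-- The endpoints. -/
def EN (m : ℕ) : Set (Fan (KM m)) := {e | IsEndpoint e}

lemma EN_cases {e : Fan (KM m)} (he : e ∈ EN m) :
    (∃ c, ∃ h : Bs m c, e = pt c 1 ((mem_B h).2 ⟨zero_le_one, le_rfl⟩)) ∨
    (∃ c a, ∃ h : As m c a, e = pt c (xx a.1) ((mem_A h).2 ⟨(xx_pos _).le, le_rfl⟩)) := by
  obtain ⟨c, s, h, hs, htip, rfl⟩ := (endpoint_iff (good m) e).1 he
  rcases dich h hs with h1 | ⟨a, h1⟩
  · have h2 := (end_B h1 hs h).1 he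
    subst h2
    exact Or.inl ⟨c, h1, rfl⟩
  · have h2 := (end_A h1 hs h).1 he
    subst h2
    exact Or.inr ⟨c, a, h1, rfl⟩

lemma clo_mark {c : Cs} (h : Bs m c) (n : ℤ) (hm : (c, xx n) ∈ KM m) :
    pt c (xx n) hm ∈ closure (EN m) := by
  rw [mem_closure_iff_nhds]
  intro U hU
  obtain ⟨M, ε, hε, hMU⟩ := approx hU
  have hinj : Function.Injective (fun j : ℕ => ix.symm (Sum.inl (n, j))) := by
    intro j k hjk
    have := ix.symm.injective hjk
    simpa using this
  obtain ⟨j, hj⟩ := ((hinj.nat_tendsto_atTop).eventually (eventually_ge_atTop M)).exists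
  have hA := As_up h (n, j)
  refine ⟨pt (up c (Sum.inl (n, j))) (xx n) ((mem_A hA).2 ⟨(xx_pos _).le, le_rfl⟩),
    hMU _ _ _ ?_ (by simpa using hε), ?_⟩
  · intro k hk
    unfold up
    rw [Function.update_of_ne]
    exact (hk.trans_le hj).ne
  · exact (end_A hA (xx_pos _) _).2 rfl

lemma clo_gap {c : Cs} {s : ℝ} (hs : 0 < s) (hs1 : s < 1) (hn : ∀ n, s ≠ xx n)
    (hm : (c, s) ∈ KM m) : pt c s hm ∉ closure (EN m) := by
  rcases gap hs hs1 with ⟨n, h⟩ | ⟨n, h1, h2⟩
  · exact absurd h (hn n)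
  · rw [mem_closure_iff_nhds]
    push Not
    set ε := min (min (s - xx n) (xx (n + 1) - s)) (1 - s) with hε
    have hε0 : 0 < ε := lt_min (lt_min (by linarith) (by linarith)) (by linarith)
    obtain ⟨U, hU, hUe⟩ := nbhd (good m) (h := hm) hs 0 hε0
    refine ⟨U, hU, ?_⟩
    rw [← Set.not_nonempty_iff_eq_empty]
    rintro ⟨e, heU, he⟩
    rcases EN_cases he with ⟨d, h3, rfl⟩ | ⟨d, a, h3, rfl⟩
    · have h4 := (hUe _ _ _ heU).2
      rw [abs_lt] at h4
      have := min_le_right (min (s - xx n) (xx (n + 1) - s)) (1 - s)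
      linarith [h4.2]
    · have h4 := (hUe _ _ _ heU).2
      rw [abs_lt] at h4
      have h5 := (min_le_left (min (s - xx n) (xx (n + 1) - s)) (1 - s)).trans (min_le_left _ _)
      have h6 := (min_le_left (min (s - xx n) (xx (n + 1) - s)) (1 - s)).trans (min_le_right _ _)
      rcases le_or_gt a.1 n with h7 | h7
      · have := xx_mono.monotone h7
        linarith [h4.1]
      · have := xx_mono.monotone (show n + 1 ≤ a.1 from h7)
        linarith [h4.2]

lemma clo_A {c : Cs} {a : ℤ × ℕ} (h : As m c a) {s : ℝ} (hs : 0 < s) (hs1 : s ≠ xx a.1)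
    (hm : (c, s) ∈ KM m) : pt c s hm ∉ closure (EN m) := by
  rw [mem_closure_iff_nhds]
  push Not
  obtain ⟨U, hU, hUe⟩ := nbhd (good m) (h := hm) hs (ix.symm (Sum.inl a) + 1)
    (abs_pos.2 (sub_ne_zero.2 hs1))
  refine ⟨U, hU, ?_⟩
  rw [← Set.not_nonempty_iff_eq_empty]
  rintro ⟨e, heU, he⟩
  rcases EN_cases he with ⟨d, h3, rfl⟩ | ⟨d, b, h3, rfl⟩
  · have h4 := (hUe _ _ _ heU).1 (ix.symm (Sum.inl a)) (Nat.lt_succ_self _)
    have h5 : v d (Sum.inl a) = v c (Sum.inl a) := h4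
    rw [h3.1 a, h.1] at h5
    exact absurd h5 (by simp)
  · have h4 := (hUe _ _ _ heU).1 (ix.symm (Sum.inl a)) (Nat.lt_succ_self _)
    have h5 : v d (Sum.inl a) = v c (Sum.inl a) := h4
    have h6 : a = b := by
      by_contra hne
      rw [h3.2.1 a hne, h.1] at h5
      exact absurd h5 (by simp)
    subst h6
    have h7 := (hUe _ _ _ heU).2
    rw [abs_sub_comm] at h7
    exact lt_irrefl _ h7

/-! ### Orbits -/

/-- two points in the same orbit of the homeomorphism group -/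
def SameOrbit {X : Type*} [TopologicalSpace X] (p q : X) : Prop := ∃ h : X ≃ₜ X, h p = q

lemma SameOrbit.refl {X : Type*} [TopologicalSpace X] (p : X) : SameOrbit p p :=
  ⟨Homeomorph.refl X, rfl⟩

lemma SameOrbit.symm {X : Type*} [TopologicalSpace X] {p q : X} (h : SameOrbit p q) :
    SameOrbit q p := by
  obtain ⟨h, rfl⟩ := h
  exact ⟨h.symm, h.symm_apply_apply p⟩

lemma SameOrbit.trans {X : Type*} [TopologicalSpace X] {p q r : X} (h : SameOrbit p q)
    (h' : SameOrbit q r) : SameOrbit p r := by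
  obtain ⟨h, rfl⟩ := h
  obtain ⟨h', rfl⟩ := h'
  exact ⟨h.trans h', rfl⟩

/-- the orbit space -/
def orbitSetoid (X : Type*) [TopologicalSpace X] : Setoid X :=
  ⟨SameOrbit, SameOrbit.refl, SameOrbit.symm, SameOrbit.trans⟩

section invariants

variable {X Y : Type*} [TopologicalSpace X] [TopologicalSpace Y]

/-- marks -/
def Mks (t : X) : Set X := {p | ¬ IsEndpoint p ∧ p ≠ t ∧ p ∈ closure {e : X | IsEndpoint e}}

/-- endpoints of blades with marks -/
def BEn (t : X) : Set X := {e | IsEndpoint e ∧ ∃ A, IsArc A t e ∧ ∃ p ∈ A, p ∈ Mks t}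

/-- points of blades with marks -/
def BIn (t : X) : Set X := {p | ∃ e ∈ BEn t, ∃ A, IsArc A t e ∧ p ∈ A}

lemma clo_image (h : X ≃ₜ Y) {p : X} (hp : p ∈ closure {e : X | IsEndpoint e}) :
    h p ∈ closure {e : Y | IsEndpoint e} := by
  rw [mem_closure_iff_nhds] at hp ⊢
  intro V hV
  obtain ⟨y, hy, hyE⟩ := hp _ (h.continuous.continuousAt.preimage_mem_nhds hV)
  exact ⟨h y, hy, endpoint_image h hyE⟩

lemma Mks_image (h : X ≃ₜ Y) {t : X} {p : X} (hp : p ∈ Mks t) : h p ∈ Mks (h t) :=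
  ⟨fun h1 => hp.1 ((endpoint_homeo h p).1 h1), fun h1 => hp.2.1 (h.injective h1),
    clo_image h hp.2.2⟩

lemma BEn_image (h : X ≃ₜ Y) {t : X} {p : X} (hp : p ∈ BEn t) : h p ∈ BEn (h t) := by
  obtain ⟨h1, A, hA, q, hq, hqM⟩ := hp
  exact ⟨endpoint_image h h1, h '' A, isArc_image h hA, h q, ⟨q, hq, rfl⟩, Mks_image h hqM⟩

lemma BIn_image (h : X ≃ₜ Y) {t : X} {p : X} (hp : p ∈ BIn t) : h p ∈ BIn (h t) := by
  obtain ⟨e, he, A, hA, hpA⟩ := hp
  exact ⟨h e, BEn_image h he, h '' A, isArc_image h hA, p, hpA, rfl⟩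

lemma iff_of_image {P : (Z : Type _) → [TopologicalSpace Z] → Z → Set Z}
    (hP : ∀ (h : X ≃ₜ X) (t p : X), p ∈ P X t → h p ∈ P X (h t)) (h : X ≃ₜ X) {t : X} (ht : h t = t)
    (p : X) : h p ∈ P X t ↔ p ∈ P X t := by
  constructor
  · intro h1
    have ht' : h.symm t = t := by
      conv_lhs => rw [← ht]
      exact h.symm_apply_apply t
    have := hP h.symm t (h p) h1
    rwa [h.symm_apply_apply, ht'] at this
  · intro h1
    have := hP h t p h1
    rwa [ht] at this

open Classical in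
/-- the type of a point -/
noncomputable def cls (t p : X) : Fin 6 :=
  if p = t then 0 else if IsEndpoint p then (if p ∈ BEn t then 1 else 2) else
    if p ∈ Mks t then 3 else if p ∈ BIn t then 4 else 5

lemma cls_homeo (h : X ≃ₜ X) {t : X} (ht : h t = t) (p : X) : cls t (h p) = cls t p := by
  have h1 : h p = t ↔ p = t := by
    constructor
    · intro h2
      apply h.injective
      rw [h2, ht]
    · rintro rfl; exact ht
  have h2 : h p ∈ BEn t ↔ p ∈ BEn t :=
    iff_of_image (P := fun Z _ t => BEn t) (fun h t p hp => BEn_image h hp) h ht p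
  have h3 : h p ∈ Mks t ↔ p ∈ Mks t :=
    iff_of_image (P := fun Z _ t => Mks t) (fun h t p hp => Mks_image h hp) h ht p
  have h4 : h p ∈ BIn t ↔ p ∈ BIn t :=
    iff_of_image (P := fun Z _ t => BIn t) (fun h t p hp => BIn_image h hp) h ht p
  have h5 : IsEndpoint (h p) ↔ IsEndpoint p := endpoint_homeo h p
  unfold cls
  rw [propext h1, propext h2, propext h3, propext h4, propext h5]

end invariants

/-! ### Types of the points of the fans -/

lemma mk_lt {c : Cs} (h : Bs m c) (n : ℤ) : (c, xx n) ∈ KM m :=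
  (mem_B h).2 ⟨(xx_pos n).le, (xx_lt n).le⟩

lemma mem1 {c : Cs} (h : Bs m c) : (c, (1:ℝ)) ∈ KM m := (mem_B h).2 ⟨zero_le_one, le_rfl⟩

lemma memA {c : Cs} {a : ℤ × ℕ} (h : As m c a) : (c, xx a.1) ∈ KM m :=
  (mem_A h).2 ⟨(xx_pos _).le, le_rfl⟩

lemma mark_mem {c : Cs} (h : Bs m c) (n : ℤ) : pt c (xx n) (mk_lt h n) ∈ Mks (top (good m)) :=
  ⟨fun h1 => (xx_lt n).ne ((end_B h (xx_pos n) _).1 h1), pt_ne_top (good m) (xx_pos n).ne',
    clo_mark h n _⟩

lemma BE_mem {c : Cs} (h : Bs m c) : pt c 1 (mem1 h) ∈ BEn (top (good m)) :=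
  ⟨(end_B h one_pos _).2 rfl, _, blade_isArc (good m) one_pos (mem1 h), pt c (xx 0) (mk_lt h 0),
    ⟨xx 0, ⟨(xx_pos 0).le, (xx_lt 0).le⟩, rfl⟩, mark_mem h 0⟩

lemma BE_cases {e : Fan (KM m)} (he : e ∈ BEn (top (good m))) :
    ∃ c, ∃ h : Bs m c, e = pt c 1 (mem1 h) := by
  obtain ⟨h1, A, hA, p, hpA, hpM⟩ := he
  rcases EN_cases h1 with ⟨c, h, rfl⟩ | ⟨c, a, h, rfl⟩
  · exact ⟨c, h, rfl⟩
  · exfalso
    rw [arc_unique (good m) (xx_pos a.1) (memA h) hA] at hpA
    obtain ⟨u, hu, hup⟩ := hpA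
    have hpe : p = pt c u ((mem_A h).2 hu) := Subtype.ext hup.symm
    subst hpe
    rcases hu.1.eq_or_lt with h0 | h0
    · subst h0
      exact hpM.2.1 (pt_zero (good m) c)
    · by_cases hua : u = xx a.1
      · exact hpM.1 ((end_A h h0 _).2 hua)
      · exact clo_A h h0 hua _ hpM.2.2

lemma BI_cases {p : Fan (KM m)} (hp : p ∈ BIn (top (good m))) :
    ∃ c, Bs m c ∧ ∃ s, ∃ h : (c, s) ∈ KM m, p = pt c s h := by
  obtain ⟨e, he, A, hA, hpA⟩ := hp
  obtain ⟨c, h, rfl⟩ := BE_cases he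
  rw [arc_unique (good m) one_pos (mem1 h) hA] at hpA
  obtain ⟨u, hu, hup⟩ := hpA
  exact ⟨c, h, u, (mem_B h).2 hu, Subtype.ext hup.symm⟩

lemma BI_mem {c : Cs} (h : Bs m c) {s : ℝ} (hm : (c, s) ∈ KM m) :
    pt c s hm ∈ BIn (top (good m)) :=
  ⟨_, BE_mem h, _, blade_isArc (good m) one_pos (mem1 h), ⟨s, (mem_B h).1 hm, rfl⟩⟩

lemma cls_top : cls (top (good m)) (top (good m)) = 0 := by
  unfold cls; rw [if_pos rfl]

lemma cls_BE {c : Cs} (h : Bs m c) : cls (top (good m)) (pt c 1 (mem1 h)) = 1 := by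
  unfold cls
  rw [if_neg (pt_ne_top (good m) one_ne_zero), if_pos ((end_B h one_pos _).2 rfl),
    if_pos (BE_mem h)]

lemma cls_AE {c : Cs} {a : ℤ × ℕ} (h : As m c a) :
    cls (top (good m)) (pt c (xx a.1) (memA h)) = 2 := by
  unfold cls
  rw [if_neg (pt_ne_top (good m) (xx_pos _).ne'), if_pos ((end_A h (xx_pos _) _).2 rfl), if_neg]
  intro h1
  obtain ⟨d, hd, he⟩ := BE_cases h1
  obtain ⟨rfl, -⟩ := pt_inj (xx_pos a.1).ne' he
  exact not_BA hd h

lemma cls_M {c : Cs} (h : Bs m c) (n : ℤ) :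
    cls (top (good m)) (pt c (xx n) (mk_lt h n)) = 3 := by
  unfold cls
  rw [if_neg (pt_ne_top (good m) (xx_pos _).ne'), if_neg (mark_mem h n).1, if_pos (mark_mem h n)]

lemma cls_BI {c : Cs} (h : Bs m c) {s : ℝ} (hs : 0 < s) (hs1 : s < 1) (hn : ∀ n, s ≠ xx n)
    (hm : (c, s) ∈ KM m) : cls (top (good m)) (pt c s hm) = 4 := by
  unfold cls
  rw [if_neg (pt_ne_top (good m) hs.ne'), if_neg (fun h1 => hs1.ne ((end_B h hs _).1 h1)),
    if_neg (fun h1 => clo_gap hs hs1 hn _ h1.2.2), if_pos (BI_mem h hm)]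

lemma cls_AI {c : Cs} {a : ℤ × ℕ} (h : As m c a) {s : ℝ} (hs : 0 < s) (hs1 : s < xx a.1)
    (hm : (c, s) ∈ KM m) : cls (top (good m)) (pt c s hm) = 5 := by
  unfold cls
  rw [if_neg (pt_ne_top (good m) hs.ne'), if_neg (fun h1 => hs1.ne ((end_A h hs _).1 h1)),
    if_neg (fun h1 => clo_A h hs hs1.ne _ h1.2.2), if_neg]
  intro h1
  obtain ⟨d, hd, u, hu, he⟩ := BI_cases h1
  obtain ⟨rfl, -⟩ := pt_inj hs.ne' he
  exact not_BA hd h

/-! ### Homeomorphisms -/

/-- translation -/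
lemma trans_orbit {d : Cs} (hd : Bs m d) {c : Cs} {s : ℝ} (h : (c, s) ∈ KM m)
    (h' : ((fun n => xor (c n) (d n)), s) ∈ KM m) :
    SameOrbit (pt c s h) (pt (fun n => xor (c n) (d n)) s h') := by
  set τ : Cs → Cs := fun c n => xor (c n) (d n) with hτ
  have hcont : Continuous τ := by
    apply continuous_pi
    intro n
    exact (continuous_of_discreteTopology (f := fun b : Bool => xor b (d n))).comp
      (continuous_apply n)
  set Φ : Cs × ℝ → Cs × ℝ := fun q => (τ q.1, q.2) with hΦ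
  have hΦc : Continuous Φ := (hcont.comp continuous_fst).prodMk continuous_snd
  have hΦΦ : ∀ q, Φ (Φ q) = q := by
    rintro ⟨c, s⟩
    simp only [hΦ, hτ]
    congr 1
    funext n
    cases c n <;> cases d n <;> rfl
  have hvl : ∀ (c : Cs) a, v (τ c) (Sum.inl a) = v c (Sum.inl a) := by
    intro c a
    have h1 : v (τ c) (Sum.inl a) = xor (v c (Sum.inl a)) (v d (Sum.inl a)) := rfl
    rw [h1, hd.1 a, Bool.xor_false]
  have hvr : ∀ (c : Cs) l, m ≤ l → v (τ c) (Sum.inr l) = v c (Sum.inr l) := by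
    intro c l hl
    have h1 : v (τ c) (Sum.inr l) = xor (v c (Sum.inr l)) (v d (Sum.inr l)) := rfl
    rw [h1, hd.2 l hl, Bool.xor_false]
  have hΦK : ∀ q ∈ KM m, Φ q ∈ KM m := by
    rintro ⟨c, s⟩ ⟨h1, h2, h3, h4, h5⟩
    refine ⟨h1, h2, ?_, ?_, ?_⟩
    · intro a ha
      exact h3 a (by rw [← hvl]; exact ha)
    · intro a b hab ha hb
      exact h4 a b hab (by rw [← hvl]; exact ha) (by rw [← hvl]; exact hb)
    · intro l hl ha
      exact h5 l hl (by rw [← hvr _ _ hl]; exact ha)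
  obtain ⟨f, hf⟩ := descend (good m) Φ Φ hΦc hΦc hΦK hΦK hΦΦ hΦΦ (fun _ => rfl) (fun _ => rfl)
  exact ⟨f, hf ⟨(c, s), h⟩⟩

lemma toB {c : Cs} (hc : Bs m c) {s : ℝ} (h : (c, s) ∈ KM m) (h' : (z0, s) ∈ KM m) :
    SameOrbit (pt c s h) (pt z0 s h') := by
  have h1 : (fun n => xor (c n) (c n)) = z0 := by
    funext n; simp [z0]
  have h2 : ((fun n => xor (c n) (c n)), s) ∈ KM m := by rw [h1]; exact h'
  have h3 := trans_orbit hc h h2
  have h4 : pt (fun n => xor (c n) (c n)) s h2 = pt z0 s h' := by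
    apply Subtype.ext
    show pr _ = pr _
    rw [h1]
  rwa [h4] at h3

/-- the standard sequence with one bit -/
def dl (a : ℤ × ℕ) : Cs := up z0 (Sum.inl a)

lemma As_dl (a : ℤ × ℕ) : As m (dl a) a := As_up Bs_z0 a

lemma toA {c : Cs} {a : ℤ × ℕ} (hc : As m c a) {s : ℝ} (h : (c, s) ∈ KM m)
    (h' : (dl a, s) ∈ KM m) : SameOrbit (pt c s h) (pt (dl a) s h') := by
  set d : Cs := fun n => xor (c n) (dl a n) with hd
  have hdB : Bs m d := by
    constructor
    · intro b
      have h1 : v d (Sum.inl b) = xor (v c (Sum.inl b)) (v (dl a) (Sum.inl b)) := rfl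
      rw [h1]
      by_cases hb : b = a
      · subst hb
        rw [hc.1, (As_dl (m := m) b).1]; rfl
      · rw [hc.2.1 b hb, (As_dl (m := m) a).2.1 b hb]; rfl
    · intro l hl
      have h1 : v d (Sum.inr l) = xor (v c (Sum.inr l)) (v (dl a) (Sum.inr l)) := rfl
      rw [h1, hc.2.2 l hl, (As_dl (m := m) a).2.2 l hl]; rfl
  have h1 : (fun n => xor (c n) (d n)) = dl a := by
    funext n
    simp only [hd]
    cases c n <;> cases dl a n <;> rfl
  have h2 : ((fun n => xor (c n) (d n)), s) ∈ KM m := by rw [h1]; exact h'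
  have h3 := trans_orbit hdB h h2
  have h4 : pt (fun n => xor (c n) (d n)) s h2 = pt (dl a) s h' := by
    apply Subtype.ext
    show pr _ = pr _
    rw [h1]
  rwa [h4] at h3

/-- shift of the positions -/
def shQ (k : ℤ) : ℕ ≃ ℕ :=
  (ix.trans (Equiv.sumCongr (Equiv.prodCongr (Equiv.addRight k) (Equiv.refl ℕ)) (Equiv.refl ℕ))).trans
    ix.symm

lemma v_shQ_inl (k : ℤ) (c : Cs) (a : ℤ × ℕ) :
    v (fun n => c (shQ k n)) (Sum.inl a) = v c (Sum.inl (a.1 + k, a.2)) := by
  unfold v shQ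
  simp [Prod.map]

lemma v_shQ_inr (k : ℤ) (c : Cs) (l : ℕ) :
    v (fun n => c (shQ k n)) (Sum.inr l) = v c (Sum.inr l) := by
  unfold v shQ
  simp

lemma shift_orbit (k : ℤ) (g : ℝ ≃o ℝ) (h0 : g 0 = 0) (h1 : g 1 = 1)
    (hg : ∀ n, g (xx n) = xx (n + k)) {s : ℝ} (h : (z0, s) ∈ KM m) (h' : (z0, g s) ∈ KM m) :
    SameOrbit (pt z0 s h) (pt z0 (g s) h') := by
  set Φ : Cs × ℝ → Cs × ℝ := fun q => (fun n => q.1 (shQ (-k) n), g q.2) with hΦ
  set Ψ : Cs × ℝ → Cs × ℝ := fun q => (fun n => q.1 (shQ k n), g.symm q.2) with hΨ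
  have hΦc : Continuous Φ :=
    (continuous_pi fun n => (continuous_apply _).comp continuous_fst).prodMk
      (g.continuous.comp continuous_snd)
  have hΨc : Continuous Ψ :=
    (continuous_pi fun n => (continuous_apply _).comp continuous_fst).prodMk
      (g.symm.continuous.comp continuous_snd)
  have e1 : ∀ n, shQ k (shQ (-k) n) = n := by
    intro n
    apply ix.injective
    unfold shQ
    simp only [Equiv.trans_apply, Equiv.apply_symm_apply]
    rcases ix n with ⟨a1, a2⟩ | l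
    · simp
    · simp
  have e2 : ∀ n, shQ (-k) (shQ k n) = n := by
    intro n
    apply ix.injective
    unfold shQ
    simp only [Equiv.trans_apply, Equiv.apply_symm_apply]
    rcases ix n with ⟨a1, a2⟩ | l
    · simp
    · simp
  have hΨΦ : ∀ q, Ψ (Φ q) = q := by
    rintro ⟨c, s⟩
    simp only [hΦ, hΨ, e2, OrderIso.symm_apply_apply, e1]
  have hΦΨ : ∀ q, Φ (Ψ q) = q := by
    rintro ⟨c, s⟩
    simp only [hΦ, hΨ, e1, OrderIso.apply_symm_apply, e2]
  have gen : ∀ (k : ℤ) (g : ℝ ≃o ℝ), g 0 = 0 → g 1 = 1 → (∀ n, g (xx n) = xx (n + k)) →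
      ∀ q ∈ KM m, ((fun n => q.1 (shQ (-k) n), g q.2) : Cs × ℝ) ∈ KM m := by
    rintro k g h0 h1 hg ⟨c, s⟩ ⟨k1, k2, k3, k4, k5⟩
    refine ⟨by rw [← h0]; exact g.monotone k1, by rw [← h1]; exact g.monotone k2, ?_, ?_, ?_⟩
    · intro a ha
      simp only at ha
      rw [v_shQ_inl] at ha
      have h2 := g.monotone (k3 _ ha)
      rw [hg] at h2
      simpa using h2
    · intro a b hab ha hb
      simp only at ha hb
      rw [v_shQ_inl] at ha hb
      rw [← h0]
      apply g.monotone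
      refine k4 _ _ ?_ ha hb
      intro h3
      apply hab
      rw [Prod.mk.injEq] at h3
      exact Prod.ext (by linarith [h3.1]) h3.2
    · intro l hl ha
      simp only at ha
      rw [v_shQ_inr] at ha
      rw [← h0]
      exact g.monotone (k5 l hl ha)
  have hΦK : ∀ q ∈ KM m, Φ q ∈ KM m := gen k g h0 h1 hg
  have hΨK : ∀ q ∈ KM m, Ψ q ∈ KM m := by
    have := gen (-k) g.symm (by rw [OrderIso.symm_apply_eq, h0]) (by rw [OrderIso.symm_apply_eq, h1])
      (fun n => by rw [OrderIso.symm_apply_eq, hg]; congr 1; ring)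
    simpa only [neg_neg] using this
  obtain ⟨f, hf⟩ := descend (good m) Φ Ψ hΦc hΨc hΦK hΨK hΨΦ hΦΨ (fun _ => h0)
    (fun _ => by show g.symm 0 = 0; rw [OrderIso.symm_apply_eq, h0])
  exact ⟨f, hf ⟨(z0, s), h⟩⟩

/-- swap of two positions of the first kind -/
def sw (a b : ℤ × ℕ) : ℕ ≃ ℕ :=
  (ix.trans (Equiv.sumCongr (Equiv.swap a b) (Equiv.refl ℕ))).trans ix.symm

lemma sw_sw (a b : ℤ × ℕ) (n : ℕ) : sw a b (sw a b n) = n := by
  apply ix.injective
  unfold sw
  simp only [Equiv.trans_apply, Equiv.apply_symm_apply]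
  rcases ix n with d | l
  · simp
  · simp

lemma v_sw_inl (a b : ℤ × ℕ) (c : Cs) (d : ℤ × ℕ) :
    v (fun n => c (sw a b n)) (Sum.inl d) = v c (Sum.inl (Equiv.swap a b d)) := by
  show c (ix.symm ((Equiv.sumCongr (Equiv.swap a b) (Equiv.refl ℕ)) (ix (ix.symm (Sum.inl d))))) = _
  rw [Equiv.apply_symm_apply]
  rfl

lemma v_sw_inr (a b : ℤ × ℕ) (c : Cs) (l : ℕ) :
    v (fun n => c (sw a b n)) (Sum.inr l) = v c (Sum.inr l) := by
  show c (ix.symm ((Equiv.sumCongr (Equiv.swap a b) (Equiv.refl ℕ)) (ix (ix.symm (Sum.inr l))))) = _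
  rw [Equiv.apply_symm_apply]
  rfl

lemma Bs_sw (a b : ℤ × ℕ) {c : Cs} (h : Bs m c) : Bs m (fun n => c (sw a b n)) := by
  constructor
  · intro d; rw [v_sw_inl]; exact h.1 _
  · intro l hl; rw [v_sw_inr]; exact h.2 l hl

lemma As_sw (a b : ℤ × ℕ) {c : Cs} {d : ℤ × ℕ} (h : As m c d) :
    As m (fun n => c (sw a b n)) (Equiv.swap a b d) := by
  refine ⟨?_, ?_, ?_⟩
  · rw [v_sw_inl, Equiv.swap_apply_self]; exact h.1
  · intro x hx
    rw [v_sw_inl]
    apply h.2.1
    intro h1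
    apply hx
    rw [← h1, Equiv.swap_apply_self]
  · intro l hl; rw [v_sw_inr]; exact h.2.2 l hl

/-- the change of the levels -/
noncomputable def gam (G : ℝ ≃o ℝ) (p : Bool × Bool) : ℝ ≃o ℝ :=
  if p = (true, false) then G else if p = (false, true) then G.symm else OrderIso.refl ℝ

lemma gam_tf (G : ℝ ≃o ℝ) : gam G (true, false) = G := rfl
lemma gam_ft (G : ℝ ≃o ℝ) : gam G (false, true) = G.symm := rfl
lemma gam_ff (G : ℝ ≃o ℝ) : gam G (false, false) = OrderIso.refl ℝ := rfl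
lemma gam_tt (G : ℝ ≃o ℝ) : gam G (true, true) = OrderIso.refl ℝ := rfl

lemma gam_zero {G : ℝ ≃o ℝ} (h0 : G 0 = 0) (p : Bool × Bool) : gam G p 0 = 0 := by
  have h1 : G.symm 0 = 0 := by rw [OrderIso.symm_apply_eq, h0]
  rcases p with ⟨_ | _, _ | _⟩
  · rw [gam_ff]; rfl
  · rw [gam_ft]; exact h1
  · rw [gam_tf]; exact h0
  · rw [gam_tt]; rfl

lemma gam_gam (G : ℝ ≃o ℝ) (x y : Bool) (s : ℝ) : gam G (y, x) (gam G (x, y) s) = s := by
  rcases x with _ | _ <;> rcases y with _ | _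
  · rw [gam_ff]; rfl
  · rw [gam_ft, gam_tf]; exact G.apply_symm_apply s
  · rw [gam_ft, gam_tf]; exact G.symm_apply_apply s
  · rw [gam_tt]; rfl

lemma swap_orbit {a b : ℤ × ℕ} (hab : a ≠ b) (G : ℝ ≃o ℝ) (h0 : G 0 = 0)
    (hG : G (xx a.1) = xx b.1) {s : ℝ} (h : (dl a, s) ∈ KM m) (h' : (dl b, G s) ∈ KM m) :
    SameOrbit (pt (dl a) s h) (pt (dl b) (G s) h') := by
  set Φ : Cs × ℝ → Cs × ℝ := fun q => (fun n => q.1 (sw a b n),
    gam G (v q.1 (Sum.inl a), v q.1 (Sum.inl b)) q.2) with hΦ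
  have hc1 : Continuous (fun q : (Bool × Bool) × ℝ => gam G q.1 q.2) := by
    rw [continuous_prod_of_discrete_left]
    intro a
    exact (gam G a).continuous
  have hΦc : Continuous Φ := by
    apply (continuous_pi fun n => (continuous_apply _).comp continuous_fst).prodMk
    exact hc1.comp ((((v_cont _).comp continuous_fst).prodMk
      ((v_cont _).comp continuous_fst)).prodMk continuous_snd)
  have hΦΦ : ∀ q, Φ (Φ q) = q := by
    rintro ⟨c, s⟩
    simp only [hΦ, sw_sw, v_sw_inl, Equiv.swap_apply_left, Equiv.swap_apply_right, gam_gam]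
  have hΦK : ∀ q ∈ KM m, Φ q ∈ KM m := by
    rintro ⟨c, s⟩ hq
    have hs0 : 0 ≤ s := hq.1
    rcases hs0.eq_or_lt with hs | hs
    · subst hs
      have : Φ (c, 0) = ((Φ (c, 0)).1, 0) := Prod.ext rfl (gam_zero h0 _)
      rw [this]
      exact (good m).zero _
    · rcases dich hq hs with hB | ⟨d, hA⟩
      · have e1 : Φ (c, s) = (fun n => c (sw a b n), s) := by
          simp only [hΦ, hB.1, gam_ff]; rfl
        rw [e1, mem_B (Bs_sw a b hB)]
        exact (mem_B hB).1 hq
      · have hA' := As_sw a b hA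
        by_cases hda : d = a
        · subst hda
          have e1 : Φ (c, s) = (fun n => c (sw d b n), G s) := by
            simp only [hΦ, hA.1, hA.2.1 b (Ne.symm hab), gam_tf]
          rw [Equiv.swap_apply_left] at hA'
          rw [e1, mem_A hA']
          obtain ⟨k1, k2⟩ := (mem_A hA).1 hq
          exact ⟨by rw [← h0]; exact G.monotone k1, by rw [← hG]; exact G.monotone k2⟩
        · by_cases hdb : d = b
          · subst hdb
            have e1 : Φ (c, s) = (fun n => c (sw a d n), G.symm s) := by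
              simp only [hΦ, hA.1, hA.2.1 a hab, gam_ft]
            rw [Equiv.swap_apply_right] at hA'
            rw [e1, mem_A hA']
            obtain ⟨k1, k2⟩ := (mem_A hA).1 hq
            refine ⟨?_, ?_⟩
            · rw [G.le_symm_apply, h0]; exact k1
            · rw [G.symm_apply_le, hG]; exact k2
          · have e1 : Φ (c, s) = (fun n => c (sw a b n), s) := by
              simp only [hΦ, hA.2.1 a (Ne.symm hda), hA.2.1 b (Ne.symm hdb), gam_ff]; rfl
            rw [Equiv.swap_apply_of_ne_of_ne hda hdb] at hA'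
            rw [e1, mem_A hA']
            exact (mem_A hA).1 hq
  obtain ⟨f, hf⟩ := descend (good m) Φ Φ hΦc hΦc hΦK hΦK hΦΦ hΦΦ (fun _ => gam_zero h0 _)
    (fun _ => gam_zero h0 _)
  refine ⟨f, (hf ⟨(dl a, s), h⟩).trans ?_⟩
  apply Subtype.ext
  show pr (Φ (dl a, s)) = pr (dl b, G s)
  congr 1
  have hvd : ∀ (x y : ℤ × ℕ), v (dl x) (Sum.inl y) = if y = x then true else false := by
    intro x y
    unfold dl
    rw [v_up]
    by_cases hyx : y = x
    · subst hyx; simp
    · rw [if_neg (fun h' => hyx (Sum.inl_injective h')), if_neg hyx]; rfl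
  have e2 : (fun n => dl a (sw a b n)) = dl b := by
    apply v_ext
    rintro (x | l)
    · rw [v_sw_inl, hvd, hvd]
      by_cases hx : x = b
      · subst hx; simp
      · by_cases hx' : x = a
        · subst hx'
          rw [Equiv.swap_apply_left, if_neg (Ne.symm hab), if_neg hx]
        · rw [Equiv.swap_apply_of_ne_of_ne hx' hx, if_neg hx', if_neg hx]
    · rw [v_sw_inr]
      unfold dl
      rw [v_up, v_up, if_neg (by simp), if_neg (by simp)]
  simp only [hΦ, e2, hvd, if_neg (Ne.symm hab)]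
  rfl

lemma A_orbit' {a b : ℤ × ℕ} (hab : a ≠ b) {s s' : ℝ} (hs : 0 < s) (hs' : 0 < s')
    (h : (dl a, s) ∈ KM m) (h' : (dl b, s') ∈ KM m)
    (heq : s = xx a.1 ↔ s' = xx b.1) : SameOrbit (pt (dl a) s h) (pt (dl b) s' h') := by
  have h1 := ((mem_A (As_dl a)).1 h).2
  have h1' := ((mem_A (As_dl b)).1 h').2
  by_cases hsa : s = xx a.1
  · have hsb := heq.1 hsa
    obtain ⟨G, g1, g2⟩ := bump (xx_pos a.1) (xx_pos b.1)
    subst hsa
    subst hsb
    have h2 : (dl b, G (xx a.1)) ∈ KM m := by rw [g2]; exact h'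
    have h3 := swap_orbit hab G (g1 0 le_rfl) g2 h h2
    have h4 : pt (dl b) (G (xx a.1)) h2 = pt (dl b) (xx b.1) h' := by
      apply Subtype.ext
      show pr _ = pr _
      rw [g2]
    rwa [h4] at h3
  · have hsb : s' ≠ xx b.1 := fun h2 => hsa (heq.2 h2)
    have k1 := lt_of_le_of_ne h1 hsa
    have k2 := lt_of_le_of_ne h1' hsb
    obtain ⟨G₁, a1, a2⟩ := bump hs hs'
    have k3 : s' < G₁ (xx a.1) := by rw [← a2]; exact G₁.strictMono k1
    obtain ⟨G₂, b1, b2⟩ := bump k3 k2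
    have e1 : (G₁.trans G₂) 0 = 0 := by
      show G₂ (G₁ 0) = 0
      rw [a1 0 le_rfl, b1 0 hs'.le]
    have e2 : (G₁.trans G₂) s = s' := by
      show G₂ (G₁ s) = s'
      rw [a2, b1 _ le_rfl]
    have h2 : (dl b, (G₁.trans G₂) s) ∈ KM m := by rw [e2]; exact h'
    have h3 := swap_orbit hab (G₁.trans G₂) e1 b2 h h2
    have h4 : pt (dl b) ((G₁.trans G₂) s) h2 = pt (dl b) s' h' := by
      apply Subtype.ext
      show pr _ = pr _
      rw [e2]
    rwa [h4] at h3

lemma A_orbit {a b : ℤ × ℕ} {s s' : ℝ} (hs : 0 < s) (hs' : 0 < s')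
    (h : (dl a, s) ∈ KM m) (h' : (dl b, s') ∈ KM m)
    (heq : s = xx a.1 ↔ s' = xx b.1) : SameOrbit (pt (dl a) s h) (pt (dl b) s' h') := by
  by_cases hab : a = b
  · subst hab
    have hne : a ≠ (a.1, a.2 + 1) := by
      intro h1
      have := congrArg Prod.snd h1
      simp at this
    by_cases hsa : s = xx a.1
    · have h2 : (dl (a.1, a.2 + 1), xx a.1) ∈ KM m := (mem_A (As_dl _)).2 ⟨(xx_pos _).le, le_rfl⟩
      exact (A_orbit' hne hs (xx_pos _) h h2 (by simp [hsa])).trans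
        (A_orbit' (Ne.symm hne) (xx_pos _) hs' h2 h' (by simp [heq.1 hsa]))
    · have hx := xx_pos a.1
      have h2 : (dl (a.1, a.2 + 1), xx a.1 / 2) ∈ KM m :=
        (mem_A (As_dl _)).2 ⟨by positivity, by show xx a.1 / 2 ≤ xx a.1; linarith⟩
      have hb : s' ≠ xx a.1 := fun h3 => hsa (heq.2 h3)
      have hc : xx a.1 / 2 ≠ xx a.1 := by linarith
      exact (A_orbit' hne hs (by positivity) h h2 (by
          constructor
          · intro h3; exact absurd h3 hsa
          · intro h3; exact absurd h3 hc)).trans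
        (A_orbit' (Ne.symm hne) (by positivity) hs' h2 h' (by
          constructor
          · intro h3; exact absurd h3 hc
          · intro h3; exact absurd h3 hb))
  · exact A_orbit' hab hs hs' h h' heq

lemma z_eq {s s' : ℝ} (h : (z0, s) ∈ KM m) (h' : (z0, s') ∈ KM m) (he : s = s') :
    pt z0 s h = pt z0 s' h' := by subst he; rfl

lemma sh_orbit {s : ℝ} (h : (z0, s) ∈ KM m) (h' : (z0, g0 s) ∈ KM m) :
    SameOrbit (pt z0 s h) (pt z0 (g0 s) h') :=
  shift_orbit 1 g0 g0_zero g0_one g0_xx h h'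

lemma M_orbit (n : ℤ) : SameOrbit (pt z0 (xx n) (mk_lt (m := m) Bs_z0 n))
    (pt z0 (xx 0) (mk_lt (m := m) Bs_z0 0)) := by
  have step : ∀ n : ℤ, SameOrbit (pt z0 (xx n) (mk_lt (m := m) Bs_z0 n))
      (pt z0 (xx (n + 1)) (mk_lt (m := m) Bs_z0 (n + 1))) := by
    intro n
    have h2 : (z0, g0 (xx n)) ∈ KM m := by rw [g0_xx]; exact mk_lt Bs_z0 _
    have h3 := sh_orbit (mk_lt (m := m) Bs_z0 n) h2
    rwa [z_eq h2 (mk_lt Bs_z0 (n + 1)) (g0_xx n)] at h3
  induction n using Int.induction_on with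
  | zero => exact SameOrbit.refl _
  | succ n ih => exact (step n).symm.trans ih
  | pred n ih =>
    have h4 := step (-(n : ℤ) - 1)
    have h5 : pt z0 (xx (-(n : ℤ) - 1 + 1)) (mk_lt (m := m) Bs_z0 _) =
        pt z0 (xx (-(n : ℤ))) (mk_lt (m := m) Bs_z0 _) := z_eq _ _ (by rw [sub_add_cancel])
    rw [h5] at h4
    exact h4.trans ih

/-- a level in the gap number zero -/
noncomputable def s4 : ℝ := (xx 0 + xx (0 + 1)) / 2

lemma s4_lt : xx 0 < s4 ∧ s4 < xx (0 + 1) := by
  have key : ∀ A B : ℝ, A < B → A < (A + B) / 2 ∧ (A + B) / 2 < B := by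
    intro A B h
    constructor <;> linarith
  exact key _ _ (xx_succ 0)

lemma mem_z {s : ℝ} (h0 : 0 ≤ s) (h1 : s ≤ 1) : (z0, s) ∈ KM m := (mem_B Bs_z0).2 ⟨h0, h1⟩

lemma s4_mem : (z0, s4) ∈ KM m :=
  mem_z ((xx_pos 0).trans s4_lt.1).le (s4_lt.2.trans (xx_lt _)).le

lemma G_orbit (n : ℤ) : ∀ (s : ℝ) (h1 : xx n < s) (h2 : s < xx (n + 1)) (h : (z0, s) ∈ KM m),
    SameOrbit (pt z0 s h) (pt z0 s4 s4_mem) := by
  have g0m : ∀ {s t : ℝ}, g0 s < g0 t ↔ s < t := fun {s t} => g0.lt_iff_lt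
  induction n using Int.induction_on with
  | zero =>
    intro s h1 h2 h
    obtain ⟨G, t1, t2, t3⟩ := tent h1 h2 s4_lt.1 s4_lt.2
    have hx : ∀ n, G (xx n) = xx (n + 0) := by
      intro n
      rw [add_zero]
      rcases le_or_gt n 0 with hn | hn
      · exact t1 _ (xx_mono.monotone hn)
      · exact t2 _ (xx_mono.monotone (show (0:ℤ) + 1 ≤ n from hn))
    have h3 : (z0, G s) ∈ KM m := by rw [t3]; exact s4_mem
    have h4 := shift_orbit 0 G (t1 0 (xx_pos 0).le) (t2 1 (xx_lt _).le) hx h h3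
    rwa [z_eq h3 s4_mem t3] at h4
  | succ n ih =>
    intro s h1 h2 h
    have e1 : g0 (g0.symm s) = s := g0.apply_symm_apply s
    have k1 : xx n < g0.symm s := by rw [← g0m, e1, g0_xx]; exact h1
    have k2 : g0.symm s < xx (n + 1) := by rw [← g0m, e1, g0_xx]; exact h2
    have h3 : (z0, g0.symm s) ∈ KM m :=
      mem_z ((xx_pos _).trans k1).le (k2.trans (xx_lt _)).le
    have h4 : (z0, g0 (g0.symm s)) ∈ KM m := by rw [e1]; exact h
    have h5 := sh_orbit h3 h4
    rw [z_eq h4 h e1] at h5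
    exact h5.symm.trans (ih _ k1 k2 h3)
  | pred n ih =>
    intro s h1 h2 h
    have k1 : xx (-(n : ℤ)) < g0 s := by
      have : xx (-(n : ℤ)) = g0 (xx (-(n : ℤ) - 1)) := by rw [g0_xx, sub_add_cancel]
      rw [this, g0m]; exact h1
    have k2 : g0 s < xx (-(n : ℤ) + 1) := by
      rw [← g0_xx, g0m]
      rwa [sub_add_cancel] at h2
    have h3 : (z0, g0 s) ∈ KM m := mem_z ((xx_pos _).trans k1).le (k2.trans (xx_lt _)).le
    exact (sh_orbit h h3).trans (ih _ k1 k2 h3)

/-! ### Six orbits -/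

lemma r5_mem : (dl (0, 0), xx 0 / 2) ∈ KM m := by
  have := xx_pos 0
  exact (mem_A (As_dl (0, 0))).2 ⟨by positivity, by show xx 0 / 2 ≤ xx 0; linarith⟩

/-- representatives -/
noncomputable def rep (m : ℕ) : Fin 6 → Fan (KM m) :=
  ![top (good m), pt z0 1 (mem1 Bs_z0), pt (dl (0, 0)) (xx 0) (memA (As_dl (0, 0))),
    pt z0 (xx 0) (mk_lt Bs_z0 0), pt z0 s4 s4_mem, pt (dl (0, 0)) (xx 0 / 2) r5_mem]

lemma main_orbit (p : Fan (KM m)) : SameOrbit p (rep m (cls (top (good m)) p)) := by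
  obtain ⟨c, s, h, hs, rfl⟩ := repr (good m) p
  rcases hs.eq_or_lt with h0 | h0
  · subst h0
    have e1 : pt c 0 h = top (good m) := pt_zero (good m) c
    rw [e1, cls_top]
    exact SameOrbit.refl _
  · rcases dich h h0 with hB | ⟨a, hA⟩
    · obtain ⟨-, hs1⟩ := (mem_B hB).1 h
      rcases hs1.eq_or_lt with h1 | h1
      · subst h1
        rw [cls_BE hB]
        exact toB hB h (mem1 Bs_z0)
      · by_cases hn : ∃ n, s = xx n
        · obtain ⟨n, rfl⟩ := hn
          rw [cls_M hB n]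
          exact (toB hB h (mk_lt Bs_z0 n)).trans (M_orbit n)
        · push Not at hn
          rw [cls_BI hB h0 h1 hn h]
          rcases gap h0 h1 with ⟨n, hn'⟩ | ⟨n, h2, h3⟩
          · exact absurd hn' (hn n)
          · exact (toB hB h (mem_z h0.le h1.le)).trans (G_orbit n s h2 h3 _)
    · obtain ⟨-, hs1⟩ := (mem_A hA).1 h
      have hd : (dl a, s) ∈ KM m := (mem_A (As_dl a)).2 ⟨hs, hs1⟩
      rcases hs1.eq_or_lt with h1 | h1
      · subst h1
        rw [cls_AE hA]
        exact (toA hA h hd).trans (A_orbit h0 (xx_pos 0) hd (memA (As_dl (0, 0))) (by simp))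
      · rw [cls_AI hA h0 h1 h]
        have hx := xx_pos 0
        refine (toA hA h hd).trans (A_orbit h0 (by positivity) hd r5_mem ?_)
        constructor
        · intro h2; exact absurd h2 h1.ne
        · intro h2
          have h3 : xx 0 / 2 = xx 0 := h2
          linarith

lemma cls_rep (i : Fin 6) : cls (top (good m)) (rep m i) = i := by
  have hx := xx_pos 0
  fin_cases i
  · exact cls_top
  · exact cls_BE Bs_z0
  · exact cls_AE (As_dl (0, 0))
  · exact cls_M Bs_z0 0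
  · refine cls_BI Bs_z0 ((xx_pos 0).trans s4_lt.1) (s4_lt.2.trans (xx_lt _)) ?_ s4_mem
    intro n hn
    have h1 := s4_lt.1
    have h2 := s4_lt.2
    rw [hn, xx_mono.lt_iff_lt] at h1 h2
    omega
  · exact cls_AI (As_dl (0, 0)) (by positivity) (by show xx 0 / 2 < xx 0; linarith) r5_mem

lemma homeo_top {k : ℕ} (h : Fan (KM m) ≃ₜ Fan (KM k)) : h (top (good m)) = top (good k) :=
  ((isFan (good k)).ramification _).1 (ram_image h (((isFan (good m)).ramification _).2 rfl))

theorem six : Nat.card (Quotient (orbitSetoid (Fan (KM m)))) = 6 := by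
  have hf : ∀ p q : Fan (KM m), (orbitSetoid (Fan (KM m))) p q →
      cls (top (good m)) p = cls (top (good m)) q := by
    rintro p q ⟨h, rfl⟩
    exact (cls_homeo h (homeo_top h) p).symm
  have hbij : Function.Bijective (Quotient.lift (s := orbitSetoid (Fan (KM m)))
      (cls (top (good m))) hf) := by
    constructor
    · intro x y
      induction x using Quotient.inductionOn with | _ p =>
      induction y using Quotient.inductionOn with | _ q =>
      intro h
      have h' : cls (top (good m)) p = cls (top (good m)) q := h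
      apply Quotient.sound
      have h1 := main_orbit p
      rw [h'] at h1
      exact h1.trans (main_orbit q).symm
    · intro i
      exact ⟨Quotient.mk _ (rep m i), cls_rep i⟩
  rw [Nat.card_eq_of_bijective _ hbij, Nat.card_eq_fintype_card, Fintype.card_fin]

/-! ### Different numbers of blades with marks -/

lemma card_B : Nat.card {c : Cs // Bs m c} = 2 ^ m := by
  classical
  let F : {c : Cs // Bs m c} → (Fin m → Bool) := fun c l => v c.1 (Sum.inr l)
  have hF : Function.Bijective F := by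
    constructor
    · rintro ⟨c, hc⟩ ⟨d, hd⟩ h
      apply Subtype.ext
      apply v_ext
      rintro (a | l)
      · show v c _ = v d _
        rw [hc.1, hd.1]
      · show v c _ = v d _
        by_cases hl : m ≤ l
        · rw [hc.2 l hl, hd.2 l hl]
        · exact congrFun h ⟨l, by omega⟩
    · intro f
      refine ⟨⟨fun n => Sum.elim (fun _ => false) (fun l => if hl : l < m then f ⟨l, hl⟩ else false)
        (ix n), ?_, ?_⟩, ?_⟩
      · intro a
        simp [v]
      · intro l hl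
        have : ¬ l < m := by omega
        simp [v, this]
      · funext l
        simp [F, v]
  rw [Nat.card_eq_of_bijective F hF]
  simp

lemma card_BE : Nat.card (BEn (top (good m))) = 2 ^ m := by
  rw [← card_B (m := m)]
  symm
  let F : {c : Cs // Bs m c} → BEn (top (good m)) := fun c => ⟨pt c.1 1 (mem1 c.2), BE_mem c.2⟩
  apply Nat.card_eq_of_bijective F
  constructor
  · intro c d h
    have h1 : pt c.1 1 (mem1 c.2) = pt d.1 1 (mem1 d.2) := congrArg Subtype.val h
    exact Subtype.ext (pt_inj one_ne_zero h1).1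
  · rintro ⟨e, he⟩
    obtain ⟨c, hc, rfl⟩ := BE_cases he
    exact ⟨⟨c, hc⟩, rfl⟩

theorem not_homeo' {k : ℕ} (h : Fan (KM m) ≃ₜ Fan (KM k)) : m = k := by
  have ht := homeo_top h
  have ht' := homeo_top h.symm
  have h1 : ∀ p, p ∈ BEn (top (good m)) ↔ h p ∈ BEn (top (good k)) := by
    intro p
    constructor
    · intro hp
      have := BEn_image h hp
      rwa [ht] at this
    · intro hp
      have := BEn_image h.symm hp
      rwa [ht', h.symm_apply_apply] at this
  have h2 : Nat.card (BEn (top (good m))) = Nat.card (BEn (top (good k))) :=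
    Nat.card_congr (h.toEquiv.subtypeEquiv h1)
  rw [card_BE, card_BE] at h2
  exact Nat.pow_right_injective le_rfl h2

end Pool.Agent.V11182.FanSix
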