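import Pool.Agent.H545R3.FanFinal

set_option autoImplicit false
set_option linter.unusedVariables false
set_option linter.unusedSectionVars false
set_option linter.dupNamespace false
set_option linter.unusedSimpArgs false

/-! Wedges (at the top) of two of the plane fans of `Pool.Agent.H545R3`. -/

namespace Pool.Agent.V11182.FanWedge

open Set Topology Filter Pool.Agent.H545R3.Fan

/-- prefix one bit -/
def con (b : Bool) (c : Cs) : Cs := fun n => Nat.casesOn n b c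

/-- drop the first bit -/
def tl (c : Cs) : Cs := fun n => c (n + 1)

lemma tl_con (b : Bool) (c : Cs) : tl (con b c) = c := rfl

lemma con_tl (c : Cs) : con (c 0) (tl c) = c := by
  funext n; cases n <;> rfl

lemma con_inj {b b' : Bool} {c c' : Cs} (h : con b c = con b' c') : b = b' ∧ c = c' :=
  ⟨congrFun h 0, congrArg tl h⟩

lemma con_cont (b : Bool) : Continuous (con b) := by
  apply continuous_pi
  intro n
  cases n with
  | zero => exact continuous_const
  | succ n => exact continuous_apply n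

lemma tl_cont : Continuous tl := by
  apply continuous_pi
  intro n
  exact continuous_apply (n + 1)

/-- the wedge -/
def Wd (K : Bool → Set (Cs × ℝ)) : Set (Cs × ℝ) := {q | (tl q.1, q.2) ∈ K (q.1 0)}

variable {K : Bool → Set (Cs × ℝ)}

lemma mem_wd {b : Bool} {c : Cs} {s : ℝ} : (con b c, s) ∈ Wd K ↔ (c, s) ∈ K b := Iff.rfl

lemma wd_good (hK : ∀ b, Good (K b)) : Good (Wd K) where
  comp := by
    have h : Wd K = ⋃ b : Bool, (fun q : Cs × ℝ => (con b q.1, q.2)) '' K b := by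
      ext ⟨c, s⟩
      simp only [mem_iUnion, mem_image]
      constructor
      · intro h
        exact ⟨c 0, (tl c, s), h, by rw [con_tl]⟩
      · rintro ⟨b, q, hq, hqe⟩
        rw [← hqe]
        exact hq
    rw [h]
    apply isCompact_iUnion
    intro b
    exact (hK b).comp.image (((con_cont b).comp continuous_fst).prodMk continuous_snd)
  nonneg := fun q hq => (hK (q.1 0)).nonneg (tl q.1, q.2) hq
  down := fun c s s' h h0 hs => (hK _).down _ _ _ h h0 hs
  zero := fun c => (hK _).zero _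
  three := by
    obtain ⟨c₁, c₂, c₃, s₁, s₂, s₃, h12, h13, h23, hs₁, hs₂, hs₃, k₁, k₂, k₃⟩ := (hK false).three
    exact ⟨con false c₁, con false c₂, con false c₃, s₁, s₂, s₃, fun h => h12 (con_inj h).2,
      fun h => h13 (con_inj h).2, fun h => h23 (con_inj h).2, hs₁, hs₂, hs₃, k₁, k₂, k₃⟩

/-- the linear map -/
noncomputable def Lm (b : Bool) (p : ℝ × ℝ) : ℝ × ℝ := (p.2 * cond b 1 0 + 1 / 3 * p.1, p.2)

lemma Lm_cont (b : Bool) : Continuous (Lm b) := by
  unfold Lm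
  fun_prop

lemma Lm_inj (b : Bool) : Function.Injective (Lm b) := by
  intro p q h
  unfold Lm at h
  rw [Prod.mk.injEq] at h
  obtain ⟨h1, h2⟩ := h
  rw [h2] at h1
  exact Prod.ext (by linarith) h2

lemma Lm_pr (b : Bool) (c : Cs) (s : ℝ) : Lm b (pr (c, s)) = pr (con b c, s) := by
  have h : xc (con b c) = cond b 1 0 + 1 / 3 * xc c := by
    unfold xc
    rw [Cardinal.cantorFunction_succ (con b c) (by norm_num) (by norm_num)]
    rfl
  unfold Lm pr
  simp only [h]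
  ext
  · simp only; ring
  · rfl

lemma Lm_mem (b : Bool) (p : Fan (K b)) : Lm b (p : ℝ × ℝ) ∈ Fan (Wd K) := by
  obtain ⟨⟨c, s⟩, hq, hqe⟩ := p.2
  rw [← hqe, Lm_pr]
  exact ⟨(con b c, s), hq, rfl⟩

/-- the inclusion of one of the two fans -/
noncomputable def jj (K : Bool → Set (Cs × ℝ)) (b : Bool) (p : Fan (K b)) : Fan (Wd K) :=
  ⟨Lm b p, Lm_mem b p⟩

lemma jj_pt {b : Bool} {c : Cs} {s : ℝ} (h : (c, s) ∈ K b) :
    jj K b (pt c s h) = pt (con b c) s (mem_wd.2 h) := by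
  apply Subtype.ext
  exact Lm_pr b c s

lemma jj_cont (b : Bool) : Continuous (jj K b) :=
  ((Lm_cont b).comp continuous_subtype_val).subtype_mk _

lemma jj_inj (b : Bool) : Function.Injective (jj K b) := by
  intro p q h
  exact Subtype.ext (Lm_inj b (congrArg Subtype.val h))

lemma jj_emb (hK : ∀ b, Good (K b)) (b : Bool) : IsClosedEmbedding (jj K b) := by
  have : CompactSpace (Fan (K b)) := isCompact_iff_compactSpace.1 (fan_compact (hK b))
  exact (jj_cont b).isClosedEmbedding (jj_inj b)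

lemma jj_top (hK : ∀ b, Good (K b)) (b : Bool) : jj K b (top (hK b)) = top (wd_good hK) := by
  rw [← pt_zero (hK b) z0, jj_pt]
  exact pt_zero (wd_good hK) _

lemma range_or (hK : ∀ b, Good (K b)) (b : Bool) (p : Fan (Wd K)) (h : p ∉ range (jj K (!b))) :
    p ∈ range (jj K b) := by
  obtain ⟨c, s, hm, hs, rfl⟩ := repr (wd_good hK) p
  have key : pt c s hm = jj K (c 0) (pt (tl c) s hm) := by
    rw [jj_pt]
    apply Subtype.ext
    show pr (c, s) = pr (con (c 0) (tl c), s)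
    rw [con_tl]
  by_cases hb : c 0 = b
  · rw [key]
    rw [← hb]
    exact ⟨_, rfl⟩
  · exfalso
    apply h
    have hb' : c 0 = !b := by
      cases h1 : c 0 <;> cases h2 : b <;> simp_all
    rw [key]
    rw [← hb']
    exact ⟨_, rfl⟩

lemma not_range (hK : ∀ b, Good (K b)) {b : Bool} {x : Fan (K b)} (hx : x ≠ top (hK b)) :
    jj K b x ∉ range (jj K (!b)) := by
  rintro ⟨y, hy⟩
  obtain ⟨c, s, h, hs, rfl⟩ := repr (hK b) x
  obtain ⟨d, u, h', hu, rfl⟩ := repr (hK (!b)) y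
  have hs0 : s ≠ 0 := by
    rintro rfl
    exact hx (pt_zero (hK b) c)
  rw [jj_pt, jj_pt] at hy
  have h1 := (con_inj (pt_inj hs0 hy.symm).1).1
  cases b <;> simp at h1

lemma pull (hK : ∀ b, Good (K b)) {b : Bool} {x : Fan (K b)} (hx : x ≠ top (hK b))
    {U : Set (Fan (K b))} (hU : U ∈ 𝓝 x) :
    ∃ V ∈ 𝓝 (jj K b x), ∀ y ∈ V, ∃ y', jj K b y' = y ∧ y' ∈ U := by
  rw [(jj_emb hK b).isInducing.nhds_eq_comap, mem_comap] at hU
  obtain ⟨V, hV, hVU⟩ := hU
  have hO : (range (jj K (!b)))ᶜ ∈ 𝓝 (jj K b x) :=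
    (jj_emb hK (!b)).isClosed_range.isOpen_compl.mem_nhds (not_range hK hx)
  refine ⟨V ∩ (range (jj K (!b)))ᶜ, inter_mem hV hO, ?_⟩
  rintro y ⟨hyV, hyO⟩
  obtain ⟨y', rfl⟩ := range_or hK b y hyO
  exact ⟨y', rfl, hVU hyV⟩

lemma endpoint_jj (hK : ∀ b, Good (K b)) (b : Bool) (x : Fan (K b)) :
    IsEndpoint (jj K b x) ↔ IsEndpoint x := by
  rw [endpoint_iff (wd_good hK), endpoint_iff (hK b)]
  constructor
  · rintro ⟨d, u, h', hu, htip, he⟩
    obtain ⟨c, s, h, hs, rfl⟩ := repr (hK b) x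
    rw [jj_pt] at he
    obtain ⟨h1, h2⟩ := pt_inj hu.ne' he.symm
    subst h1
    subst h2
    exact ⟨c, u, h, hu, fun v hv => htip v (mem_wd.2 hv), rfl⟩
  · rintro ⟨c, s, h, hs, htip, rfl⟩
    refine ⟨con b c, s, mem_wd.2 h, hs, fun v hv => htip v (mem_wd.1 hv), ?_⟩
    rw [jj_pt]

lemma isArc_emb {X Y : Type*} [TopologicalSpace X] [TopologicalSpace Y] {j : X → Y}
    (hj : Continuous j) (hi : Function.Injective j) {A : Set X}
    {x y : X} (hA : IsArc A x y) : IsArc (j '' A) (j x) (j y) := by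
  obtain ⟨f, hf, hfi, hf0, hf1, hfr⟩ := hA
  exact ⟨j ∘ f, hj.comp hf, hi.comp hfi, by simp [hf0], by simp [hf1],
    by rw [range_comp, hfr]⟩

theorem wd_isEPG (hK : ∀ b, Good (K b)) {Z : Set unitInterval} (hZ : (0 : unitInterval) ∈ Z)
    (hE : ∀ b, IsEPG (top (hK b)) Z) : IsEPG (top (wd_good hK)) Z := by
  intro B e he hB
  obtain ⟨c, s, h, hs, htip, rfl⟩ := (endpoint_iff (wd_good hK) e).1 he
  obtain ⟨b, c', rfl⟩ : ∃ b c', c = con b c' := ⟨c 0, tl c, (con_tl c).symm⟩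
  have h' : (c', s) ∈ K b := mem_wd.1 h
  have heq : pt (con b c') s h = jj K b (pt c' s h') := (jj_pt h').symm
  rw [heq] at he hB ⊢
  have he' : IsEndpoint (pt c' s h') := (endpoint_jj hK b _).1 he
  have hB' := blade_isArc (hK b) hs h'
  set B' : Set (Fan (K b)) := Subtype.val ⁻¹' ((fun u => pr (c', u)) '' Icc 0 s) with hB'def
  have hBj : jj K b '' B' = B := by
    have h1 := isArc_emb (jj_cont b) (jj_inj b) hB'
    rw [jj_top, jj_pt] at h1
    rw [jj_pt] at hB
    exact (arc_unique (wd_good hK) hs _ h1).trans (arc_unique (wd_good hK) hs _ hB).symm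
  obtain ⟨φ, hφ0, hφ1, hφ⟩ := hE b B' _ he' hB'
  have hemb : IsEmbedding (jj K b) := (jj_emb hK b).isEmbedding
  refine ⟨(φ.trans (hemb.homeomorphImage B')).trans (Homeomorph.setCongr hBj), ?_, ?_, ?_⟩
  · show jj K b (φ 0 : Fan (K b)) = _
    rw [hφ0, jj_top]
  · show jj K b (φ 1 : Fan (K b)) = _
    rw [hφ1]
  · have e1 : (fun z => ((((φ.trans (hemb.homeomorphImage B')).trans (Homeomorph.setCongr hBj)) z : B) :
        Fan (Wd K))) = fun z => jj K b (φ z : Fan (K b)) := rfl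
    rw [e1]
    have e2 : (fun z => jj K b (φ z : Fan (K b))) '' Z = jj K b '' ((fun z => (φ z : Fan (K b))) '' Z) := by
      rw [image_image]
    rw [e2, hφ]
    have hdiff : ∀ x : Fan (K b), jj K b x ∈ ({e' : Fan (Wd K) | IsEndpoint e'} \ B) ↔
        x ∈ ({e' : Fan (K b) | IsEndpoint e'} \ B') := by
      intro x
      constructor
      · rintro ⟨h1, h2⟩
        exact ⟨(endpoint_jj hK b x).1 h1, fun h3 => h2 (hBj ▸ ⟨x, h3, rfl⟩)⟩
      · rintro ⟨h1, h2⟩
        refine ⟨(endpoint_jj hK b x).2 h1, fun h3 => h2 ?_⟩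
        rw [← hBj] at h3
        obtain ⟨y, hy, hyx⟩ := h3
        rw [← jj_inj b hyx]
        exact hy
    apply subset_antisymm
    · rintro _ ⟨x, ⟨hxB, hxc⟩, rfl⟩
      refine ⟨hBj ▸ ⟨x, hxB, rfl⟩, ?_⟩
      rw [mem_closure_iff_nhds] at hxc ⊢
      intro V hV
      obtain ⟨y, hy, hyE⟩ := hxc _ ((jj_cont b).continuousAt.preimage_mem_nhds hV)
      exact ⟨jj K b y, hy, (hdiff y).2 hyE⟩
    · rintro p ⟨hpB, hpc⟩
      rw [← hBj] at hpB
      obtain ⟨x, hx, rfl⟩ := hpB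
      refine ⟨x, ?_, rfl⟩
      by_cases hxt : x = top (hK b)
      · rw [hxt, ← hφ]
        exact ⟨0, hZ, hφ0⟩
      · refine ⟨hx, ?_⟩
        rw [mem_closure_iff_nhds] at hpc ⊢
        intro U hU
        obtain ⟨V, hV, hVU⟩ := pull hK hxt hU
        obtain ⟨y, hyV, hyE⟩ := hpc V hV
        obtain ⟨y', rfl, hy'⟩ := hVU y hyV
        exact ⟨y', hy', (hdiff y').1 hyE⟩

lemma Dv_push (hK : ∀ b, Good (K b)) {b : Bool} {x : Fan (K b)} {A : Set (Fan (Wd K))}
    (h : x ∈ Dv (jj K b ⁻¹' A)) : jj K b x ∈ Dv A := by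
  intro V hV
  obtain ⟨y, hy, hyA, hyx⟩ := h _ ((jj_cont b).continuousAt.preimage_mem_nhds hV)
  exact ⟨jj K b y, hy, hyA, fun he => hyx (jj_inj b he)⟩

lemma Dv_pull (hK : ∀ b, Good (K b)) {b : Bool} {x : Fan (K b)} (hx : x ≠ top (hK b))
    {A : Set (Fan (Wd K))} (h : jj K b x ∈ Dv A) : x ∈ Dv (jj K b ⁻¹' A) := by
  intro U hU
  obtain ⟨V, hV, hVU⟩ := pull hK hx hU
  obtain ⟨y, hyV, hyA, hyx⟩ := h V hV
  obtain ⟨y', rfl, hy'⟩ := hVU y hyV
  exact ⟨y', hy', hyA, fun he => hyx (by rw [he])⟩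

lemma Dv_mono {X : Type*} [TopologicalSpace X] {A B : Set X} (h : A ⊆ B) : Dv A ⊆ Dv B := by
  intro x hx U hU
  obtain ⟨y, hy, hyA, hyx⟩ := hx U hU
  exact ⟨y, hy, h hyA, hyx⟩

lemma Dv_mono' {X : Type*} [TopologicalSpace X] [T1Space X] {A B : Set X} {t x : X} (hx : x ≠ t)
    (h : ∀ y, y ≠ t → y ∈ A → y ∈ B) (hA : x ∈ Dv A) : x ∈ Dv B := by
  intro U hU
  obtain ⟨y, hy, hyA, hyx⟩ := hA (U ∩ {t}ᶜ) (inter_mem hU (isOpen_compl_singleton.mem_nhds hx))
  exact ⟨y, hy.1, h y hy.2 hyA, hyx⟩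

lemma ram_image {X Y : Type*} [TopologicalSpace X] [TopologicalSpace Y] (h : X ≃ₜ Y) {p : X}
    (hp : IsRamification p) : IsRamification (h p) := by
  obtain ⟨A₁, A₂, A₃, x₁, x₂, x₃, h₁, h₂, h₃, h12, h13, h23⟩ := hp
  refine ⟨h '' A₁, h '' A₂, h '' A₃, h x₁, h x₂, h x₃, isArc_image h h₁, isArc_image h h₂,
    isArc_image h h₃, ?_, ?_, ?_⟩
  · rw [← image_inter h.injective, h12, image_singleton]
  · rw [← image_inter h.injective, h13, image_singleton]
  · rw [← image_inter h.injective, h23, image_singleton]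

/-- The two fans: psi1 (for `false`) and psi2 (for `true`). -/
noncomputable def KB (b : Bool) : Set (Cs × ℝ) := cond b (KK psi2) (KK psi1)

lemma KB_good (b : Bool) : Good (KB b) := by
  cases b
  · exact good wt1
  · exact good wt2

lemma KB_epg (b : Bool) : IsEPG (top (KB_good b)) Z3 := by
  cases b
  · exact isEPG wt1
  · exact isEPG wt2

/-- the counterexample -/
noncomputable def XX : Set (ℝ × ℝ) := Fan (Wd KB)

noncomputable def tt : XX := top (wd_good KB_good)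

lemma XX_fan : IsFan XX tt := isFan _

lemma XX_smooth : IsSmooth tt := isSmooth _

lemma XX_epg : IsEPG tt Z3 := wd_isEPG KB_good (Or.inl rfl) KB_epg

lemma s0 : Sup z0 0 := fun n _ => rfl

/-- the endpoints -/
noncomputable def e1 : Fan (KK psi1) := pt z0 (psi1 (st z0 0)) (tip_mem wt1 s0)
noncomputable def e2 : Fan (KK psi2) := pt z0 (psi2 (st z0 0)) (tip_mem wt2 s0)

lemma e1_end : IsEndpoint (jj KB false e1) :=
  (endpoint_jj KB_good false e1).2 ((endpoint_iff' wt1 _).2 ⟨z0, 0, s0, rfl⟩)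

lemma e2_end : IsEndpoint (jj KB true e2) :=
  (endpoint_jj KB_good true e2).2 ((endpoint_iff' wt2 _).2 ⟨z0, 0, s0, rfl⟩)

lemma E_pre1 : jj KB false ⁻¹' {e : Fan (Wd KB) | IsEndpoint e} = EE psi1 := by
  ext x
  exact endpoint_jj KB_good false x

lemma E_pre2 : jj KB true ⁻¹' {e : Fan (Wd KB) | IsEndpoint e} = EE psi2 := by
  ext x
  exact endpoint_jj KB_good true x

theorem no_homeo (h : XX ≃ₜ XX) : h (jj KB true e2) ≠ jj KB false e1 := by
  intro hcon
  have htop : h tt = tt := (XX_fan.ramification _).1 (ram_image h ((XX_fan.ramification _).2 rfl))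
  -- the point of the second derived set on the second blade
  set y0 : Fan (KK psi2) := pt z0 (mA (st z0 0)) (ma_mem wt2 s0) with hy0
  have hDD : jj KB true y0 ∈ Dv (Dv {e : Fan (Wd KB) | IsEndpoint e}) := by
    apply Dv_push KB_good
    refine Dv_mono ?_ (DD2 s0)
    rw [← E_pre2]
    intro z hz
    exact Dv_push KB_good hz
  have hDE : ∀ x : XX, h x ∈ {e : XX | IsEndpoint e} ↔ x ∈ {e : XX | IsEndpoint e} :=
    fun x => endpoint_homeo h x
  have hDD' : h (jj KB true y0) ∈ Dv (Dv {e : XX | IsEndpoint e}) :=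
    (Dv_homeo h (Dv_homeo h hDE) _).2 hDD
  -- blades
  have hpos2 : 0 < psi2 (st z0 0) := wt2.pos _
  have hpos1 : 0 < psi1 (st z0 0) := wt1.pos _
  have hB2 := blade_isArc (good wt2) hpos2 (tip_mem wt2 s0)
  have hy0B : y0 ∈ (Subtype.val ⁻¹' ((fun u => pr (z0, u)) '' Icc 0 (psi2 (st z0 0))) :
      Set (Fan (KK psi2))) :=
    ⟨mA (st z0 0), (mem_iff_sup wt2 s0).1 (ma_mem wt2 s0), rfl⟩
  have hA : IsArc (h '' (jj KB true '' (Subtype.val ⁻¹' ((fun u => pr (z0, u)) '' Icc 0 (psi2 (st z0 0))) :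
      Set (Fan (KK psi2))))) (h (jj KB true (top (good wt2)))) (h (jj KB true e2)) :=
    isArc_image h (isArc_emb (jj_cont (K := KB) true) (jj_inj (K := KB) true) hB2)
  have ht2 : jj KB true (top (good wt2)) = tt := jj_top KB_good true
  rw [ht2, htop, hcon] at hA
  have hj1 : jj KB false e1 = pt (con false z0) (psi1 (st z0 0)) (mem_wd.2 (tip_mem wt1 s0)) :=
    jj_pt (K := KB) (b := false) (tip_mem wt1 s0)
  rw [hj1] at hA
  have hset := arc_unique (wd_good KB_good) hpos1 _ hA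
  have hmem : h (jj KB true y0) ∈ (Subtype.val ⁻¹' ((fun u => pr (con false z0, u)) '' Icc 0 (psi1 (st z0 0))) :
      Set (Fan (Wd KB))) := by
    rw [← hset]
    exact ⟨_, ⟨y0, hy0B, rfl⟩, rfl⟩
  obtain ⟨u, hu, hup⟩ := hmem
  have huK : (z0, u) ∈ KK psi1 := (mem_iff_sup wt1 s0).2 hu
  have hx : h (jj KB true y0) = jj KB false (pt z0 u huK : Fan (KK psi1)) := by
    have h0 := jj_pt (K := KB) (b := false) huK
    exact (Subtype.ext hup.symm : h (jj KB true y0) = pt (con false z0) u (mem_wd.2 huK)).trans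
      h0.symm
  by_cases hxt : (pt z0 u huK : Fan (KK psi1)) = top (good wt1)
  · have h1 : h (jj KB true y0) = h tt := by
      rw [hx, hxt, htop]
      exact jj_top KB_good false
    have h2 := h.injective h1
    have h3 : jj KB true y0 = jj KB true (top (good wt2)) := h2.trans ht2.symm
    have h4 := jj_inj (K := KB) true h3
    obtain ⟨v1, v2, v3⟩ := st_valid z0 0
    exact pt_ne_top (good wt2) (wt2.ma_pos _ _ _ v1 v2).ne' h4
  · apply hxt
    apply DD1
    rw [hx] at hDD'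
    have h5 := Dv_pull KB_good (b := false) (x := (pt z0 u huK : Fan (KK psi1))) hxt hDD'
    refine Dv_mono' (t := top (good wt1)) hxt ?_ h5
    intro y hyt hy
    rw [← E_pre1]
    exact Dv_pull KB_good (b := false) (x := y) hyt hy

theorem main : (Z3.Nonempty) ∧ ∃ (F : Set (ℝ × ℝ)) (t : F), IsFan F t ∧ IsSmooth t ∧ IsEPG t Z3 ∧
    ∃ e e' : F, IsEndpoint e ∧ IsEndpoint e' ∧ ∀ h : F ≃ₜ F, h e ≠ e' :=
  ⟨⟨_, Or.inl rfl⟩, XX, tt, XX_fan, XX_smooth, XX_epg, _, _, e2_end, e1_end, no_homeo⟩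

end Pool.Agent.V11182.FanWedge
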