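import Mathlib

set_option autoImplicit false

/-! Planar hooks over a compact nowhere dense set of reals. -/

namespace Pool.Agent.V11182.Hooks

open Set Topology Filter

/-- left ends of gaps of length at least `ε` -/
def T (K : Set ℝ) (ε : ℝ) : Set ℝ := {t | ∀ k ∈ K, k ≤ t ∨ t + ε ≤ k}

/-- the right end of the block of `x` -/
noncomputable def rr (K : Set ℝ) (ε x : ℝ) : ℝ := sInf (T K ε ∩ Ici x)

lemma T_closed (K : Set ℝ) (ε : ℝ) : IsClosed (T K ε) := by
  have h : T K ε = ⋂ k ∈ K, ({t : ℝ | k ≤ t} ∪ {t : ℝ | t + ε ≤ k}) := by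
    ext t
    simp [T]
  rw [h]
  apply isClosed_biInter
  intro k _
  apply IsClosed.union
  · exact isClosed_le continuous_const continuous_id
  · exact isClosed_le (continuous_id.add continuous_const) continuous_const

variable {K : Set ℝ}

lemma one_T (hK : K ⊆ Icc 0 1) {ε : ℝ} : (1:ℝ) ∈ T K ε := fun k hk => Or.inl (hK hk).2

lemma rr_mem (hK : K ⊆ Icc 0 1) {ε x : ℝ} (hx : x ≤ 1) : rr K ε x ∈ T K ε ∩ Ici x :=
  ((T_closed K ε).inter isClosed_Ici).csInf_mem ⟨1, one_T hK, hx⟩ ⟨x, fun _ h => h.2⟩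

lemma rr_le {ε x t : ℝ} (ht : t ∈ T K ε) (hx : x ≤ t) : rr K ε x ≤ t :=
  csInf_le ⟨x, fun _ h => h.2⟩ ⟨ht, hx⟩

lemma le_rr (hK : K ⊆ Icc 0 1) {ε x : ℝ} (hx : x ≤ 1) : x ≤ rr K ε x := (rr_mem hK hx).2

lemma rr_le_one (hK : K ⊆ Icc 0 1) {ε x : ℝ} (hx : x ≤ 1) : rr K ε x ≤ 1 := rr_le (one_T hK) hx

lemma rr_block (hK : K ⊆ Icc 0 1) {ε x x' : ℝ} (h1 : x ≤ x') (h2 : x' ≤ rr K ε x)
    (hx : x' ≤ 1) : rr K ε x' = rr K ε x := by
  apply le_antisymm
  · exact rr_le (rr_mem hK (h1.trans hx)).1 h2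
  · exact rr_le (rr_mem hK hx).1 (h1.trans (le_rr hK hx))

lemma rr_gap (hK : K ⊆ Icc 0 1) {ε x x' : ℝ} (hx : x ≤ 1) (hx' : x' ∈ K)
    (h : rr K ε x < x') : rr K ε x + ε ≤ x' := by
  rcases (rr_mem hK hx).1 x' hx' with h1 | h1
  · linarith
  · exact h1

lemma rr_loc (hK : K ⊆ Icc 0 1) {ε x x' : ℝ} (hx : x ∈ K) (hx' : x' ∈ K) (h : |x - x'| < ε) :
    rr K ε x = rr K ε x' := by
  rw [abs_lt] at h
  rcases le_total x x' with h1 | h1
  · rcases le_or_gt x' (rr K ε x) with h2 | h2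
    · exact (rr_block hK h1 h2 (hK hx').2).symm
    · have h3 := rr_gap hK (hK hx).2 hx' h2
      have h4 := le_rr (ε := ε) hK (hK hx).2
      linarith
  · rcases le_or_gt x (rr K ε x') with h2 | h2
    · exact rr_block hK h1 h2 (hK hx).2
    · have h3 := rr_gap hK (hK hx').2 hx h2
      have h4 := le_rr (ε := ε) hK (hK hx').2
      linarith

lemma T_mono {ε ε' : ℝ} (h : ε' ≤ ε) : T K ε ⊆ T K ε' := by
  intro t ht k hk
  rcases ht k hk with h1 | h1
  · exact Or.inl h1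
  · exact Or.inr (by linarith)

lemma rr_mono (hK : K ⊆ Icc 0 1) {ε ε' x : ℝ} (h : ε' ≤ ε) (hx : x ≤ 1) :
    rr K ε' x ≤ rr K ε x :=
  rr_le (T_mono h (rr_mem hK hx).1) (le_rr hK hx)

lemma rr_small (hK : K ⊆ Icc 0 1) (hc : IsClosed K) (hi : interior K = ∅) {η : ℝ} (hη : 0 < η) :
    ∃ ε > 0, ∀ x ∈ K, rr K ε x - x < η := by
  have h1 : ∀ i : ℕ, ∃ t e : ℝ, 0 < e ∧ (i : ℝ) * (η / 2) ≤ t ∧ t < ((i : ℝ) + 1) * (η / 2) ∧
      t ∈ T K e := by
    intro i
    have h2 : ∃ y ∈ Ioo ((i : ℝ) * (η / 2)) (((i : ℝ) + 1) * (η / 2)), y ∉ K := by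
      by_contra hcon
      push Not at hcon
      have h3 : Ioo ((i : ℝ) * (η / 2)) (((i : ℝ) + 1) * (η / 2)) ⊆ interior K :=
        interior_maximal (fun y hy => hcon y hy) isOpen_Ioo
      rw [hi] at h3
      exact h3 (a := ((i : ℝ) + 1 / 2) * (η / 2)) ⟨by nlinarith, by nlinarith⟩
    obtain ⟨y, hy, hyK⟩ := h2
    obtain ⟨e, he, hb⟩ := Metric.isOpen_iff.1 hc.isOpen_compl y hyK
    refine ⟨y, e, he, hy.1.le, hy.2, ?_⟩
    intro k hk
    by_contra hcon
    push Not at hcon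
    exact hb (by rw [Metric.mem_ball, Real.dist_eq, abs_lt]; constructor <;> linarith) hk
  choose t e he h2 h3 h4 using h1
  set M := ⌈2 / η⌉₊ with hM
  have hne : (Finset.range (M + 1)).Nonempty := ⟨0, by simp⟩
  refine ⟨(Finset.range (M + 1)).inf' hne e, ?_, ?_⟩
  · rw [gt_iff_lt, Finset.lt_inf'_iff]
    exact fun i _ => he i
  · intro x hx
    obtain ⟨hx0, hx1⟩ := hK hx
    set i := ⌈x / (η / 2)⌉₊ with hi'
    have hη2 : 0 < η / 2 := by linarith
    have hxd : 0 ≤ x / (η / 2) := div_nonneg hx0 hη2.le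
    have h5 : x / (η / 2) ≤ i := Nat.le_ceil _
    have h6 : (i : ℝ) < x / (η / 2) + 1 := Nat.ceil_lt_add_one hxd
    have h7 : x ≤ i * (η / 2) := by rwa [div_le_iff₀ hη2] at h5
    have h8 : (i : ℝ) * (η / 2) < x + η / 2 := by
      have := mul_lt_mul_of_pos_right h6 hη2
      rw [add_mul, div_mul_cancel₀ _ hη2.ne'] at this
      linarith
    have h9 : i ≤ M := by
      apply Nat.ceil_le_ceil
      rw [div_le_div_iff₀ hη2 hη]
      nlinarith
    have h10 : t i ∈ T K ((Finset.range (M + 1)).inf' hne e) :=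
      T_mono (Finset.inf'_le e (Finset.mem_range.2 (by omega))) (h4 i)
    have h11 := rr_le h10 (h7.trans (h2 i))
    have h12 := h3 i
    have : ((i : ℝ) + 1) * (η / 2) = i * (η / 2) + η / 2 := by ring
    linarith

/-- the parameters -/
structure Par (K : Set ℝ) (A : ℕ → ℕ → Set ℝ) (B : ℕ → Set ℝ) (ε b : ℕ → ℝ) : Prop where
  anti : ∀ n m, n ≤ m → ε m ≤ ε n
  pos : ∀ n, 0 < b n
  lt : ∀ n, 2 * b n < ε n
  dec : ∀ n m, n < m → 2 * b m < b n
  le : ∀ n : ℕ, b n ≤ 1 / (n + 1)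
  rs : ∀ n : ℕ, ∀ x ∈ K, rr K (ε n) x - x < 1 / (n + 1)
  sep : ∀ n m, n < m → ∀ x ∈ A n m, ∀ x' ∈ B m, x' < x → rr K (ε m) x' < x

lemma params (hK : K ⊆ Icc 0 1) (hc : IsClosed K) (hi : interior K = ∅)
    {A : ℕ → ℕ → Set ℝ} {B : ℕ → Set ℝ}
    (hA : ∀ n m, IsCompact (A n m)) (hB : ∀ n, IsCompact (B n)) (hBK : ∀ n, B n ⊆ K)
    (hdisj : ∀ n m, n < m → Disjoint (A n m) (B m)) :
    ∃ ε b : ℕ → ℝ, Par K A B ε b := by
  have h1 : ∀ m : ℕ, ∃ ρ : ℝ, 0 < ρ ∧ ∀ n < m, ∀ x ∈ A n m, ∀ x' ∈ B m, ρ < |x - x'| := by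
    intro m
    have hu : IsCompact (⋃ n ∈ Finset.range m, A n m) := (Finset.range m).isCompact_biUnion
      fun n _ => hA n m
    have hd : Disjoint (⋃ n ∈ Finset.range m, A n m) (B m) := by
      rw [disjoint_iUnion₂_left]
      intro n hn
      exact hdisj n m (Finset.mem_range.1 hn)
    obtain ⟨r, hr, hr'⟩ := Metric.exists_pos_forall_lt_edist hu (hB m).isClosed hd
    refine ⟨r, hr, ?_⟩
    intro n hn x hx x' hx'
    have h2 := hr' x (mem_biUnion (Finset.mem_coe.2 (Finset.mem_range.2 hn)) hx) x' hx'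
    rw [edist_dist, Real.dist_eq, ENNReal.lt_ofReal_iff_toReal_lt (by simp)] at h2
    simpa using h2
  choose ρ hρ hρ' using h1
  have h2 : ∀ m : ℕ, ∃ e : ℝ, 0 < e ∧ ∀ x ∈ K, rr K e x - x < min (ρ m) (1 / (m + 1)) := by
    intro m
    obtain ⟨e, he, he'⟩ := rr_small hK hc hi (η := min (ρ m) (1 / (m + 1)))
      (lt_min (hρ m) (by positivity))
    exact ⟨e, he, he'⟩
  choose e he he' using h2
  let ε : ℕ → ℝ := fun n => (Finset.range (n + 1)).inf' ⟨0, by simp⟩ e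
  have hεpos : ∀ n, 0 < ε n := by
    intro n
    show 0 < (Finset.range (n + 1)).inf' _ e
    rw [Finset.lt_inf'_iff]
    exact fun i _ => he i
  have hεe : ∀ n, ε n ≤ e n := fun n => Finset.inf'_le e (Finset.mem_range.2 (by omega))
  have hεanti : ∀ n m, n ≤ m → ε m ≤ ε n := by
    intro n m h
    apply Finset.inf'_mono
    exact Finset.range_mono (by omega)
  have hεsm : ∀ n, ∀ x ∈ K, rr K (ε n) x - x < min (ρ n) (1 / (n + 1)) := by
    intro n x hx
    have h3 := rr_mono hK (hεe n) (hK hx).2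
    have h4 := he' n x hx
    linarith
  let δ : ℕ → ℝ := fun n => min (ε n) 1 / 4 ^ (n + 2)
  have hmin : ∀ n, 0 < min (ε n) 1 := fun n => lt_min (hεpos n) one_pos
  have h4p : ∀ n : ℕ, (16:ℝ) ≤ 4 ^ (n + 2) := by
    intro n
    have : (1:ℝ) ≤ 4 ^ n := one_le_pow₀ (by norm_num)
    rw [pow_add]; linarith
  have hδ16 : ∀ n, δ n ≤ min (ε n) 1 / 16 := by
    intro n
    exact div_le_div_of_nonneg_left (hmin n).le (by norm_num) (h4p n)
  refine ⟨ε, δ, hεanti, ?_, ?_, ?_, ?_, ?_, ?_⟩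
  · intro n
    exact div_pos (hmin n) (by positivity)
  · intro n
    have := hδ16 n
    have h3 := min_le_left (ε n) 1
    have h4 := hεpos n
    linarith
  · intro n m hnm
    show 2 * (min (ε m) 1 / 4 ^ (m + 2)) < min (ε n) 1 / 4 ^ (n + 2)
    have h3 : min (ε m) 1 ≤ min (ε n) 1 := min_le_min_right _ (hεanti n m hnm.le)
    have h4 : (4:ℝ) * 4 ^ (n + 2) ≤ 4 ^ (m + 2) := by
      rw [← pow_succ']
      exact pow_le_pow_right₀ (by norm_num) (by omega)
    have h5 : (0:ℝ) < 4 ^ (n + 2) := by positivity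
    have h6 : min (ε m) 1 / 4 ^ (m + 2) ≤ min (ε n) 1 / (4 * 4 ^ (n + 2)) := by
      apply div_le_div₀ (hmin n).le h3 (by positivity) h4
    have h7 : min (ε n) 1 / (4 * 4 ^ (n + 2)) = (min (ε n) 1 / 4 ^ (n + 2)) / 4 := by
      rw [mul_comm, div_mul_eq_div_div]
    have h8 : 0 < min (ε n) 1 / 4 ^ (n + 2) := div_pos (hmin n) h5
    linarith
  · intro n
    show min (ε n) 1 / 4 ^ (n + 2) ≤ 1 / (n + 1)
    apply div_le_div₀ zero_le_one (min_le_right _ _) (by positivity)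
    have h3 : (n : ℝ) + 1 ≤ 4 ^ n := by
      have h5 : n < 4 ^ n := Nat.lt_pow_self (by norm_num)
      have h6 : ((n + 1 : ℕ) : ℝ) ≤ ((4 ^ n : ℕ) : ℝ) := Nat.cast_le.2 h5
      push_cast at h6
      exact h6
    have h4 : (4:ℝ) ^ n ≤ 4 ^ (n + 2) := pow_le_pow_right₀ (by norm_num) (by omega)
    linarith
  · intro n x hx
    exact (hεsm n x hx).trans_le (min_le_right _ _)
  · intro n m hnm x hx x' hx' h
    have h3 := (hεsm m x' (hBK m hx')).trans_le (min_le_left _ _)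
    have h4 := hρ' m n hnm x hx x' hx'
    rw [abs_of_pos (by linarith)] at h4
    linarith

/-! ### the path -/

noncomputable def pX (x R θ y : ℝ) : ℝ := x + (R - x) * max 0 (min 1 ((y - θ) / θ))

noncomputable def pY (a θ y : ℝ) : ℝ := 1 + a * min 1 (y / θ) - max 0 (y - 2 * θ) / 2

lemma p_one {x R a θ y : ℝ} (hθ : 0 < θ) (hy : y ≤ θ) :
    pX x R θ y = x ∧ pY a θ y = 1 + a * (y / θ) := by
  have h1 : (y - θ) / θ ≤ 0 := div_nonpos_of_nonpos_of_nonneg (by linarith) hθ.le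
  have h2 : y / θ ≤ 1 := (div_le_one hθ).2 hy
  unfold pX pY
  rw [min_eq_right (by linarith : (y - θ) / θ ≤ 1), max_eq_left h1, min_eq_right h2,
    max_eq_left (by linarith : y - 2 * θ ≤ 0)]
  constructor <;> ring

lemma p_two {x R a θ y : ℝ} (hθ : 0 < θ) (hy : θ ≤ y) (hy' : y ≤ 2 * θ) :
    pX x R θ y = x + (R - x) * ((y - θ) / θ) ∧ pY a θ y = 1 + a := by
  have h1 : 0 ≤ (y - θ) / θ := div_nonneg (by linarith) hθ.le
  have h2 : (y - θ) / θ ≤ 1 := (div_le_one hθ).2 (by linarith)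
  have h3 : 1 ≤ y / θ := (one_le_div hθ).2 hy
  unfold pX pY
  rw [min_eq_right h2, max_eq_right h1, min_eq_left h3, max_eq_left (by linarith : y - 2 * θ ≤ 0)]
  constructor <;> ring

lemma p_three {x R a θ y : ℝ} (hθ : 0 < θ) (hy : 2 * θ ≤ y) :
    pX x R θ y = R ∧ pY a θ y = 1 + a - (y - 2 * θ) / 2 := by
  have h1 : 1 ≤ (y - θ) / θ := (one_le_div hθ).2 (by linarith)
  have h3 : 1 ≤ y / θ := (one_le_div hθ).2 (by linarith)
  unfold pX pY
  rw [min_eq_left h1, max_eq_right (zero_le_one' ℝ), min_eq_left h3,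
    max_eq_right (by linarith : 0 ≤ y - 2 * θ)]
  constructor <;> ring

lemma pX_mem {x R θ y : ℝ} (h : x ≤ R) : x ≤ pX x R θ y ∧ pX x R θ y ≤ R := by
  have h1 : 0 ≤ max 0 (min 1 ((y - θ) / θ)) := le_max_left _ _
  have h2 : max 0 (min 1 ((y - θ) / θ)) ≤ 1 := max_le zero_le_one (min_le_left _ _)
  unfold pX
  constructor <;> nlinarith

lemma pY_le {a θ y : ℝ} (ha : 0 ≤ a) : pY a θ y ≤ 1 + a := by
  have h1 : 0 ≤ max 0 (y - 2 * θ) := le_max_left _ _
  have h2 : min 1 (y / θ) ≤ 1 := min_le_left _ _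
  unfold pY
  nlinarith

lemma p_hook {x R a θ y : ℝ} (hθ : 0 < θ) :
    pX x R θ y = x ∨ pY a θ y = 1 + a ∨ pX x R θ y = R := by
  rcases le_total y θ with h | h
  · exact Or.inl (p_one (R := R) (a := a) hθ h).1
  · rcases le_total y (2 * θ) with h' | h'
    · exact Or.inr (Or.inl (p_two (x := x) (R := R) hθ h h').2)
    · exact Or.inr (Or.inr (p_three (a := a) hθ h').1)

lemma pY_half {a θ y : ℝ} (hθ : 0 < θ) (ha : 0 < a) (hy : 0 ≤ y) (hy1 : y ≤ 1) :
    1 / 2 < pY a θ y := by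
  rcases le_total y θ with h | h
  · rw [(p_one (x := 0) (R := 0) hθ h).2]
    have : 0 ≤ a * (y / θ) := by positivity
    linarith
  · rcases le_total y (2 * θ) with h' | h'
    · rw [(p_two (x := 0) (R := 0) hθ h h').2]
      linarith
    · rw [(p_three (x := 0) (R := 0) hθ h').2]
      linarith

lemma p_avoid {x R a θ y : ℝ} (hθ : 0 < θ) (ha : 0 < a) (hy : 0 < y) :
    1 < pY a θ y ∨ pX x R θ y = R := by
  rcases le_total y θ with h | h
  · left
    rw [(p_one (x := 0) (R := 0) hθ h).2]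
    have : 0 < a * (y / θ) := by positivity
    linarith
  · rcases le_total y (2 * θ) with h' | h'
    · left
      rw [(p_two (x := 0) (R := 0) hθ h h').2]
      linarith
    · right
      exact (p_three (a := a) hθ h').1

lemma p_inj_lt {x R a θ y y' : ℝ} (hθ : 0 < θ) (ha : 0 < a) (hR : x < R) (h : y < y')
    (hX : pX x R θ y = pX x R θ y') (hY : pY a θ y = pY a θ y') : False := by
  rcases le_or_gt y' θ with h1 | h1
  · rw [(p_one (x := 0) (R := 0) hθ h1).2, (p_one (x := 0) (R := 0) hθ (h.le.trans h1)).2] at hY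
    have h2 : y / θ < y' / θ := div_lt_div_of_pos_right h hθ
    nlinarith
  · rcases le_or_gt y θ with h2 | h2
    · rw [(p_one (a := a) hθ h2).1] at hX
      rcases le_total y' (2 * θ) with h3 | h3
      · rw [(p_two (a := a) hθ h1.le h3).1] at hX
        have h4 : 0 < (y' - θ) / θ := div_pos (by linarith) hθ
        have h5 : 0 < (R - x) * ((y' - θ) / θ) := mul_pos (by linarith) h4
        linarith
      · rw [(p_three (a := a) hθ h3).1] at hX
        linarith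
    · rcases le_or_gt y' (2 * θ) with h3 | h3
      · rw [(p_two (a := a) hθ h1.le h3).1, (p_two (a := a) hθ h2.le (h.le.trans h3)).1] at hX
        have h4 : (y - θ) / θ < (y' - θ) / θ := div_lt_div_of_pos_right (by linarith) hθ
        nlinarith
      · rw [(p_three (x := 0) (R := 0) hθ h3.le).2] at hY
        rcases le_total y (2 * θ) with h4 | h4
        · rw [(p_two (x := 0) (R := 0) hθ h2.le h4).2] at hY
          linarith
        · rw [(p_three (x := 0) (R := 0) hθ h4).2] at hY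
          linarith

lemma p_inj {x R a θ y y' : ℝ} (hθ : 0 < θ) (ha : 0 < a) (hR : x < R)
    (hX : pX x R θ y = pX x R θ y') (hY : pY a θ y = pY a θ y') : y = y' := by
  rcases lt_trichotomy y y' with h | h | h
  · exact (p_inj_lt hθ ha hR h hX hY).elim
  · exact h
  · exact (p_inj_lt hθ ha hR h hX.symm hY.symm).elim

lemma p_close {x R a θ y : ℝ} (hθ : 0 < θ) (ha : 0 ≤ a) (hR : x ≤ R) (hy : 0 ≤ y) :
    |pX x R θ y - x| ≤ R - x ∧ |pY a θ y - (1 - y / 2)| ≤ a + θ := by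
  constructor
  · have := pX_mem (θ := θ) (y := y) hR
    rw [abs_le]
    constructor <;> linarith [this.1, this.2]
  · rcases le_total y θ with h | h
    · rw [(p_one (x := 0) (R := 0) hθ h).2]
      have h1 : 0 ≤ y / θ := by positivity
      have h2 : y / θ ≤ 1 := (div_le_one hθ).2 h
      rw [abs_le]
      constructor <;> nlinarith
    · rcases le_total y (2 * θ) with h' | h'
      · rw [(p_two (x := 0) (R := 0) hθ h h').2]
        rw [abs_le]
        constructor <;> linarith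
      · rw [(p_three (x := 0) (R := 0) hθ h').2]
        rw [abs_le]
        constructor <;> linarith

/-! ### the hooks -/

noncomputable def aa (n : ℕ) : ℝ := 1 / 4 ^ (n + 2)

noncomputable def th (n : ℕ) : ℝ := 1 / (n + 1)

lemma aa_pos (n : ℕ) : 0 < aa n := by unfold aa; positivity

lemma th_pos (n : ℕ) : 0 < th n := by unfold th; positivity

lemma th_le (n : ℕ) : th n ≤ 1 := by
  unfold th
  rw [div_le_one (by positivity)]
  have : (0:ℝ) ≤ n := by positivity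
  linarith

lemma aa_lt {n m : ℕ} (h : n < m) : 2 * aa m < aa n := by
  unfold aa
  have h4 : (4:ℝ) * 4 ^ (n + 2) ≤ 4 ^ (m + 2) := by
    rw [← pow_succ']
    exact pow_le_pow_right₀ (by norm_num) (by omega)
  have h5 : (0:ℝ) < 4 ^ (n + 2) := by positivity
  have h6 : (1:ℝ) / 4 ^ (m + 2) ≤ 1 / (4 * 4 ^ (n + 2)) :=
    one_div_le_one_div_of_le (by positivity) h4
  have h7 : (1:ℝ) / (4 * 4 ^ (n + 2)) = (1 / 4 ^ (n + 2)) / 4 := by
    rw [mul_comm, div_mul_eq_div_div]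
  have h8 : (0:ℝ) < 1 / 4 ^ (n + 2) := by positivity
  linarith

lemma aa_le_half (n : ℕ) : 2 * aa n ≤ 1 := by
  have h4 : (16:ℝ) ≤ 4 ^ (n + 2) := by
    have : (1:ℝ) ≤ 4 ^ n := one_le_pow₀ (by norm_num)
    rw [pow_add]; linarith
  have h5 : aa n ≤ 1 / 16 := one_div_le_one_div_of_le (by norm_num) h4
  linarith

lemma aa_le (n : ℕ) : aa n ≤ 1 / (n + 1) := by
  unfold aa
  apply one_div_le_one_div_of_le (by positivity)
  have h3 : (n : ℝ) + 1 ≤ 4 ^ n := by
    have h5 : n < 4 ^ n := Nat.lt_pow_self (by norm_num)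
    have h6 : ((n + 1 : ℕ) : ℝ) ≤ ((4 ^ n : ℕ) : ℝ) := Nat.cast_le.2 h5
    push_cast at h6
    exact h6
  have h4 : (4:ℝ) ^ n ≤ 4 ^ (n + 2) := pow_le_pow_right₀ (by norm_num) (by omega)
  linarith

noncomputable def RR (K : Set ℝ) (ε b : ℕ → ℝ) (n : ℕ) (x : ℝ) : ℝ :=
  rr K (ε n) x + b n * (1 + (rr K (ε n) x - x))

noncomputable def AA (K : Set ℝ) (ε : ℕ → ℝ) (n : ℕ) (x : ℝ) : ℝ :=
  aa n * (1 + (rr K (ε n) x - x))

noncomputable def GX (K : Set ℝ) (ε b : ℕ → ℝ) (n : ℕ) (x y : ℝ) : ℝ :=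
  pX x (RR K ε b n x) (th n) y

noncomputable def GY (K : Set ℝ) (ε : ℕ → ℝ) (n : ℕ) (x y : ℝ) : ℝ :=
  pY (AA K ε n x) (th n) y

variable {A : ℕ → ℕ → Set ℝ} {B : ℕ → Set ℝ} {ε b : ℕ → ℝ}

lemma basic (P : Par K A B ε b) (hK : K ⊆ Icc 0 1) (n : ℕ) {x : ℝ} (hx : x ∈ K) :
    x ≤ rr K (ε n) x ∧ rr K (ε n) x < RR K ε b n x ∧
      RR K ε b n x ≤ rr K (ε n) x + 2 * b n ∧ rr K (ε n) x + b n ≤ RR K ε b n x ∧
      aa n ≤ AA K ε n x ∧ AA K ε n x ≤ 2 * aa n := by
  have h0 := hK hx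
  have h1 := le_rr (ε := ε n) hK h0.2
  have h2 := rr_le_one (ε := ε n) hK h0.2
  have h3 := P.pos n
  have h4 := aa_pos n
  have h5 := h0.1
  have h6 : 0 ≤ b n * (rr K (ε n) x - x) := mul_nonneg h3.le (by linarith)
  have h7 : b n * (rr K (ε n) x - x) ≤ b n * 1 := mul_le_mul_of_nonneg_left (by linarith) h3.le
  have h8 : 0 ≤ aa n * (rr K (ε n) x - x) := mul_nonneg h4.le (by linarith)
  have h9 : aa n * (rr K (ε n) x - x) ≤ aa n * 1 := mul_le_mul_of_nonneg_left (by linarith) h4.le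
  unfold RR AA
  refine ⟨h1, ?_, ?_, ?_, ?_, ?_⟩ <;> rw [mul_add] <;> linarith

lemma nest (P : Par K A B ε b) (hK : K ⊆ Icc 0 1) {n m : ℕ} (hnm : n ≤ m) {x x' : ℝ} (hx : x ∈ K)
    (hx' : x' ∈ K) (h : x < x') (hr : x' ≤ rr K (ε n) x) :
    RR K ε b m x' < RR K ε b n x ∧ AA K ε m x' < AA K ε n x := by
  obtain ⟨-, -, h3, -, -, h6⟩ := basic P hK m hx'
  obtain ⟨-, -, -, g4, g5, -⟩ := basic P hK n hx
  rcases hnm.eq_or_lt with rfl | hlt
  · have h7 := rr_block hK h.le hr (hK hx').2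
    unfold RR AA
    rw [h7]
    have h8 := P.pos n
    have h9 := aa_pos n
    constructor <;> nlinarith
  · have h7 : rr K (ε m) x' ≤ rr K (ε n) x :=
      rr_le (T_mono (P.anti n m hnm) (rr_mem hK (hK hx).2).1) hr
    have h8 := P.dec n m hlt
    have h9 := aa_lt hlt
    constructor <;> linarith

lemma far (P : Par K A B ε b) (hK : K ⊆ Icc 0 1) {n : ℕ} {x x' : ℝ} (hx : x ∈ K)
    (hx' : x' ∈ K) (hr : rr K (ε n) x < x') : RR K ε b n x < x' := by
  obtain ⟨-, -, h3, -, -, -⟩ := basic P hK n hx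
  have := rr_gap hK (hK hx).2 hx' hr
  have := P.lt n
  linarith

lemma box {x R a θ y X Y : ℝ} (hθ : 0 < θ) (h1 : x < X) (h2 : X < R) (h3 : Y < 1 + a)
    (hX : pX x R θ y = X) (hY : pY a θ y = Y) : False := by
  rcases p_hook (x := x) (R := R) (a := a) (y := y) hθ with h | h | h <;> linarith

lemma key1 (P : Par K A B ε b) (hK : K ⊆ Icc 0 1) {n m : ℕ} (hnm : n ≤ m) {x x' y y' : ℝ}
    (hx : x ∈ K) (hx' : x' ∈ K) (h : x < x')
    (hX : GX K ε b n x y = GX K ε b m x' y') (hY : GY K ε n x y = GY K ε m x' y') : False := by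
  obtain ⟨h1, h2, -, -, h5, -⟩ := basic P hK n hx
  obtain ⟨g1, g2, -, -, g5, -⟩ := basic P hK m hx'
  have k1 := pX_mem (x := x) (R := RR K ε b n x) (θ := th n) (y := y) (by linarith)
  have k2 := pX_mem (x := x') (R := RR K ε b m x') (θ := th m) (y := y') (by linarith)
  have k3 := pY_le (a := AA K ε m x') (θ := th m) (y := y') (by linarith [aa_pos m])
  rcases le_or_gt x' (rr K (ε n) x) with hr | hr
  · obtain ⟨n1, n2⟩ := nest P hK hnm hx hx' h hr
    exact box (th_pos n) (X := pX x' (RR K ε b m x') (th m) y') (Y := pY (AA K ε m x') (th m) y')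
      (by linarith [k2.1]) (by linarith [k2.2]) (by linarith) hX hY
  · have := far P hK hx hx' hr
    unfold GX at hX
    linarith [k1.2, k2.1]

lemma key2 (P : Par K A B ε b) (hK : K ⊆ Icc 0 1) {n m : ℕ} (hnm : n < m) {x x' y y' : ℝ}
    (hx : x ∈ K) (hx' : x' ∈ K) (h : x' < x) (hA : th n * aa m ≤ y → x ∈ A n m)
    (hB : th m ≤ y' → x' ∈ B m)
    (hX : GX K ε b n x y = GX K ε b m x' y') (hY : GY K ε n x y = GY K ε m x' y') : False := by
  obtain ⟨h1, h2, -, -, h5, h6⟩ := basic P hK n hx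
  obtain ⟨g1, g2, -, -, g5, -⟩ := basic P hK m hx'
  have k1 := pX_mem (x := x) (R := RR K ε b n x) (θ := th n) (y := y) (by linarith)
  have k2 := pX_mem (x := x') (R := RR K ε b m x') (θ := th m) (y := y') (by linarith)
  rcases le_or_gt x (rr K (ε m) x') with hr | hr
  · rcases le_or_gt y' (th m) with hy | hy
    · have := (p_one (x := x') (R := RR K ε b m x') (a := 0) (th_pos m) hy).1
      unfold GX at hX
      linarith [k1.1]
    · have hA' : y < th n * aa m := by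
        by_contra hcon
        push Not at hcon
        have := P.sep n m hnm x (hA hcon) x' (hB hy.le) h
        linarith
      have t1 := th_pos n
      have t2 := aa_pos m
      have t3 := aa_le_half m
      have t4 := aa_le_half n
      have hy1 : y ≤ th n := by nlinarith
      obtain ⟨q1, q2⟩ := p_one (x := x) (R := RR K ε b n x) (a := AA K ε n x) t1 hy1
      have q3 : y / th n < aa m := by
        rw [div_lt_iff₀ t1]
        linarith
      have q4 : AA K ε n x * (y / th n) < aa m := by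
        have a1 : 0 < AA K ε n x := by linarith [aa_pos n]
        have a2 : AA K ε n x ≤ 1 := by linarith
        rcases le_or_gt (y / th n) 0 with a3 | a3
        · nlinarith
        · nlinarith
      refine box (th_pos m) (x := x') (R := RR K ε b m x') (a := AA K ε m x') (y := y')
        (X := x) (Y := 1 + AA K ε n x * (y / th n)) h (by linarith) (by linarith) ?_ ?_
      · rw [← q1]; exact hX.symm
      · rw [← q2]; exact hY.symm
  · have := far P hK hx' hx hr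
    unfold GX at hX
    linarith [k1.1, k2.2]

/-- Different points of the hooks are different. -/
lemma hooks_inj (P : Par K A B ε b) (hK : K ⊆ Icc 0 1) {n m : ℕ} {x x' y y' : ℝ}
    (hx : x ∈ K) (hx' : x' ∈ K)
    (hA : n < m → th n * aa m ≤ y → x ∈ A n m) (hA' : m < n → th m * aa n ≤ y' → x' ∈ A m n)
    (hB : th n ≤ y → x ∈ B n) (hB' : th m ≤ y' → x' ∈ B m) (hne : n ≠ m → x ≠ x')
    (hX : GX K ε b n x y = GX K ε b m x' y') (hY : GY K ε n x y = GY K ε m x' y') :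
    n = m ∧ x = x' ∧ y = y' := by
  rcases lt_trichotomy n m with h | h | h
  · exfalso
    rcases lt_trichotomy x x' with g | g | g
    · exact key1 P hK h.le hx hx' g hX hY
    · exact hne h.ne g
    · exact key2 P hK h hx hx' g (hA h) hB' hX hY
  · subst h
    rcases lt_trichotomy x x' with g | g | g
    · exact (key1 P hK le_rfl hx hx' g hX hY).elim
    · subst g
      refine ⟨rfl, rfl, ?_⟩
      obtain ⟨h1, h2, -, -, h5, -⟩ := basic P hK n hx
      exact p_inj (th_pos n) (by linarith [aa_pos n]) (by linarith) hX hY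
    · exact (key1 P hK le_rfl hx' hx g hX.symm hY.symm).elim
  · exfalso
    rcases lt_trichotomy x x' with g | g | g
    · exact key2 P hK h hx' hx g (hA' h) hB hX.symm hY.symm
    · exact hne h.ne' g
    · exact key1 P hK h.le hx' hx g hX.symm hY.symm

/-- The hooks avoid the comb. -/
lemma hooks_avoid (P : Par K A B ε b) (hK : K ⊆ Icc 0 1) {n : ℕ} {x y : ℝ}
    (hx : x ∈ K) (hy : 0 < y) (h1 : GX K ε b n x y ∈ K) : 1 < GY K ε n x y := by
  obtain ⟨g1, g2, g3, g4, g5, -⟩ := basic P hK n hx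
  rcases p_avoid (x := x) (R := RR K ε b n x) (a := AA K ε n x) (y := y) (th_pos n)
    (by linarith [aa_pos n]) hy with h | h
  · exact h
  · exfalso
    have h2 : GX K ε b n x y = RR K ε b n x := h
    rw [h2] at h1
    have := rr_gap hK (hK hx).2 h1 g2
    have := P.lt n
    linarith

lemma hooks_half (P : Par K A B ε b) (hK : K ⊆ Icc 0 1) {n : ℕ} {x y : ℝ}
    (hx : x ∈ K) (hy : 0 ≤ y) (hy1 : y ≤ 1) : 1 / 2 < GY K ε n x y := by
  obtain ⟨g1, g2, g3, g4, g5, -⟩ := basic P hK n hx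
  exact pY_half (th_pos n) (by linarith [aa_pos n]) hy hy1

lemma hooks_close (P : Par K A B ε b) (hK : K ⊆ Icc 0 1) {n : ℕ} {x y : ℝ}
    (hx : x ∈ K) (hy : 0 ≤ y) :
    |GX K ε b n x y - x| ≤ 3 * (1 / (n + 1)) ∧ |GY K ε n x y - (1 - y / 2)| ≤ 3 * (1 / (n + 1)) := by
  obtain ⟨g1, g2, g3, g4, g5, g6⟩ := basic P hK n hx
  obtain ⟨k1, k2⟩ := p_close (x := x) (R := RR K ε b n x) (a := AA K ε n x) (y := y) (th_pos n)
    (by linarith [aa_pos n]) (by linarith) hy
  have e1 := P.rs n x hx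
  have e2 := P.le n
  have e3 := aa_le n
  have e4 : th n = 1 / (n + 1) := rfl
  exact ⟨k1.trans (by linarith), k2.trans (by linarith)⟩

lemma hooks_zero {n : ℕ} {x : ℝ} :
    GX K ε b n x 0 = x ∧ GY K ε n x 0 = 1 := by
  obtain ⟨k1, k2⟩ := p_one (x := x) (R := RR K ε b n x) (a := AA K ε n x) (y := 0) (th_pos n)
    (th_pos n).le
  refine ⟨k1, ?_⟩
  show pY _ _ _ = 1
  rw [k2]
  simp

lemma rr_cont (hK : K ⊆ Icc 0 1) {ε : ℝ} (hε : 0 < ε) : ContinuousOn (rr K ε) K := by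
  intro x hx
  rw [Metric.continuousWithinAt_iff]
  intro e he
  refine ⟨ε, hε, ?_⟩
  intro x' hx' hd
  rw [Real.dist_eq] at hd
  rw [rr_loc hK hx' hx hd]
  simpa using he

lemma hooks_cont (P : Par K A B ε b) (hK : K ⊆ Icc 0 1) {n : ℕ} {S : Set (ℝ × ℝ × ℝ)}
    (hS : ∀ p ∈ S, p.1 ∈ K) :
    ContinuousOn (fun p : ℝ × ℝ × ℝ => (GX K ε b n p.1 (2 * (1 - p.2.1)),
      GY K ε n p.1 (2 * (1 - p.2.1)))) S := by
  have hε : 0 < ε n := by linarith [P.lt n, P.pos n]
  have h1 : ContinuousOn (fun p : ℝ × ℝ × ℝ => rr K (ε n) p.1) S :=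
    (rr_cont hK hε).comp continuous_fst.continuousOn hS
  unfold GX GY pX pY RR AA
  have ht : th n ≠ 0 := (th_pos n).ne'
  fun_prop (disch := assumption)

end Pool.Agent.V11182.Hooks
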