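import Mathlib

/-!
# Arithmetic for nu-chains on grids
-/

namespace Pool.Agent.V11182.NuArith

/-- triangular numbers -/
def tri (k : ℕ) : ℕ := k * (k + 1) / 2

lemma two_tri (k : ℕ) : 2 * tri k = k * (k + 1) := by
  unfold tri
  rw [mul_comm, Nat.div_mul_cancel (Nat.even_mul_succ_self k).two_dvd]

lemma tri_zero : tri 0 = 0 := rfl

lemma tri_succ (k : ℕ) : tri (k + 1) = tri k + (k + 1) := by
  have h1 := two_tri (k + 1)
  have h2 := two_tri k
  nlinarith

lemma tri_mono {a b : ℕ} (h : a ≤ b) : tri a ≤ tri b := by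
  have h1 := two_tri a
  have h2 := two_tri b
  nlinarith [Nat.mul_le_mul h (Nat.succ_le_succ h)]

lemma le_tri (k : ℕ) : k ≤ tri k := by
  have := two_tri k
  rcases Nat.eq_zero_or_pos k with rfl | h
  · exact Nat.zero_le _
  · nlinarith

lemma exists_tri (s : ℕ) : ∃ k, s ≤ tri k := ⟨s, le_tri s⟩

/-- least `k` with `s ≤ tri k` -/
def kap (s : ℕ) : ℕ := Nat.find (exists_tri s)

lemma kap_spec (s : ℕ) : s ≤ tri (kap s) := Nat.find_spec (exists_tri s)

lemma kap_le {s k : ℕ} (h : s ≤ tri k) : kap s ≤ k := Nat.find_min' _ h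

lemma lt_of_lt_kap {s k : ℕ} (h : k < kap s) : tri k < s := by
  by_contra hc
  push Not at hc
  exact absurd (kap_le hc) (by omega)

lemma kap_eq {s k x : ℕ} (hx : 1 ≤ x) (hxk : x ≤ k + 1) (hs : s = tri k + x) :
    kap s = k + 1 := by
  apply le_antisymm
  · apply kap_le
    rw [tri_succ]
    omega
  · by_contra hc
    push Not at hc
    have := kap_spec s
    have h2 := tri_mono (show kap s ≤ k by omega)
    omega

lemma kap_pos {s : ℕ} (hs : 1 ≤ s) : 1 ≤ kap s := by
  by_contra hc
  push Not at hc
  have h0 : kap s = 0 := by omega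
  have := kap_spec s
  rw [h0, tri_zero] at this
  omega

lemma kap_mono {s t : ℕ} (h : s ≤ t) : kap s ≤ kap t := kap_le (h.trans (kap_spec t))

/-- the step size -/
def bet (n s : ℕ) : ℕ := max 1 (min n (kap s))

lemma bet_pos (n s : ℕ) : 1 ≤ bet n s := le_max_left _ _

lemma bet_eq {n s : ℕ} (hn : 1 ≤ n) (hs : 1 ≤ s) : bet n s = min n (kap s) := by
  unfold bet
  have := kap_pos hs
  exact max_eq_right (le_min hn this)

/-- the potential -/
def G (n : ℕ) : ℕ → ℕ
  | 0 => 0
  | s + 1 => (s + 1) + G n (s + 1 - bet n (s + 1))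
termination_by s => s
decreasing_by
  have := bet_pos n (s + 1)
  omega

lemma G_zero (n : ℕ) : G n 0 = 0 := by rw [G]

lemma G_pos (n : ℕ) {s : ℕ} (hs : 1 ≤ s) : G n s = s + G n (s - bet n s) := by
  obtain ⟨t, rfl⟩ : ∃ t, s = t + 1 := ⟨s - 1, by omega⟩
  rw [G]

lemma le_G (n s : ℕ) : s ≤ G n s := by
  rcases Nat.eq_zero_or_pos s with rfl | h
  · exact Nat.zero_le _
  · rw [G_pos n h]; omega

lemma bet_succ_le {n s : ℕ} (hn : 1 ≤ n) (hs : 1 ≤ s) : bet n (s + 1) ≤ bet n s + 1 := by
  rw [bet_eq hn hs, bet_eq hn (by omega)]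
  have h1 : kap (s + 1) ≤ kap s + 1 := by
    apply kap_le
    rw [tri_succ]
    have := kap_spec s
    omega
  omega

lemma G_mono_succ {n : ℕ} (hn : 1 ≤ n) (s : ℕ) : G n s ≤ G n (s + 1) := by
  induction s using Nat.strong_induction_on with
  | _ s ih =>
    rcases Nat.eq_zero_or_pos s with rfl | hs
    · rw [G_zero]; exact Nat.zero_le _
    · rw [G_pos n hs, G_pos n (show 1 ≤ s + 1 by omega)]
      have h1 := bet_succ_le hn hs
      have h2 := bet_pos n s
      have h4 : bet n s ≤ s := by
        rw [bet_eq hn hs]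
        refine (min_le_right _ _).trans ?_
        exact kap_le (le_tri s)
      have h3 : s + 1 - bet n (s + 1) = s - bet n s ∨ s + 1 - bet n (s + 1) = s - bet n s + 1 := by
        have h5 : bet n s ≤ bet n (s + 1) := by
          rw [bet_eq hn hs, bet_eq hn (by omega)]
          have : kap s ≤ kap (s + 1) := kap_mono (Nat.le_succ s)
          omega
        omega
      rcases h3 with h3 | h3
      · rw [h3]; omega
      · rw [h3]
        have := ih (s - bet n s) (by omega)
        omega

lemma G_mono {n : ℕ} (hn : 1 ≤ n) {s t : ℕ} (h : s ≤ t) : G n s ≤ G n t :=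
  monotone_nat_of_le_succ (G_mono_succ hn) h

/-- lower half step -/
lemma G_low {n : ℕ} (hn : 1 ≤ n) {r s : ℕ} (hr : 1 ≤ r) (h : r + min n (kap r + 1) ≤ s) :
    s + G n r ≤ G n s := by
  rw [G_pos n (show 1 ≤ s by omega)]
  have h1 : bet n s ≤ s - r := by
    rw [bet_eq hn (by omega)]
    by_cases h2 : kap s ≤ kap r + 1
    · omega
    · push Not at h2
      have h3 : tri (kap s - 1) < s := lt_of_lt_kap (by omega)
      have h4 := kap_spec r
      have h5 : tri (kap s - 1) = tri (kap s - 2) + (kap s - 1) := by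
        have : kap s - 1 = (kap s - 2) + 1 := by omega
        rw [this, tri_succ]
      have h6 := tri_mono (show kap r ≤ kap s - 2 by omega)
      omega
  have h2 := G_mono hn (show r ≤ s - bet n s by omega)
  omega

/-- upper half step -/
lemma G_high {n : ℕ} (hn : 1 ≤ n) {e e' : ℕ} (he : 1 ≤ e) (h : e' + min n (kap e) ≤ e) :
    e + G n e' ≤ G n e := by
  rw [G_pos n he]
  have h2 := G_mono hn (show e' ≤ e - bet n e by rw [bet_eq hn he]; omega)
  omega

/-- explicit formula in the triangular part -/
lemma G_tri {n : ℕ} (hn : 1 ≤ n) {k : ℕ} (hk : k + 1 ≤ n) {x : ℕ} (hx : x ≤ k + 1) :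
    G n (tri k + x) = G n (tri k) + tri x := by
  induction k generalizing x with
  | zero =>
    have : x = 0 ∨ x = 1 := by omega
    rcases this with rfl | rfl
    · rfl
    · rw [tri_zero, G_pos n (show 1 ≤ 0 + 1 by omega)]
      have h1 : bet n (0 + 1) = 1 := by
        rw [bet_eq hn (by omega), kap_eq (k := 0) (x := 1) le_rfl le_rfl (by rfl)]
        omega
      rw [h1]
      simp [G_zero, tri]
  | succ k ih =>
    rcases Nat.eq_zero_or_pos x with rfl | hx0
    · simp [tri_zero]
    · have hb : bet n (tri (k + 1) + x) = k + 2 := by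
        rw [bet_eq hn (by omega), kap_eq hx0 hx rfl]
        omega
      rw [G_pos n (by omega), hb]
      have h1 : tri (k + 1) + x - (k + 2) = tri k + (x - 1) := by
        rw [tri_succ]; omega
      rw [h1, ih (by omega) (by omega)]
      have h2 : G n (tri (k + 1)) = tri (k + 1) + G n (tri k) := by
        have hb' : bet n (tri (k + 1)) = k + 1 := by
          rw [bet_eq hn (by have := le_tri (k + 1); omega),
            kap_eq (k := k) (x := k + 1) (by omega) le_rfl (tri_succ k)]
          omega
        rw [G_pos n (by have := le_tri (k + 1); omega), hb']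
        congr 2
        rw [tri_succ]; omega
      rw [h2]
      obtain ⟨y, rfl⟩ : ∃ y, x = y + 1 := ⟨x - 1, by omega⟩
      rw [tri_succ y]
      simp only [Nat.add_sub_cancel]
      omega

lemma bet_mid {n : ℕ} (hn : 1 ≤ n) {s : ℕ} (h : tri (n - 1) < s) : bet n s = n := by
  rw [bet_eq hn (by omega)]
  have : n ≤ kap s := by
    by_contra hc
    push Not at hc
    have h1 := kap_spec s
    have h2 := tri_mono (show kap s ≤ n - 1 by omega)
    omega
  omega

/-- explicit formula in the middle part -/
lemma G_mid {n : ℕ} (hn : 1 ≤ n) (q : ℕ) {x : ℕ} (hx : x ≤ n) :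
    G n (tri (n - 1) + n * q + x) = G n (tri (n - 1) + n * q) + tri x + q * x := by
  induction q generalizing x with
  | zero =>
    rw [mul_zero, add_zero, zero_mul, add_zero]
    obtain ⟨k, rfl⟩ : ∃ k, n = k + 1 := ⟨n - 1, by omega⟩
    exact G_tri hn (by omega) (by simpa using hx)
  | succ q ih =>
    rcases Nat.eq_zero_or_pos x with rfl | hx0
    · simp [tri_zero]
    · have hm : n * (q + 1) = n * q + n := by ring
      have hb : bet n (tri (n - 1) + n * (q + 1) + x) = n := bet_mid hn (by omega)
      have hb' : bet n (tri (n - 1) + n * (q + 1)) = n := bet_mid hn (by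
        rw [hm]; omega)
      rw [G_pos n (by omega), hb, G_pos n (s := tri (n - 1) + n * (q + 1)) (by rw [hm]; omega), hb']
      have h1 : tri (n - 1) + n * (q + 1) + x - n = tri (n - 1) + n * q + x := by
        rw [hm]; omega
      have h2 : tri (n - 1) + n * (q + 1) - n = tri (n - 1) + n * q := by
        rw [hm]; omega
      rw [h1, h2, ih hx]
      ring

/-- sizes of the sublevel sets, lower half -/
def al (n : ℕ) : ℕ → ℕ
  | 0 => 1
  | l + 1 => al n l + min n (l + 2)

lemma al_eq_tri {n : ℕ} {l : ℕ} (hl : l + 1 ≤ n) : al n l = tri (l + 1) := by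
  induction l with
  | zero => rfl
  | succ l ih =>
    rw [al, ih (by omega), tri_succ (l + 1)]
    congr 1
    omega

lemma al_mid {n : ℕ} (hn : 2 ≤ n) (q : ℕ) : al n (n - 2 + q) = tri (n - 1) + n * q := by
  induction q with
  | zero =>
    rw [mul_zero, add_zero, add_zero, al_eq_tri (by omega)]
    congr 1
    omega
  | succ q ih =>
    have h1 : n - 2 + (q + 1) = (n - 2 + q) + 1 := by omega
    rw [h1, al, ih]
    have h2 : min n (n - 2 + q + 2) = n := by omega
    rw [h2]
    ring

lemma al_one (l : ℕ) : al 1 l = l + 1 := by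
  induction l with
  | zero => rfl
  | succ l ih => rw [al, ih]; omega

lemma al_pos {n : ℕ} (l : ℕ) : 1 ≤ al n l := by
  induction l with
  | zero => exact le_rfl
  | succ l ih => rw [al]; omega

lemma al_mono {n : ℕ} {k l : ℕ} (h : k ≤ l) : al n k ≤ al n l := by
  apply monotone_nat_of_le_succ (f := al n) _ h
  intro i
  rw [al]
  omega

/-- `G` at the antidiagonal sizes -/
lemma G_al {n : ℕ} (hn : 1 ≤ n) (l : ℕ) :
    G n (al n l) = ∑ i ∈ Finset.range (l + 1), al n i := by
  induction l with
  | zero =>
    rw [Finset.sum_range_one]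
    change G n 1 = 1
    have h := G_tri hn (k := 0) (x := 1) (by omega) le_rfl
    simpa [tri, G_zero] using h
  | succ l ih =>
    rw [Finset.sum_range_succ, ← ih, G_pos n (al_pos _)]
    have h1 : bet n (al n (l + 1)) = min n (l + 2) := by
      by_cases h : l + 2 ≤ n
      · rw [bet_eq hn (al_pos _), al_eq_tri (by omega),
          kap_eq (k := l + 1) (x := l + 2) (by omega) le_rfl (tri_succ (l + 1))]
      · push Not at h
        have h2 : min n (l + 2) = n := by omega
        rw [h2]
        apply bet_mid hn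
        rcases Nat.lt_or_ge n 2 with h3 | h3
        · have : n = 1 := by omega
          subst this
          exact al_pos _
        · obtain ⟨q, hq⟩ : ∃ q, l + 1 = n - 2 + q ∧ 1 ≤ q := ⟨l + 1 - (n - 2), by omega⟩
          rw [hq.1, al_mid h3]
          have := Nat.mul_le_mul_left n hq.2
          omega
    rw [h1]
    have h2 : al n (l + 1) - min n (l + 2) = al n l := by rw [al]; omega
    rw [h2]
    ring

lemma core_even {n : ℕ} (hn : 1 ≤ n) (q x : ℕ) (hx : 2 * x ≤ n) :
    G n (tri (n - 1) + n * q + x) + G n (tri (n - 1) + n * q - x) ≤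
      2 * G n (tri (n - 1) + n * q) := by
  rcases Nat.eq_zero_or_pos x with rfl | hx0
  · simp only [add_zero, Nat.sub_zero]; omega
  have hn2 : 2 ≤ n := by omega
  obtain ⟨z, rfl⟩ : ∃ z, n = x + z + 1 := ⟨n - x - 1, by omega⟩
  have hxz : x ≤ z + 1 := by omega
  rw [G_mid hn q (show x ≤ x + z + 1 by omega)]
  rcases Nat.eq_zero_or_pos q with rfl | hq
  · -- square case
    rw [mul_zero, add_zero, zero_mul, add_zero, Nat.add_sub_cancel]
    have h0 : tri (x + z) = tri (x + z - 1) + (x + z) := by
      have : x + z = (x + z - 1) + 1 := by omega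
      rw [this, tri_succ]
      simp
    have h1 : tri (x + z) - x = tri (x + z - 1) + z := by omega
    rw [h1, G_tri hn (k := x + z - 1) (x := z) (by omega) (by omega)]
    have h2 := G_tri hn (k := x + z - 1) (x := x + z) (by omega) (by omega)
    rw [← h0] at h2
    have e1 := two_tri (x + z)
    have e2 := two_tri x
    have e3 := two_tri z
    nlinarith
  · obtain ⟨p, rfl⟩ : ∃ p, q = p + 1 := ⟨q - 1, by omega⟩
    have h1 : tri (x + z + 1 - 1) + (x + z + 1) * (p + 1) - x =
        tri (x + z + 1 - 1) + (x + z + 1) * p + (z + 1) := by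
      have : (x + z + 1) * (p + 1) = (x + z + 1) * p + (x + z + 1) := by ring
      rw [this]; omega
    have h2 : tri (x + z + 1 - 1) + (x + z + 1) * (p + 1) =
        tri (x + z + 1 - 1) + (x + z + 1) * p + (x + z + 1) := by ring
    rw [h1, G_mid hn p (show z + 1 ≤ x + z + 1 by omega)]
    rw [h2, G_mid hn p (show x + z + 1 ≤ x + z + 1 by omega)]
    have e1 := two_tri (x + z + 1)
    have e2 := two_tri x
    have e3 := two_tri (z + 1)
    nlinarith

lemma core_odd {n : ℕ} (hn : 1 ≤ n) (q x : ℕ) (hx : x ≤ n) :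
    G n (tri (n - 1) + n * q + x) + G n (tri (n - 1) + n * q + (n - x)) ≤
      G n (tri (n - 1) + n * q) + G n (tri (n - 1) + n * q + n) := by
  rw [G_mid hn q hx, G_mid hn q (show n - x ≤ n by omega), G_mid hn q le_rfl]
  obtain ⟨z, rfl⟩ : ∃ z, n = x + z := ⟨n - x, by omega⟩
  have h1 : x + z - x = z := by omega
  rw [h1]
  have e1 := two_tri (x + z)
  have e2 := two_tri x
  have e3 := two_tri z
  nlinarith [Nat.zero_le (x * z)]

lemma reduce {n : ℕ} (hn : 1 ≤ n) {h M Dv : ℕ} (hM : M ≤ 2 * h)
    (H : ∀ t, M ≤ t + h → t ≤ h → G n t + G n (M - t) ≤ Dv) {s s' : ℕ} (hs : s ≤ h)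
    (hs' : s' ≤ h) (hss : s + s' ≤ M) : G n s + G n s' ≤ Dv := by
  by_cases h1 : M ≤ s + h
  · refine le_trans ?_ (H s h1 hs)
    have := G_mono hn (show s' ≤ M - s by omega)
    omega
  · push Not at h1
    refine le_trans ?_ (H h (by omega) le_rfl)
    have h2 := G_mono hn (show s ≤ M - h by omega)
    have h3 := G_mono hn hs'
    omega

lemma key_even {n : ℕ} (hn : 1 ≤ n) (q : ℕ) {s s' : ℕ} (hs : 2 * s ≤ (n + 2 * q) * n)
    (hs' : 2 * s' ≤ (n + 2 * q) * n) (hss : s + s' + n ≤ (n + 2 * q) * n) :
    G n s + G n s' ≤ 2 * G n (tri (n - 1) + n * q) := by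
  obtain ⟨A, hA⟩ : ∃ A, A = tri (n - 1) + n * q := ⟨_, rfl⟩
  have h2A : 2 * A + n = (n + 2 * q) * n := by
    rw [hA, mul_add, two_tri]
    obtain ⟨k, rfl⟩ : ∃ k, n = k + 1 := ⟨n - 1, by omega⟩
    simp only [Nat.add_sub_cancel]
    ring
  have hAn : n ≤ 2 * A + 1 := by
    have := le_tri (n - 1)
    omega
  rw [← h2A] at hs hs' hss
  refine reduce hn (h := A + n / 2) (M := 2 * A) (by omega) ?_ (by omega) (by omega) (by omega)
  intro t ht1 ht2
  rcases le_total A t with h | h
  · have := core_even hn q (t - A) (by omega)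
    rw [← hA] at this
    have e1 : A + (t - A) = t := by omega
    have e2 : A - (t - A) = 2 * A - t := by omega
    rw [e1, e2] at this
    rw [← hA]
    exact this
  · have := core_even hn q (A - t) (by omega)
    rw [← hA] at this
    have e1 : A + (A - t) = 2 * A - t := by omega
    have e2 : A - (A - t) = t := by omega
    rw [e1, e2] at this
    rw [← hA]
    omega

lemma key_odd {n : ℕ} (hn : 1 ≤ n) (q : ℕ) {s s' : ℕ} (hs : 2 * s ≤ (n + 2 * q + 1) * n)
    (hs' : 2 * s' ≤ (n + 2 * q + 1) * n) (hss : s + s' + n ≤ (n + 2 * q + 1) * n) :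
    G n s + G n s' ≤ G n (tri (n - 1) + n * q) + G n (tri (n - 1) + n * (q + 1)) := by
  obtain ⟨A, hA⟩ : ∃ A, A = tri (n - 1) + n * q := ⟨_, rfl⟩
  have h2A : 2 * A + 2 * n = (n + 2 * q + 1) * n := by
    rw [hA, mul_add, two_tri]
    obtain ⟨k, rfl⟩ : ∃ k, n = k + 1 := ⟨n - 1, by omega⟩
    simp only [Nat.add_sub_cancel]
    ring
  have hA2 : tri (n - 1) + n * (q + 1) = A + n := by rw [hA]; ring
  rw [← h2A] at hs hs' hss
  rw [hA2, ← hA]
  refine reduce hn (h := A + n) (M := 2 * A + n) (by omega) ?_ (by omega) (by omega) (by omega)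
  intro t ht1 ht2
  have := core_odd hn q (t - A) (by omega)
  rw [← hA] at this
  have e1 : A + (t - A) = t := by omega
  have e2 : A + (n - (t - A)) = 2 * A + n - t := by omega
  rw [e1, e2] at this
  exact this

lemma G_A {n : ℕ} (hn : 1 ≤ n) (q : ℕ) :
    G n (tri (n - 1) + n * q) = ∑ i ∈ Finset.range (n - 1 + q), al n i := by
  rcases Nat.lt_or_ge n 2 with h | h
  · have : n = 1 := by omega
    subst this
    rcases Nat.eq_zero_or_pos q with rfl | hq
    · exact G_zero 1
    · have h1 : tri (1 - 1) + 1 * q = al 1 (q - 1) := by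
        rw [al_one]
        change tri 0 + 1 * q = _
        rw [tri_zero]
        omega
      rw [h1, G_al le_rfl]
      congr 2
      omega
  · rw [← al_mid h, G_al hn]
    congr 2
    omega

lemma two_al_le {n : ℕ} (hn : 1 ≤ n) (q : ℕ) {i : ℕ} (hi : i < n - 1 + q) :
    2 * al n i + n ≤ (n + 2 * q) * n := by
  have h1 : al n i ≤ tri (n - 1) + n * q := by
    rcases Nat.lt_or_ge n 2 with h | h
    · have : n = 1 := by omega
      subst this
      rw [al_one]
      change i + 1 ≤ tri 0 + 1 * q
      omega
    · rw [← al_mid h]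
      exact al_mono (by omega)
  have h2A : 2 * (tri (n - 1) + n * q) + n = (n + 2 * q) * n := by
    rw [mul_add, two_tri]
    obtain ⟨k, rfl⟩ : ∃ k, n = k + 1 := ⟨n - 1, by omega⟩
    simp only [Nat.add_sub_cancel]
    ring
  omega

lemma two_al_le_odd {n : ℕ} (hn : 1 ≤ n) (q : ℕ) {i : ℕ} (hi : i < n - 1 + (q + 1)) :
    2 * al n i ≤ (n + 2 * q + 1) * n := by
  have h1 : al n i ≤ tri (n - 1) + n * (q + 1) := by
    rcases Nat.lt_or_ge n 2 with h | h
    · have : n = 1 := by omega
      subst this
      rw [al_one]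
      change i + 1 ≤ tri 0 + 1 * (q + 1)
      omega
    · rw [← al_mid h]
      exact al_mono (by omega)
  have h2A : 2 * (tri (n - 1) + n * (q + 1)) = (n + 2 * q + 1) * n := by
    rw [mul_add, two_tri]
    obtain ⟨k, rfl⟩ : ∃ k, n = k + 1 := ⟨n - 1, by omega⟩
    simp only [Nat.add_sub_cancel]
    ring
  omega

/-- The chain inequality: `c` satisfies the step conditions implied by the isoperimetric
inequality. -/
theorem chain_bound {m n Dv : ℕ} (hn : 1 ≤ n)
    (hD : ∀ s s' : ℕ, 2 * s ≤ m * n → 2 * s' ≤ m * n → s + s' + n ≤ m * n →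
      G n s + G n s' ≤ Dv) (h2 : n = m ∨ 2 * n ≤ m * n) (hnm : n ≤ m)
    (L : ℕ) (c : ℕ → ℕ) (hc : ∀ l ≤ L, c l ≤ m * n)
    (hlow : ∀ l < L, 1 ≤ c l → 2 * c l ≤ m * n → c l + min n (kap (c l) + 1) ≤ c (l + 1))
    (hhigh : ∀ l < L, m * n < 2 * c l → c l + min n (kap (m * n - c l)) ≤ c (l + 1)) :
    ∑ l ∈ Finset.range (L + 1), min (c l) (m * n - c l) ≤ Dv := by
  have hmn : 2 * n ≤ m * n ∨ (m = 1 ∧ n = 1) := by
    rcases h2 with h | h
    · rcases Nat.lt_or_ge m 2 with h' | h'
      · right; omega
      · left; exact Nat.mul_le_mul_right n h'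
    · left; exact h
  -- `G s ≤ Dv` for `s` in the lower half
  have hG : ∀ s, 2 * s ≤ m * n → G n s ≤ Dv := by
    intro s hs
    have h := hD s 0 hs (by omega) (by
      rcases hmn with h | ⟨rfl, rfl⟩
      · omega
      · omega)
    omega
  have main : ∀ l ≤ L, (2 * c l ≤ m * n →
        ∑ i ∈ Finset.range (l + 1), min (c i) (m * n - c i) ≤ G n (c l)) ∧
      (m * n < 2 * c l → ∑ i ∈ Finset.range (l + 1), min (c i) (m * n - c i) +
        G n (m * n - c l) ≤ Dv + (m * n - c l)) := by
    intro l
    induction l with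
    | zero =>
      intro _
      rw [Finset.sum_range_one]
      constructor
      · intro _
        exact (min_le_left _ _).trans (le_G n _)
      · intro h
        have h1 := hG (m * n - c 0) (by omega)
        have h3 := min_le_right (c 0) (m * n - c 0)
        omega
    | succ l ih =>
      intro hl
      obtain ⟨ih1, ih2⟩ := ih (by omega)
      have hcl := hc l (by omega)
      have hcl1 := hc (l + 1) hl
      rw [Finset.sum_range_succ]
      have hm1 := min_le_left (c (l + 1)) (m * n - c (l + 1))
      have hm2 := min_le_right (c (l + 1)) (m * n - c (l + 1))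
      constructor
      · intro h
        have hlo : 2 * c l ≤ m * n := by
          by_contra hcon
          push Not at hcon
          have := hhigh l (by omega) hcon
          omega
        have h3 := ih1 hlo
        rcases Nat.eq_zero_or_pos (c l) with h0 | h0
        · rw [h0, G_zero] at h3
          have := le_G n (c (l + 1))
          omega
        · have h4 := G_low hn h0 (hlow l (by omega) h0 hlo)
          omega
      · intro h
        rcases Nat.lt_or_ge (m * n) (2 * c l) with hhi | hlo
        · have h3 := ih2 hhi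
          have h4 := hhigh l (by omega) hhi
          rcases Nat.eq_zero_or_pos (m * n - c l) with h0 | h0
          · have h5 : m * n - c (l + 1) = 0 := by omega
            rw [h0, G_zero] at h3
            rw [h5, G_zero]
            omega
          · have h5 := G_high hn h0 (e' := m * n - c (l + 1)) (by omega)
            omega
        · have h3 := ih1 hlo
          have hgap : c l + n ≤ c (l + 1) := by
            rcases Nat.eq_zero_or_pos (c l) with h0 | h0
            · rcases hmn with h' | ⟨rfl, rfl⟩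
              · omega
              · omega
            · have h4 := hlow l (by omega) h0 hlo
              by_contra hcon
              push Not at hcon
              have h5 : kap (c l) + 1 < n := by omega
              have h6 := kap_spec (c l)
              have h7 := tri_mono (show kap (c l) ≤ n - 2 by omega)
              have h8 := two_tri (n - 2)
              obtain ⟨k, rfl⟩ : ∃ k, n = k + 2 := ⟨n - 2, by omega⟩
              simp only [Nat.add_sub_cancel] at h7 h8
              have h9 := Nat.mul_le_mul_right (k + 2) hnm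
              nlinarith
          have h4 := hD (c l) (m * n - c (l + 1)) hlo (by omega) (by omega)
          omega
  obtain ⟨h1, h3⟩ := main L le_rfl
  rcases Nat.lt_or_ge (m * n) (2 * c L) with hhi | hlo
  · have := h3 hhi
    have h4 := le_G n (m * n - c L)
    omega
  · exact (h1 hlo).trans (hG _ hlo)

end Pool.Agent.V11182.NuArith
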