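import Mathlib

/-!
# Induced saturation: base lemmas
-/

namespace Pool.Agent.V11182.SatBase

open Finset

/-- `F` contains an induced copy of the poset `P` -/
def HasCopy (P : Type) [PartialOrder P] {Λ : Type} [PartialOrder Λ] (F : Finset Λ) : Prop :=
  ∃ f : P ↪o Λ, ∀ p, f p ∈ F

/-- `F` is induced `P`-saturated -/
def IsSaturated (P : Type) [PartialOrder P] {Λ : Type} [PartialOrder Λ] [DecidableEq Λ]
    (F : Finset Λ) : Prop :=
  ¬ HasCopy P F ∧ ∀ G, G ∉ F → HasCopy P (insert G F)

lemma HasCopy.mono {P : Type} [PartialOrder P] {Λ : Type} [PartialOrder Λ] {F F' : Finset Λ}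
    (h : HasCopy P F) (hs : F ⊆ F') : HasCopy P F' := by
  obtain ⟨f, hf⟩ := h
  exact ⟨f, fun p => hs (hf p)⟩

/-- greedy completion of a `P`-free family -/
lemma exists_sat (P : Type) [PartialOrder P] {Λ : Type} [PartialOrder Λ] [DecidableEq Λ]
    [Fintype Λ] (F0 E : Finset Λ) (h0 : F0 ⊆ E) (hfree : ¬ HasCopy P F0)
    (hE : ∀ G, G ∉ E → HasCopy P (insert G F0)) :
    ∃ F : Finset Λ, IsSaturated P F ∧ F ⊆ E := by
  classical
  obtain ⟨F, hF, hmax⟩ := Finset.exists_max_image
    ((univ : Finset (Finset Λ)).filter (fun F => F0 ⊆ F ∧ ¬ HasCopy P F)) Finset.card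
    ⟨F0, by simp [hfree]⟩
  simp only [mem_filter, mem_univ, true_and] at hF hmax
  refine ⟨F, ⟨hF.2, ?_⟩, ?_⟩
  · intro G hG
    by_contra hcon
    have h := hmax (insert G F) ⟨hF.1.trans (subset_insert _ _), hcon⟩
    rw [card_insert_of_notMem hG] at h
    omega
  · intro G hG
    by_contra hcon
    apply hF.2
    exact (hE G hcon).mono (insert_subset hG hF.1)

/-- saturation is transported along order isomorphisms -/
lemma IsSaturated.map {P : Type} [PartialOrder P] {Λ Λ' : Type} [PartialOrder Λ]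
    [PartialOrder Λ'] [DecidableEq Λ] [DecidableEq Λ'] (e : Λ ≃o Λ') {F : Finset Λ}
    (h : IsSaturated P F) : IsSaturated P (F.map e.toEquiv.toEmbedding) := by
  refine ⟨?_, ?_⟩
  · rintro ⟨f, hf⟩
    apply h.1
    refine ⟨f.trans e.symm.toOrderEmbedding, fun p => ?_⟩
    have := hf p
    rw [mem_map] at this
    obtain ⟨a, ha, hfa⟩ := this
    have : (f.trans e.symm.toOrderEmbedding) p = a := by
      simp only [RelEmbedding.coe_trans, Function.comp_apply]
      rw [← hfa]
      simp
    rw [this]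
    exact ha
  · intro G hG
    have hG' : e.symm G ∉ F := by
      intro hcon
      apply hG
      rw [mem_map]
      exact ⟨e.symm G, hcon, by simp⟩
    obtain ⟨f, hf⟩ := h.2 _ hG'
    refine ⟨f.trans e.toOrderEmbedding, fun p => ?_⟩
    have := hf p
    rw [mem_insert] at this
    rw [mem_insert]
    rcases this with h1 | h1
    · left
      simp only [RelEmbedding.coe_trans, Function.comp_apply, h1]
      simp
    · right
      rw [mem_map]
      exact ⟨_, h1, by simp⟩

/-- a system of pairwise incomparable chains gives an induced copy of the sum of chains -/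
lemma hasCopy_of_chains {m : ℕ} (i : Fin m → ℕ) {Λ : Type} [PartialOrder Λ] (F : Finset Λ)
    (g : (j : Fin m) → ℕ → Λ) (hmono : ∀ j a b, a < b → b < i j → g j a < g j b)
    (hinc : ∀ j j' a b, j ≠ j' → a < i j → b < i j' → ¬ g j a ≤ g j' b)
    (hF : ∀ j a, a < i j → g j a ∈ F) : HasCopy (Σ j : Fin m, Fin (i j)) F := by
  have key : ∀ (x y : Σ j : Fin m, Fin (i j)), g x.1 x.2 ≤ g y.1 y.2 ↔ x ≤ y := by
    rintro ⟨j, a⟩ ⟨j', b⟩
    constructor
    · intro h
      by_cases hj : j = j'
      · subst hj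
        refine Sigma.LE.fiber _ _ _ ?_
        by_contra hab
        rw [not_le] at hab
        exact absurd h (not_le_of_gt (hmono j b a hab a.2))
      · exact absurd h (hinc j j' a b hj a.2 b.2)
    · intro h
      obtain ⟨j, a, b, hab⟩ := h
      rcases hab.lt_or_eq with h1 | h1
      · exact (hmono j a b h1 b.2).le
      · rw [h1]
  refine ⟨OrderEmbedding.ofMapLEIff (fun x => g x.1 x.2) (fun x y => key x y), ?_⟩
  rintro ⟨j, a⟩
  exact hF j a a.2

/-- every subset of `Fin w` is an initial segment in a suitable numbering -/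
lemma exists_numbering (w : ℕ) (T : Finset (Fin w)) :
    ∃ e : Fin w ≃ Fin w, ∀ a, a ∈ T ↔ ((e a : Fin w) : ℕ) < T.card := by
  classical
  have hTw : T.card ≤ w := by simpa using card_le_univ T
  have hcard : Fintype.card {a // a ∈ T} = Fintype.card {a : Fin w // (a : ℕ) < T.card} := by
    rw [Fintype.card_coe, Fintype.card_subtype]
    rw [Fin.card_filter_val_lt]
    omega
  let e₁ : {a // a ∈ T} ≃ {a : Fin w // (a : ℕ) < T.card} := Fintype.equivOfCardEq hcard
  refine ⟨e₁.extendSubtype, fun a => ⟨fun h => ?_, fun h => ?_⟩⟩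
  · exact e₁.extendSubtype_mem a h
  · by_contra hcon
    exact e₁.extendSubtype_not_mem a hcon h

end Pool.Agent.V11182.SatBase
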