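import Pool.Agent.V11182.SatBase

/-!
# The bounded construction
-/

namespace Pool.Agent.V11182.SatBounded

open Finset Pool.Agent.V11182.SatBase

variable {m k v : ℕ}

/-- the ambient order: subsets of a union of three blocks -/
abbrev Amb (m k v : ℕ) : Type := Finset (Fin m) × Finset (Fin (2 * m + k + 2)) × Finset (Fin v)

/-- the family of height less than `k` -/
def R (m k v : ℕ) : Finset (Amb m k v) := univ.filter (fun z =>
  (z.2.2 = ∅ ∧ m + 2 ≤ z.1.card + z.2.1.card ∧ z.1.card + z.2.1.card ≤ m + k) ∨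
  (z.2.2 = univ ∧ m + 2 ≤ z.1.card + z.2.1.card + 1 ∧ z.1.card + z.2.1.card + 1 ≤ m + k))

/-- the special sets -/
def Sp (m k v : ℕ) (J' : Finset (Fin m)) : Finset (Amb m k v) :=
  insert (J', ∅, ∅) (J'.image (fun x => ({x}ᶜ, univ, univ)) ∪ J'.image (fun x => (J'.erase x, ∅, ∅)))

lemma mem_Sp {J' : Finset (Fin m)} {z : Amb m k v} : z ∈ Sp m k v J' ↔
    z = (J', ∅, ∅) ∨ (∃ x ∈ J', z = ({x}ᶜ, univ, univ)) ∨ ∃ x ∈ J', z = (J'.erase x, ∅, ∅) := by
  simp only [Sp, mem_insert, mem_union, mem_image]
  constructor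
  · rintro (h | ⟨x, hx, h⟩ | ⟨x, hx, h⟩)
    · exact Or.inl h
    · exact Or.inr (Or.inl ⟨x, hx, h.symm⟩)
    · exact Or.inr (Or.inr ⟨x, hx, h.symm⟩)
  · rintro (h | ⟨x, hx, h⟩ | ⟨x, hx, h⟩)
    · exact Or.inl h
    · exact Or.inr (Or.inl ⟨x, hx, h.symm⟩)
    · exact Or.inr (Or.inr ⟨x, hx, h.symm⟩)

lemma empty_ne_univ (hv : 1 ≤ v) : (∅ : Finset (Fin v)) ≠ univ := by
  intro h
  have := congrArg card h
  simp at this
  omega

lemma R_height (hv : 1 ≤ v) (hk : 1 ≤ k) (g : ℕ → Amb m k v)
    (hmono : ∀ a b, a < b → b < k → g a < g b) (hR : ∀ a, a < k → g a ∈ R m k v) : False := by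
  have hne := empty_ne_univ hv
  let ρ : Amb m k v → ℕ :=
    fun z => z.1.card + z.2.1.card + (if z.2.2 = univ then 1 else 0)
  have h1 : ∀ z ∈ R m k v, m + 2 ≤ ρ z ∧ ρ z ≤ m + k := by
    intro z hz
    simp only [R, mem_filter, mem_univ, true_and] at hz
    rcases hz with ⟨hx, h2, h3⟩ | ⟨hy, h2, h3⟩
    · simp only [ρ, hx, hne, if_false]
      omega
    · simp only [ρ, hy, if_true]
      omega
  have h2 : ∀ z ∈ R m k v, ∀ z' ∈ R m k v, z < z' → ρ z < ρ z' := by
    rintro ⟨A, S, Z⟩ hz ⟨A', S', Z'⟩ hz' hlt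
    obtain ⟨hle, hne'⟩ := lt_iff_le_and_ne.1 hlt
    obtain ⟨hA, hSZ⟩ := Prod.mk_le_mk.1 hle
    obtain ⟨hS, hZ⟩ := Prod.mk_le_mk.1 hSZ
    simp only [R, mem_filter, mem_univ, true_and] at hz hz'
    have cA := card_le_card hA
    have cS := card_le_card hS
    have hstrict : Z = Z' → A.card + S.card < A'.card + S'.card := by
      intro hZZ
      by_cases hAA : A = A'
      · have hSS : S ≠ S' := by
          rintro rfl
          exact hne' (by rw [hAA, hZZ])
        have := card_lt_card (lt_of_le_of_ne hS hSS)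
        omega
      · have := card_lt_card (lt_of_le_of_ne hA hAA)
        omega
    rcases hz with ⟨hx, _, _⟩ | ⟨hy, _, _⟩ <;> rcases hz' with ⟨hx', _, _⟩ | ⟨hy', _, _⟩
    · have := hstrict (hx.trans hx'.symm)
      simp only [ρ, hx, hx', hne, if_false]
      omega
    · simp only [ρ, hx, hy', hne, if_false, if_true]
      omega
    · rw [hy, hx'] at hZ
      exact absurd (le_antisymm hZ bot_le).symm hne
    · have := hstrict (hy.trans hy'.symm)
      simp only [ρ, hy, hy', if_true]
      omega
  have h3 : ∀ a, a < k → a + (m + 2) ≤ ρ (g a) := by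
    intro a
    induction a with
    | zero =>
      intro ha
      have := (h1 _ (hR 0 ha)).1
      omega
    | succ a ih =>
      intro ha
      have := ih (by omega)
      have := h2 _ (hR a (by omega)) _ (hR (a + 1) ha) (hmono a (a + 1) (by omega) ha)
      omega
  have h4 := h3 (k - 1) (by omega)
  have h5 := (h1 _ (hR (k - 1) (by omega))).2
  omega

/-- an antichain of special sets of the largest size dominates everything -/
lemma dominating (J' : Finset (Fin m)) (j0 : Fin m) (hj0 : j0 ∉ J') (q : Fin m → Amb m k v)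
    (hq : ∀ j ∈ insert j0 J', q j ∈ Sp m k v J')
    (hinc : ∀ j ∈ insert j0 J', ∀ j' ∈ insert j0 J', j ≠ j' → ¬ q j ≤ q j') (z : Amb m k v) :
    ∃ j ∈ insert j0 J', z ≤ q j ∨ q j ≤ z := by
  classical
  have h1 : ∀ j ∈ insert j0 J', ∃ c ∈ insert j0 J', (c = j0 ∧ q j = (J', ∅, ∅)) ∨
      (c ∈ J' ∧ (q j = ({c}ᶜ, univ, univ) ∨ q j = (J'.erase c, ∅, ∅))) := by
    intro j hj
    rcases mem_Sp.1 (hq j hj) with h | ⟨x, hx, h⟩ | ⟨x, hx, h⟩
    · exact ⟨j0, mem_insert_self _ _, Or.inl ⟨rfl, h⟩⟩
    · exact ⟨x, mem_insert_of_mem hx, Or.inr ⟨hx, Or.inl h⟩⟩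
    · exact ⟨x, mem_insert_of_mem hx, Or.inr ⟨hx, Or.inr h⟩⟩
  choose! c hc hc' using h1
  have hinj : Set.InjOn c (insert j0 J' : Finset (Fin m)) := by
    intro j hj j' hj' heq
    rw [mem_coe] at hj hj'
    by_contra hne
    have i1 := hinc j hj j' hj' hne
    have i2 := hinc j' hj' j hj (Ne.symm hne)
    rcases hc' j hj with ⟨e1, e2⟩ | ⟨e1, e2⟩
    · rcases hc' j' hj' with ⟨f1, f2⟩ | ⟨f1, f2⟩
      · exact i1 (by rw [e2, f2])
      · rw [← heq, e1] at f1
        exact hj0 f1
    · rcases hc' j' hj' with ⟨f1, f2⟩ | ⟨f1, f2⟩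
      · rw [heq, f1] at e1
        exact hj0 e1
      · rw [← heq] at f2
        have hle : ((J'.erase (c j), ∅, ∅) : Amb m k v) ≤ ({c j}ᶜ, univ, univ) := by
          refine Prod.mk_le_mk.2 ⟨?_, Prod.mk_le_mk.2 ⟨bot_le, bot_le⟩⟩
          intro a ha
          rw [mem_erase] at ha
          simpa using ha.1
        rcases e2 with e2 | e2 <;> rcases f2 with f2 | f2
        · exact i1 (by rw [e2, f2])
        · exact i2 (by rw [e2, f2]; exact hle)
        · exact i1 (by rw [e2, f2]; exact hle)
        · exact i1 (by rw [e2, f2])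
  have himg : (insert j0 J').image c = insert j0 J' := by
    apply eq_of_subset_of_card_le
    · intro a ha
      rw [mem_image] at ha
      obtain ⟨j, hj, rfl⟩ := ha
      exact hc j hj
    · rw [card_image_of_injOn hinj]
  have hsurj : ∀ a ∈ insert j0 J', ∃ j ∈ insert j0 J', c j = a := by
    intro a ha
    rw [← himg, mem_image] at ha
    exact ha
  obtain ⟨j1, hj1, hcj1⟩ := hsurj j0 (mem_insert_self _ _)
  have hq1 : q j1 = (J', ∅, ∅) := by
    rcases hc' j1 hj1 with ⟨_, e2⟩ | ⟨e1, _⟩
    · exact e2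
    · rw [hcj1] at e1
      exact absurd e1 hj0
  by_cases hz : J' ⊆ z.1
  · refine ⟨j1, hj1, Or.inr ?_⟩
    rw [hq1]
    exact ⟨hz, ⟨bot_le, bot_le⟩⟩
  · rw [not_subset] at hz
    obtain ⟨x, hx, hxz⟩ := hz
    obtain ⟨j2, hj2, hcj2⟩ := hsurj x (mem_insert_of_mem hx)
    have hne : j2 ≠ j1 := by
      rintro rfl
      rw [hcj1] at hcj2
      rw [← hcj2] at hx
      exact hj0 hx
    refine ⟨j2, hj2, Or.inl ?_⟩
    rcases hc' j2 hj2 with ⟨e1, _⟩ | ⟨_, e2 | e2⟩
    · rw [hcj2] at e1
      rw [e1] at hx
      exact absurd hx hj0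
    · rw [e2, hcj2]
      refine ⟨?_, ⟨le_top, le_top⟩⟩
      intro a ha
      simp only [mem_compl, mem_singleton]
      rintro rfl
      exact hxz ha
    · exfalso
      apply hinc j2 hj2 j1 hj1 hne
      rw [e2, hq1]
      exact Prod.mk_le_mk.2 ⟨erase_subset _ _, le_rfl⟩

/-- the base family contains no copy of the sum of chains -/
lemma free (hv : 1 ≤ v) (hk : 1 ≤ k) (i : Fin m → ℕ) (j0 jm : Fin m) (hj0 : i j0 = k)
    (hjm : i jm < k) (hjm1 : 1 ≤ i jm) :
    ¬ HasCopy (Σ j : Fin m, Fin (i j))
      (R m k v ∪ Sp m k v ((univ.erase j0).filter (fun j => i j = k))) := by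
  classical
  rintro ⟨f, hf⟩
  set J' : Finset (Fin m) := (univ.erase j0).filter (fun j => i j = k) with hJ'
  have hj0' : j0 ∉ J' := by simp [hJ']
  have hJ : ∀ j ∈ insert j0 J', i j = k := by
    intro j hj
    rw [mem_insert] at hj
    rcases hj with rfl | hj
    · exact hj0
    · exact (mem_filter.1 hj).2
  -- in each long chain there is a special element
  have h1 : ∀ j ∈ insert j0 J', ∃ a : Fin (i j), f ⟨j, a⟩ ∈ Sp m k v J' := by
    intro j hj
    have hij : i j = k := hJ j hj
    by_contra hcon
    push Not at hcon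
    refine R_height (m := m) hv hk
      (fun a => if h : a < i j then f ⟨j, ⟨a, h⟩⟩ else f ⟨j, ⟨0, by omega⟩⟩) ?_ ?_
    · intro a b hab hb
      have ha' : a < i j := by omega
      have hb' : b < i j := by omega
      simp only [ha', hb', dif_pos]
      apply f.strictMono
      rw [Sigma.mk_lt_mk_iff]
      exact hab
    · intro a ha
      have ha' : a < i j := by omega
      simp only [ha', dif_pos]
      have := hf ⟨j, ⟨a, ha'⟩⟩
      rw [mem_union] at this
      rcases this with h | h
      · exact h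
      · exact absurd h (hcon _)
  have h2 : ∀ j, ∃ q : Amb m k v, j ∈ insert j0 J' →
      q ∈ Sp m k v J' ∧ ∃ a : Fin (i j), f ⟨j, a⟩ = q := by
    intro j
    by_cases hj : j ∈ insert j0 J'
    · obtain ⟨a, ha⟩ := h1 j hj
      exact ⟨_, fun _ => ⟨ha, a, rfl⟩⟩
    · exact ⟨(∅, ∅, ∅), fun h => absurd h hj⟩
  choose q hq using h2
  obtain ⟨j, hj, h3⟩ := dominating J' j0 hj0' q (fun j hj => (hq j hj).1) (by
    intro j hj j' hj' hne hle
    obtain ⟨a, ha⟩ := (hq j hj).2
    obtain ⟨a', ha'⟩ := (hq j' hj').2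
    rw [← ha, ← ha', f.le_iff_le] at hle
    obtain ⟨h6, _⟩ := Sigma.le_def.1 hle
    exact hne h6) (f ⟨jm, ⟨0, hjm1⟩⟩)
  obtain ⟨a, ha⟩ := (hq j hj).2
  have hjjm : j ≠ jm := by
    rintro rfl
    have := hJ j hj
    omega
  rw [← ha, f.le_iff_le, f.le_iff_le] at h3
  rcases h3 with h | h
  · obtain ⟨h6, _⟩ := Sigma.le_def.1 h
    exact hjjm h6.symm
  · obtain ⟨h6, _⟩ := Sigma.le_def.1 h
    exact hjjm h6

lemma base_sub (J' : Finset (Fin m)) :
    R m k v ∪ Sp m k v J' ⊆ univ ×ˢ (univ ×ˢ {∅, univ}) := by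
  intro z hz
  rw [mem_product, mem_product]
  refine ⟨mem_univ _, mem_univ _, ?_⟩
  rw [mem_insert, mem_singleton]
  rw [mem_union] at hz
  rcases hz with hz | hz
  · simp only [R, mem_filter, mem_univ, true_and] at hz
    rcases hz with ⟨hx, _⟩ | ⟨hy, _⟩
    · exact Or.inl hx
    · exact Or.inr hy
  · rcases mem_Sp.1 hz with rfl | ⟨x, _, rfl⟩ | ⟨x, _, rfl⟩
    · exact Or.inl rfl
    · exact Or.inr rfl
    · exact Or.inl rfl

/-- adding a non-exceptional set creates the sum of chains -/
lemma creates (hv : 1 ≤ v) (hk : 1 ≤ k) (i : Fin m → ℕ) (hik : ∀ j, i j ≤ k) (j0 : Fin m)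
    (T0 : Finset (Fin m)) (T1 : Finset (Fin (2 * m + k + 2))) (X : Finset (Fin v))
    (hX : X ≠ ∅) (hX' : X ≠ univ) :
    HasCopy (Σ j : Fin m, Fin (i j))
      (insert (T0, T1, X) (R m k v ∪ Sp m k v ((univ.erase j0).filter (fun j => i j = k)))) := by
  classical
  set J' : Finset (Fin m) := (univ.erase j0).filter (fun j => i j = k) with hJ'
  have hne := empty_ne_univ hv
  have hm : 0 < m := lt_of_le_of_lt (Nat.zero_le _) j0.2
  have memJ' : ∀ j, j ∈ J' ↔ j ≠ j0 ∧ i j = k := by
    intro j
    simp [hJ']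
  have hm0 : ∀ A : Finset (Fin m), A.card ≤ m := fun A => by simpa using card_le_univ A
  obtain ⟨e, he⟩ := exists_numbering (2 * m + k + 2) T1
  -- initial segments and the auxiliary labels
  let C : ℕ → Finset (Fin (2 * m + k + 2)) := fun l =>
    univ.filter (fun a => ((e a : Fin (2 * m + k + 2)) : ℕ) < l)
  let B : Fin m → ℕ → Finset (Fin (2 * m + k + 2)) := fun j q => univ.filter
    (fun a => ((e a : Fin (2 * m + k + 2)) : ℕ) = 2 * m + k + 1 - j ∨
      (0 < ((e a : Fin (2 * m + k + 2)) : ℕ) ∧ ((e a : Fin (2 * m + k + 2)) : ℕ) < q))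
  have memC : ∀ l a, a ∈ C l ↔ ((e a : Fin (2 * m + k + 2)) : ℕ) < l := by
    intro l a
    simp [C]
  have memB : ∀ j q a, a ∈ B j q ↔ ((e a : Fin (2 * m + k + 2)) : ℕ) = 2 * m + k + 1 - j ∨
      (0 < ((e a : Fin (2 * m + k + 2)) : ℕ) ∧ ((e a : Fin (2 * m + k + 2)) : ℕ) < q) := by
    intro j q a
    simp [B]
  have cardC : ∀ l, l ≤ 2 * m + k + 2 → (C l).card = l := by
    intro l hl
    have : (C l).card = ((univ : Finset (Fin (2 * m + k + 2))).filter
        (fun a : Fin (2 * m + k + 2) => (a : ℕ) < l)).card := by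
      apply card_bij (fun a _ => e a)
      · intro a ha
        simpa [C] using ha
      · intro a _ b _ h
        exact e.injective h
      · intro b hb
        exact ⟨e.symm b, by simpa [C] using hb, by simp⟩
    rw [this, Fin.card_filter_val_lt]
    omega
  have cardB : ∀ (j : Fin m) q, 1 ≤ q → q ≤ m + k + 2 → (B j q).card = q := by
    intro j q h1 h2
    have hj := j.2
    have : (B j q).card = (insert (⟨2 * m + k + 1 - j, by omega⟩ : Fin (2 * m + k + 2))
        (((univ : Finset (Fin (2 * m + k + 2))).filter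
          (fun a : Fin (2 * m + k + 2) => (a : ℕ) < q)).erase ⟨0, by omega⟩)).card := by
      apply card_bij (fun a _ => e a)
      · intro a ha
        rw [memB] at ha
        simp only [mem_insert, mem_erase, mem_filter, mem_univ, true_and, ne_eq, Fin.ext_iff]
        omega
      · intro a _ b _ h
        exact e.injective h
      · intro b hb
        refine ⟨e.symm b, ?_, by simp⟩
        rw [memB]
        simp only [mem_insert, mem_erase, mem_filter, mem_univ, true_and, ne_eq, Fin.ext_iff] at hb
        simp only [Equiv.apply_symm_apply]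
        omega
    rw [this, card_insert_of_notMem, card_erase_of_mem, Fin.card_filter_val_lt]
    · omega
    · simp only [mem_filter, mem_univ, true_and]
      omega
    · simp only [mem_erase, mem_filter, mem_univ, true_and, not_and, not_lt]
      intro _
      omega
  have hTC : T1 = C T1.card := by
    ext a
    rw [memC, he]
  have Cmono : ∀ a b, a ≤ b → C a ≤ C b := by
    intro a b hab z hz
    rw [memC] at hz ⊢
    omega
  have hTcard : T1.card ≤ 2 * m + k + 2 := by simpa using card_le_univ T1
  have hT0 : T0.card ≤ m := hm0 T0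
  set p : ℕ := min (T0.card + T1.card + 1 - (m + 2)) (k - 1) with hp
  let z1 : Fin (2 * m + k + 2) := e.symm ⟨0, by omega⟩
  have hz1 : ((e z1 : Fin (2 * m + k + 2)) : ℕ) = 0 := by simp [z1]
  let zz : Fin m → Fin (2 * m + k + 2) := fun j => e.symm ⟨2 * m + k + 1 - j, by omega⟩
  have hzz : ∀ j : Fin m, ((e (zz j) : Fin (2 * m + k + 2)) : ℕ) = 2 * m + k + 1 - j := by
    intro j
    simp [zz]
  have hz1B : ∀ j q, z1 ∉ B j q := by
    intro j q
    have hj := j.2
    rw [memB, hz1]
    omega
  have hzB : ∀ j q, zz j ∈ B j q := by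
    intro j q
    rw [memB, hzz]
    omega
  -- the blocks of chains
  let K0 : ℕ → Amb m k v := fun a =>
    if a < p then (T0, C (m + 2 + a - T0.card), ∅)
    else if a = p then (T0, T1, X) else (T0, C (m + a - T0.card), univ)
  let EE : Finset (Fin m) → Fin m → ℕ → Amb m k v := fun E0 j a =>
    if T1.card ≤ m + k + 2 then (E0, B j (m + 2 + a - E0.card), ∅)
    else (E0, B j (m + 1 + a - E0.card), univ)
  have EE1 : ∀ E0 j a, (EE E0 j a).1 = E0 := by
    intro E0 j a
    simp only [EE]
    split_ifs <;> rfl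
  have EEz : ∀ E0 j a, zz j ∈ (EE E0 j a).2.1 := by
    intro E0 j a
    simp only [EE]
    split_ifs
    · exact hzB _ _
    · exact hzB _ _
  have EEz' : ∀ E0 j a j', j ≠ j' → a + 2 ≤ k → zz j' ∉ (EE E0 j a).2.1 := by
    intro E0 j a j' hjj' ha
    have hj := j.2
    have hj2 := j'.2
    have hnv : (j : ℕ) ≠ j' := fun h => hjj' (Fin.ext h)
    simp only [EE]
    split_ifs
    · rw [memB, hzz]; omega
    · rw [memB, hzz]; omega
  have EEz1 : ∀ E0 j a, z1 ∉ (EE E0 j a).2.1 := by
    intro E0 j a
    simp only [EE]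
    split_ifs
    · exact hz1B _ _
    · exact hz1B _ _
  have EER : ∀ E0 j a, a + 2 ≤ k → EE E0 j a ∈ R m k v := by
    intro E0 j a ha
    have h0 := hm0 E0
    simp only [R, mem_filter, mem_univ, true_and, EE]
    split_ifs with h
    · left
      refine ⟨rfl, ?_, ?_⟩
      · dsimp only
        rw [cardB j _ (by omega) (by omega)]; omega
      · dsimp only
        rw [cardB j _ (by omega) (by omega)]; omega
    · right
      refine ⟨rfl, ?_, ?_⟩
      · dsimp only
        rw [cardB j _ (by omega) (by omega)]; omega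
      · dsimp only
        rw [cardB j _ (by omega) (by omega)]; omega
  have EEmono : ∀ E0 j a b, a < b → b + 2 ≤ k → EE E0 j a < EE E0 j b := by
    intro E0 j a b hab hb
    have h0 := hm0 E0
    rw [lt_iff_le_and_ne]
    simp only [EE]
    split_ifs with h3
    · refine ⟨Prod.mk_le_mk.2 ⟨le_rfl, Prod.mk_le_mk.2 ⟨?_, le_rfl⟩⟩, fun h => ?_⟩
      · intro z hz
        rw [memB] at hz ⊢
        omega
      · have := congrArg card (Prod.mk.inj (Prod.mk.inj h).2).1
        rw [cardB j _ (by omega) (by omega), cardB j _ (by omega) (by omega)] at this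
        omega
    · refine ⟨Prod.mk_le_mk.2 ⟨le_rfl, Prod.mk_le_mk.2 ⟨?_, le_rfl⟩⟩, fun h => ?_⟩
      · intro z hz
        rw [memB] at hz ⊢
        omega
      · have := congrArg card (Prod.mk.inj (Prod.mk.inj h).2).1
        rw [cardB j _ (by omega) (by omega), cardB j _ (by omega) (by omega)] at this
        omega
  have EEinc : ∀ E0 E0' j j' a b, j ≠ j' → b + 2 ≤ k → ¬ EE E0 j a ≤ EE E0' j' b := by
    intro E0 E0' j j' a b hjj' hb h
    exact EEz' E0' j' b j hjj'.symm hb (h.2.1 (EEz E0 j a))
  have K0EE : ∀ E0 j a b, a < k → b + 2 ≤ k → ¬ K0 a ≤ EE E0 j b ∧ ¬ EE E0 j b ≤ K0 a := by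
    intro E0 j a b ha hb
    have hj := j.2
    by_cases hT : T1.card ≤ m + k + 2
    · have hE : EE E0 j b = (E0, B j (m + 2 + b - E0.card), ∅) := by simp only [EE, hT, if_true]
      rw [hE]
      simp only [K0]
      split_ifs with h1 h2
      · refine ⟨fun h => ?_, fun h => ?_⟩
        · refine hz1B j _ (h.2.1 ?_)
          rw [memC, hz1]; omega
        · have := h.2.1 (hzB j _)
          rw [memC, hzz] at this
          omega
      · refine ⟨fun h => ?_, fun h => ?_⟩
        · exact hX (le_antisymm h.2.2 bot_le)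
        · have := h.2.1 (hzB j _)
          rw [he, hzz] at this
          omega
      · refine ⟨fun h => ?_, fun h => ?_⟩
        · exact hne (le_antisymm bot_le h.2.2)
        · have := h.2.1 (hzB j _)
          rw [memC, hzz] at this
          omega
    · have hE : EE E0 j b = (E0, B j (m + 1 + b - E0.card), univ) := by
        simp only [EE, hT, if_false]
      rw [hE]
      simp only [K0]
      split_ifs with h1 h2
      · refine ⟨fun h => ?_, fun h => hne (le_antisymm bot_le h.2.2)⟩
        refine hz1B j _ (h.2.1 ?_)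
        rw [memC, hz1]; omega
      · refine ⟨fun h => ?_, fun h => hX' (le_antisymm le_top h.2.2)⟩
        refine hz1B j _ (h.2.1 ?_)
        rw [he, hz1]; omega
      · omega
  -- special sets versus the others
  have Bne : ∀ j q, 1 ≤ q → q ≤ m + k + 2 → B j q ≠ univ ∧ B j q ≠ ∅ := by
    intro j q h1 h2
    refine ⟨fun h => ?_, fun h => ?_⟩
    · have := congrArg card h
      rw [cardB j q h1 h2] at this
      simp at this
      omega
    · have := congrArg card h
      rw [cardB j q h1 h2] at this
      simp at this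
      omega
  have EEtop : ∀ E0 j a y, a + 2 ≤ k → ¬ (({y}ᶜ, univ, univ) : Amb m k v) ≤ EE E0 j a := by
    intro E0 j a y ha h
    exact EEz1 E0 j a (h.2.1 (mem_univ _))
  have EEbot : ∀ E0 j a D, ¬ EE E0 j a ≤ ((D, ∅, ∅) : Amb m k v) := by
    intro E0 j a D h
    exact notMem_empty _ (h.2.1 (EEz E0 j a))
  have K01 : ∀ a, (K0 a).1 = T0 := by
    intro a
    simp only [K0]
    split_ifs <;> rfl
  have K0top : ∀ a y, a < k → ¬ (({y}ᶜ, univ, univ) : Amb m k v) ≤ K0 a := by
    intro a y ha
    simp only [K0]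
    split_ifs with h1 h2
    · exact fun h => hne (le_antisymm bot_le h.2.2)
    · exact fun h => hX' (le_antisymm le_top h.2.2)
    · intro h
      have h3 := h.2.1 (mem_univ (e.symm ⟨2 * m + k + 1, by omega⟩))
      rw [memC] at h3
      simp only [Equiv.apply_symm_apply] at h3
      omega
  have K0bot : ∀ a D, a < k → ¬ K0 a ≤ ((D, ∅, ∅) : Amb m k v) := by
    intro a D ha
    simp only [K0]
    split_ifs with h1 h2
    · intro h
      refine notMem_empty z1 (h.2.1 ?_)
      rw [memC, hz1]; omega
    · exact fun h => hX (le_antisymm h.2.2 bot_le)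
    · exact fun h => hne (le_antisymm bot_le h.2.2)
  -- the small special set of an element outside `T0` and the first coordinates
  let D : Fin m → Finset (Fin m) := fun x => if J' \ T0 = {x} then J' else J'.erase x
  have DnT0 : ∀ x, x ∈ J' → x ∉ T0 → ¬ D x ⊆ T0 := by
    intro x hx hxT h
    simp only [D] at h
    split_ifs at h with h1
    · exact hxT (h hx)
    · apply h1
      ext y
      rw [mem_sdiff, mem_singleton]
      constructor
      · rintro ⟨h2, h3⟩
        by_contra h4
        exact h3 (h (mem_erase.2 ⟨h4, h2⟩))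
      · rintro rfl
        exact ⟨hx, hxT⟩
  have Dmem : ∀ x y, x ≠ y → x ∈ J' → x ∈ D y := by
    intro x y hxy hx
    simp only [D]
    split_ifs
    · exact hx
    · exact mem_erase.2 ⟨hxy, hx⟩
  have Dnot : ∀ x y, x ≠ y → x ∈ J' → x ∉ T0 → y ∈ J' → y ∉ T0 → x ∉ D x := by
    intro x y hxy hx hxT hy hyT h
    simp only [D] at h
    split_ifs at h with h1
    · have : y ∈ J' \ T0 := mem_sdiff.2 ⟨hy, hyT⟩
      rw [h1, mem_singleton] at this
      exact hxy this.symm
    · exact (mem_erase.1 h).1 rfl
  -- the special chains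
  let KS : Fin m → ℕ → Amb m k v := fun x a =>
    if x ∈ T0 then (if a + 1 < k then EE (J'.erase x) x a else ({x}ᶜ, univ, univ))
    else (if a = 0 then (D x, ∅, ∅) else EE (D x) x (a - 1))
  let LL : Fin m → ℕ → Amb m k v := fun j a => EE (T0 ∩ J') j a
  -- special chains: either auxiliary or special
  have hK0KS : ∀ x a b, x ∈ J' → a < k → b < k → ¬ K0 a ≤ KS x b ∧ ¬ KS x b ≤ K0 a := by
    intro x a b hx ha hb
    simp only [KS]
    by_cases hxT : x ∈ T0
    · rw [if_pos hxT]
      by_cases hb1 : b + 1 < k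
      · rw [if_pos hb1]
        exact K0EE _ _ _ _ ha (by omega)
      · rw [if_neg hb1]
        refine ⟨fun h => ?_, K0top a x ha⟩
        have h1 := h.1
        rw [K01] at h1
        have := h1 hxT
        simp at this
    · rw [if_neg hxT]
      by_cases hb1 : b = 0
      · rw [if_pos hb1]
        refine ⟨K0bot a _ ha, fun h => ?_⟩
        have h1 := h.1
        rw [K01] at h1
        exact DnT0 x hx hxT h1
      · rw [if_neg hb1]
        exact K0EE _ _ _ _ ha (by omega)
  have hKSL : ∀ x j a b, x ∈ J' → x ≠ j → a < k → b + 2 ≤ k →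
      ¬ KS x a ≤ LL j b ∧ ¬ LL j b ≤ KS x a := by
    intro x j a b hx hxj ha hb
    simp only [KS, LL]
    by_cases hxT : x ∈ T0
    · rw [if_pos hxT]
      by_cases ha1 : a + 1 < k
      · rw [if_pos ha1]
        exact ⟨EEinc _ _ _ _ _ _ hxj hb, EEinc _ _ _ _ _ _ hxj.symm (by omega)⟩
      · rw [if_neg ha1]
        refine ⟨EEtop _ _ _ _ hb, fun h => ?_⟩
        have h1 := h.1
        rw [EE1] at h1
        have := h1 (mem_inter.2 ⟨hxT, hx⟩)
        simp at this
    · rw [if_neg hxT]
      by_cases ha1 : a = 0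
      · rw [if_pos ha1]
        refine ⟨fun h => ?_, EEbot _ _ _ _⟩
        have h1 := h.1
        rw [EE1] at h1
        exact DnT0 x hx hxT (fun y hy => (mem_inter.1 (h1 hy)).1)
      · rw [if_neg ha1]
        exact ⟨EEinc _ _ _ _ _ _ hxj hb, EEinc _ _ _ _ _ _ hxj.symm (by omega)⟩
  have hKSKS : ∀ x y a b, x ∈ J' → y ∈ J' → x ≠ y → a < k → b < k → ¬ KS x a ≤ KS y b := by
    intro x y a b hx hy hxy ha hb
    simp only [KS]
    by_cases hxT : x ∈ T0
    · rw [if_pos hxT]
      by_cases hyT : y ∈ T0
      · rw [if_pos hyT]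
        by_cases ha1 : a + 1 < k
        · rw [if_pos ha1]
          by_cases hb1 : b + 1 < k
          · rw [if_pos hb1]
            exact EEinc _ _ _ _ _ _ hxy (by omega)
          · rw [if_neg hb1]
            intro h
            have h1 := h.1
            rw [EE1] at h1
            have := h1 (mem_erase.2 ⟨hxy.symm, hy⟩)
            simp at this
        · rw [if_neg ha1]
          by_cases hb1 : b + 1 < k
          · rw [if_pos hb1]
            exact EEtop _ _ _ _ (by omega)
          · rw [if_neg hb1]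
            intro h
            have h1 : ({x}ᶜ : Finset (Fin m)) ≤ {y}ᶜ := h.1
            have h2 : y ∈ ({x}ᶜ : Finset (Fin m)) := by simpa using hxy.symm
            have := h1 h2
            simp at this
      · rw [if_neg hyT]
        by_cases ha1 : a + 1 < k
        · rw [if_pos ha1]
          by_cases hb1 : b = 0
          · rw [if_pos hb1]
            exact EEbot _ _ _ _
          · rw [if_neg hb1]
            exact EEinc _ _ _ _ _ _ hxy (by omega)
        · rw [if_neg ha1]
          by_cases hb1 : b = 0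
          · rw [if_pos hb1]
            intro h
            exact hne (le_antisymm bot_le h.2.2)
          · rw [if_neg hb1]
            exact EEtop _ _ _ _ (by omega)
    · rw [if_neg hxT]
      by_cases hyT : y ∈ T0
      · rw [if_pos hyT]
        by_cases ha1 : a = 0
        · rw [if_pos ha1]
          by_cases hb1 : b + 1 < k
          · rw [if_pos hb1]
            intro h
            have h1 := h.1
            rw [EE1] at h1
            have := h1 (Dmem y x hxy.symm hy)
            simp at this
          · rw [if_neg hb1]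
            intro h
            have h1 : D x ≤ ({y}ᶜ : Finset (Fin m)) := h.1
            have := h1 (Dmem y x hxy.symm hy)
            simp at this
        · rw [if_neg ha1]
          by_cases hb1 : b + 1 < k
          · rw [if_pos hb1]
            exact EEinc _ _ _ _ _ _ hxy (by omega)
          · rw [if_neg hb1]
            intro h
            have h1 := h.1
            rw [EE1] at h1
            have := h1 (Dmem y x hxy.symm hy)
            simp at this
      · rw [if_neg hyT]
        by_cases ha1 : a = 0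
        · rw [if_pos ha1]
          have hnot : y ∉ D y := Dnot y x hxy.symm hy hyT hx hxT
          by_cases hb1 : b = 0
          · rw [if_pos hb1]
            intro h
            have h1 : D x ≤ D y := h.1
            exact hnot (h1 (Dmem y x hxy.symm hy))
          · rw [if_neg hb1]
            intro h
            have h1 := h.1
            rw [EE1] at h1
            exact hnot (h1 (Dmem y x hxy.symm hy))
        · rw [if_neg ha1]
          by_cases hb1 : b = 0
          · rw [if_pos hb1]
            exact EEbot _ _ _ _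
          · rw [if_neg hb1]
            exact EEinc _ _ _ _ _ _ hxy (by omega)
  have hK0mono : ∀ a b, a < b → b < k → K0 a < K0 b := by
    intro a b hab hb
    have hsucc : ∀ a b, a < b → b ≤ 2 * m + k + 2 → C a ≠ C b := by
      intro a b hab hb h
      have := congrArg card h
      rw [cardC a (by omega), cardC b hb] at this
      omega
    rw [lt_iff_le_and_ne]
    simp only [K0]
    by_cases ha1 : a < p
    · rw [if_pos ha1]
      by_cases hb1 : b < p
      · rw [if_pos hb1]
        refine ⟨Prod.mk_le_mk.2 ⟨le_rfl, Prod.mk_le_mk.2 ⟨Cmono _ _ (by omega), le_rfl⟩⟩,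
          fun h => ?_⟩
        exact hsucc (m + 2 + a - T0.card) (m + 2 + b - T0.card) (by omega) (by omega)
          (Prod.mk.inj (Prod.mk.inj h).2).1
      · rw [if_neg hb1]
        by_cases hb2 : b = p
        · rw [if_pos hb2]
          refine ⟨Prod.mk_le_mk.2 ⟨le_rfl, Prod.mk_le_mk.2 ⟨?_, bot_le⟩⟩,
            fun h => hX (Prod.mk.inj (Prod.mk.inj h).2).2.symm⟩
          rw [hTC]
          exact Cmono _ _ (by omega)
        · rw [if_neg hb2]
          exact ⟨Prod.mk_le_mk.2 ⟨le_rfl, Prod.mk_le_mk.2 ⟨Cmono _ _ (by omega), bot_le⟩⟩,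
            fun h => hne (Prod.mk.inj (Prod.mk.inj h).2).2⟩
    · rw [if_neg ha1]
      have hb1 : ¬ b < p := by omega
      rw [if_neg hb1]
      by_cases ha2 : a = p
      · rw [if_pos ha2]
        have hb2 : ¬ b = p := by omega
        rw [if_neg hb2]
        refine ⟨Prod.mk_le_mk.2 ⟨le_rfl, Prod.mk_le_mk.2 ⟨?_, le_top⟩⟩,
          fun h => hX' (Prod.mk.inj (Prod.mk.inj h).2).2⟩
        rw [hTC]
        exact Cmono _ _ (by omega)
      · rw [if_neg ha2]
        have hb2 : ¬ b = p := by omega
        rw [if_neg hb2]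
        refine ⟨Prod.mk_le_mk.2 ⟨le_rfl, Prod.mk_le_mk.2 ⟨Cmono _ _ (by omega), le_rfl⟩⟩,
          fun h => ?_⟩
        exact hsucc (m + a - T0.card) (m + b - T0.card) (by omega) (by omega)
          (Prod.mk.inj (Prod.mk.inj h).2).1
  have hKSmono : ∀ x a b, x ∈ J' → a < b → b < k → KS x a < KS x b := by
    intro x a b hx hab hb
    simp only [KS]
    by_cases hxT : x ∈ T0
    · rw [if_pos hxT, if_pos hxT, if_pos (by omega : a + 1 < k)]
      by_cases hb1 : b + 1 < k
      · rw [if_pos hb1]
        exact EEmono _ _ _ _ hab (by omega)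
      · rw [if_neg hb1, lt_iff_le_not_ge]
        refine ⟨⟨?_, ⟨le_top, le_top⟩⟩, EEtop _ _ _ _ (by omega)⟩
        rw [EE1]
        intro y hy
        simpa using (mem_erase.1 hy).1
    · rw [if_neg hxT, if_neg hxT]
      have hb1 : ¬ b = 0 := by omega
      rw [if_neg hb1]
      by_cases ha1 : a = 0
      · rw [if_pos ha1, lt_iff_le_not_ge]
        refine ⟨⟨?_, ⟨bot_le, bot_le⟩⟩, EEbot _ _ _ _⟩
        rw [EE1]
      · rw [if_neg ha1]
        exact EEmono _ _ _ _ (by omega) (by omega)
  -- the system of chains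
  let g : (j : Fin m) → ℕ → Amb m k v := fun j a =>
    if j = j0 then K0 a else if i j = k then KS j a else LL j a
  refine hasCopy_of_chains i _ g ?_ ?_ ?_
  · intro j a b hab hb
    have hb' : b < k := lt_of_lt_of_le hb (hik j)
    simp only [g]
    split_ifs with h1 h2
    · exact hK0mono a b hab hb'
    · exact hKSmono j a b ((memJ' j).2 ⟨h1, h2⟩) hab hb'
    · have := hik j
      exact EEmono _ _ _ _ hab (by omega)
  · intro j j' a b hjj' ha hb
    have ha' : a < k := lt_of_lt_of_le ha (hik j)
    have hb' : b < k := lt_of_lt_of_le hb (hik j')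
    simp only [g]
    by_cases h1 : j = j0
    · rw [if_pos h1]
      have h2 : ¬ j' = j0 := fun h => hjj' (h1.trans h.symm)
      rw [if_neg h2]
      by_cases h3 : i j' = k
      · rw [if_pos h3]
        exact (hK0KS j' a b ((memJ' j').2 ⟨h2, h3⟩) ha' hb').1
      · rw [if_neg h3]
        exact (K0EE _ j' a b ha' (by have := hik j'; omega)).1
    · rw [if_neg h1]
      by_cases h2 : j' = j0
      · rw [if_pos h2]
        by_cases h3 : i j = k
        · rw [if_pos h3]
          exact (hK0KS j b a ((memJ' j).2 ⟨h1, h3⟩) hb' ha').2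
        · rw [if_neg h3]
          exact (K0EE _ j b a hb' (by have := hik j; omega)).2
      · rw [if_neg h2]
        by_cases h3 : i j = k
        · rw [if_pos h3]
          by_cases h4 : i j' = k
          · rw [if_pos h4]
            exact hKSKS j j' a b ((memJ' j).2 ⟨h1, h3⟩) ((memJ' j').2 ⟨h2, h4⟩) hjj' ha' hb'
          · rw [if_neg h4]
            exact (hKSL j j' a b ((memJ' j).2 ⟨h1, h3⟩) hjj' ha' (by have := hik j'; omega)).1
        · rw [if_neg h3]
          by_cases h4 : i j' = k
          · rw [if_pos h4]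
            exact (hKSL j' j b a ((memJ' j').2 ⟨h2, h4⟩) hjj'.symm hb'
              (by have := hik j; omega)).2
          · rw [if_neg h4]
            exact EEinc _ _ _ _ _ _ hjj' (by have := hik j'; omega)
  · intro j a ha
    have ha' : a < k := lt_of_lt_of_le ha (hik j)
    rw [mem_insert, mem_union]
    simp only [g]
    by_cases h1 : j = j0
    · rw [if_pos h1]
      simp only [K0]
      split_ifs with h2 h3
      · right; left
        simp only [R, mem_filter, mem_univ, true_and]
        left
        refine ⟨?_, ?_⟩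
        · rw [cardC _ (by omega)]; omega
        · rw [cardC _ (by omega)]; omega
      · left; rfl
      · right; left
        simp only [R, mem_filter, mem_univ, true_and]
        right
        refine ⟨?_, ?_⟩
        · rw [cardC _ (by omega)]; omega
        · rw [cardC _ (by omega)]; omega
    · rw [if_neg h1]
      by_cases h2 : i j = k
      · rw [if_pos h2]
        have hjJ : j ∈ J' := (memJ' j).2 ⟨h1, h2⟩
        simp only [KS]
        split_ifs with h3 h4 h5
        · right; left
          exact EER _ _ _ (by omega)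
        · right; right
          exact mem_Sp.2 (Or.inr (Or.inl ⟨j, hjJ, rfl⟩))
        · right; right
          rw [mem_Sp]
          simp only [D]
          split_ifs
          · exact Or.inl rfl
          · exact Or.inr (Or.inr ⟨j, hjJ, rfl⟩)
        · right; left
          exact EER _ _ _ (by omega)
      · rw [if_neg h2]
        right; left
        exact EER _ _ _ (by have := hik j; omega)

end Pool.Agent.V11182.SatBounded
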