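import Pool.Agent.V11182.SatBase

/-!
# The linear construction
-/

namespace Pool.Agent.V11182.SatLinear

open Finset Pool.Agent.V11182.SatBase

variable {m k v : ℕ}

/-- prefixes of `Fin v` -/
def pre (v c : ℕ) : Finset (Fin v) := univ.filter (fun a => (a : ℕ) < c)

/-- the labels -/
def lab (k : ℕ) {m : ℕ} (j : Fin m) : Fin (m + k) := ⟨j, by omega⟩

/-- the family `R` of height less than `k` -/
def R (w v k : ℕ) : Finset (Finset (Fin w) × Finset (Fin v)) :=
  univ.filter (fun z => (∃ x, z.2 = {x} ∧ 2 ≤ z.1.card ∧ z.1.card ≤ k) ∨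
    (∃ y, z.2 = {y}ᶜ ∧ 1 ≤ z.1.card ∧ z.1.card + 1 ≤ k))

open Classical in
/-- the union `Q` of chains -/
noncomputable def Q (v k : ℕ) (J : Finset (Fin m)) : Finset (Finset (Fin (m + k)) × Finset (Fin v)) :=
  univ.filter (fun z => ∃ j ∈ J, z.1 = {lab k j} ∧ ∃ c ∈ range (v + 1), z.2 = pre v c)

/-- the exceptional second coordinates -/
def Y (v k : ℕ) : Finset (Finset (Fin v)) :=
  univ.filter (fun X => (∀ x ∈ X, ∀ y, y ∉ X → (x : ℕ) < y + k) ∨ X.card ≤ 1 ∨ Xᶜ.card ≤ 1)

lemma R_height {w : ℕ} (hv : 3 ≤ v) (hk : 1 ≤ k) (g : ℕ → Finset (Fin w) × Finset (Fin v))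
    (hmono : ∀ a b, a < b → b < k → g a < g b) (hR : ∀ a, a < k → g a ∈ R w v k) : False := by
  have hcomp : ∀ y : Fin v, ({y}ᶜ : Finset (Fin v)).card = v - 1 := by
    intro y
    rw [card_compl, card_singleton, Fintype.card_fin]
  let ρ : Finset (Fin w) × Finset (Fin v) → ℕ :=
    fun z => if z.2.card ≤ 1 then z.1.card else z.1.card + 1
  have h1 : ∀ z ∈ R w v k, 2 ≤ ρ z ∧ ρ z ≤ k := by
    intro z hz
    simp only [R, mem_filter, mem_univ, true_and] at hz
    rcases hz with ⟨x, hx, h2, h3⟩ | ⟨y, hy, h2, h3⟩
    · simp only [ρ, hx, card_singleton, le_refl, if_true]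
      omega
    · have : ¬ v - 1 ≤ 1 := by omega
      simp only [ρ, hy, hcomp, this, if_false]
      omega
  have h2 : ∀ z ∈ R w v k, ∀ z' ∈ R w v k, z < z' → ρ z < ρ z' := by
    rintro ⟨A, Z⟩ hz ⟨A', Z'⟩ hz' hlt
    obtain ⟨hle, hne⟩ := lt_iff_le_and_ne.1 hlt
    obtain ⟨hA, hZ⟩ := Prod.mk_le_mk.1 hle
    simp only [R, mem_filter, mem_univ, true_and] at hz hz'
    have hnc : ¬ v - 1 ≤ 1 := by omega
    rcases hz with ⟨x, hx, _, _⟩ | ⟨y, hy, _, _⟩ <;> rcases hz' with ⟨x', hx', _, _⟩ | ⟨y', hy', _, _⟩
    · subst hx hx'
      have : x = x' := by simpa using hZ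
      subst this
      have hA' : A ≠ A' := by
        rintro rfl
        exact hne rfl
      have := card_lt_card (lt_of_le_of_ne hA hA')
      simpa [ρ] using this
    · subst hx hy'
      have := card_le_card hA
      simp only [ρ, card_singleton, le_refl, if_true, hcomp, hnc, if_false]
      omega
    · subst hy hx'
      have := card_le_card hZ
      rw [hcomp, card_singleton] at this
      omega
    · subst hy hy'
      have : y = y' := by
        have h3 := compl_le_compl_iff_le.1 hZ
        have h4 : y' ∈ ({y} : Finset (Fin v)) := h3 (mem_singleton_self _)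
        exact (mem_singleton.1 h4).symm
      subst this
      have hA' : A ≠ A' := by
        rintro rfl
        exact hne rfl
      have := card_lt_card (lt_of_le_of_ne hA hA')
      simp only [ρ, hcomp, hnc, if_false]
      omega
  have h3 : ∀ a, a < k → a + 2 ≤ ρ (g a) := by
    intro a
    induction a with
    | zero =>
      intro ha
      have := (h1 _ (hR 0 ha)).1
      omega
    | succ a ih =>
      intro ha
      have := ih (by omega)
      have := h2 _ (hR a (by omega)) _ (hR (a + 1) ha) (hmono a (a + 1) (by omega) ha)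
      omega
  have h4 := h3 (k - 1) (by omega)
  have h5 := (h1 _ (hR (k - 1) (by omega))).2
  omega

lemma pre_mono {c d : ℕ} (h : c ≤ d) : pre v c ≤ pre v d := by
  intro a ha
  simp only [pre, mem_filter, mem_univ, true_and] at ha ⊢
  omega

/-- the base family contains no copy of the sum of chains -/
lemma free (hv : 3 ≤ v) (hk : 1 ≤ k) (i : Fin m → ℕ) (j0 : Fin m) (hj0 : i j0 = k) :
    ¬ HasCopy (Σ j : Fin m, Fin (i j))
      (R (m + k) v k ∪ Q v k ((univ.erase j0).filter (fun j => i j = k))) := by
  classical
  rintro ⟨f, hf⟩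
  set J : Finset (Fin m) := univ.filter (fun j => i j = k) with hJ
  set J' : Finset (Fin m) := (univ.erase j0).filter (fun j => i j = k) with hJ'
  have hcard : J'.card < J.card := by
    apply card_lt_card
    rw [ssubset_iff_of_subset]
    · exact ⟨j0, by simp [hJ, hj0], by simp [hJ']⟩
    · intro j hj
      simp only [hJ', hJ, mem_filter, mem_erase, mem_univ, true_and, and_true] at hj ⊢
      exact hj.2
  -- in each long chain there is an element of `Q`
  have h1 : ∀ j ∈ J, ∃ a : Fin (i j), f ⟨j, a⟩ ∈ Q v k J' := by
    intro j hj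
    have hij : i j = k := by simpa [hJ] using hj
    by_contra hcon
    push Not at hcon
    refine R_height (w := m + k) hv hk
      (fun a => if h : a < i j then f ⟨j, ⟨a, h⟩⟩ else f ⟨j, ⟨0, by omega⟩⟩) ?_ ?_
    · intro a b hab hb
      have ha' : a < i j := by omega
      have hb' : b < i j := by omega
      simp only [ha', hb', dif_pos]
      apply f.strictMono
      rw [Sigma.mk_lt_mk_iff]
      exact hab
    · intro a ha
      have ha' : a < i j := by omega
      simp only [ha', dif_pos]
      have := hf ⟨j, ⟨a, ha'⟩⟩
      rw [mem_union] at this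
      rcases this with h | h
      · exact h
      · exact absurd h (hcon _)
  -- the chain of `Q` to which it belongs
  have h2 : ∀ j ∈ J, ∃ l ∈ J', ∃ a : Fin (i j), (f ⟨j, a⟩).1 = {lab k l} ∧
      ∃ c ∈ range (v + 1), (f ⟨j, a⟩).2 = pre v c := by
    intro j hj
    obtain ⟨a, ha⟩ := h1 j hj
    simp only [Q, mem_filter, mem_univ, true_and] at ha
    obtain ⟨l, hl, h3, h4⟩ := ha
    exact ⟨l, hl, a, h3, h4⟩
  choose! l hl h3 using h2
  obtain ⟨j, hj, j', hj', hne, heq⟩ := exists_ne_map_eq_of_card_lt_of_maps_to hcard hl
  obtain ⟨a, ha, c, _, hc⟩ := h3 j hj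
  obtain ⟨a', ha', c', _, hc'⟩ := h3 j' hj'
  have h5 : f ⟨j, a⟩ ≤ f ⟨j', a'⟩ ∨ f ⟨j', a'⟩ ≤ f ⟨j, a⟩ := by
    rcases le_total c c' with h | h
    · left
      refine ⟨?_, ?_⟩
      · rw [ha, ha', heq]
      · rw [hc, hc']
        exact pre_mono h
    · right
      refine ⟨?_, ?_⟩
      · rw [ha, ha', heq]
      · rw [hc, hc']
        exact pre_mono h
  rw [f.le_iff_le, f.le_iff_le] at h5
  rcases h5 with h | h
  · have := Sigma.le_def.1 h
    obtain ⟨h6, _⟩ := this
    exact hne h6
  · have := Sigma.le_def.1 h
    obtain ⟨h6, _⟩ := this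
    exact hne h6.symm

lemma base_sub (i : Fin m → ℕ) (hk : 1 ≤ k) (j0 : Fin m) :
    R (m + k) v k ∪ Q v k ((univ.erase j0).filter (fun j => i j = k)) ⊆ univ ×ˢ Y v k := by
  intro z hz
  rw [mem_product]
  refine ⟨mem_univ _, ?_⟩
  simp only [Y, mem_filter, mem_univ, true_and]
  rw [mem_union] at hz
  rcases hz with hz | hz
  · simp only [R, mem_filter, mem_univ, true_and] at hz
    rcases hz with ⟨x, hx, _⟩ | ⟨y, hy, _⟩
    · right; left
      simp [hx]
    · right; right
      simp [hy]
  · simp only [Q, mem_filter, mem_univ, true_and] at hz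
    obtain ⟨_, _, _, c, _, hc⟩ := hz
    left
    rw [hc]
    intro x hx y hy
    simp only [pre, mem_filter, mem_univ, true_and, not_lt] at hx hy
    omega

/-- adding a non-exceptional set creates the sum of chains -/
lemma creates (hk : 1 ≤ k) (i : Fin m → ℕ) (hik : ∀ j, i j ≤ k) (j0 : Fin m) (T : Finset (Fin (m + k)))
    (X : Finset (Fin v)) (hX : X ∉ Y v k) :
    HasCopy (Σ j : Fin m, Fin (i j))
      (insert (T, X) (R (m + k) v k ∪ Q v k ((univ.erase j0).filter (fun j => i j = k)))) := by
  classical
  simp only [Y, mem_filter, mem_univ, true_and, not_or, not_le] at hX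
  obtain ⟨hX1, hX2, hX3⟩ := hX
  push Not at hX1
  obtain ⟨x, hx, y, hy, hxy⟩ := hX1
  have hm : 0 < m := lt_of_le_of_lt (Nat.zero_le _) j0.2
  have hvX : X.card + Xᶜ.card = v := by
    simp
  have hcomp : ∀ y : Fin v, ({y}ᶜ : Finset (Fin v)).card = v - 1 := by
    intro y
    rw [card_compl, card_singleton, Fintype.card_fin]
  have hyx : y ≠ x := by
    rintro rfl
    exact hy hx
  obtain ⟨e, he⟩ := exists_numbering (m + k) T
  -- initial segments and the auxiliary labels
  let C : ℕ → Finset (Fin (m + k)) := fun l => univ.filter (fun a => ((e a : Fin (m + k)) : ℕ) < l)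
  let B : Fin m → ℕ → Finset (Fin (m + k)) := fun j q => univ.filter
    (fun a => ((e a : Fin (m + k)) : ℕ) = m + k - 1 - j ∨
      (0 < ((e a : Fin (m + k)) : ℕ) ∧ ((e a : Fin (m + k)) : ℕ) < q))
  have memC : ∀ l a, a ∈ C l ↔ ((e a : Fin (m + k)) : ℕ) < l := by
    intro l a
    simp [C]
  have memB : ∀ j q a, a ∈ B j q ↔ ((e a : Fin (m + k)) : ℕ) = m + k - 1 - j ∨
      (0 < ((e a : Fin (m + k)) : ℕ) ∧ ((e a : Fin (m + k)) : ℕ) < q) := by
    intro j q a
    simp [B]
  have cardC : ∀ l, l ≤ m + k → (C l).card = l := by
    intro l hl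
    have : (C l).card = ((univ : Finset (Fin (m + k))).filter (fun a : Fin (m + k) => (a : ℕ) < l)).card := by
      apply card_bij (fun a _ => e a)
      · intro a ha
        simpa [C] using ha
      · intro a _ b _ h
        exact e.injective h
      · intro b hb
        exact ⟨e.symm b, by simpa [C] using hb, by simp⟩
    rw [this, Fin.card_filter_val_lt]
    omega
  have cardB : ∀ (j : Fin m) q, 1 ≤ q → q ≤ k → (B j q).card = q := by
    intro j q h1 h2
    have hj := j.2
    have : (B j q).card = (insert (⟨m + k - 1 - j, by omega⟩ : Fin (m + k))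
        (((univ : Finset (Fin (m + k))).filter (fun a : Fin (m + k) => (a : ℕ) < q)).erase
          ⟨0, by omega⟩)).card := by
      apply card_bij (fun a _ => e a)
      · intro a ha
        rw [memB] at ha
        simp only [mem_insert, mem_erase, mem_filter, mem_univ, true_and, ne_eq, Fin.ext_iff]
        omega
      · intro a _ b _ h
        exact e.injective h
      · intro b hb
        refine ⟨e.symm b, ?_, by simp⟩
        rw [memB]
        simp only [mem_insert, mem_erase, mem_filter, mem_univ, true_and, ne_eq, Fin.ext_iff] at hb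
        simp only [Equiv.apply_symm_apply]
        omega
    rw [this, card_insert_of_notMem, card_erase_of_mem, Fin.card_filter_val_lt]
    · omega
    · simp only [mem_filter, mem_univ, true_and]
      omega
    · simp only [mem_erase, mem_filter, mem_univ, true_and, not_and, not_lt]
      intro _
      omega
  have hTC : T = C T.card := by
    ext a
    rw [memC, he]
  have Cmono : ∀ a b, a ≤ b → C a ≤ C b := by
    intro a b hab z hz
    rw [memC] at hz ⊢
    omega
  have hTcard : T.card ≤ m + k := by simpa using card_le_univ T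
  set p : ℕ := min (T.card - 1) (k - 1) with hp
  let z1 : Fin (m + k) := e.symm ⟨0, by omega⟩
  have hz1 : ((e z1 : Fin (m + k)) : ℕ) = 0 := by simp [z1]
  let zz : Fin m → Fin (m + k) := fun j => e.symm ⟨m + k - 1 - j, by omega⟩
  have hzz : ∀ j : Fin m, ((e (zz j) : Fin (m + k)) : ℕ) = m + k - 1 - j := by
    intro j
    simp [zz]
  -- the three kinds of chains
  let K0 : ℕ → Finset (Fin (m + k)) × Finset (Fin v) := fun a =>
    if a < p then (C (a + 2), {x}) else if a = p then (T, X) else (C a, {y}ᶜ)
  let KK : Fin m → ℕ → Finset (Fin (m + k)) × Finset (Fin v) := fun j a =>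
    ({lab k j}, pre v (y + 1 + a))
  let LL : Fin m → ℕ → Finset (Fin (m + k)) × Finset (Fin v) := fun j a =>
    if T.card ≤ k then (B j (a + 2), {x}) else (B j (a + 1), {y}ᶜ)
  -- second coordinates
  have K0xy : ∀ a, x ∈ (K0 a).2 ∧ y ∉ (K0 a).2 := by
    intro a
    simp only [K0]
    split_ifs with h1 h2
    · simp [hyx]
    · exact ⟨hx, hy⟩
    · simp [hyx.symm]
  have LLxy : ∀ j a, x ∈ (LL j a).2 ∧ y ∉ (LL j a).2 := by
    intro j a
    simp only [LL]
    split_ifs with h1
    · simp [hyx]
    · simp [hyx.symm]
  have KKxy : ∀ j a, a < k → y ∈ (KK j a).2 ∧ x ∉ (KK j a).2 := by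
    intro j a ha
    simp only [KK, pre, mem_filter, mem_univ, true_and]
    omega
  have nXx : ¬ X ≤ {x} := by
    intro h
    have := card_le_card h
    rw [card_singleton] at this
    omega
  have nyX : ¬ {y}ᶜ ≤ X := by
    intro h
    have := card_le_card h
    rw [hcomp] at this
    omega
  have nyx : ¬ ({y}ᶜ : Finset (Fin v)) ≤ {x} := by
    intro h
    have := card_le_card h
    rw [hcomp, card_singleton] at this
    omega
  -- incomparability of K0 and LL
  have hK0L : ∀ j a b, a < k → b + 1 < k → ¬ K0 a ≤ LL j b ∧ ¬ LL j b ≤ K0 a := by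
    intro j a b ha hb
    have hj := j.2
    have hz1B : ∀ q, z1 ∉ B j q := by
      intro q
      rw [memB, hz1]
      omega
    have hzB : ∀ q, zz j ∈ B j q := by
      intro q
      rw [memB, hzz]
      omega
    by_cases hT : T.card ≤ k
    · have hL : LL j b = (B j (b + 2), {x}) := by simp only [LL, hT, if_true]
      rw [hL]
      simp only [K0]
      split_ifs with h1 h2
      · refine ⟨fun h => ?_, fun h => ?_⟩
        · refine hz1B (b + 2) ((Prod.mk_le_mk.1 h).1 ?_)
          rw [memC]; omega
        · have := (Prod.mk_le_mk.1 h).1 (hzB (b + 2))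
          rw [memC, hzz] at this
          omega
      · refine ⟨fun h => nXx (Prod.mk_le_mk.1 h).2, fun h => ?_⟩
        have := (Prod.mk_le_mk.1 h).1 (hzB (b + 2))
        rw [he, hzz] at this
        omega
      · refine ⟨fun h => nyx (Prod.mk_le_mk.1 h).2, fun h => ?_⟩
        have := (Prod.mk_le_mk.1 h).1 (hzB (b + 2))
        rw [memC, hzz] at this
        omega
    · have hL : LL j b = (B j (b + 1), {y}ᶜ) := by simp only [LL, hT, if_false]
      rw [hL]
      simp only [K0]
      split_ifs with h1 h2
      · refine ⟨fun h => ?_, fun h => nyx (Prod.mk_le_mk.1 h).2⟩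
        refine hz1B (b + 1) ((Prod.mk_le_mk.1 h).1 ?_)
        rw [memC]; omega
      · refine ⟨fun h => ?_, fun h => nyX (Prod.mk_le_mk.1 h).2⟩
        refine hz1B (b + 1) ((Prod.mk_le_mk.1 h).1 ?_)
        rw [he, hz1]; omega
      · omega
  -- the system of chains
  let g : (j : Fin m) → ℕ → Finset (Fin (m + k)) × Finset (Fin v) := fun j a =>
    if j = j0 then K0 a else if i j = k then KK j a else LL j a
  refine hasCopy_of_chains i _ g ?_ ?_ ?_
  · intro j a b hab hb
    have hb' : b < k := lt_of_lt_of_le hb (hik j)
    simp only [g]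
    split_ifs with h1 h2
    · -- K0
      have hsucc : ∀ a b, a < b → b ≤ m + k → C a ≠ C b := by
        intro a b hab hb h
        have := congrArg card h
        rw [cardC a (by omega), cardC b hb] at this
        omega
      have hne1 : ({x} : Finset (Fin v)) ≠ X := fun h => nXx h.ge
      have hne2 : X ≠ ({y}ᶜ : Finset (Fin v)) := fun h => nyX h.ge
      have hne3 : ({x} : Finset (Fin v)) ≠ {y}ᶜ := fun h => nyx h.ge
      have hxX : ({x} : Finset (Fin v)) ≤ X := by simpa using hx
      have hXy : X ≤ ({y}ᶜ : Finset (Fin v)) := by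
        intro z hz
        simp only [mem_compl, mem_singleton]
        rintro rfl
        exact hy hz
      have hxy' : ({x} : Finset (Fin v)) ≤ {y}ᶜ := hxX.trans hXy
      rw [lt_iff_le_and_ne]
      simp only [K0]
      by_cases ha1 : a < p
      · rw [if_pos ha1]
        by_cases hb1 : b < p
        · rw [if_pos hb1]
          refine ⟨Prod.mk_le_mk.2 ⟨Cmono _ _ (by omega), le_rfl⟩, fun h => ?_⟩
          exact hsucc (a + 2) (b + 2) (by omega) (by omega) (Prod.mk.inj h).1
        · rw [if_neg hb1]
          by_cases hb2 : b = p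
          · rw [if_pos hb2]
            refine ⟨Prod.mk_le_mk.2 ⟨?_, hxX⟩, fun h => hne1 (Prod.mk.inj h).2⟩
            rw [hTC]
            exact Cmono _ _ (by omega)
          · rw [if_neg hb2]
            exact ⟨Prod.mk_le_mk.2 ⟨Cmono _ _ (by omega), hxy'⟩, fun h => hne3 (Prod.mk.inj h).2⟩
      · rw [if_neg ha1]
        have hb1 : ¬ b < p := by omega
        rw [if_neg hb1]
        by_cases ha2 : a = p
        · rw [if_pos ha2]
          have hb2 : ¬ b = p := by omega
          rw [if_neg hb2]
          refine ⟨Prod.mk_le_mk.2 ⟨?_, hXy⟩, fun h => hne2 (Prod.mk.inj h).2⟩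
          rw [hTC]
          exact Cmono _ _ (by omega)
        · rw [if_neg ha2]
          have hb2 : ¬ b = p := by omega
          rw [if_neg hb2]
          refine ⟨Prod.mk_le_mk.2 ⟨Cmono _ _ (by omega), le_rfl⟩, fun h => ?_⟩
          exact hsucc a b hab (by omega) (Prod.mk.inj h).1
    · -- KK
      rw [lt_iff_le_and_ne]
      refine ⟨Prod.mk_le_mk.2 ⟨le_rfl, pre_mono (by omega)⟩, fun h => ?_⟩
      have h3 := (Prod.mk.inj h).2
      have h4 : (⟨y + 1 + a, by omega⟩ : Fin v) ∈ pre v (y + 1 + b) := by
        simp only [pre, mem_filter, mem_univ, true_and]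
        omega
      rw [← h3] at h4
      simp only [pre, mem_filter, mem_univ, true_and] at h4
      omega
    · -- LL
      have hb2 : b + 1 < k := by
        have := hik j
        omega
      rw [lt_iff_le_and_ne]
      simp only [LL]
      split_ifs with h3
      · refine ⟨Prod.mk_le_mk.2 ⟨?_, le_rfl⟩, fun h => ?_⟩
        · intro z hz
          rw [memB] at hz ⊢
          omega
        · have := congrArg card (Prod.mk.inj h).1
          rw [cardB j _ (by omega) (by omega), cardB j _ (by omega) (by omega)] at this
          omega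
      · refine ⟨Prod.mk_le_mk.2 ⟨?_, le_rfl⟩, fun h => ?_⟩
        · intro z hz
          rw [memB] at hz ⊢
          omega
        · have := congrArg card (Prod.mk.inj h).1
          rw [cardB j _ (by omega) (by omega), cardB j _ (by omega) (by omega)] at this
          omega
  · intro j j' a b hjj' ha hb
    have ha' : a < k := lt_of_lt_of_le ha (hik j)
    have hb' : b < k := lt_of_lt_of_le hb (hik j')
    simp only [g]
    by_cases h1 : j = j0
    · rw [if_pos h1]
      have h2 : ¬ j' = j0 := fun h => hjj' (h1.trans h.symm)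
      rw [if_neg h2]
      by_cases h3 : i j' = k
      · rw [if_pos h3]
        exact fun h => (KKxy j' b hb').2 (h.2 (K0xy a).1)
      · rw [if_neg h3]
        exact (hK0L j' a b ha' (by have := hik j'; omega)).1
    · rw [if_neg h1]
      by_cases h2 : j' = j0
      · rw [if_pos h2]
        by_cases h3 : i j = k
        · rw [if_pos h3]
          exact fun h => (K0xy b).2 (h.2 (KKxy j a ha').1)
        · rw [if_neg h3]
          exact (hK0L j b a hb' (by have := hik j; omega)).2
      · rw [if_neg h2]
        by_cases h3 : i j = k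
        · rw [if_pos h3]
          by_cases h4 : i j' = k
          · rw [if_pos h4]
            intro h
            have h5 := h.1
            simp only [KK] at h5
            have h6 := singleton_subset_singleton.1 h5
            apply hjj'
            have h7 := congrArg Fin.val h6
            simp only [lab] at h7
            exact Fin.ext h7
          · rw [if_neg h4]
            exact fun h => (LLxy j' b).2 (h.2 (KKxy j a ha').1)
        · rw [if_neg h3]
          by_cases h4 : i j' = k
          · rw [if_pos h4]
            exact fun h => (KKxy j' b hb').2 (h.2 (LLxy j a).1)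
          · rw [if_neg h4]
            have hj := j.2
            have hj2 := j'.2
            have hnv : (j : ℕ) ≠ j' := fun h => hjj' (Fin.ext h)
            have i1 := hik j
            have i2 := hik j'
            intro h
            have h5 := h.1
            simp only [LL] at h5
            split_ifs at h5 with h6
            · have h7 : zz j ∈ B j (a + 2) := by rw [memB, hzz]; omega
              have h8 := h5 h7
              rw [memB, hzz] at h8
              omega
            · have h7 : zz j ∈ B j (a + 1) := by rw [memB, hzz]; omega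
              have h8 := h5 h7
              rw [memB, hzz] at h8
              omega
  · intro j a ha
    have ha' : a < k := lt_of_lt_of_le ha (hik j)
    rw [mem_insert, mem_union]
    simp only [g]
    by_cases h1 : j = j0
    · rw [if_pos h1]
      simp only [K0]
      split_ifs with h2 h3
      · right; left
        simp only [R, mem_filter, mem_univ, true_and]
        left
        refine ⟨x, rfl, ?_, ?_⟩
        · rw [cardC _ (by omega)]; omega
        · rw [cardC _ (by omega)]; omega
      · left; rfl
      · right; left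
        simp only [R, mem_filter, mem_univ, true_and]
        right
        refine ⟨y, rfl, ?_, ?_⟩
        · rw [cardC _ (by omega)]; omega
        · rw [cardC _ (by omega)]; omega
    · rw [if_neg h1]
      by_cases h2 : i j = k
      · rw [if_pos h2]
        right; right
        simp only [Q, mem_filter, mem_univ, true_and]
        refine ⟨j, by simp [h1, h2], rfl, y + 1 + a, ?_, rfl⟩
        rw [mem_range]
        omega
      · rw [if_neg h2]
        have hb2 : a + 1 < k := by
          have := hik j
          omega
        right; left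
        simp only [R, mem_filter, mem_univ, true_and]
        simp only [LL]
        split_ifs with h3
        · left
          refine ⟨x, rfl, ?_, ?_⟩
          · rw [cardB j _ (by omega) (by omega)]; omega
          · rw [cardB j _ (by omega) (by omega)]; omega
        · right
          refine ⟨y, rfl, ?_, ?_⟩
          · rw [cardB j _ (by omega) (by omega)]; omega
          · rw [cardB j _ (by omega) (by omega)]; omega

end Pool.Agent.V11182.SatLinear
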